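import Pool.Agent.Helper764.Cop_hc

/-!
# The critical point as a supremum
-/

set_option autoImplicit false
set_option maxHeartbeats 4000000
open MeasureTheory ProbabilityTheory Filter Topology
open scoped ENNReal NNReal

namespace Pool.Agent.TH983
open Cop764

/-- critical point as a supremum -/
noncomputable def hcr (κ : PMF ℕ) (ν : Measure ℝ) [IsProbabilityMeasure ν] (lam : ℝ) : ℝ :=
  sSup {h : ℝ | 0 ≤ h ∧ 0 < freeEnergy κ ν lam h}

theorem hcr_char (D : Data) : 0 < hcr D.κ D.ν D.lam ∧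
    ∀ h, 0 ≤ h → (0 < D.f h ↔ h < hcr D.κ D.ν D.lam) := by
  obtain ⟨hc, hc0, hiff, _⟩ := M_hc.J_hc D
  have hset : {h : ℝ | 0 ≤ h ∧ 0 < freeEnergy D.κ D.ν D.lam h} = Set.Ico 0 hc := by
    ext h
    constructor
    · intro hh
      exact ⟨hh.1, (hiff h hh.1).1 hh.2⟩
    · intro hh
      exact ⟨hh.1, (hiff h hh.1).2 hh.2⟩
  have heq : hcr D.κ D.ν D.lam = hc := by
    unfold hcr
    rw [hset, csSup_Ico hc0]
  rw [heq]
  exact ⟨hc0, hiff⟩

end Pool.Agent.TH983
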