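import Pool.Agent.TH983.ScalB

/-!
# Tail exponent at least one
-/

set_option autoImplicit false
set_option maxHeartbeats 4000000
open MeasureTheory ProbabilityTheory Filter Topology
open scoped ENNReal NNReal

namespace Pool.Agent.TH983
open Cop764

theorem exp_third (x : ℝ) : |Real.exp x - 1 - x - x ^ 2 / 2| ≤ |x| ^ 3 * Real.exp |x| := by
  have h := Complex.norm_exp_sub_sum_le_norm_mul_exp (x : ℂ) 3
  rw [Complex.norm_real, Real.norm_eq_abs] at h
  refine le_trans (le_of_eq ?_) h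
  rw [← Real.norm_eq_abs, ← Complex.norm_real]
  congr 1
  push_cast
  simp only [Finset.sum_range_succ, Finset.sum_range_zero]
  norm_num [Nat.factorial]
  ring

/-- second order expansion of the moment generating function -/
theorem mgf_third (D : Data) : ∃ C : ℝ, 0 ≤ C ∧ ∀ s : ℝ, |s| ≤ 1 →
    |∫ x, Real.exp (s * x) ∂D.ν - 1 - s ^ 2 / 2| ≤ C * |s| ^ 3 := by
  have hi : Integrable (fun x : ℝ => |x| ^ 3 * Real.exp |x|) D.ν := by
    have h1 : Integrable (fun x : ℝ => 6 * (Real.exp (2 * x) + Real.exp (-2 * x))) D.ν :=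
      ((D.expm 2).add (D.expm (-2))).const_mul 6
    refine h1.mono' (by fun_prop) (Filter.Eventually.of_forall fun x => ?_)
    rw [Real.norm_eq_abs, abs_of_nonneg (by positivity)]
    have h2 : |x| ^ 3 ≤ 6 * Real.exp |x| := by
      have := Real.pow_div_factorial_le_exp (|x|) (abs_nonneg x) 3
      have e : ((Nat.factorial 3 : ℕ) : ℝ) = 6 := by norm_num [Nat.factorial]
      rw [e, div_le_iff₀ (by norm_num)] at this
      linarith
    have h4 : Real.exp |x| * Real.exp |x| ≤ Real.exp (2 * x) + Real.exp (-2 * x) := by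
      rw [← Real.exp_add]
      rcases le_total 0 x with hx | hx
      · rw [abs_of_nonneg hx, show x + x = 2 * x by ring]
        have := Real.exp_pos (-2 * x)
        linarith
      · rw [abs_of_nonpos hx, show -x + -x = -2 * x by ring]
        have := Real.exp_pos (2 * x)
        linarith
    have h5 := Real.exp_pos |x|
    calc |x| ^ 3 * Real.exp |x| ≤ (6 * Real.exp |x|) * Real.exp |x| :=
          mul_le_mul_of_nonneg_right h2 h5.le
      _ = 6 * (Real.exp |x| * Real.exp |x|) := by ring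
      _ ≤ _ := by linarith
  have hid : Integrable (fun x : ℝ => x) D.ν := (nu_memLp D).integrable one_le_two
  have hsq : Integrable (fun x : ℝ => x ^ 2) D.ν := (nu_memLp D).integrable_sq
  refine ⟨∫ x, |x| ^ 3 * Real.exp |x| ∂D.ν, integral_nonneg fun x => by positivity, fun s hs => ?_⟩
  have i1 : Integrable (fun x : ℝ => Real.exp (s * x) - 1) D.ν :=
    (D.expm s).sub (integrable_const 1)
  have i2 : Integrable (fun x : ℝ => Real.exp (s * x) - 1 - s * x) D.ν := i1.sub (hid.const_mul s)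
  have i3 : Integrable (fun x : ℝ => Real.exp (s * x) - 1 - s * x - s ^ 2 / 2 * x ^ 2) D.ν :=
    i2.sub (hsq.const_mul _)
  have e1 : ∫ x, (Real.exp (s * x) - 1 - s * x - s ^ 2 / 2 * x ^ 2) ∂D.ν =
      ∫ x, Real.exp (s * x) ∂D.ν - 1 - s ^ 2 / 2 := by
    rw [integral_sub i2 (hsq.const_mul _), integral_sub i1 (hid.const_mul s),
      integral_sub (D.expm s) (integrable_const 1), integral_const_mul, integral_const_mul,
      D.mean, D.var]
    simp
  rw [← e1]
  have h1 : |∫ x, (Real.exp (s * x) - 1 - s * x - s ^ 2 / 2 * x ^ 2) ∂D.ν| ≤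
      ∫ x, |s| ^ 3 * (|x| ^ 3 * Real.exp |x|) ∂D.ν := by
    refine (abs_integral_le_integral_abs).trans ?_
    refine integral_mono i3.abs (hi.const_mul _) fun x => ?_
    show |Real.exp (s * x) - 1 - s * x - s ^ 2 / 2 * x ^ 2| ≤ |s| ^ 3 * (|x| ^ 3 * Real.exp |x|)
    have h2 := exp_third (s * x)
    have e2 : Real.exp (s * x) - 1 - s * x - s ^ 2 / 2 * x ^ 2 =
        Real.exp (s * x) - 1 - s * x - (s * x) ^ 2 / 2 := by ring
    rw [e2]
    refine h2.trans ?_
    rw [abs_mul, mul_pow, mul_assoc]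
    apply mul_le_mul_of_nonneg_left _ (by positivity)
    apply mul_le_mul_of_nonneg_left _ (by positivity)
    apply Real.exp_le_exp.2
    have := abs_nonneg x
    nlinarith
  rw [integral_const_mul] at h1
  linarith

theorem small_nhds {c : ℝ} (hc : 0 < c) : ∀ᶠ lam in 𝓝[>] (0 : ℝ), lam ≤ c :=
  (eventually_le_nhds hc).filter_mono nhdsWithin_le_nhds

theorem id_lim : Tendsto (fun lam : ℝ => lam) (𝓝[>] 0) (𝓝 0) := tendsto_id.mono_left nhdsWithin_le_nhds

/-- the increment of one step -/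
noncomputable def zt (D : Data) (κ t lam : ℝ) : ℝ :=
  Real.exp (-2 * lam * t * (κ * lam)) * ∫ x, Real.exp ((-2 * lam * t) * x) ∂D.ν - 1

theorem zt_lim (D : Data) {κ : ℝ} (hκ : 0 ≤ κ) {t : ℝ} (ht : 0 ≤ t) :
    Tendsto (fun lam => zt D κ t lam / lam ^ 2) (𝓝[>] 0) (𝓝 (2 * t ^ 2 - 2 * κ * t)) := by
  obtain ⟨C, hC0, hC⟩ := mgf_third D
  -- error term
  set A : ℝ := 8 * C * t ^ 3 with hA
  have hA0 : 0 ≤ A := by positivity
  set E1 : ℝ → ℝ := fun lam => -(A * lam) - (2 * κ * t * lam) * (2 * t ^ 2 * lam) with hE1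
  set E2 : ℝ → ℝ := fun lam => A * lam + (2 * κ * t * lam) ^ 2 +
    (2 * κ * t * lam) ^ 2 * (2 * t ^ 2 * lam ^ 2 + A * lam ^ 3) + 0 with hE2
  have hE1l : Tendsto (fun lam => (2 * t ^ 2 - 2 * κ * t) + E1 lam) (𝓝[>] 0)
      (𝓝 (2 * t ^ 2 - 2 * κ * t)) := by
    have hc : Continuous (fun lam => (2 * t ^ 2 - 2 * κ * t) + E1 lam) := by
      simp only [hE1]; fun_prop
    have := (hc.tendsto 0).mono_left (nhdsWithin_le_nhds (s := Set.Ioi 0))
    simpa [hE1] using this
  have hE2l : Tendsto (fun lam => (2 * t ^ 2 - 2 * κ * t) + E2 lam) (𝓝[>] 0)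
      (𝓝 (2 * t ^ 2 - 2 * κ * t)) := by
    have hc : Continuous (fun lam => (2 * t ^ 2 - 2 * κ * t) + E2 lam) := by
      simp only [hE2]; fun_prop
    have := (hc.tendsto 0).mono_left (nhdsWithin_le_nhds (s := Set.Ioi 0))
    simpa [hE2] using this
  have hev1 : ∀ᶠ lam in 𝓝[>] (0 : ℝ), lam ≤ 1 / (2 * t + 1) := small_nhds (by positivity)
  have hev2 : ∀ᶠ lam in 𝓝[>] (0 : ℝ), lam ≤ 1 / (2 * κ * t + 1) := small_nhds (by positivity)
  have hev3 : ∀ᶠ lam in 𝓝[>] (0 : ℝ), lam ≤ 1 := small_nhds one_pos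
  have hbnd : ∀ᶠ lam in 𝓝[>] (0 : ℝ),
      (2 * t ^ 2 - 2 * κ * t) + E1 lam ≤ zt D κ t lam / lam ^ 2 ∧
      zt D κ t lam / lam ^ 2 ≤ (2 * t ^ 2 - 2 * κ * t) + E2 lam := by
    filter_upwards [self_mem_nhdsWithin, hev1, hev2, hev3] with lam hlam h1 h2 h3
    have hlam0 : (0 : ℝ) < lam := hlam
    rw [le_div_iff₀ (by positivity)] at h1 h2
    have hs : |-2 * lam * t| ≤ 1 := by
      rw [abs_mul, abs_mul, abs_of_pos hlam0, abs_of_nonneg ht, abs_neg, abs_two]
      nlinarith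
    have hM := abs_le.1 (hC _ hs)
    have hs3 : |-2 * lam * t| ^ 3 = 8 * t ^ 3 * lam ^ 3 := by
      rw [abs_mul, abs_mul, abs_of_pos hlam0, abs_of_nonneg ht, abs_neg, abs_two]
      ring
    rw [hs3] at hM
    set m := ∫ x, Real.exp ((-2 * lam * t) * x) ∂D.ν with hm
    have hm1 : 1 + 2 * t ^ 2 * lam ^ 2 - A * lam ^ 3 ≤ m := by
      have := hM.1
      rw [hA]; nlinarith
    have hm2 : m ≤ 1 + 2 * t ^ 2 * lam ^ 2 + A * lam ^ 3 := by
      have := hM.2
      rw [hA]; nlinarith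
    set x := 2 * κ * t * lam ^ 2 with hx
    have hx0 : 0 ≤ x := by positivity
    have hx1 : x ≤ 1 := by
      have : 2 * κ * t * lam ^ 2 ≤ (lam * (2 * κ * t + 1)) * 1 := by nlinarith [mul_nonneg hκ ht]
      rw [hx]; linarith
    have he1 : 1 - x ≤ Real.exp (-x) := Real.one_sub_le_exp_neg x
    have he2 : Real.exp (-x) ≤ 1 - x + x ^ 2 := by
      have h4 : 1 + x ≤ Real.exp x := by linarith [Real.add_one_le_exp x]
      have h5 : Real.exp (-x) * Real.exp x = 1 := by rw [← Real.exp_add]; simp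
      have h6 := Real.exp_pos (-x)
      have h7 : Real.exp (-x) * (1 + x) ≤ 1 :=
        (mul_le_mul_of_nonneg_left h4 h6.le).trans (le_of_eq h5)
      have h8 : (1 - x + x ^ 2) * (1 + x) = 1 + x ^ 3 := by ring
      have h9 : 0 ≤ x ^ 3 := by positivity
      by_contra hcon
      push Not at hcon
      have : (1 - x + x ^ 2) * (1 + x) < Real.exp (-x) * (1 + x) :=
        mul_lt_mul_of_pos_right hcon (by linarith)
      linarith
    have hz : zt D κ t lam = Real.exp (-x) * m - 1 := by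
      unfold zt
      rw [← hm, show -2 * lam * t * (κ * lam) = -x by rw [hx]; ring]
    have hm0 : 0 ≤ m := integral_nonneg fun y => (Real.exp_pos _).le
    rw [hz]
    have hl2 : (0 : ℝ) < lam ^ 2 := by positivity
    constructor
    · rw [le_div_iff₀ hl2]
      have h4 : (1 - x) * (1 + 2 * t ^ 2 * lam ^ 2 - A * lam ^ 3) ≤ Real.exp (-x) * m := by
        calc (1 - x) * (1 + 2 * t ^ 2 * lam ^ 2 - A * lam ^ 3) ≤ (1 - x) * m :=
              mul_le_mul_of_nonneg_left hm1 (by linarith)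
          _ ≤ _ := mul_le_mul_of_nonneg_right he1 hm0
      have h5 : 0 ≤ x * (A * lam ^ 3) := by positivity
      simp only [hE1]
      have h6 : lam ^ 2 * lam ≤ lam ^ 2 := by nlinarith
      have h7 : 2 * κ * t * lam * (2 * t ^ 2 * lam) * lam ^ 2 = x * (2 * t ^ 2 * lam ^ 2) := by
        rw [hx]; ring
      have h8 : A * lam * lam ^ 2 = A * lam ^ 3 := by ring
      have h9 : (2 * t ^ 2 - 2 * κ * t + (-(A * lam) - 2 * κ * t * lam * (2 * t ^ 2 * lam))) *
          lam ^ 2 = 2 * t ^ 2 * lam ^ 2 - x - A * lam ^ 3 - x * (2 * t ^ 2 * lam ^ 2) := by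
        rw [hx]; ring
      rw [h9]
      nlinarith
    · rw [div_le_iff₀ hl2]
      have h4 : Real.exp (-x) * m ≤ (1 - x + x ^ 2) * (1 + 2 * t ^ 2 * lam ^ 2 + A * lam ^ 3) := by
        calc Real.exp (-x) * m ≤ (1 - x + x ^ 2) * m := mul_le_mul_of_nonneg_right he2 hm0
          _ ≤ _ := mul_le_mul_of_nonneg_left hm2 (by nlinarith)
      simp only [hE2]
      have h5 : 0 ≤ x * (2 * t ^ 2 * lam ^ 2 + A * lam ^ 3) := by positivity
      have h9 : (2 * t ^ 2 - 2 * κ * t + (A * lam + (2 * κ * t * lam) ^ 2 +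
          (2 * κ * t * lam) ^ 2 * (2 * t ^ 2 * lam ^ 2 + A * lam ^ 3) + 0)) * lam ^ 2 =
          2 * t ^ 2 * lam ^ 2 - x + A * lam ^ 3 + x ^ 2 +
            x ^ 2 * (2 * t ^ 2 * lam ^ 2 + A * lam ^ 3) := by
        rw [hx]; ring
      rw [h9]
      nlinarith
  exact tendsto_of_tendsto_of_tendsto_of_le_of_le' hE1l hE2l
    (hbnd.mono fun _ h => h.1) (hbnd.mono fun _ h => h.2)

/-- bounds for the exponential moments of a stretch in terms of the one step increment -/
theorem mgf_zt (D : Data) {κ : ℝ} {t lam : ℝ} (hlam : 0 < lam) (hz : -1 ≤ zt D κ t lam) (n : ℕ) :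
    1 + n * zt D κ t lam ≤ ∫ ω, Real.exp (t * SW ((Dat D lam hlam).w (κ * lam) ω)
      (Finset.Ioc 0 n)) ∂D.P ∧
    ∫ ω, Real.exp (t * SW ((Dat D lam hlam).w (κ * lam) ω) (Finset.Ioc 0 n)) ∂D.P ≤
      Real.exp (n * zt D κ t lam) := by
  have h1 := (mgf_SW (Dat D lam hlam) (κ * lam) t (Finset.Ioc 0 n)).2
  rw [Nat.card_Ioc, Nat.sub_zero] at h1
  have h2 : ∫ ω, Real.exp (t * SW ((Dat D lam hlam).w (κ * lam) ω) (Finset.Ioc 0 n)) ∂D.P =
      (1 + zt D κ t lam) ^ n := by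
    unfold zt
    rw [add_sub_cancel]
    exact h1
  rw [h2]
  constructor
  · exact one_add_mul_le_pow (by linarith) n
  · rw [Real.exp_nat_mul]
    apply pow_le_pow_left₀ (by linarith)
    linarith [Real.add_one_le_exp (zt D κ t lam)]

/-- lower bound for the power of the excursion weight by exponentials -/
theorem phi_pow_ge {θ : ℝ} (hθ0 : 0 < θ) (hθ1 : θ ≤ 1 / 2) (s : ℝ) :
    1 + (Real.exp (2 * θ * s) - 1) / 4 - (Real.exp (2 * θ * s) - 1) ^ 2 / 20 ≤ ph s ^ θ := by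
  have hp := ph_pos s
  -- power mean
  have h1 : (1 + Real.exp (2 * θ * s)) / 2 ≤ ph s ^ (2 * θ) := by
    have hc := (Real.concaveOn_rpow (show 0 ≤ 2 * θ by linarith) (show 2 * θ ≤ 1 by linarith)).2
      (Set.mem_Ici.2 (zero_le_one' ℝ)) (Set.mem_Ici.2 (Real.exp_pos s).le)
      (show (0 : ℝ) ≤ 1 / 2 by norm_num) (show (0 : ℝ) ≤ 1 / 2 by norm_num) (by norm_num)
    simp only [smul_eq_mul, Real.one_rpow] at hc
    rw [← Real.exp_mul] at hc
    unfold ph
    have e1 : (1 + Real.exp s) / 2 = 1 / 2 * 1 + 1 / 2 * Real.exp s := by ring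
    rw [e1, mul_comm (2 * θ) s]
    linarith
  set v := Real.exp (2 * θ * s) with hv
  have hv0 : 0 < v := Real.exp_pos _
  have h2 : ph s ^ (2 * θ) = (ph s ^ θ) ^ 2 := by
    rw [← Real.rpow_natCast, ← Real.rpow_mul hp.le]
    congr 1
    push_cast; ring
  rw [h2] at h1
  have hq : 0 < ph s ^ θ := Real.rpow_pos_of_pos hp _
  set q := ph s ^ θ with hqd
  -- elementary inequality
  by_contra hcon
  push Not at hcon
  set X := 1 + (v - 1) / 4 - (v - 1) ^ 2 / 20 with hX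
  have hX0 : 0 < X := hq.trans hcon
  have h3 : q ^ 2 < X ^ 2 := by nlinarith
  have h4 : (1 + v) / 2 < X ^ 2 := lt_of_le_of_lt h1 h3
  -- with r = v - 1 > -1 and X > 0
  set r := v - 1 with hr
  have hr1 : -1 < r := by linarith
  have hvr : (1 + v) / 2 = 1 + r / 2 := by rw [hr]; ring
  rw [hvr, hX] at h4
  have hr2 : r < 8 := by
    by_contra hc
    push Not at hc
    rw [hX] at hX0
    nlinarith
  -- X^2 - 1 - r/2 = r^2 (1/16 - 1/10) - r^3/40 + r^4/400
  have h5 : (1 + r / 4 - r ^ 2 / 20) ^ 2 - (1 + r / 2) =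
      r ^ 2 * (-3 / 80 - r / 40 + r ^ 2 / 400) := by ring
  have h6 : -3 / 80 - r / 40 + r ^ 2 / 400 ≤ 0 := by nlinarith
  have h7 : r ^ 2 * (-3 / 80 - r / 40 + r ^ 2 / 400) ≤ 0 :=
    mul_nonpos_of_nonneg_of_nonpos (sq_nonneg _) h6
  linarith

end Pool.Agent.TH983
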