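import Pool.Agent.TH983.Big

/-!
# Localization above the Monthus point for tail exponents at least one
-/

set_option autoImplicit false
set_option maxHeartbeats 4000000
open MeasureTheory ProbabilityTheory Filter Topology
open scoped ENNReal NNReal

namespace Pool.Agent.TH983
open Cop764

theorem big_mean (D : Data) {c0 : ℝ} {n0 : ℕ} (hK : KHyp D.K D.α c0 n0) (hα1 : 1 ≤ D.α) :
    ∃ c : ℝ, 0 < c ∧ ∀ᶠ lam in 𝓝[>] (0 : ℝ), ∀ hlam : 0 < lam, ∀ n : ℕ,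
      lam ^ 2 * (n : ℝ) ≤ 1 / 200 →
      1 + c * (lam ^ 2 * n) ≤ aN (Dat D lam hlam) ((11 / 10 * (1 + D.α)⁻¹) * lam) (1 + D.α) n := by
  have hβ : 1 < 1 + D.α := by linarith
  obtain ⟨θ, hθ⟩ : ∃ θ : ℝ, θ = (1 + D.α)⁻¹ := ⟨_, rfl⟩
  have hθ0 : 0 < θ := by rw [hθ]; positivity
  have hθ1 : θ ≤ 1 / 2 := by
    rw [hθ, inv_le_comm₀ (by linarith) (by norm_num)]
    norm_num
    linarith
  obtain ⟨κ, hκ⟩ : ∃ κ : ℝ, κ = 11 / 10 * θ := ⟨_, rfl⟩
  rw [← hθ, ← hκ]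
  have hκ0 : 0 ≤ κ := by rw [hκ]; positivity
  have l2 := zt_lim D hκ0 (show 0 ≤ 2 * θ by positivity)
  have l4 := zt_lim D hκ0 (show 0 ≤ 4 * θ by positivity)
  have e2 : 2 * (2 * θ) ^ 2 - 2 * κ * (2 * θ) = 18 / 5 * θ ^ 2 := by rw [hκ]; ring
  have e4 : 2 * (4 * θ) ^ 2 - 2 * κ * (4 * θ) = 116 / 5 * θ ^ 2 := by rw [hκ]; ring
  rw [e2] at l2
  rw [e4] at l4
  have hθ2 : 0 < θ ^ 2 := by positivity
  have ev2 := l2.eventually (lt_mem_nhds (show 71 / 20 * θ ^ 2 < 18 / 5 * θ ^ 2 by nlinarith))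
  have ev4 := l4.eventually (gt_mem_nhds (show 116 / 5 * θ ^ 2 < 233 / 10 * θ ^ 2 by nlinarith))
  have ev4' := l4.eventually (lt_mem_nhds (show 0 < 116 / 5 * θ ^ 2 by positivity))
  refine ⟨1 / 25 * θ ^ 2, by positivity, ?_⟩
  filter_upwards [ev2, ev4, ev4'] with lam h2 h4 h4' hlam n hn
  have hl2 : (0 : ℝ) < lam ^ 2 := by positivity
  obtain ⟨y, hy⟩ : ∃ y : ℝ, y = lam ^ 2 * (n : ℝ) := ⟨_, rfl⟩
  have hy0 : 0 ≤ y := by rw [hy]; positivity
  rw [← hy] at hn ⊢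
  set z2 := zt D κ (2 * θ) lam with hz2
  set z4 := zt D κ (4 * θ) lam with hz4
  rw [lt_div_iff₀ hl2] at h2 h4'
  rw [div_lt_iff₀ hl2] at h4
  rw [zero_mul] at h4'
  have h20 : 0 ≤ z2 := by
    have : 0 ≤ 71 / 20 * θ ^ 2 * lam ^ 2 := by positivity
    linarith
  have g2 := (mgf_zt D (κ := κ) (t := 2 * θ) hlam (by rw [← hz2]; linarith) n).1
  have g4 := (mgf_zt D (κ := κ) (t := 4 * θ) hlam (by rw [← hz4]; linarith) n).2
  rw [← hz2] at g2
  rw [← hz4] at g4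
  set D' := Dat D lam hlam with hD'
  set m2 := ∫ ω, Real.exp (2 * θ * SW (D'.w (κ * lam) ω) (Finset.Ioc 0 n)) ∂D.P with hm2
  set m4 := ∫ ω, Real.exp (4 * θ * SW (D'.w (κ * lam) ω) (Finset.Ioc 0 n)) ∂D.P with hm4
  have hn0 : (0 : ℝ) ≤ n := Nat.cast_nonneg n
  -- bounds on `m2` and `m4`
  have b2 : 71 / 20 * θ ^ 2 * y ≤ n * z2 := by
    have := mul_le_mul_of_nonneg_left h2.le hn0
    rw [hy]; linarith
  have b4 : n * z4 ≤ 233 / 10 * θ ^ 2 * y := by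
    have := mul_le_mul_of_nonneg_left h4.le hn0
    rw [hy]; linarith
  have b40 : 0 ≤ n * z4 := mul_nonneg hn0 h4'.le
  have hθq : θ ^ 2 ≤ 1 / 4 := by nlinarith
  have b4e : Real.exp (n * z4) ≤ 1 + n * z4 + (n * z4) ^ 2 * Real.exp (n * z4) := by
    have := exp_taylor (n * z4)
    rwa [abs_of_nonneg b40] at this
  have hsmall : n * z4 ≤ 1 / 25 := by
    have h1 : 233 / 10 * θ ^ 2 * y ≤ 233 / 10 * (1 / 4) * (1 / 200) := by
      apply mul_le_mul _ hn hy0 (by norm_num)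
      linarith
    linarith
  have hexp : Real.exp (n * z4) ≤ 11 / 10 := by
    have h1 : Real.exp (n * z4) ≤ Real.exp (1 / 25) := Real.exp_le_exp.2 hsmall
    have h3 : Real.exp (-(1 / 25 : ℝ)) ≥ 1 - 1 / 25 := Real.one_sub_le_exp_neg (1 / 25)
    have h4 : Real.exp (-(1 / 25 : ℝ)) * Real.exp (1 / 25) = 1 := by rw [← Real.exp_add]; simp
    have h5 := Real.exp_pos (1 / 25 : ℝ)
    nlinarith
  have b4s : (n * z4) ^ 2 ≤ θ ^ 2 * y * (7 / 10) := by
    -- (233/10)^2 θ^4 y^2 = θ^2 y * (542.89 θ^2 y) ≤ θ^2 y * 0.6787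
    have h1 : (n * z4) ^ 2 ≤ (233 / 10 * θ ^ 2 * y) ^ 2 := pow_le_pow_left₀ b40 b4 2
    have h2 : (233 / 10 * θ ^ 2 * y) ^ 2 = θ ^ 2 * y * ((233 / 10) ^ 2 * (θ ^ 2 * y)) := by ring
    have h3 : θ ^ 2 * y ≤ 1 / 4 * (1 / 200) := mul_le_mul hθq hn hy0 (by norm_num)
    rw [h2] at h1
    refine h1.trans (mul_le_mul_of_nonneg_left ?_ (by positivity))
    nlinarith
  have hm4b : m4 ≤ 1 + 233 / 10 * θ ^ 2 * y + θ ^ 2 * y * (77 / 100) := by
    have h1 : (n * z4) ^ 2 * Real.exp (n * z4) ≤ θ ^ 2 * y * (7 / 10) * (11 / 10) :=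
      mul_le_mul b4s hexp (Real.exp_pos _).le (by positivity)
    linarith
  have hm2b : 1 + 71 / 20 * θ ^ 2 * y ≤ m2 := by linarith
  -- the mean of the power
  have hi2 : Integrable (fun ω => Real.exp (2 * θ * SW (D'.w (κ * lam) ω) (Finset.Ioc 0 n))) D.P :=
    (mgf_SW D' (κ * lam) (2 * θ) (Finset.Ioc 0 n)).1
  have hi4 : Integrable (fun ω => Real.exp (4 * θ * SW (D'.w (κ * lam) ω) (Finset.Ioc 0 n))) D.P :=
    (mgf_SW D' (κ * lam) (4 * θ) (Finset.Ioc 0 n)).1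
  have hphi := adm_phi (D := D') (h := κ * lam) (β := 1 + D.α) hK (by positivity) hβ.le
    (Nat.zero_le n)
  have hθinv : (1 + D.α)⁻¹ = θ := hθ.symm
  have hphii := hphi.int
  rw [hθinv] at hphii
  have hmean : 1 + (7 / 20) * (m2 - 1) - (1 / 20) * (m4 - 1) ≤
      ∫ ω, phi (D'.w (κ * lam) ω) 0 n ^ θ ∂D.P := by
    have hlow : ∫ ω, (1 + (7 / 20) * (Real.exp (2 * θ * SW (D'.w (κ * lam) ω) (Finset.Ioc 0 n)) - 1) -
        (1 / 20) * (Real.exp (4 * θ * SW (D'.w (κ * lam) ω) (Finset.Ioc 0 n)) - 1)) ∂D.P ≤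
        ∫ ω, phi (D'.w (κ * lam) ω) 0 n ^ θ ∂D.P := by
      refine integral_mono (((integrable_const 1).add ((hi2.sub (integrable_const 1)).const_mul
        (7 / 20))).sub ((hi4.sub (integrable_const 1)).const_mul (1 / 20))) hphii fun ω => ?_
      show 1 + (7 / 20) * (Real.exp (2 * θ * SW (D'.w (κ * lam) ω) (Finset.Ioc 0 n)) - 1) -
        (1 / 20) * (Real.exp (4 * θ * SW (D'.w (κ * lam) ω) (Finset.Ioc 0 n)) - 1) ≤
        phi (D'.w (κ * lam) ω) 0 n ^ θ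
      have h1 := phi_pow_ge hθ0 hθ1 (SW (D'.w (κ * lam) ω) (Finset.Ioc 0 n))
      have h3 : phi (D'.w (κ * lam) ω) 0 n = ph (SW (D'.w (κ * lam) ω) (Finset.Ioc 0 n)) := rfl
      rw [h3]
      refine le_trans (le_of_eq ?_) h1
      have h5 : Real.exp (4 * θ * SW (D'.w (κ * lam) ω) (Finset.Ioc 0 n)) =
          Real.exp (2 * θ * SW (D'.w (κ * lam) ω) (Finset.Ioc 0 n)) ^ 2 := by
        rw [← Real.exp_nat_mul]; congr 1; push_cast; ring
      rw [h5]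
      ring
    refine le_trans (le_of_eq ?_) hlow
    have j2 : Integrable (fun ω => (7 / 20) * (Real.exp (2 * θ *
        SW (D'.w (κ * lam) ω) (Finset.Ioc 0 n)) - 1)) D.P :=
      (hi2.sub (integrable_const 1)).const_mul (7 / 20)
    have j4 : Integrable (fun ω => (1 / 20) * (Real.exp (4 * θ *
        SW (D'.w (κ * lam) ω) (Finset.Ioc 0 n)) - 1)) D.P :=
      (hi4.sub (integrable_const 1)).const_mul (1 / 20)
    have j1 : Integrable (fun ω => 1 + (7 / 20) * (Real.exp (2 * θ *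
        SW (D'.w (κ * lam) ω) (Finset.Ioc 0 n)) - 1)) D.P := (integrable_const 1).add j2
    rw [integral_sub j1 j4, integral_add (integrable_const 1) j2, integral_const_mul,
      integral_const_mul, integral_sub hi2 (integrable_const 1),
      integral_sub hi4 (integrable_const 1)]
    simp only [integral_const, probReal_univ, smul_eq_mul, one_mul]
    rw [hm2, hm4]
  have hfin : 1 + 1 / 25 * θ ^ 2 * y ≤ ∫ ω, phi (D'.w (κ * lam) ω) 0 n ^ θ ∂D.P := by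
    refine le_trans ?_ hmean
    nlinarith [mul_nonneg hθ2.le hy0]
  have haN : aN D' (κ * lam) (1 + D.α) n =
      (∫ ω, phi (D'.w (κ * lam) ω) 0 n ^ θ ∂D.P) ^ (1 + D.α) := by
    unfold aN nm
    rw [hθinv]
    rfl
  rw [haN]
  have hb0 : 0 ≤ 1 / 25 * θ ^ 2 * y := by positivity
  calc 1 + 1 / 25 * θ ^ 2 * y = (1 + 1 / 25 * θ ^ 2 * y) ^ (1 : ℝ) := (Real.rpow_one _).symm
    _ ≤ (1 + 1 / 25 * θ ^ 2 * y) ^ (1 + D.α) :=
        Real.rpow_le_rpow_of_exponent_le (by linarith) (by linarith)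
    _ ≤ _ := Real.rpow_le_rpow (by linarith) hfin (by linarith)

/-- growth of the truncated mean -/
theorem trunc_mean (D : Data) {c0 : ℝ} {n0 : ℕ} (hK : KHyp D.K D.α c0 n0) (hα1 : 1 ≤ D.α) :
    Tendsto (fun T : ℕ => (T : ℝ) ^ (D.α - 1) * ∑ n ∈ Finset.Ioc 0 T, (n : ℝ) * D.K n)
      atTop atTop := by
  have hc0 := hK.c0_pos
  have hn0 := hK.n0_pos
  have hharm : Tendsto (fun T : ℕ => ∑ n ∈ Finset.Ioc 0 T, (n : ℝ)⁻¹) atTop atTop := by
    have h1 := Real.tendsto_sum_range_one_div_nat_succ_atTop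
    refine h1.congr fun T => ?_
    rw [Finset.range_eq_Ico, show Finset.Ioc 0 T = Finset.Ico (0 + 1) (T + 1) by
      ext k; simp only [Finset.mem_Ioc, Finset.mem_Ico]; omega,
      ← Finset.sum_Ico_add' (fun k : ℕ => (k : ℝ)⁻¹) 0 T 1]
    refine Finset.sum_congr rfl fun k _ => ?_
    push_cast
    rw [one_div]
  have hlow : ∀ T : ℕ, c0 * (∑ n ∈ Finset.Ioc 0 T, (n : ℝ)⁻¹ - ∑ n ∈ Finset.Ioc 0 n0, (n : ℝ)⁻¹) ≤
      (T : ℝ) ^ (D.α - 1) * ∑ n ∈ Finset.Ioc 0 T, (n : ℝ) * D.K n := by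
    intro T
    have hnn : 0 ≤ (T : ℝ) ^ (D.α - 1) * ∑ n ∈ Finset.Ioc 0 T, (n : ℝ) * D.K n :=
      mul_nonneg (Real.rpow_nonneg (Nat.cast_nonneg _) _)
        (Finset.sum_nonneg fun n _ => mul_nonneg (Nat.cast_nonneg _) (hK.nonneg n))
    rcases Nat.lt_or_ge T n0 with hT | hT
    · refine le_trans ?_ hnn
      apply mul_nonpos_of_nonneg_of_nonpos hc0.le
      have : ∑ n ∈ Finset.Ioc 0 T, (n : ℝ)⁻¹ ≤ ∑ n ∈ Finset.Ioc 0 n0, (n : ℝ)⁻¹ :=
        Finset.sum_le_sum_of_subset_of_nonneg (Finset.Ioc_subset_Ioc_right (by omega))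
          fun n _ _ => by positivity
      linarith
    · have hsplit : ∑ n ∈ Finset.Ioc 0 T, (n : ℝ)⁻¹ = ∑ n ∈ Finset.Ioc 0 n0, (n : ℝ)⁻¹ +
          ∑ n ∈ Finset.Ioc n0 T, (n : ℝ)⁻¹ := by
        rw [← Finset.Ioc_union_Ioc_eq_Ioc (Nat.zero_le n0) hT,
          Finset.sum_union (Finset.Ioc_disjoint_Ioc_of_le le_rfl)]
      rw [hsplit, add_sub_cancel_left]
      have hTr : (0 : ℝ) < T := by exact_mod_cast (show 0 < T by omega)
      have h1 : c0 * ∑ n ∈ Finset.Ioc n0 T, (n : ℝ)⁻¹ ≤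
          (T : ℝ) ^ (D.α - 1) * ∑ n ∈ Finset.Ioc n0 T, (n : ℝ) * D.K n := by
        rw [Finset.mul_sum, Finset.mul_sum]
        refine Finset.sum_le_sum fun n hn => ?_
        rw [Finset.mem_Ioc] at hn
        have hnr : (0 : ℝ) < n := by exact_mod_cast (show 0 < n by omega)
        have h2 := hK.lower n (by omega)
        have h3 : (n : ℝ) ^ (D.α - 1) ≤ (T : ℝ) ^ (D.α - 1) :=
          Real.rpow_le_rpow hnr.le (Nat.cast_le.2 hn.2) (by linarith)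
        have h4 : c0 * (n : ℝ)⁻¹ = (n : ℝ) ^ (D.α - 1) * (n * (c0 * (n : ℝ) ^ (-(1 + D.α)))) := by
          have h5 : (n : ℝ) ^ (D.α - 1) * (n * (n : ℝ) ^ (-(1 + D.α))) = (n : ℝ)⁻¹ := by
            rw [mul_comm (n : ℝ), ← Real.rpow_add_one hnr.ne', ← Real.rpow_add hnr,
              ← Real.rpow_neg_one]
            congr 1; ring
          rw [← h5]; ring
        rw [h4]
        apply mul_le_mul h3 _ _ (Real.rpow_nonneg hTr.le _)
        · exact mul_le_mul_of_nonneg_left h2 hnr.le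
        · have : 0 < (n : ℝ) ^ (-(1 + D.α)) := Real.rpow_pos_of_pos hnr _
          positivity
      refine h1.trans ?_
      apply mul_le_mul_of_nonneg_left _ (Real.rpow_nonneg hTr.le _)
      exact Finset.sum_le_sum_of_subset_of_nonneg (Finset.Ioc_subset_Ioc_left (Nat.zero_le _))
        fun n _ _ => mul_nonneg (Nat.cast_nonneg _) (hK.nonneg n)
  refine tendsto_atTop_mono hlow ?_
  exact (tendsto_atTop_add_const_right _ _ hharm).const_mul_atTop hc0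

/-- localization strictly above the Monthus point when the tail exponent is at least one -/
theorem big_loc (D : Data) (hα1 : 1 ≤ D.α) : ∀ᶠ lam in 𝓝[>] (0 : ℝ), ∀ hlam : 0 < lam,
    0 < (Dat D lam hlam).f ((11 / 10 * (1 + D.α)⁻¹) * lam) := by
  obtain ⟨c0, n0, hK⟩ := M_K.J_K D
  have hα := D.hα
  have hβ : 1 < 1 + D.α := by linarith
  obtain ⟨c, hc, hmean⟩ := big_mean D hK hα1
  obtain ⟨CK, hCK0, hCK, hCT, _, _⟩ := K_facts D
  have hgrow := trunc_mean D hK hα1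
  have hTl : Tendsto (fun lam : ℝ => Lb lam / 200) (𝓝[>] 0) atTop := by
    rw [tendsto_atTop]
    intro b
    filter_upwards [Lb_large (200 * b)] with lam h
    exact (Nat.le_div_iff_mul_le (by norm_num)).2 (by omega)
  have hev := (hgrow.comp hTl).eventually (eventually_gt_atTop (800 * CK / c))
  filter_upwards [hmean, hev, Lb_large 400] with lam h1 h2 h3 hlam
  have hm := h1 hlam
  have hlam1 : lam ^ 2 * (Lb lam : ℝ) ≤ 1 := Lb_le hlam
  have hlam2 : (lam ^ 2)⁻¹ < (Lb lam : ℝ) + 1 := Nat.lt_floor_add_one _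
  obtain ⟨L, hLd⟩ : ∃ L : ℕ, L = Lb lam := ⟨_, rfl⟩
  simp only [Function.comp] at h2
  rw [← hLd] at h2 h3 hlam1 hlam2
  obtain ⟨T, hTd⟩ : ∃ T : ℕ, T = L / 200 := ⟨_, rfl⟩
  rw [← hTd] at h2
  have hT1 : 2 ≤ T := by omega
  have hT200 : 200 * T ≤ L := by omega
  have hTL : L + 1 ≤ 400 * T := by omega
  have hTr : (0 : ℝ) < T := by exact_mod_cast (show 0 < T by omega)
  have hlT : lam ^ 2 * (T : ℝ) ≤ 1 / 200 := by
    have : (200 : ℝ) * T ≤ L := by exact_mod_cast hT200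
    have h4 : lam ^ 2 * (200 * T) ≤ lam ^ 2 * L := mul_le_mul_of_nonneg_left this (sq_nonneg _)
    linarith
  have hl2 : (0 : ℝ) < lam ^ 2 := by positivity
  have hlow : 1 / (400 * (T : ℝ)) ≤ lam ^ 2 := by
    have h4 : (L : ℝ) + 1 ≤ 400 * T := by exact_mod_cast hTL
    have h5 : (lam ^ 2)⁻¹ ≤ 400 * T := by linarith
    rw [one_div]
    rw [inv_le_comm₀ hl2 (by positivity)] at h5
    exact h5
  obtain ⟨κ, hκ⟩ : ∃ κ : ℝ, κ = 11 / 10 * (1 + D.α)⁻¹ := ⟨_, rfl⟩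
  rw [← hκ] at hm ⊢
  have hκ0 : 0 ≤ κ := by rw [hκ]; positivity
  set B := ∑ n ∈ Finset.Ioc 0 T, (n : ℝ) * D.K n with hB
  have hB0 : 0 ≤ B := Finset.sum_nonneg fun n _ => mul_nonneg (Nat.cast_nonneg _) (hK.nonneg n)
  have hsum : 1 < ∑ n ∈ Finset.Ioc 0 T, D.K n * aN (Dat D lam hlam) (κ * lam) (1 + D.α) n := by
    have h4 : ∑ n ∈ Finset.Ioc 0 T, (D.K n + c * lam ^ 2 * (n * D.K n)) ≤
        ∑ n ∈ Finset.Ioc 0 T, D.K n * aN (Dat D lam hlam) (κ * lam) (1 + D.α) n := by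
      refine Finset.sum_le_sum fun n hn => ?_
      rw [Finset.mem_Ioc] at hn
      have h5 : lam ^ 2 * (n : ℝ) ≤ 1 / 200 := by
        have : lam ^ 2 * (n : ℝ) ≤ lam ^ 2 * T :=
          mul_le_mul_of_nonneg_left (Nat.cast_le.2 hn.2) (sq_nonneg _)
        linarith
      have h6 := mul_le_mul_of_nonneg_left (hm n h5) (hK.nonneg n)
      linarith
    rw [Finset.sum_add_distrib, ← Finset.mul_sum, ← hB] at h4
    have h7 := hCT T (by omega)
    have h8 : CK * (T : ℝ) ^ (-D.α) < c * lam ^ 2 * B := by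
      have g1 : 800 * CK / c < (T : ℝ) ^ (D.α - 1) * B := h2
      rw [div_lt_iff₀ hc] at g1
      have g2 : (T : ℝ) ^ (-D.α) = (T : ℝ)⁻¹ * ((T : ℝ) ^ (D.α - 1))⁻¹ := by
        rw [← Real.rpow_neg hTr.le, ← Real.rpow_neg_one, ← Real.rpow_add hTr]
        congr 1; ring
      have g3 : 0 < (T : ℝ) ^ (D.α - 1) := Real.rpow_pos_of_pos hTr _
      rw [g2]
      have g4 : CK * ((T : ℝ)⁻¹ * ((T : ℝ) ^ (D.α - 1))⁻¹) < c * B * (1 / (400 * (T : ℝ))) := by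
        rw [show CK * ((T : ℝ)⁻¹ * ((T : ℝ) ^ (D.α - 1))⁻¹) =
          CK / ((T : ℝ) ^ (D.α - 1)) * (T : ℝ)⁻¹ by rw [div_eq_mul_inv]; ring,
          show c * B * (1 / (400 * (T : ℝ))) = (c * B / 400) * (T : ℝ)⁻¹ by
            field_simp]
        apply mul_lt_mul_of_pos_right _ (by positivity)
        rw [div_lt_iff₀ g3]
        nlinarith
      have g5 : c * B * (1 / (400 * (T : ℝ))) ≤ c * B * lam ^ 2 :=
        mul_le_mul_of_nonneg_left hlow (by positivity)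
      linarith
    linarith
  have hsN : ∀ n, D.K n * aN (Dat D lam hlam) (κ * lam) (1 + D.α) n ≤
      sN (Dat D lam hlam) (κ * lam) (1 + D.α) 0 n := by
    intro n
    have h5 := sN_ge_vS (D := Dat D lam hlam) (h := κ * lam) (β := 1 + D.α) hK (by positivity) hβ
      0 n
    refine le_trans ?_ h5
    rcases Nat.eq_zero_or_pos n with hn | hn
    · subst hn
      have : D.K 0 = 0 := by simp [Data.K, D.κ0]
      rw [this, zero_mul]
      unfold vS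
      simp
    · unfold vS
      have h6 : ∀ a ∈ Finset.Ico 0 n, 0 ≤ uS (Dat D lam hlam) (κ * lam) (1 + D.α) 0 a *
          (KLg (Dat D lam hlam).K 0 (n - a) * aN (Dat D lam hlam) (κ * lam) (1 + D.α) (n - a)) :=
        fun a _ => mul_nonneg (uS_nonneg (D := Dat D lam hlam) hK.nonneg 0 a)
          (mul_nonneg (KLg_nonneg hK.nonneg _ _) (aN_nonneg _))
      refine le_trans (le_of_eq ?_) (Finset.single_le_sum h6 (Finset.mem_Ico.2 ⟨le_rfl, hn⟩))
      unfold uS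
      rw [u_zero, one_mul, Nat.sub_zero]
      have : KLg (Dat D lam hlam).K 0 n = D.K n := by
        unfold KLg; rw [if_neg (by omega)]; rfl
      rw [this]
  have hT' : 1 < ∑ m ∈ Finset.Ioc 0 T, sN (Dat D lam hlam) (κ * lam) (1 + D.α) 0 m :=
    lt_of_lt_of_le hsum (Finset.sum_le_sum fun n _ => hsN n)
  exact crit_sum (D := Dat D lam hlam) hK (by positivity) 0 hT'

end Pool.Agent.TH983
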