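import Pool.Agent.TH983.Moments

/-!
# Block functionals: lower bounds, integrability, locality and stationarity
-/

set_option autoImplicit false
set_option maxHeartbeats 4000000
open MeasureTheory ProbabilityTheory Filter Topology
open scoped ENNReal NNReal

namespace Pool.Agent.TH983
open Cop764

/-- total weight of a contact block -/
noncomputable def Wt (K : ℕ → ℝ) (q : ℕ) : ℝ := (q : ℝ) * U K q

theorem U_pos {K : ℕ → ℝ} (hK : ∀ n, 0 ≤ K n) (q : ℕ) : 1 ≤ U K q := by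
  unfold U
  rw [Finset.sum_range_succ']
  rw [u_zero]
  have : 0 ≤ ∑ k ∈ Finset.range q, u K (k + 1) := Finset.sum_nonneg fun k _ => u_nonneg hK _
  linarith

theorem Wt_pos {K : ℕ → ℝ} (hK : ∀ n, 0 ≤ K n) {q : ℕ} (hq : 1 ≤ q) : 0 < Wt K q := by
  unfold Wt
  have h1 := U_pos hK q
  have h2 : (0 : ℝ) < q := by exact_mod_cast hq
  nlinarith

/-- index set of a contact block -/
def idx (L q c : ℕ) : Finset (ℕ × ℕ) := Finset.Ioc (c * L) (c * L + q) ×ˢ Finset.range (q + 1)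

theorem sum_idx (K : ℕ → ℝ) (L q c : ℕ) : ∑ i ∈ idx L q c, u K i.2 = Wt K q := by
  unfold idx Wt U
  rw [Finset.sum_product]
  simp only [Finset.sum_const, Nat.card_Ioc, nsmul_eq_mul]
  simp

noncomputable def xst (w : ℕ → ℝ) (L c : ℕ) (i : ℕ × ℕ) : ℝ :=
  min 0 (S w (c * L) i.1) + S w i.1 (i.1 + i.2) / 2

noncomputable def xmi (w : ℕ → ℝ) (L n : ℕ) (i : ℕ × ℕ) : ℝ :=
  S w i.1 (i.1 + i.2) / 2 + S w (i.1 + i.2) ((n + 1) * L)

noncomputable def Xst (K w : ℕ → ℝ) (L q c : ℕ) : ℝ :=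
  (Wt K q)⁻¹ * ∑ i ∈ idx L q c, u K i.2 * xst w L c i

noncomputable def Xmi (K w : ℕ → ℝ) (L q n : ℕ) : ℝ :=
  (Wt K q)⁻¹ * ∑ i ∈ idx L q n, u K i.2 * xmi w L n i

theorem sum_Icc_shift (f : ℕ → ℝ) (m q : ℕ) :
    ∑ m' ∈ Finset.Icc m (m + q), f m' = ∑ r ∈ Finset.range (q + 1), f (m + r) := by
  rw [show Finset.Icc m (m + q) = Finset.Ico m (m + q + 1) from rfl, Finset.sum_Ico_eq_sum_range]
  rw [show m + q + 1 - m = q + 1 by omega]

theorem min_exp (x : ℝ) : min 1 (Real.exp x) = Real.exp (min 0 x) := by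
  rcases le_total 0 x with h | h
  · rw [min_eq_left h, min_eq_left (Real.one_le_exp h), Real.exp_zero]
  · rw [min_eq_right h, min_eq_right (Real.exp_le_one_iff.2 h)]

theorem Bst_ge {K : ℕ → ℝ} (hK : ∀ n, 0 ≤ K n) (w : ℕ → ℝ) (L : ℕ) {q : ℕ} (hq : 1 ≤ q) (c : ℕ) :
    Wt K q * Real.exp (Xst K w L q c) ≤ Bst K w L q c := by
  refine (jensen_exp (idx L q c) (fun i => u K i.2) (fun i => xst w L c i)
    (fun i _ => u_nonneg hK _) (sum_idx K L q c) (Wt_pos hK hq)).trans ?_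
  unfold idx Bst
  rw [Finset.sum_product]
  refine Finset.sum_le_sum fun m _ => ?_
  rw [sum_Icc_shift]
  refine Finset.sum_le_sum fun r _ => ?_
  simp only
  unfold xst
  have h1 := G_ge K w hK _ m (m + r) rfl (by omega)
  rw [Nat.add_sub_cancel_left] at h1
  rw [Real.exp_add, ← min_exp]
  have h2 : 0 ≤ min 1 (Real.exp (S w (c * L) m)) := le_min zero_le_one (Real.exp_pos _).le
  calc u K r * (min 1 (Real.exp (S w (c * L) m)) * Real.exp (S w m (m + r) / 2))
      = min 1 (Real.exp (S w (c * L) m)) * (Real.exp (S w m (m + r) / 2) * u K r) := by ring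
    _ ≤ _ := mul_le_mul_of_nonneg_left h1 h2

theorem Bmi_ge {K : ℕ → ℝ} (hK : ∀ n, 0 ≤ K n) (w : ℕ → ℝ) (L : ℕ) {q : ℕ} (hq : 1 ≤ q) (n : ℕ) :
    Wt K q * Real.exp (Xmi K w L q n) ≤ Bmi K w L q n := by
  refine (jensen_exp (idx L q n) (fun i => u K i.2) (fun i => xmi w L n i)
    (fun i _ => u_nonneg hK _) (sum_idx K L q n) (Wt_pos hK hq)).trans ?_
  unfold idx Bmi
  rw [Finset.sum_product]
  refine Finset.sum_le_sum fun m _ => ?_
  rw [sum_Icc_shift]
  refine Finset.sum_le_sum fun r _ => ?_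
  simp only
  unfold xmi
  have h1 := G_ge K w hK _ m (m + r) rfl (by omega)
  rw [Nat.add_sub_cancel_left] at h1
  rw [Real.exp_add]
  calc u K r * (Real.exp (S w m (m + r) / 2) * Real.exp (S w (m + r) ((n + 1) * L)))
      = (Real.exp (S w m (m + r) / 2) * u K r) * Real.exp (S w (m + r) ((n + 1) * L)) := by ring
    _ ≤ _ := mul_le_mul_of_nonneg_right h1 (Real.exp_pos _).le

/-! ### the standing assumptions -/

/-- standing assumptions on the block size -/
structure Blk (D : Data) (c0 : ℝ) (n0 : ℕ) (h : ℝ) (L q : ℕ) : Prop where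
  hK : KHyp D.K D.α c0 n0
  h0 : 0 ≤ h
  h1 : h ≤ D.lam
  hL : D.lam ^ 2 * L ≤ 1
  hq : 1 ≤ q
  hqL : 2 * q + n0 ≤ L

variable {D : Data} {c0 : ℝ} {n0 : ℕ} {h : ℝ} {L q : ℕ}

theorem xst_bd (B : Blk D c0 n0 h L q) (c : ℕ) (i : ℕ × ℕ) (hi : i ∈ idx L q c) :
    Integrable (fun ω => xst (D.w h ω) L c i) D.P ∧ ∫ ω, |xst (D.w h ω) L c i| ∂D.P ≤ 9 / 2 := by
  unfold idx at hi
  rw [Finset.mem_product, Finset.mem_Ioc, Finset.mem_range] at hi
  have hn0 := B.hK.n0_pos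
  have hqL := B.hqL
  have i1 := S_integrable D h (c * L) i.1
  have i2 := S_integrable D h i.1 (i.1 + i.2)
  have i3 : Integrable (fun ω => xst (D.w h ω) L c i) D.P := by
    unfold xst
    exact ((integrable_const 0).inf i1).add (i2.div_const 2)
  refine ⟨i3, ?_⟩
  have h1 := S_abs D B.h0 B.h1 B.hL (i := c * L) (j := i.1) (by omega)
  have h2 := S_abs D B.h0 B.h1 B.hL (i := i.1) (j := i.1 + i.2) (by omega)
  have h3 : ∫ ω, |xst (D.w h ω) L c i| ∂D.P ≤
      ∫ ω, (|S (D.w h ω) (c * L) i.1| + |S (D.w h ω) i.1 (i.1 + i.2)| / 2) ∂D.P := by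
    apply integral_mono i3.abs (i1.abs.add (i2.abs.div_const 2))
    intro ω
    show |xst (D.w h ω) L c i| ≤ |S (D.w h ω) (c * L) i.1| + |S (D.w h ω) i.1 (i.1 + i.2)| / 2
    unfold xst
    refine (abs_add_le _ _).trans (add_le_add ?_ ?_)
    · rcases le_total 0 (S (D.w h ω) (c * L) i.1) with h | h
      · rw [min_eq_left h]; simp
      · rw [min_eq_right h]
    · rw [abs_div, abs_of_pos (zero_lt_two' ℝ)]
  rw [integral_add i1.abs (i2.abs.div_const 2), integral_div] at h3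
  linarith

theorem xmi_bd (B : Blk D c0 n0 h L q) (n : ℕ) (i : ℕ × ℕ) (hi : i ∈ idx L q n) :
    Integrable (fun ω => xmi (D.w h ω) L n i) D.P ∧ ∫ ω, |xmi (D.w h ω) L n i| ∂D.P ≤ 9 / 2 := by
  unfold idx at hi
  rw [Finset.mem_product, Finset.mem_Ioc, Finset.mem_range] at hi
  have hn0 := B.hK.n0_pos
  have hqL := B.hqL
  have e0 : (n + 1) * L = n * L + L := by ring
  have i1 := S_integrable D h i.1 (i.1 + i.2)
  have i2 := S_integrable D h (i.1 + i.2) ((n + 1) * L)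
  have i3 : Integrable (fun ω => xmi (D.w h ω) L n i) D.P := by
    unfold xmi
    exact (i1.div_const 2).add i2
  refine ⟨i3, ?_⟩
  have h1 := S_abs D B.h0 B.h1 B.hL (i := i.1) (j := i.1 + i.2) (by omega)
  have h2 := S_abs D B.h0 B.h1 B.hL (i := i.1 + i.2) (j := (n + 1) * L) (by omega)
  have h3 : ∫ ω, |xmi (D.w h ω) L n i| ∂D.P ≤
      ∫ ω, (|S (D.w h ω) i.1 (i.1 + i.2)| / 2 + |S (D.w h ω) (i.1 + i.2) ((n + 1) * L)|) ∂D.P := by
    apply integral_mono i3.abs ((i1.abs.div_const 2).add i2.abs)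
    intro ω
    show |xmi (D.w h ω) L n i| ≤
      |S (D.w h ω) i.1 (i.1 + i.2)| / 2 + |S (D.w h ω) (i.1 + i.2) ((n + 1) * L)|
    unfold xmi
    refine (abs_add_le _ _).trans (add_le_add ?_ le_rfl)
    rw [abs_div, abs_of_pos (zero_lt_two' ℝ)]
  rw [integral_add (i1.abs.div_const 2) i2.abs, integral_div] at h3
  linarith

theorem Xst_bd (B : Blk D c0 n0 h L q) (c : ℕ) :
    Integrable (fun ω => Xst D.K (D.w h ω) L q c) D.P ∧
      ∫ ω, |Xst D.K (D.w h ω) L q c| ∂D.P ≤ 9 / 2 :=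
  avg_abs D (idx L q c) (fun i => u D.K i.2) (fun i ω => xst (D.w h ω) L c i)
    (fun i _ => u_nonneg B.hK.nonneg _) (sum_idx D.K L q c) (Wt_pos B.hK.nonneg B.hq)
    (fun i hi => (xst_bd B c i hi).1) (fun i hi => (xst_bd B c i hi).2)

theorem Xmi_bd (B : Blk D c0 n0 h L q) (n : ℕ) :
    Integrable (fun ω => Xmi D.K (D.w h ω) L q n) D.P ∧
      ∫ ω, |Xmi D.K (D.w h ω) L q n| ∂D.P ≤ 9 / 2 :=
  avg_abs D (idx L q n) (fun i => u D.K i.2) (fun i ω => xmi (D.w h ω) L n i)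
    (fun i _ => u_nonneg B.hK.nonneg _) (sum_idx D.K L q n) (Wt_pos B.hK.nonneg B.hq)
    (fun i hi => (xmi_bd B n i hi).1) (fun i hi => (xmi_bd B n i hi).2)

/-! ### measurability -/

theorem meas_S (D : Data) (h : ℝ) (a b : ℕ) : Measurable (fun ω => S (D.w h ω) a b) :=
  (M_meas.J_meas D h a b).2.2

theorem meas_G (D : Data) (h : ℝ) (a b : ℕ) : Measurable (fun ω => G D.K (D.w h ω) a b) :=
  (M_meas.J_meas D h a b).1

theorem meas_Vb (D : Data) (h : ℝ) (L q M c : ℕ) :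
    Measurable (fun ω => Vb D.K (D.w h ω) L q M c) := by
  unfold Vb
  exact Finset.measurable_fun_sum _ fun m _ =>
    (measurable_const.min (meas_S D h _ _).exp).mul (meas_G D h _ _)

theorem meas_Bst (D : Data) (h : ℝ) (L q c : ℕ) :
    Measurable (fun ω => Bst D.K (D.w h ω) L q c) := by
  unfold Bst
  exact Finset.measurable_fun_sum _ fun m _ => Finset.measurable_fun_sum _ fun m' _ =>
    (measurable_const.min (meas_S D h _ _).exp).mul (meas_G D h _ _)

theorem meas_Bmi (D : Data) (h : ℝ) (L q n : ℕ) :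
    Measurable (fun ω => Bmi D.K (D.w h ω) L q n) := by
  unfold Bmi
  exact Finset.measurable_fun_sum _ fun m _ => Finset.measurable_fun_sum _ fun m' _ =>
    (meas_G D h _ _).mul (meas_S D h _ _).exp

/-! ### upper bounds and integrability of logarithms -/

/-- dominating weight -/
noncomputable def ew (D : Data) (ω : ℕ → ℝ) : ℕ → ℝ := fun n => 2 * D.lam * |ω n|

theorem ew_nonneg (D : Data) (ω : ℕ → ℝ) (n : ℕ) : 0 ≤ ew D ω n := by
  unfold ew
  have := D.hlam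
  positivity

theorem w_le_ew (D : Data) {h : ℝ} (hh : 0 ≤ h) (ω : ℕ → ℝ) (n : ℕ) : D.w h ω n ≤ ew D ω n := by
  have hlam := D.hlam
  unfold Data.w ew
  have h1 : -ω n ≤ |ω n| := neg_le_abs _
  have h2 : 0 ≤ D.lam * h := by positivity
  have h3 : D.lam * (-ω n) ≤ D.lam * |ω n| := mul_le_mul_of_nonneg_left h1 hlam.le
  nlinarith

theorem ew_int (D : Data) (a b : ℕ) : Integrable (fun ω => S (ew D ω) a b) D.P := by
  unfold S ew
  exact integrable_finsetSum _ fun n _ =>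
    ((coord_memLp D n).integrable one_le_two).abs.const_mul _

theorem ew_mono (D : Data) (ω : ℕ → ℝ) {a b M : ℕ} (hb : b ≤ M) :
    S (ew D ω) a b ≤ S (ew D ω) 0 M := by
  unfold S
  apply Finset.sum_le_sum_of_subset_of_nonneg
  · intro n hn
    rw [Finset.mem_Ioc] at hn ⊢
    omega
  · intro n _ _
    exact ew_nonneg D ω n

theorem G_le_ew (hK : KHyp D.K D.α c0 n0) {h : ℝ} (hh : 0 ≤ h) (ω : ℕ → ℝ) {a b M : ℕ} (hab : a ≤ b)
    (hb : b ≤ M) : G D.K (D.w h ω) a b ≤ Real.exp (S (ew D ω) 0 M) := by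
  have h1 := ((M_Fbd.J_Fbd D.K (D.w h ω) D.α c0 n0 hK a b hab).2 (ew D ω) (ew_nonneg D ω)
    (w_le_ew D hh ω)).1
  exact h1.trans (Real.exp_le_exp.2 (ew_mono D ω hb))

theorem Bst_le (B : Blk D c0 n0 h L q) (c : ℕ) (ω : ℕ → ℝ) :
    Bst D.K (D.w h ω) L q c ≤ ((q : ℝ) * (q + 1)) * Real.exp (S (ew D ω) 0 ((c + 1) * L)) := by
  have hn0 := B.hK.n0_pos
  have hqL := B.hqL
  have e0 : (c + 1) * L = c * L + L := by ring
  unfold Bst
  calc _ ≤ ∑ m ∈ Finset.Ioc (c * L) (c * L + q), ∑ m' ∈ Finset.Icc m (m + q),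
        Real.exp (S (ew D ω) 0 ((c + 1) * L)) := by
        refine Finset.sum_le_sum fun m hm => Finset.sum_le_sum fun m' hm' => ?_
        rw [Finset.mem_Ioc] at hm
        rw [Finset.mem_Icc] at hm'
        have h1 := G_le_ew B.hK B.h0 ω (a := m) (b := m') (M := (c + 1) * L) hm'.1 (by omega)
        have h2 := (M_G.J_G D.K (D.w h ω) B.hK.nonneg).2.1 m m'
        calc _ ≤ 1 * G D.K (D.w h ω) m m' := mul_le_mul_of_nonneg_right (min_le_left _ _) h2
          _ ≤ _ := by rw [one_mul]; exact h1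
    _ = _ := by
        have : ∀ m : ℕ, m + q + 1 - m = q + 1 := fun m => by omega
        simp only [Finset.sum_const, Nat.card_Ioc, Nat.card_Icc, nsmul_eq_mul, this,
          Nat.add_sub_cancel_left]
        push_cast
        ring

theorem Bst_log (B : Blk D c0 n0 h L q) (c : ℕ) :
    (∀ ω, 0 < Bst D.K (D.w h ω) L q c) ∧
    Integrable (fun ω => Real.log (Bst D.K (D.w h ω) L q c)) D.P ∧
    Real.log (Wt D.K q) - 9 / 2 ≤ ∫ ω, Real.log (Bst D.K (D.w h ω) L q c) ∂D.P := by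
  have hW := Wt_pos B.hK.nonneg B.hq
  have hlow : ∀ ω, Wt D.K q * Real.exp (Xst D.K (D.w h ω) L q c) ≤ Bst D.K (D.w h ω) L q c :=
    fun ω => Bst_ge B.hK.nonneg _ L B.hq c
  have hpos : ∀ ω, 0 < Bst D.K (D.w h ω) L q c := fun ω =>
    lt_of_lt_of_le (mul_pos hW (Real.exp_pos _)) (hlow ω)
  have hlog : ∀ ω, Real.log (Wt D.K q) + Xst D.K (D.w h ω) L q c ≤
      Real.log (Bst D.K (D.w h ω) L q c) := by
    intro ω
    have := Real.log_le_log (mul_pos hW (Real.exp_pos _)) (hlow ω)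
    rwa [Real.log_mul hW.ne' (Real.exp_pos _).ne', Real.log_exp] at this
  have hq0 : (0 : ℝ) < q := by exact_mod_cast B.hq
  have hup : ∀ ω, Real.log (Bst D.K (D.w h ω) L q c) ≤
      Real.log ((q : ℝ) * (q + 1)) + S (ew D ω) 0 ((c + 1) * L) := by
    intro ω
    have := Real.log_le_log (hpos ω) (Bst_le B c ω)
    rwa [Real.log_mul (by positivity) (Real.exp_pos _).ne', Real.log_exp] at this
  have hX := Xst_bd B c
  have hS0 : ∀ ω, 0 ≤ S (ew D ω) 0 ((c + 1) * L) := fun ω =>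
    Finset.sum_nonneg fun n _ => ew_nonneg D ω n
  have hint : Integrable (fun ω => Real.log (Bst D.K (D.w h ω) L q c)) D.P := by
    have h1 : Integrable (fun ω => (|Real.log (Wt D.K q)| + |Real.log ((q : ℝ) * (q + 1))|) +
      |Xst D.K (D.w h ω) L q c| + S (ew D ω) 0 ((c + 1) * L)) D.P :=
      ((integrable_const _).add hX.1.abs).add (ew_int D _ _)
    refine h1.mono' (Real.measurable_log.comp (meas_Bst D h L q c)).aestronglyMeasurable
      (Filter.Eventually.of_forall fun ω => ?_)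
    have h2 := hlog ω
    have h3 := hup ω
    have h4 := neg_abs_le (Real.log (Wt D.K q))
    have h5 := neg_abs_le (Xst D.K (D.w h ω) L q c)
    have h6 := le_abs_self (Real.log ((q : ℝ) * (q + 1)))
    have h7 := abs_nonneg (Real.log (Wt D.K q))
    have h8 := abs_nonneg (Xst D.K (D.w h ω) L q c)
    have h9 := abs_nonneg (Real.log ((q : ℝ) * (q + 1)))
    have h10 := hS0 ω
    rw [Real.norm_eq_abs, abs_le]
    constructor <;> linarith
  refine ⟨hpos, hint, ?_⟩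
  have h1 : ∫ ω, (Real.log (Wt D.K q) + Xst D.K (D.w h ω) L q c) ∂D.P ≤
      ∫ ω, Real.log (Bst D.K (D.w h ω) L q c) ∂D.P :=
    integral_mono ((integrable_const _).add hX.1) hint hlog
  rw [integral_add (integrable_const _) hX.1] at h1
  have h2 : -(9 / 2) ≤ ∫ ω, Xst D.K (D.w h ω) L q c ∂D.P := by
    have h3 := abs_integral_le_integral_abs (f := fun ω => Xst D.K (D.w h ω) L q c) (μ := D.P)
    have h4 := neg_abs_le (∫ ω, Xst D.K (D.w h ω) L q c ∂D.P)
    linarith [hX.2]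
  simp only [integral_const, probReal_univ, smul_eq_mul, one_mul] at h1
  linarith

theorem Bmi_pos (B : Blk D c0 n0 h L q) (n : ℕ) (ω : ℕ → ℝ) : 0 < Bmi D.K (D.w h ω) L q n :=
  lt_of_lt_of_le (mul_pos (Wt_pos B.hK.nonneg B.hq) (Real.exp_pos _))
    (Bmi_ge B.hK.nonneg _ L B.hq n)

/-- the contact factor is not small with probability at least `1/2` -/
theorem Bmi_prob (B : Blk D c0 n0 h L q) (n : ℕ) :
    1 / 2 ≤ D.P.real {ω | Real.log (Wt D.K q) - 9 ≤ Real.log (Bmi D.K (D.w h ω) L q n)} := by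
  have hW := Wt_pos B.hK.nonneg B.hq
  have hX := Xmi_bd B n
  have hlog : ∀ ω, Real.log (Wt D.K q) + Xmi D.K (D.w h ω) L q n ≤
      Real.log (Bmi D.K (D.w h ω) L q n) := by
    intro ω
    have := Real.log_le_log (mul_pos hW (Real.exp_pos _)) (Bmi_ge B.hK.nonneg (D.w h ω) L B.hq n)
    rwa [Real.log_mul hW.ne' (Real.exp_pos _).ne', Real.log_exp] at this
  have hmk : (9 : ℝ) * D.P.real {ω | 9 ≤ |Xmi D.K (D.w h ω) L q n|} ≤ 9 / 2 := by
    have := mul_meas_ge_le_integral_of_nonneg (μ := D.P)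
      (f := fun ω => |Xmi D.K (D.w h ω) L q n|)
      (Filter.Eventually.of_forall fun ω => abs_nonneg _) hX.1.abs 9
    exact this.trans hX.2
  have hmeasX : MeasurableSet {ω | 9 ≤ |Xmi D.K (D.w h ω) L q n|} := by
    have hm : Measurable (fun ω => Xmi D.K (D.w h ω) L q n) := by
      unfold Xmi xmi
      exact (Finset.measurable_fun_sum _ fun i _ =>
        (((meas_S D h _ _).div_const 2).add (meas_S D h _ _)).const_mul _).const_mul _
    exact measurableSet_le measurable_const hm.abs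
  have hsub : {ω | 9 ≤ |Xmi D.K (D.w h ω) L q n|}ᶜ ⊆
      {ω | Real.log (Wt D.K q) - 9 ≤ Real.log (Bmi D.K (D.w h ω) L q n)} := by
    intro ω hω
    simp only [Set.mem_compl_iff, Set.mem_ofPred_eq, not_le] at hω ⊢
    have h1 := hlog ω
    have h2 := neg_abs_le (Xmi D.K (D.w h ω) L q n)
    linarith
  have h1 := measureReal_mono (μ := D.P) hsub
  rw [probReal_compl_eq_one_sub hmeasX] at h1
  linarith

theorem Vb_log (B : Blk D c0 n0 h L q) {c M : ℕ} (hM : c * L + q + n0 ≤ M) :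
    (∀ ω, 0 < Vb D.K (D.w h ω) L q M c) ∧
    Integrable (fun ω => Real.log (Vb D.K (D.w h ω) L q M c)) D.P := by
  have hn0 := B.hK.n0_pos
  have hq := B.hq
  have hG := fun ω => M_G.J_G D.K (D.w h ω) B.hK.nonneg
  have hKpos : 0 < D.K (M - (c * L + 1)) := by
    have h1 := B.hK.lower (M - (c * L + 1)) (by omega)
    have h2 : 0 < c0 * ((M - (c * L + 1) : ℕ) : ℝ) ^ (-(1 + D.α)) := by
      have : (0 : ℝ) < ((M - (c * L + 1) : ℕ) : ℝ) := by
        have : 0 < M - (c * L + 1) := by omega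
        exact_mod_cast this
      exact mul_pos B.hK.c0_pos (Real.rpow_pos_of_pos this _)
    linarith
  have hterm : ∀ ω, ∀ m ∈ Finset.Ioc (c * L) (c * L + q),
      0 ≤ min 1 (Real.exp (S (D.w h ω) (c * L) m)) * G D.K (D.w h ω) m M := fun ω m _ =>
    mul_nonneg (le_min zero_le_one (Real.exp_pos _).le) ((hG ω).2.1 _ _)
  have hlow : ∀ ω, Real.exp (min 0 (S (D.w h ω) (c * L) (c * L + 1))) *
      (D.K (M - (c * L + 1)) / 2) ≤ Vb D.K (D.w h ω) L q M c := by
    intro ω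
    unfold Vb
    refine le_trans ?_ (Finset.single_le_sum (hterm ω)
      (Finset.mem_Ioc.2 ⟨Nat.lt_succ_self _, by omega⟩ : c * L + 1 ∈ _))
    rw [min_exp]
    apply mul_le_mul_of_nonneg_left _ (Real.exp_pos _).le
    have h1 := (hG ω).2.2.1 (c * L + 1) M (by omega)
    have h2 := half_le_phi (D.w h ω) (c * L + 1) M
    have h3 : D.K (M - (c * L + 1)) * (1 / 2) ≤
      D.K (M - (c * L + 1)) * phi (D.w h ω) (c * L + 1) M := mul_le_mul_of_nonneg_left h2 hKpos.le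
    linarith
  have hpos : ∀ ω, 0 < Vb D.K (D.w h ω) L q M c := fun ω =>
    lt_of_lt_of_le (mul_pos (Real.exp_pos _) (by positivity)) (hlow ω)
  refine ⟨hpos, ?_⟩
  have hlog : ∀ ω, min 0 (S (D.w h ω) (c * L) (c * L + 1)) +
      Real.log (D.K (M - (c * L + 1)) / 2) ≤ Real.log (Vb D.K (D.w h ω) L q M c) := by
    intro ω
    have := Real.log_le_log (mul_pos (Real.exp_pos _) (by positivity)) (hlow ω)
    rwa [Real.log_mul (Real.exp_pos _).ne' (by positivity), Real.log_exp] at this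
  have hq0 : (0 : ℝ) < q := by exact_mod_cast hq
  have hup : ∀ ω, Real.log (Vb D.K (D.w h ω) L q M c) ≤ Real.log q + S (ew D ω) 0 M := by
    intro ω
    have h1 : Vb D.K (D.w h ω) L q M c ≤ q * Real.exp (S (ew D ω) 0 M) := by
      refine (Vb_le_sum B.hK.nonneg (D.w h ω) L q M c).trans ?_
      calc _ ≤ ∑ m ∈ Finset.Ioc (c * L) (c * L + q), Real.exp (S (ew D ω) 0 M) := by
            refine Finset.sum_le_sum fun m hm => ?_
            rw [Finset.mem_Ioc] at hm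
            exact G_le_ew B.hK B.h0 ω (by omega) le_rfl
        _ = _ := by
            simp only [Finset.sum_const, Nat.card_Ioc, nsmul_eq_mul, Nat.add_sub_cancel_left]
    have := Real.log_le_log (hpos ω) h1
    rwa [Real.log_mul hq0.ne' (Real.exp_pos _).ne', Real.log_exp] at this
  have hS0 : ∀ ω, 0 ≤ S (ew D ω) 0 M := fun ω =>
    Finset.sum_nonneg fun n _ => ew_nonneg D ω n
  have h1 : Integrable (fun ω => (|Real.log (D.K (M - (c * L + 1)) / 2)| + |Real.log (q : ℝ)|) +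
      |S (D.w h ω) (c * L) (c * L + 1)| + S (ew D ω) 0 M) D.P :=
    ((integrable_const _).add (S_integrable D h _ _).abs).add (ew_int D _ _)
  refine h1.mono' (Real.measurable_log.comp (meas_Vb D h L q M c)).aestronglyMeasurable
    (Filter.Eventually.of_forall fun ω => ?_)
  have h2 := hlog ω
  have h3 := hup ω
  have h4 := neg_abs_le (Real.log (D.K (M - (c * L + 1)) / 2))
  have h5 : -|S (D.w h ω) (c * L) (c * L + 1)| ≤ min 0 (S (D.w h ω) (c * L) (c * L + 1)) :=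
    le_min (by simp) (neg_abs_le _)
  have h6 := le_abs_self (Real.log (q : ℝ))
  have h7 := abs_nonneg (Real.log (D.K (M - (c * L + 1)) / 2))
  have h8 := abs_nonneg (S (D.w h ω) (c * L) (c * L + 1))
  have h9 := abs_nonneg (Real.log (q : ℝ))
  have h10 := hS0 ω
  rw [Real.norm_eq_abs, abs_le]
  constructor <;> linarith

/-! ### locality and stationarity -/

theorem w_congr (D : Data) (h : ℝ) {ω ω' : ℕ → ℝ} {i j : ℕ}
    (hh : ∀ n ∈ Finset.Ioc i j, ω n = ω' n) :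
    ∀ n ∈ Finset.Ioc i j, D.w h ω n = D.w h ω' n := by
  intro n hn
  unfold Data.w
  rw [hh n hn]

theorem S_congr (D : Data) (h : ℝ) {ω ω' : ℕ → ℝ} {i j a b : ℕ}
    (hh : ∀ n ∈ Finset.Ioc i j, ω n = ω' n) (ha : i ≤ a) (hb : b ≤ j) :
    S (D.w h ω) a b = S (D.w h ω') a b :=
  ((M_loc.J_loc).2.2.2 D.K _ _ a b (fun n hn => w_congr D h hh n
    (Finset.mem_Ioc.2 ⟨by have := (Finset.mem_Ioc.1 hn).1; omega,
      (Finset.mem_Ioc.1 hn).2.trans hb⟩))).2.2

theorem G_congr (D : Data) (h : ℝ) {ω ω' : ℕ → ℝ} {i j a b : ℕ}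
    (hh : ∀ n ∈ Finset.Ioc i j, ω n = ω' n) (ha : i ≤ a) (hb : b ≤ j) :
    G D.K (D.w h ω) a b = G D.K (D.w h ω') a b :=
  ((M_loc.J_loc).2.2.2 D.K _ _ a b (fun n hn => w_congr D h hh n
    (Finset.mem_Ioc.2 ⟨by have := (Finset.mem_Ioc.1 hn).1; omega,
      (Finset.mem_Ioc.1 hn).2.trans hb⟩))).1

theorem Vb_congr (D : Data) (h : ℝ) (L q M c : ℕ) {ω ω' : ℕ → ℝ} (hM : c * L + q ≤ M)
    (hh : ∀ n ∈ Finset.Ioc (c * L) M, ω n = ω' n) :
    Vb D.K (D.w h ω) L q M c = Vb D.K (D.w h ω') L q M c := by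
  unfold Vb
  refine Finset.sum_congr rfl fun m hm => ?_
  rw [Finset.mem_Ioc] at hm
  rw [S_congr D h hh le_rfl (by omega), G_congr D h hh hm.1.le le_rfl]

theorem Bmi_congr (D : Data) (h : ℝ) (L q n : ℕ) (hqL : 2 * q ≤ L) {ω ω' : ℕ → ℝ}
    (hh : ∀ k ∈ Finset.Ioc (n * L) ((n + 1) * L), ω k = ω' k) :
    Bmi D.K (D.w h ω) L q n = Bmi D.K (D.w h ω') L q n := by
  have e0 : (n + 1) * L = n * L + L := by ring
  unfold Bmi
  refine Finset.sum_congr rfl fun m hm => Finset.sum_congr rfl fun m' hm' => ?_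
  rw [Finset.mem_Ioc] at hm
  rw [Finset.mem_Icc] at hm'
  rw [S_congr D h hh (by omega) le_rfl, G_congr D h hh hm.1.le (by omega)]

theorem w_shift (D : Data) (h : ℝ) (k : ℕ) (ω : ℕ → ℝ) :
    (fun n => D.w h ω (n + k)) = D.w h (fun n => ω (n + k)) := rfl

theorem Vb_shift (D : Data) (h : ℝ) (L q M c : ℕ) (ω : ℕ → ℝ) :
    Vb D.K (D.w h ω) L q (M + c * L) c = Vb D.K (D.w h (fun n => ω (n + c * L))) L q M 0 := by
  have hloc := M_loc.J_loc
  unfold Vb
  rw [← w_shift]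
  rw [show Finset.Ioc (c * L) (c * L + q) = Finset.Ioc (0 * L + c * L) ((0 * L + q) + c * L) by
    congr 1 <;> ring]
  rw [← Finset.map_add_right_Ioc, Finset.sum_map]
  refine Finset.sum_congr rfl fun m _ => ?_
  simp only [addRightEmbedding_apply]
  have h1 := hloc.2.2.1 (D.w h ω) (c * L) 0 m
  have h2 := hloc.1 D.K (D.w h ω) (c * L) m M
  rw [Nat.zero_add] at h1
  rw [Nat.zero_mul, h1, h2]

theorem Vb_stat (D : Data) (h : ℝ) (L q M c : ℕ) :
    ∫ ω, Real.log (Vb D.K (D.w h ω) L q (M + c * L) c) ∂D.P =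
      ∫ ω, Real.log (Vb D.K (D.w h ω) L q M 0) ∂D.P := by
  simp only [Vb_shift]
  have hs := M_stat.J_stat D.ν (c * L)
  have hm : Measurable (fun ω => Real.log (Vb D.K (D.w h ω) L q M 0)) :=
    Real.measurable_log.comp (meas_Vb D h L q M 0)
  have h1 := hs.map_eq
  have h2 : ∫ ω, Real.log (Vb D.K (D.w h ω) L q M 0) ∂D.P =
      ∫ ω, Real.log (Vb D.K (D.w h ω) L q M 0)
        ∂(Measure.map (fun (ω : ℕ → ℝ) (n : ℕ) => ω (n + c * L)) D.P) := by
    unfold Data.P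
    rw [h1]
  rw [h2, integral_map hs.measurable.aemeasurable hm.aestronglyMeasurable]

end Pool.Agent.TH983
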