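import Pool.Agent.TH983.Ker

/-!
# The bracket: one long excursion against two excursions with a cluster in between
-/

set_option autoImplicit false
set_option maxHeartbeats 4000000
open MeasureTheory ProbabilityTheory Filter Topology
open scoped ENNReal NNReal

namespace Pool.Agent.TH983
open Cop764

/-- pairs in the middle window -/
def Pr (e0 L : ℕ) : Finset (ℕ × ℕ) :=
  ((Finset.Icc (e0 + L) (2 * e0 + L)) ×ˢ (Finset.Icc (e0 + L) (2 * e0 + L))).filter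
    (fun p => p.1 ≤ p.2)

/-- indices outside of the two windows -/
def Fr (e0 L m : ℕ) : Finset ℕ :=
  (Finset.Ico 0 m).filter (fun a => ¬ a ≤ e0 ∧ ¬ (e0 + L ≤ a ∧ a ≤ 2 * e0 + L))

theorem split_sum (A T : ℕ → ℝ) (B C : ℕ → ℕ → ℝ) {e0 L m : ℕ} (h2 : 2 * e0 + L < m) (hL : 1 ≤ L)
    (hA : ∀ b ∈ Finset.Icc (e0 + L) (2 * e0 + L),
      A b = ∑ a ∈ Finset.Icc 0 e0, ∑ k ∈ Finset.Ioc e0 b, A a * B a k * C k b) :
    ∑ a ∈ Finset.Ico 0 m, A a * T a =
      ∑ a ∈ Finset.Icc 0 e0, A a * (T a + ∑ p ∈ Pr e0 L, B a p.1 * C p.1 p.2 * T p.2) +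
      (∑ b ∈ Finset.Icc (e0 + L) (2 * e0 + L), ∑ a ∈ Finset.Icc 0 e0,
        ∑ k ∈ Finset.Ioo e0 (e0 + L), A a * B a k * C k b * T b +
      ∑ a ∈ Fr e0 L m, A a * T a) := by
  classical
  have e1 : ∑ a ∈ Finset.Ico 0 m, A a * T a = ∑ a ∈ Finset.Icc 0 e0, A a * T a +
      (∑ a ∈ Finset.Icc (e0 + L) (2 * e0 + L), A a * T a + ∑ a ∈ Fr e0 L m, A a * T a) := by
    rw [← Finset.sum_filter_add_sum_filter_not (Finset.Ico 0 m) (fun a => a ≤ e0)]
    congr 1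
    · apply Finset.sum_congr _ fun _ _ => rfl
      ext a
      simp only [Finset.mem_filter, Finset.mem_Ico, Finset.mem_Icc]
      omega
    · rw [← Finset.sum_filter_add_sum_filter_not ((Finset.Ico 0 m).filter (fun a => ¬ a ≤ e0))
        (fun a => e0 + L ≤ a ∧ a ≤ 2 * e0 + L)]
      congr 1
      · apply Finset.sum_congr _ fun _ _ => rfl
        ext a
        simp only [Finset.mem_filter, Finset.mem_Ico, Finset.mem_Icc]
        omega
      · apply Finset.sum_congr _ fun _ _ => rfl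
        ext a
        simp only [Finset.mem_filter, Finset.mem_Ico, Fr]
        tauto
  have e2 : ∑ b ∈ Finset.Icc (e0 + L) (2 * e0 + L), A b * T b =
      ∑ b ∈ Finset.Icc (e0 + L) (2 * e0 + L), ∑ a ∈ Finset.Icc 0 e0,
        ∑ k ∈ Finset.Icc (e0 + L) b, A a * B a k * C k b * T b +
      ∑ b ∈ Finset.Icc (e0 + L) (2 * e0 + L), ∑ a ∈ Finset.Icc 0 e0,
        ∑ k ∈ Finset.Ioo e0 (e0 + L), A a * B a k * C k b * T b := by
    rw [← Finset.sum_add_distrib]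
    refine Finset.sum_congr rfl fun b hb => ?_
    rw [hA b hb, Finset.sum_mul, ← Finset.sum_add_distrib]
    refine Finset.sum_congr rfl fun a _ => ?_
    rw [Finset.sum_mul]
    rw [Finset.mem_Icc] at hb
    have : Finset.Ioc e0 b = Finset.Icc (e0 + L) b ∪ Finset.Ioo e0 (e0 + L) := by
      ext k
      simp only [Finset.mem_union, Finset.mem_Ioc, Finset.mem_Icc, Finset.mem_Ioo]
      omega
    rw [this, Finset.sum_union]
    rw [Finset.disjoint_left]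
    intro k hk
    simp only [Finset.mem_Icc, Finset.mem_Ioo] at hk ⊢
    omega
  have e3 : ∑ a ∈ Finset.Icc 0 e0, A a * ∑ p ∈ Pr e0 L, B a p.1 * C p.1 p.2 * T p.2 =
      ∑ b ∈ Finset.Icc (e0 + L) (2 * e0 + L), ∑ a ∈ Finset.Icc 0 e0,
        ∑ k ∈ Finset.Icc (e0 + L) b, A a * B a k * C k b * T b := by
    rw [Finset.sum_comm]
    refine Finset.sum_congr rfl fun a _ => ?_
    rw [Finset.mul_sum]
    unfold Pr
    rw [Finset.sum_filter, Finset.sum_product_right]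
    refine Finset.sum_congr rfl fun b hb => ?_
    rw [← Finset.sum_filter]
    rw [Finset.mem_Icc] at hb
    have : (Finset.Icc (e0 + L) (2 * e0 + L)).filter (fun k => k ≤ b) = Finset.Icc (e0 + L) b := by
      ext k
      simp only [Finset.mem_filter, Finset.mem_Icc]
      omega
    rw [this]
    refine Finset.sum_congr rfl fun k _ => ?_
    ring
  simp only [mul_add, Finset.sum_add_distrib]
  rw [e1, e2, e3]
  ring

/-- the bracket -/
noncomputable def Br (K w : ℕ → ℝ) (cut e0 L a m : ℕ) : ℝ :=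
  KLg K cut (m - a) * phi w a m + ∑ p ∈ Pr e0 L, KS K cut (p.1 - a) * phi w a p.1 *
    G (KS K cut) w p.1 p.2 * (KLg K cut (m - p.2) * phi w p.2 m)

theorem Vm_split {K w : ℕ → ℝ} (hK : ∀ n, 0 ≤ K n) (cut : ℕ) {e0 L m : ℕ} (h2 : 2 * e0 + L < m)
    (hL : 1 ≤ L) :
    Vm K w cut 0 m = ∑ a ∈ Finset.Icc 0 e0, G (KS K cut) w 0 a * Br K w cut e0 L a m +
      (∑ b ∈ Finset.Icc (e0 + L) (2 * e0 + L), ∑ a ∈ Finset.Icc 0 e0,
        ∑ k ∈ Finset.Ioo e0 (e0 + L), G (KS K cut) w 0 a * (KS K cut (k - a) * phi w a k) *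
          G (KS K cut) w k b * (KLg K cut (m - b) * phi w b m) +
      ∑ a ∈ Fr e0 L m, G (KS K cut) w 0 a * (KLg K cut (m - a) * phi w a m)) := by
  have h := split_sum (fun a => G (KS K cut) w 0 a) (fun a => KLg K cut (m - a) * phi w a m)
    (fun a k => KS K cut (k - a) * phi w a k) (fun k b => G (KS K cut) w k b) h2 hL (by
      intro b hb
      rw [Finset.mem_Icc] at hb
      exact straddle (KS K cut) w (KS_nonneg hK cut) _ 0 e0 b rfl (Nat.zero_le _) (by omega))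
  have e : Vm K w cut 0 m = ∑ a ∈ Finset.Ico 0 m, G (KS K cut) w 0 a *
      (KLg K cut (m - a) * phi w a m) := by
    unfold Vm
    refine Finset.sum_congr rfl fun a _ => ?_
    ring
  rw [e, h]
  rfl

theorem Loc.mono {s t : Finset ℕ} (hst : s ⊆ t) {X : (ℕ → ℝ) → ℝ} (hX : Loc s X) : Loc t X :=
  fun ω ω' hh => hX ω ω' fun n hn => hh n (hst hn)

theorem Loc.mul {s : Finset ℕ} {X Y : (ℕ → ℝ) → ℝ} (hX : Loc s X) (hY : Loc s Y) :
    Loc s (fun ω => X ω * Y ω) := fun ω ω' hh => by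
  show X ω * Y ω = X ω' * Y ω'
  rw [hX ω ω' hh, hY ω ω' hh]

theorem Loc.smul {s : Finset ℕ} {X : (ℕ → ℝ) → ℝ} (hX : Loc s X) (c : ℝ) :
    Loc s (fun ω => c * X ω) := fun ω ω' hh => by
  show c * X ω = c * X ω'
  rw [hX ω ω' hh]

variable {D : Data} {c0 : ℝ} {n0 : ℕ} {h β : ℝ}

/-- scalar renewal function of the short tilted kernel -/
noncomputable def uS (D : Data) (h β : ℝ) (cut n : ℕ) : ℝ :=
  u (fun k => KS D.K cut k * aN D h β k) n

theorem rS_nonneg (hK : ∀ n, 0 ≤ D.K n) (cut n : ℕ) : 0 ≤ KS D.K cut n * aN D h β n :=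
  mul_nonneg (KS_nonneg hK _ _) (aN_nonneg n)

theorem uS_nonneg (hK : ∀ n, 0 ≤ D.K n) (cut n : ℕ) : 0 ≤ uS D h β cut n :=
  u_nonneg (rS_nonneg hK cut) n

/-- scalar value of a cluster with its long excursion -/
noncomputable def vS (D : Data) (h β : ℝ) (cut m : ℕ) : ℝ :=
  ∑ a ∈ Finset.Ico 0 m, uS D h β cut a * (KLg D.K cut (m - a) * aN D h β (m - a))

/-- scalar value of the double excursion -/
noncomputable def yS (D : Data) (h β : ℝ) (cut e0 L a m : ℕ) : ℝ :=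
  ∑ p ∈ Pr e0 L, KS D.K cut (p.1 - a) * aN D h β (p.1 - a) * uS D h β cut (p.2 - p.1) *
    (KLg D.K cut (m - p.2) * aN D h β (m - p.2))

theorem vS_split (hK : ∀ n, 0 ≤ D.K n) (cut : ℕ) {e0 L m : ℕ} (h2 : 2 * e0 + L < m)
    (hL : 1 ≤ L) :
    vS D h β cut m = ∑ a ∈ Finset.Icc 0 e0, uS D h β cut a *
        (KLg D.K cut (m - a) * aN D h β (m - a) + yS D h β cut e0 L a m) +
      (∑ b ∈ Finset.Icc (e0 + L) (2 * e0 + L), ∑ a ∈ Finset.Icc 0 e0,
        ∑ k ∈ Finset.Ioo e0 (e0 + L), uS D h β cut a * (KS D.K cut (k - a) * aN D h β (k - a)) *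
          uS D h β cut (b - k) * (KLg D.K cut (m - b) * aN D h β (m - b)) +
      ∑ a ∈ Fr e0 L m, uS D h β cut a * (KLg D.K cut (m - a) * aN D h β (m - a))) := by
  set r : ℕ → ℝ := fun k => KS D.K cut k * aN D h β k with hr
  have hr0 : ∀ n, 0 ≤ r n := rS_nonneg hK cut
  have h := split_sum (fun a => uS D h β cut a)
    (fun a => KLg D.K cut (m - a) * aN D h β (m - a))
    (fun a k => KS D.K cut (k - a) * aN D h β (k - a)) (fun k b => uS D h β cut (b - k)) h2 hL (by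
      intro b hb
      rw [Finset.mem_Icc] at hb
      have h3 := straddle r (fun _ => 0) hr0 _ 0 e0 b rfl (Nat.zero_le _) (by omega)
      have e1 : G r (fun _ => 0) 0 b = uS D h β cut b := rfl
      rw [e1] at h3
      rw [h3]
      refine Finset.sum_congr rfl fun a ha => Finset.sum_congr rfl fun k hk => ?_
      rw [Finset.mem_Icc] at ha
      rw [Finset.mem_Ioc] at hk
      have e2 : phi (fun _ => 0) a k = 1 := by unfold phi S; simp
      rw [e2, mul_one, G_zero_shift r k b hk.2]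
      rfl)
  unfold vS
  rw [h]
  rfl

/-- test function: function of the sums over the two large blocks -/
noncomputable def chi (w : ℕ → ℝ) (e0 L : ℕ) : ℝ :=
  (1 + Real.exp (S w e0 (e0 + L) + S w (2 * e0 + L) (2 * e0 + 3 * L))) /
    ((1 + Real.exp (S w e0 (e0 + L))) * (1 + Real.exp (S w (2 * e0 + L) (2 * e0 + 3 * L))))

theorem chi_nonneg (w : ℕ → ℝ) (e0 L : ℕ) : 0 ≤ chi w e0 L := by unfold chi; positivity

theorem chi_le_one (w : ℕ → ℝ) (e0 L : ℕ) : chi w e0 L ≤ 1 := by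
  unfold chi
  rw [div_le_one (by positivity), Real.exp_add]
  have h1 := Real.exp_pos (S w e0 (e0 + L))
  have h2 := Real.exp_pos (S w (2 * e0 + L) (2 * e0 + 3 * L))
  nlinarith

theorem chi_meas (D : Data) (h : ℝ) (e0 L : ℕ) : Measurable (fun ω => chi (D.w h ω) e0 L) := by
  unfold chi
  exact (((meas_S D h _ _).add (meas_S D h _ _)).exp.const_add 1).div
    (((meas_S D h _ _).exp.const_add 1).mul ((meas_S D h _ _).exp.const_add 1))

theorem chi_congr (D : Data) (h : ℝ) {e0 L : ℕ} {ω ω' : ℕ → ℝ}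
    (h1 : ∀ n ∈ Finset.Ioc e0 (e0 + L), ω n = ω' n)
    (h2 : ∀ n ∈ Finset.Ioc (2 * e0 + L) (2 * e0 + 3 * L), ω n = ω' n) :
    chi (D.w h ω) e0 L = chi (D.w h ω') e0 L := by
  unfold chi
  rw [S_congr D h h1 le_rfl le_rfl, S_congr D h h2 le_rfl le_rfl]

/-- lower bounds of the tilted probabilities seen by the test function -/
structure Tilt (D : Data) (h β : ℝ) (e0 L : ℕ) (p1 p2 q1 q2 : ℝ) : Prop where
  a1 : ∀ a ≤ e0, ∀ m ∈ Finset.Icc (2 * e0 + 3 * L) (3 * e0 + 3 * L),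
    p1 * ∫ ω, phi (D.w h ω) a m ^ β⁻¹ ∂D.P ≤ ∫ ω, phi (D.w h ω) a m ^ β⁻¹ * chi (D.w h ω) e0 L ∂D.P
  a2 : ∀ a ≤ e0, ∀ m ∈ Finset.Icc (2 * e0 + 3 * L) (3 * e0 + 3 * L),
    p2 * ∫ ω, phi (D.w h ω) a m ^ β⁻¹ ∂D.P ≤
      ∫ ω, phi (D.w h ω) a m ^ β⁻¹ * (1 - chi (D.w h ω) e0 L) ∂D.P
  a3 : ∀ a ≤ e0, ∀ k b : ℕ, e0 + L ≤ k → k ≤ b → b ≤ 2 * e0 + L →
    ∀ m ∈ Finset.Icc (2 * e0 + 3 * L) (3 * e0 + 3 * L),
    q1 * ((∫ ω, phi (D.w h ω) a k ^ β⁻¹ ∂D.P) * ∫ ω, phi (D.w h ω) b m ^ β⁻¹ ∂D.P) ≤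
      ∫ ω, phi (D.w h ω) a k ^ β⁻¹ * phi (D.w h ω) b m ^ β⁻¹ * chi (D.w h ω) e0 L ∂D.P
  a4 : ∀ a ≤ e0, ∀ k b : ℕ, e0 + L ≤ k → k ≤ b → b ≤ 2 * e0 + L →
    ∀ m ∈ Finset.Icc (2 * e0 + 3 * L) (3 * e0 + 3 * L),
    q2 * ((∫ ω, phi (D.w h ω) a k ^ β⁻¹ ∂D.P) * ∫ ω, phi (D.w h ω) b m ^ β⁻¹ ∂D.P) ≤
      ∫ ω, phi (D.w h ω) a k ^ β⁻¹ * phi (D.w h ω) b m ^ β⁻¹ * (1 - chi (D.w h ω) e0 L) ∂D.P

/-- one chain of the bracket -/
theorem adm_chain (hK : KHyp D.K D.α c0 n0) (h0 : 0 ≤ h) (hβ : 1 < β) (cut : ℕ) {a k b m : ℕ}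
    (hak : a ≤ k) (hkb : k ≤ b) (hbm : b ≤ m) :
    Adm D.P β (fun ω => KS D.K cut (k - a) * phi (D.w h ω) a k * G (KS D.K cut) (D.w h ω) k b *
      (KLg D.K cut (m - b) * phi (D.w h ω) b m)) ∧
    nm D.P β (fun ω => KS D.K cut (k - a) * phi (D.w h ω) a k * G (KS D.K cut) (D.w h ω) k b *
      (KLg D.K cut (m - b) * phi (D.w h ω) b m)) =
      KS D.K cut (k - a) * aN D h β (k - a) * gN D h β (KS D.K cut) (b - k) *
        (KLg D.K cut (m - b) * aN D h β (m - b)) := by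
  have hβ0 : 0 < β := by linarith
  have hKS := KS_nonneg hK.nonneg cut (k - a)
  have hKL := KLg_nonneg hK.nonneg cut (m - b)
  have h1 := mul_indep hβ0 (adm_phi hK h0 hβ.le hak)
    (adm_G hK h0 hβ.le (KS_nonneg hK.nonneg cut) (KS_le hK.nonneg cut) hkb)
    (Finset.Ioc_disjoint_Ioc_of_le le_rfl) (phi_loc D h a k) (G_loc (KS D.K cut) D h k b)
  have l1 : Loc (Finset.Ioc a b) (fun ω => phi (D.w h ω) a k * G (KS D.K cut) (D.w h ω) k b) :=
    ((phi_loc D h a k).mono (Finset.Ioc_subset_Ioc_right hkb)).mul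
      ((G_loc (KS D.K cut) D h k b).mono (Finset.Ioc_subset_Ioc_left hak))
  have h2 := mul_indep hβ0 h1.1 (adm_phi hK h0 hβ.le hbm)
    (Finset.Ioc_disjoint_Ioc_of_le le_rfl) l1 (phi_loc D h b m)
  have e : (fun ω => KS D.K cut (k - a) * phi (D.w h ω) a k * G (KS D.K cut) (D.w h ω) k b *
      (KLg D.K cut (m - b) * phi (D.w h ω) b m)) = fun ω => (KS D.K cut (k - a) *
      KLg D.K cut (m - b)) * ((phi (D.w h ω) a k * G (KS D.K cut) (D.w h ω) k b) *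
      phi (D.w h ω) b m) := by
    funext ω; ring
  rw [e]
  refine ⟨h2.1.smul hβ0 (mul_nonneg hKS hKL), ?_⟩
  rw [nm_smul hβ0 h2.1.nn (mul_nonneg hKS hKL), h2.2, h1.2, nm_phi hak, nm_phi hbm, nm_G _ hkb]
  ring

theorem chain_loc (D : Data) (h : ℝ) (cut : ℕ) {a k b m : ℕ} (hak : a ≤ k) (hkb : k ≤ b)
    (hbm : b ≤ m) : Loc (Finset.Ioc a m) (fun ω => KS D.K cut (k - a) * phi (D.w h ω) a k *
      G (KS D.K cut) (D.w h ω) k b * (KLg D.K cut (m - b) * phi (D.w h ω) b m)) := by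
  have e : (fun ω => KS D.K cut (k - a) * phi (D.w h ω) a k * G (KS D.K cut) (D.w h ω) k b *
      (KLg D.K cut (m - b) * phi (D.w h ω) b m)) = fun ω => (KS D.K cut (k - a) *
      KLg D.K cut (m - b)) * ((phi (D.w h ω) a k * G (KS D.K cut) (D.w h ω) k b) *
      phi (D.w h ω) b m) := by
    funext ω; ring
  rw [e]
  refine Loc.smul (Loc.mul (Loc.mul ?_ ?_) ?_) _
  · exact (phi_loc D h a k).mono (Finset.Ioc_subset_Ioc_right (hkb.trans hbm))
  · exact (G_loc (KS D.K cut) D h k b).mono (Finset.Ioc_subset_Ioc hak hbm)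
  · exact (phi_loc D h b m).mono (Finset.Ioc_subset_Ioc_left (hak.trans hkb))

/-- tilted probabilities for a chain -/
theorem chain_tilt (hK : KHyp D.K D.α c0 n0) (h0 : 0 ≤ h) (hβ : 1 < β) (cut : ℕ) {a k b m : ℕ}
    (hak : a ≤ k) (hkb : k ≤ b) (hbm : b ≤ m) {ξ : (ℕ → ℝ) → ℝ} (hξm : Measurable ξ)
    (hξl : Loc (Finset.Ioc a k ∪ Finset.Ioc b m) ξ)
    {q : ℝ} (hq : q * ((∫ ω, phi (D.w h ω) a k ^ β⁻¹ ∂D.P) * ∫ ω, phi (D.w h ω) b m ^ β⁻¹ ∂D.P) ≤
      ∫ ω, phi (D.w h ω) a k ^ β⁻¹ * phi (D.w h ω) b m ^ β⁻¹ * ξ ω ∂D.P) :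
    q * ∫ ω, (KS D.K cut (k - a) * phi (D.w h ω) a k * G (KS D.K cut) (D.w h ω) k b *
      (KLg D.K cut (m - b) * phi (D.w h ω) b m)) ^ β⁻¹ ∂D.P ≤
    ∫ ω, (KS D.K cut (k - a) * phi (D.w h ω) a k * G (KS D.K cut) (D.w h ω) k b *
      (KLg D.K cut (m - b) * phi (D.w h ω) b m)) ^ β⁻¹ * ξ ω ∂D.P := by
  have hβ0 : 0 < β := by linarith
  set A := KS D.K cut (k - a) with hA
  set B := KLg D.K cut (m - b) with hB
  have hA0 : 0 ≤ A := KS_nonneg hK.nonneg cut (k - a)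
  have hB0 : 0 ≤ B := KLg_nonneg hK.nonneg cut (m - b)
  have hG0 : ∀ ω, 0 ≤ G (KS D.K cut) (D.w h ω) k b := fun ω =>
    (M_G.J_G _ (D.w h ω) (KS_nonneg hK.nonneg cut)).2.1 k b
  have hp0 : ∀ ω i j, 0 ≤ phi (D.w h ω) i j := fun ω i j => (phi_pos _ i j).le
  have hpw : ∀ ω, (A * phi (D.w h ω) a k * G (KS D.K cut) (D.w h ω) k b *
      (B * phi (D.w h ω) b m)) ^ β⁻¹ = (A ^ β⁻¹ * B ^ β⁻¹) *
      ((phi (D.w h ω) a k ^ β⁻¹ * phi (D.w h ω) b m ^ β⁻¹) *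
        G (KS D.K cut) (D.w h ω) k b ^ β⁻¹) := by
    intro ω
    rw [Real.mul_rpow (by have := hp0 ω a k; have := hG0 ω; positivity)
      (by have := hp0 ω b m; positivity),
      Real.mul_rpow (by have := hp0 ω a k; positivity) (hG0 ω),
      Real.mul_rpow hA0 (hp0 ω a k), Real.mul_rpow hB0 (hp0 ω b m)]
    ring
  have hpw2 : ∀ ω, (A * phi (D.w h ω) a k * G (KS D.K cut) (D.w h ω) k b *
      (B * phi (D.w h ω) b m)) ^ β⁻¹ * ξ ω = (A ^ β⁻¹ * B ^ β⁻¹) *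
      ((phi (D.w h ω) a k ^ β⁻¹ * phi (D.w h ω) b m ^ β⁻¹ * ξ ω) *
        G (KS D.K cut) (D.w h ω) k b ^ β⁻¹) := by
    intro ω
    rw [hpw]; ring
  simp only [hpw2]
  simp only [hpw]
  rw [integral_const_mul, integral_const_mul]
  have hdisj : Disjoint (Finset.Ioc a k ∪ Finset.Ioc b m) (Finset.Ioc k b) := by
    rw [Finset.disjoint_union_left]
    exact ⟨Finset.Ioc_disjoint_Ioc_of_le le_rfl, (Finset.Ioc_disjoint_Ioc_of_le le_rfl).symm⟩
  have hmP : ∀ i j, Measurable (fun ω => phi (D.w h ω) i j ^ β⁻¹) := fun i j =>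
    (meas_phi D h i j).pow_const _
  have hmG : Measurable (fun ω => G (KS D.K cut) (D.w h ω) k b ^ β⁻¹) :=
    (meas_Gk (KS D.K cut) D h _ k b rfl).pow_const _
  have hGl : ∀ ω ω' : ℕ → ℝ, (∀ n ∈ Finset.Ioc k b, ω n = ω' n) →
      G (KS D.K cut) (D.w h ω) k b ^ β⁻¹ = G (KS D.K cut) (D.w h ω') k b ^ β⁻¹ := by
    intro ω ω' hh
    have := G_loc (KS D.K cut) D h k b ω ω' hh
    simp only at this
    rw [this]
  have hPl : ∀ ω ω' : ℕ → ℝ, (∀ n ∈ Finset.Ioc a k ∪ Finset.Ioc b m, ω n = ω' n) →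
      phi (D.w h ω) a k ^ β⁻¹ * phi (D.w h ω) b m ^ β⁻¹ =
      phi (D.w h ω') a k ^ β⁻¹ * phi (D.w h ω') b m ^ β⁻¹ := by
    intro ω ω' hh
    have h1 := phi_loc D h a k ω ω' fun n hn => hh n (Finset.mem_union_left _ hn)
    have h2 := phi_loc D h b m ω ω' fun n hn => hh n (Finset.mem_union_right _ hn)
    simp only at h1 h2
    rw [h1, h2]
  have i1 : IndepFun (fun ω => phi (D.w h ω) a k ^ β⁻¹ * phi (D.w h ω) b m ^ β⁻¹)
      (fun ω => G (KS D.K cut) (D.w h ω) k b ^ β⁻¹) (disorder D.ν) :=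
    M_indep.J_indep D.ν _ _ hdisj _ _ ((hmP a k).mul (hmP b m)) hmG hPl hGl
  have i2 : IndepFun (fun ω => phi (D.w h ω) a k ^ β⁻¹ * phi (D.w h ω) b m ^ β⁻¹ * ξ ω)
      (fun ω => G (KS D.K cut) (D.w h ω) k b ^ β⁻¹) (disorder D.ν) := by
    refine M_indep.J_indep D.ν _ _ hdisj _ _ (((hmP a k).mul (hmP b m)).mul hξm) hmG ?_ hGl
    intro ω ω' hh
    have h1 := hPl ω ω' hh
    have h2 := hξl ω ω' hh
    rw [h1, h2]
  have i3 : IndepFun (fun ω => phi (D.w h ω) a k ^ β⁻¹) (fun ω => phi (D.w h ω) b m ^ β⁻¹)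
      (disorder D.ν) := by
    refine M_indep.J_indep D.ν (Finset.Ioc a k) (Finset.Ioc b m)
      (Finset.Ioc_disjoint_Ioc_of_le hkb) _ _ (hmP a k) (hmP b m) ?_ ?_
    · intro ω ω' hh
      have h1 := phi_loc D h a k ω ω' hh
      simp only at h1
      rw [h1]
    · intro ω ω' hh
      have h1 := phi_loc D h b m ω ω' hh
      simp only at h1
      rw [h1]
  have j1 := i1.integral_fun_mul_eq_mul_integral ((hmP a k).mul (hmP b m)).aestronglyMeasurable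
    hmG.aestronglyMeasurable
  have j2 := i2.integral_fun_mul_eq_mul_integral
    (((hmP a k).mul (hmP b m)).mul hξm).aestronglyMeasurable hmG.aestronglyMeasurable
  have j3 := i3.integral_fun_mul_eq_mul_integral (hmP a k).aestronglyMeasurable
    (hmP b m).aestronglyMeasurable
  have hP : D.P = disorder D.ν := rfl
  rw [hP] at hq ⊢
  rw [j1, j2, j3]
  have hg0 : 0 ≤ ∫ ω, G (KS D.K cut) (D.w h ω) k b ^ β⁻¹ ∂(disorder D.ν) :=
    integral_nonneg fun ω => Real.rpow_nonneg (hG0 ω) _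
  have hAB : 0 ≤ A ^ β⁻¹ * B ^ β⁻¹ := by positivity
  calc _ = (A ^ β⁻¹ * B ^ β⁻¹) * ((q * ((∫ ω, phi (D.w h ω) a k ^ β⁻¹ ∂(disorder D.ν)) *
        ∫ ω, phi (D.w h ω) b m ^ β⁻¹ ∂(disorder D.ν))) *
        ∫ ω, G (KS D.K cut) (D.w h ω) k b ^ β⁻¹ ∂(disorder D.ν)) := by ring
    _ ≤ _ := mul_le_mul_of_nonneg_left (mul_le_mul_of_nonneg_right hq hg0) hAB

theorem mem_Pr {e0 L : ℕ} {p : ℕ × ℕ} (hp : p ∈ Pr e0 L) :
    e0 + L ≤ p.1 ∧ p.1 ≤ p.2 ∧ p.2 ≤ 2 * e0 + L := by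
  unfold Pr at hp
  simp only [Finset.mem_filter, Finset.mem_product, Finset.mem_Icc] at hp
  omega

/-- the gain of the bracket -/
theorem Br_gain (hK : KHyp D.K D.α c0 n0) (h0 : 0 ≤ h) (hβ : 1 < β) (cut : ℕ) {e0 L a m : ℕ}
    (ha : a ≤ e0) (hm : m ∈ Finset.Icc (2 * e0 + 3 * L) (3 * e0 + 3 * L))
    {p1 p2 q1 q2 c : ℝ} (hp1 : 0 ≤ p1) (hp2 : 0 ≤ p2) (hq1 : 0 ≤ q1) (hq2 : 0 ≤ q2) (hc : 0 ≤ c)
    (hT : Tilt D h β e0 L p1 p2 q1 q2)
    (hnum : (2 + c) ^ β⁻¹ ≤ (p1 ^ β + q1 ^ β) ^ β⁻¹ + (p2 ^ β + q2 ^ β) ^ β⁻¹)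
    (hx0 : 0 < KLg D.K cut (m - a) * aN D h β (m - a)) (hy0 : 0 < yS D h β cut e0 L a m) :
    KLg D.K cut (m - a) * aN D h β (m - a) + yS D h β cut e0 L a m +
      c * min (KLg D.K cut (m - a) * aN D h β (m - a)) (yS D h β cut e0 L a m) ≤
      nm D.P β (fun ω => Br D.K (D.w h ω) cut e0 L a m) := by
  have hβ0 : 0 < β := by linarith
  have hm' := Finset.mem_Icc.1 hm
  have ham : a ≤ m := by omega
  have hX1 := adm_phi (β := β) hK h0 hβ.le ham
  have hKL := KLg_nonneg hK.nonneg cut (m - a)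
  have hX : Adm D.P β (fun ω => KLg D.K cut (m - a) * phi (D.w h ω) a m) := hX1.smul hβ0 hKL
  have hxn : nm D.P β (fun ω => KLg D.K cut (m - a) * phi (D.w h ω) a m) =
      KLg D.K cut (m - a) * aN D h β (m - a) := by
    rw [nm_smul hβ0 hX1.nn hKL, nm_phi ham]
  set Z : ℕ × ℕ → (ℕ → ℝ) → ℝ := fun p ω => KS D.K cut (p.1 - a) * phi (D.w h ω) a p.1 *
    G (KS D.K cut) (D.w h ω) p.1 p.2 * (KLg D.K cut (m - p.2) * phi (D.w h ω) p.2 m) with hZ
  have hZa : ∀ p ∈ Pr e0 L, Adm D.P β (Z p) ∧ nm D.P β (Z p) =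
      KS D.K cut (p.1 - a) * aN D h β (p.1 - a) * gN D h β (KS D.K cut) (p.2 - p.1) *
        (KLg D.K cut (m - p.2) * aN D h β (m - p.2)) := by
    intro p hp
    have := mem_Pr hp
    exact adm_chain hK h0 hβ cut (by omega) (by omega) (by omega)
  set y := ∑ p ∈ Pr e0 L, nm D.P β (Z p) with hy
  have hyS : yS D h β cut e0 L a m ≤ y := by
    rw [hy]
    unfold yS
    refine Finset.sum_le_sum fun p hp => ?_
    rw [(hZa p hp).2]
    have h1 := gN_ge_u hK h0 hβ (KS_nonneg hK.nonneg cut) (KS_le hK.nonneg cut) (p.2 - p.1)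
    have h2 := rS_nonneg (h := h) (β := β) hK.nonneg cut (p.1 - a)
    have h3 : 0 ≤ KLg D.K cut (m - p.2) * aN D h β (m - p.2) :=
      mul_nonneg (KLg_nonneg hK.nonneg _ _) (aN_nonneg _)
    exact mul_le_mul_of_nonneg_right (mul_le_mul_of_nonneg_left h1 h2) h3
  have hchi_l : ∀ k b : ℕ, e0 + L ≤ k → b ≤ 2 * e0 + L →
      Loc (Finset.Ioc a k ∪ Finset.Ioc b m) (fun ω => chi (D.w h ω) e0 L) := by
    intro k b hk hb ω ω' hh
    apply chi_congr
    · intro n hn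
      apply hh
      rw [Finset.mem_Ioc] at hn
      rw [Finset.mem_union, Finset.mem_Ioc]
      left; omega
    · intro n hn
      apply hh
      rw [Finset.mem_Ioc] at hn
      rw [Finset.mem_union, Finset.mem_Ioc, Finset.mem_Ioc]
      right; omega
  have hgain := split_gain (P := D.P) hβ (Pr e0 L) Z hX (fun p hp => (hZa p hp).1)
    (chi_meas D h e0 L) (fun ω => chi_nonneg _ e0 L) (fun ω => chi_le_one _ e0 L)
    (p1 := p1) (p2 := p2) (q1 := q1) (q2 := q2) (c := c)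
    (x := KLg D.K cut (m - a) * aN D h β (m - a)) (y := y) hxn.symm hy hx0
    (lt_of_lt_of_le hy0 hyS) hp1 hp2 hq1 hq2 hc
    (by
      have e1 : ∀ ω, (KLg D.K cut (m - a) * phi (D.w h ω) a m) ^ β⁻¹ =
          KLg D.K cut (m - a) ^ β⁻¹ * phi (D.w h ω) a m ^ β⁻¹ := fun ω =>
        Real.mul_rpow hKL (phi_pos _ a m).le
      simp only [e1, mul_assoc]
      rw [integral_const_mul, integral_const_mul]
      have := mul_le_mul_of_nonneg_left (hT.a1 a ha m hm)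
        (show 0 ≤ KLg D.K cut (m - a) ^ β⁻¹ by positivity)
      linarith)
    (by
      have e1 : ∀ ω, (KLg D.K cut (m - a) * phi (D.w h ω) a m) ^ β⁻¹ =
          KLg D.K cut (m - a) ^ β⁻¹ * phi (D.w h ω) a m ^ β⁻¹ := fun ω =>
        Real.mul_rpow hKL (phi_pos _ a m).le
      simp only [e1, mul_assoc]
      rw [integral_const_mul, integral_const_mul]
      have := mul_le_mul_of_nonneg_left (hT.a2 a ha m hm)
        (show 0 ≤ KLg D.K cut (m - a) ^ β⁻¹ by positivity)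
      linarith)
    (by
      intro p hp
      have := mem_Pr hp
      exact chain_tilt hK h0 hβ cut (by omega) (by omega) (by omega) (chi_meas D h e0 L)
        (hchi_l p.1 p.2 (by omega) (by omega)) (hT.a3 a ha p.1 p.2 (by omega) (by omega)
          (by omega) m hm))
    (by
      intro p hp
      have := mem_Pr hp
      refine chain_tilt hK h0 hβ cut (by omega) (by omega) (by omega)
        ((chi_meas D h e0 L).const_sub 1) ?_ (hT.a4 a ha p.1 p.2 (by omega) (by omega)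
          (by omega) m hm)
      intro ω ω' hh
      have := hchi_l p.1 p.2 (by omega) (by omega) ω ω' hh
      simp only at this
      show 1 - chi (D.w h ω) e0 L = 1 - chi (D.w h ω') e0 L
      rw [this])
    hnum
  have e2 : (fun ω => Br D.K (D.w h ω) cut e0 L a m) = fun ω =>
      KLg D.K cut (m - a) * phi (D.w h ω) a m + ∑ p ∈ Pr e0 L, Z p ω := rfl
  rw [e2]
  refine le_trans ?_ hgain
  have h5 : min (KLg D.K cut (m - a) * aN D h β (m - a)) (yS D h β cut e0 L a m) ≤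
      min (KLg D.K cut (m - a) * aN D h β (m - a)) y := min_le_min le_rfl hyS
  have h6 := mul_le_mul_of_nonneg_left h5 hc
  linarith

theorem adm_Br (hK : KHyp D.K D.α c0 n0) (h0 : 0 ≤ h) (hβ : 1 < β) (cut : ℕ) {e0 L a m : ℕ}
    (ha : a ≤ e0) (hm : 2 * e0 + L ≤ m) :
    Adm D.P β (fun ω => Br D.K (D.w h ω) cut e0 L a m) ∧
      Loc (Finset.Ioc a m) (fun ω => Br D.K (D.w h ω) cut e0 L a m) := by
  have hβ0 : 0 < β := by linarith
  constructor
  · unfold Br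
    refine Adm.add hβ0 ((adm_phi hK h0 hβ.le (by omega)).smul hβ0 (KLg_nonneg hK.nonneg _ _))
      (Adm.sum hβ0 _ _ fun p hp => ?_)
    have := mem_Pr hp
    exact (adm_chain hK h0 hβ cut (by omega) (by omega) (by omega)).1
  · intro ω ω' hh
    simp only [Br]
    have h1 := phi_loc D h a m ω ω' hh
    simp only at h1
    rw [h1]
    congr 1
    refine Finset.sum_congr rfl fun p hp => ?_
    have := mem_Pr hp
    exact chain_loc D h cut (show a ≤ p.1 by omega) (show p.1 ≤ p.2 by omega)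
      (show p.2 ≤ m by omega) ω ω' hh

/-- the norm of a cluster with its long excursion exceeds the scalar value -/
theorem sN_gain (hK : KHyp D.K D.α c0 n0) (h0 : 0 ≤ h) (hβ : 1 < β) (cut : ℕ) {e0 L m : ℕ}
    (hL : 1 ≤ L) (hm : m ∈ Finset.Icc (2 * e0 + 3 * L) (3 * e0 + 3 * L))
    {p1 p2 q1 q2 c : ℝ} (hp1 : 0 ≤ p1) (hp2 : 0 ≤ p2) (hq1 : 0 ≤ q1) (hq2 : 0 ≤ q2) (hc : 0 ≤ c)
    (hT : Tilt D h β e0 L p1 p2 q1 q2)
    (hnum : (2 + c) ^ β⁻¹ ≤ (p1 ^ β + q1 ^ β) ^ β⁻¹ + (p2 ^ β + q2 ^ β) ^ β⁻¹)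
    (hx0 : ∀ a ≤ e0, 0 < KLg D.K cut (m - a) * aN D h β (m - a))
    (hy0 : ∀ a ≤ e0, 0 < yS D h β cut e0 L a m) :
    vS D h β cut m + c * ∑ a ∈ Finset.Icc 0 e0, uS D h β cut a *
      min (KLg D.K cut (m - a) * aN D h β (m - a)) (yS D h β cut e0 L a m) ≤
      sN D h β cut m := by
  have hβ0 : 0 < β := by linarith
  have hm' := Finset.mem_Icc.1 hm
  have hKS := KS_nonneg hK.nonneg cut
  have hKSle := KS_le hK.nonneg cut
  rw [vS_split hK.nonneg cut (show 2 * e0 + L < m by omega) hL]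
  -- the three families
  set T1 : ℕ → (ℕ → ℝ) → ℝ := fun a ω => G (KS D.K cut) (D.w h ω) 0 a *
    Br D.K (D.w h ω) cut e0 L a m with hT1
  have a1 : ∀ a ∈ Finset.Icc 0 e0, Adm D.P β (T1 a) ∧ nm D.P β (T1 a) =
      gN D h β (KS D.K cut) a * nm D.P β (fun ω => Br D.K (D.w h ω) cut e0 L a m) := by
    intro a ha
    rw [Finset.mem_Icc] at ha
    have hb := adm_Br hK h0 hβ cut (L := L) (m := m) ha.2 (by omega)
    have := mul_indep hβ0 (adm_G hK h0 hβ.le hKS hKSle (Nat.zero_le a)) hb.1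
      (Finset.Ioc_disjoint_Ioc_of_le le_rfl) (G_loc (KS D.K cut) D h 0 a) hb.2
    exact this
  set T2 : ℕ → ℕ → ℕ → (ℕ → ℝ) → ℝ := fun b a k ω => G (KS D.K cut) (D.w h ω) 0 a *
    (KS D.K cut (k - a) * phi (D.w h ω) a k) * G (KS D.K cut) (D.w h ω) k b *
    (KLg D.K cut (m - b) * phi (D.w h ω) b m) with hT2
  have a2 : ∀ b ∈ Finset.Icc (e0 + L) (2 * e0 + L), ∀ a ∈ Finset.Icc 0 e0,
      ∀ k ∈ Finset.Ioo e0 (e0 + L), Adm D.P β (T2 b a k) ∧ nm D.P β (T2 b a k) =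
      gN D h β (KS D.K cut) a * (KS D.K cut (k - a) * aN D h β (k - a) *
        gN D h β (KS D.K cut) (b - k) * (KLg D.K cut (m - b) * aN D h β (m - b))) := by
    intro b hb a ha k hk
    rw [Finset.mem_Icc] at hb ha
    rw [Finset.mem_Ioo] at hk
    have hch := adm_chain (D := D) (β := β) hK h0 hβ cut (a := a) (k := k) (b := b) (m := m)
      (by omega) (by omega) (by omega)
    have hl := chain_loc D h cut (a := a) (k := k) (b := b) (m := m) (by omega) (by omega) (by omega)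
    have := mul_indep hβ0 (adm_G hK h0 hβ.le hKS hKSle (Nat.zero_le a)) hch.1
      (Finset.Ioc_disjoint_Ioc_of_le le_rfl) (G_loc (KS D.K cut) D h 0 a) hl
    have e : T2 b a k = fun ω => G (KS D.K cut) (D.w h ω) 0 a * (KS D.K cut (k - a) *
        phi (D.w h ω) a k * G (KS D.K cut) (D.w h ω) k b *
        (KLg D.K cut (m - b) * phi (D.w h ω) b m)) := by
      funext ω
      simp only [hT2]
      ring
    rw [e]
    refine ⟨this.1, ?_⟩
    rw [this.2, hch.2]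
    rfl
  set T3 : ℕ → (ℕ → ℝ) → ℝ := fun a ω => G (KS D.K cut) (D.w h ω) 0 a *
    (KLg D.K cut (m - a) * phi (D.w h ω) a m) with hT3
  have a3 : ∀ a ∈ Fr e0 L m, Adm D.P β (T3 a) ∧ nm D.P β (T3 a) =
      gN D h β (KS D.K cut) a * (KLg D.K cut (m - a) * aN D h β (m - a)) := by
    intro a ha
    have ham : a ≤ m := by
      unfold Fr at ha
      simp only [Finset.mem_filter, Finset.mem_Ico] at ha
      omega
    have e : T3 a = fun ω => G (KS D.K cut) (D.w h ω) 0 a * KLg D.K cut (m - a) *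
        phi (D.w h ω) a m := by
      funext ω
      simp only [hT3]
      ring
    rw [e]
    exact adm_term hK h0 hβ cut ham
  have hS1 := Adm.sum hβ0 (Finset.Icc 0 e0) T1 fun a ha => (a1 a ha).1
  have hS2 : Adm D.P β (fun ω => ∑ b ∈ Finset.Icc (e0 + L) (2 * e0 + L), ∑ a ∈ Finset.Icc 0 e0,
      ∑ k ∈ Finset.Ioo e0 (e0 + L), T2 b a k ω) :=
    Adm.sum hβ0 _ _ fun b hb => Adm.sum hβ0 _ _ fun a ha => Adm.sum hβ0 _ _ fun k hk =>
      (a2 b hb a ha k hk).1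
  have hS3 := Adm.sum hβ0 (Fr e0 L m) T3 fun a ha => (a3 a ha).1
  have e4 : sN D h β cut m = nm D.P β (fun ω => ∑ a ∈ Finset.Icc 0 e0, T1 a ω +
      (∑ b ∈ Finset.Icc (e0 + L) (2 * e0 + L), ∑ a ∈ Finset.Icc 0 e0,
      ∑ k ∈ Finset.Ioo e0 (e0 + L), T2 b a k ω + ∑ a ∈ Fr e0 L m, T3 a ω)) := by
    unfold sN
    congr 1
    funext ω
    exact Vm_split hK.nonneg cut (by omega) hL
  rw [e4]
  have n1 := nm_add hβ hS1 (hS2.add hβ0 hS3)
  have n2 := nm_add hβ hS2 hS3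
  have n3 := nm_sum hβ (Finset.Icc 0 e0) T1 fun a ha => (a1 a ha).1
  have n4 : ∑ b ∈ Finset.Icc (e0 + L) (2 * e0 + L), ∑ a ∈ Finset.Icc 0 e0,
      ∑ k ∈ Finset.Ioo e0 (e0 + L), nm D.P β (T2 b a k) ≤
      nm D.P β (fun ω => ∑ b ∈ Finset.Icc (e0 + L) (2 * e0 + L), ∑ a ∈ Finset.Icc 0 e0,
      ∑ k ∈ Finset.Ioo e0 (e0 + L), T2 b a k ω) := by
    refine le_trans ?_ (nm_sum hβ _ _ fun b hb => Adm.sum hβ0 _ _ fun a ha =>
      Adm.sum hβ0 _ _ fun k hk => (a2 b hb a ha k hk).1)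
    refine Finset.sum_le_sum fun b hb => ?_
    refine le_trans ?_ (nm_sum hβ _ _ fun a ha => Adm.sum hβ0 _ _ fun k hk =>
      (a2 b hb a ha k hk).1)
    refine Finset.sum_le_sum fun a ha => ?_
    exact nm_sum hβ _ _ fun k hk => (a2 b hb a ha k hk).1
  have n5 := nm_sum hβ (Fr e0 L m) T3 fun a ha => (a3 a ha).1
  have hu := gN_ge_u hK h0 hβ hKS hKSle
  have hu0 : ∀ n, 0 ≤ uS D h β cut n := uS_nonneg hK.nonneg cut
  have hxx : ∀ n, 0 ≤ KLg D.K cut n * aN D h β n := fun n =>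
    mul_nonneg (KLg_nonneg hK.nonneg _ _) (aN_nonneg _)
  have s1 : ∑ a ∈ Finset.Icc 0 e0, uS D h β cut a *
      (KLg D.K cut (m - a) * aN D h β (m - a) + yS D h β cut e0 L a m) +
      c * ∑ a ∈ Finset.Icc 0 e0, uS D h β cut a *
      min (KLg D.K cut (m - a) * aN D h β (m - a)) (yS D h β cut e0 L a m) ≤
      ∑ a ∈ Finset.Icc 0 e0, nm D.P β (T1 a) := by
    rw [Finset.mul_sum, ← Finset.sum_add_distrib]
    refine Finset.sum_le_sum fun a ha => ?_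
    rw [(a1 a ha).2]
    rw [Finset.mem_Icc] at ha
    have g1 := Br_gain hK h0 hβ cut ha.2 hm hp1 hp2 hq1 hq2 hc hT hnum (hx0 a ha.2) (hy0 a ha.2)
    have g2 : 0 ≤ nm D.P β (fun ω => Br D.K (D.w h ω) cut e0 L a m) :=
      nm_nonneg (adm_Br hK h0 hβ cut (L := L) (m := m) ha.2 (by omega)).1.nn
    calc _ = uS D h β cut a * (KLg D.K cut (m - a) * aN D h β (m - a) + yS D h β cut e0 L a m +
          c * min (KLg D.K cut (m - a) * aN D h β (m - a)) (yS D h β cut e0 L a m)) := by ring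
      _ ≤ uS D h β cut a * nm D.P β (fun ω => Br D.K (D.w h ω) cut e0 L a m) :=
          mul_le_mul_of_nonneg_left g1 (hu0 a)
      _ ≤ _ := mul_le_mul_of_nonneg_right (hu a) g2
  have s2 : ∑ b ∈ Finset.Icc (e0 + L) (2 * e0 + L), ∑ a ∈ Finset.Icc 0 e0,
        ∑ k ∈ Finset.Ioo e0 (e0 + L), uS D h β cut a * (KS D.K cut (k - a) * aN D h β (k - a)) *
          uS D h β cut (b - k) * (KLg D.K cut (m - b) * aN D h β (m - b)) ≤
      ∑ b ∈ Finset.Icc (e0 + L) (2 * e0 + L), ∑ a ∈ Finset.Icc 0 e0,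
      ∑ k ∈ Finset.Ioo e0 (e0 + L), nm D.P β (T2 b a k) := by
    refine Finset.sum_le_sum fun b hb => Finset.sum_le_sum fun a ha =>
      Finset.sum_le_sum fun k hk => ?_
    rw [(a2 b hb a ha k hk).2]
    have g1 := hu a
    have g2 := hu (b - k)
    have g3 := rS_nonneg (h := h) (β := β) hK.nonneg cut (k - a)
    have g4 := hxx (m - b)
    have g5 : 0 ≤ uS D h β cut a := hu0 a
    have g6 : 0 ≤ uS D h β cut (b - k) := hu0 (b - k)
    have g7 : 0 ≤ gN D h β (KS D.K cut) (b - k) := gN_nonneg hKS _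
    calc uS D h β cut a * (KS D.K cut (k - a) * aN D h β (k - a)) *
          uS D h β cut (b - k) * (KLg D.K cut (m - b) * aN D h β (m - b))
        = uS D h β cut a * ((KS D.K cut (k - a) * aN D h β (k - a)) *
          uS D h β cut (b - k) * (KLg D.K cut (m - b) * aN D h β (m - b))) := by ring
      _ ≤ gN D h β (KS D.K cut) a * ((KS D.K cut (k - a) * aN D h β (k - a)) *
          uS D h β cut (b - k) * (KLg D.K cut (m - b) * aN D h β (m - b))) :=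
          mul_le_mul_of_nonneg_right g1 (mul_nonneg (mul_nonneg g3 g6) g4)
      _ ≤ _ := by
          apply mul_le_mul_of_nonneg_left _ (gN_nonneg hKS _)
          exact mul_le_mul_of_nonneg_right (mul_le_mul_of_nonneg_left g2 g3) g4
  have s3 : ∑ a ∈ Fr e0 L m, uS D h β cut a * (KLg D.K cut (m - a) * aN D h β (m - a)) ≤
      ∑ a ∈ Fr e0 L m, nm D.P β (T3 a) := by
    refine Finset.sum_le_sum fun a ha => ?_
    rw [(a3 a ha).2]
    exact mul_le_mul_of_nonneg_right (hu a) (hxx _)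
  linarith

/-- plain lower bound -/
theorem sN_ge_vS (hK : KHyp D.K D.α c0 n0) (h0 : 0 ≤ h) (hβ : 1 < β) (cut m : ℕ) :
    vS D h β cut m ≤ sN D h β cut m := by
  have h1 := nm_sum hβ (Finset.Ico 0 m) (fun a ω => G (KS D.K cut) (D.w h ω) 0 a *
    KLg D.K cut (m - a) * phi (D.w h ω) a m)
    fun a ha => (adm_term hK h0 hβ cut (Finset.mem_Ico.1 ha).2.le).1
  unfold sN Vm
  refine le_trans ?_ h1
  unfold vS
  refine Finset.sum_le_sum fun a ha => ?_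
  rw [(adm_term hK h0 hβ cut (Finset.mem_Ico.1 ha).2.le).2]
  exact mul_le_mul_of_nonneg_right
    (gN_ge_u hK h0 hβ (KS_nonneg hK.nonneg cut) (KS_le hK.nonneg cut) a)
    (mul_nonneg (KLg_nonneg hK.nonneg _ _) (aN_nonneg _))

end Pool.Agent.TH983
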