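import Pool.Agent.TH983.Transfer1

/-!
# Central limit theorem for one block as `λ → 0`
-/

set_option autoImplicit false
set_option maxHeartbeats 4000000
open MeasureTheory ProbabilityTheory Filter Topology
open scoped ENNReal NNReal

namespace Pool.Agent.TH983
open Cop764

/-- block length -/
noncomputable def Lb (lam : ℝ) : ℕ := ⌊(lam ^ 2)⁻¹⌋₊

theorem Lb_tendsto : Tendsto Lb (𝓝[>] 0) atTop := by
  have h1 : Tendsto (fun lam : ℝ => lam ^ 2) (𝓝[>] 0) (𝓝[>] 0) := by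
    apply tendsto_nhdsWithin_iff.2
    constructor
    · have : Tendsto (fun lam : ℝ => lam ^ 2) (𝓝 0) (𝓝 (0 ^ 2)) := (continuous_pow 2).tendsto 0
      rw [zero_pow two_ne_zero] at this
      exact this.mono_left nhdsWithin_le_nhds
    · filter_upwards [self_mem_nhdsWithin] with lam hlam
      exact pow_pos (Set.mem_Ioi.1 hlam) 2
  have h2 : Tendsto (fun lam : ℝ => (lam ^ 2)⁻¹) (𝓝[>] 0) atTop := tendsto_inv_nhdsGT_zero.comp h1
  exact tendsto_nat_floor_atTop.comp h2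

theorem Lb_le {lam : ℝ} (hlam : 0 < lam) : lam ^ 2 * (Lb lam : ℝ) ≤ 1 := by
  have h1 : (Lb lam : ℝ) ≤ (lam ^ 2)⁻¹ := Nat.floor_le (by positivity)
  calc lam ^ 2 * (Lb lam : ℝ) ≤ lam ^ 2 * (lam ^ 2)⁻¹ := mul_le_mul_of_nonneg_left h1 (by positivity)
    _ = 1 := mul_inv_cancel₀ (by positivity)

theorem Lb_ge {lam : ℝ} (hlam : 0 < lam) : 1 - lam ^ 2 ≤ lam ^ 2 * (Lb lam : ℝ) := by
  have h1 : (lam ^ 2)⁻¹ < (Lb lam : ℝ) + 1 := Nat.lt_floor_add_one _
  have h2 : lam ^ 2 * (lam ^ 2)⁻¹ = 1 := mul_inv_cancel₀ (by positivity)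
  have h3 : lam ^ 2 * (lam ^ 2)⁻¹ ≤ lam ^ 2 * ((Lb lam : ℝ) + 1) :=
    mul_le_mul_of_nonneg_left h1.le (by positivity)
  linarith

theorem Lb_lim : Tendsto (fun lam : ℝ => lam ^ 2 * (Lb lam : ℝ)) (𝓝[>] 0) (𝓝 1) := by
  have h1 : Tendsto (fun lam : ℝ => 1 - lam ^ 2) (𝓝[>] 0) (𝓝 1) := by
    have : Tendsto (fun lam : ℝ => 1 - lam ^ 2) (𝓝 0) (𝓝 (1 - 0 ^ 2)) :=
      (continuous_const.sub (continuous_pow 2)).tendsto 0
    simp only [ne_eq, OfNat.ofNat_ne_zero, not_false_eq_true, zero_pow, sub_zero] at this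
    exact this.mono_left nhdsWithin_le_nhds
  refine tendsto_of_tendsto_of_tendsto_of_le_of_le' h1 tendsto_const_nhds ?_ ?_
  · filter_upwards [self_mem_nhdsWithin] with lam hlam
    exact Lb_ge hlam
  · filter_upwards [self_mem_nhdsWithin] with lam hlam
    exact Lb_le hlam

theorem Yb_zero (lam ρ : ℝ) (ω : ℕ → ℝ) (L : ℕ) :
    Yb (wt lam (ρ * lam) ω) L 0 =
      -2 * lam * ∑ k ∈ Finset.range L, ω (k + 1) - 2 * ρ * (lam ^ 2 * L) := by
  unfold Yb S wt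
  rw [Nat.zero_mul, Nat.zero_add, Nat.one_mul, ← Finset.mul_sum, Finset.sum_add_distrib]
  have : ∑ n ∈ Finset.Ioc 0 L, ω n = ∑ k ∈ Finset.range L, ω (k + 1) := by
    rw [Finset.range_eq_Ico, Finset.sum_Ico_add' (fun k => ω k) 0 L 1]
    rfl
  rw [this]
  simp only [Finset.sum_const, Nat.card_Ioc, nsmul_eq_mul]
  rw [Nat.sub_zero]
  ring

/-- law of one block of the disorder -/
noncomputable def muP (ν : Measure ℝ) [IsProbabilityMeasure ν] (ρ lam : ℝ) : ProbabilityMeasure ℝ :=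
  ⟨(disorder ν).map (fun ω => Yb (wt lam (ρ * lam) ω) (Lb lam) 0),
    Measure.isProbabilityMeasure_map (Yb_meas _ _ _ _).aemeasurable⟩

/-- law of one Gaussian block -/
noncomputable def gamP (ρ : ℝ) : ProbabilityMeasure ℝ := ⟨gam ρ, inferInstance⟩

theorem clt_block (ν : Measure ℝ) [IsProbabilityMeasure ν] (hmean : ∫ x, x ∂ν = 0)
    (hvar : ∫ x, x ^ 2 ∂ν = 1) (ρ : ℝ) :
    Tendsto (muP ν ρ) (𝓝[>] 0) (𝓝 (gamP ρ)) := by
  set P := disorder ν with hP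
  have hev : ∀ n : ℕ, MeasurePreserving (fun ω : ℕ → ℝ => ω n) P ν := by
    intro n
    have := measurePreserving_eval_infinitePi (fun _ : ℕ => ν) n
    rw [hP]
    unfold disorder
    exact this
  have hI : iIndepFun (fun (i : ℕ) (ω : ℕ → ℝ) => ω i) P := by
    rw [hP]
    unfold disorder
    exact iIndepFun_infinitePi (X := fun _ (x : ℝ) => x) (fun _ => measurable_id)
  have hI' : iIndepFun (fun (i : ℕ) (ω : ℕ → ℝ) => ω (i + 1)) P :=
    hI.precomp (g := fun i => i + 1) (add_left_injective 1)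
  have hid : ∀ i : ℕ, IdentDistrib (fun ω : ℕ → ℝ => ω (i + 1)) (fun ω : ℕ → ℝ => ω (0 + 1)) P P := by
    intro i
    refine ⟨(measurable_pi_apply _).aemeasurable, (measurable_pi_apply _).aemeasurable, ?_⟩
    rw [(hev (i + 1)).map_eq, (hev (0 + 1)).map_eq]
  have h0 : ∫ ω, ω (0 + 1) ∂P = 0 := by
    rw [← hmean, ← (hev (0 + 1)).map_eq,
      integral_map (measurable_pi_apply _).aemeasurable (by fun_prop)]
  have h1 : ∫ ω, (ω (0 + 1)) ^ 2 ∂P = 1 := by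
    rw [← hvar, ← (hev (0 + 1)).map_eq,
      integral_map (measurable_pi_apply _).aemeasurable (by fun_prop)]
  have hZ : HasLaw (fun z : ℝ => z) (gaussianReal 0 1) (gaussianReal 0 1) :=
    ⟨aemeasurable_id', by simp [Measure.map_id']⟩
  have hclt := tendstoInDistribution_inv_sqrt_mul_sum (P := P) (P' := gaussianReal 0 1)
    (X := fun (i : ℕ) (ω : ℕ → ℝ) => ω (i + 1)) (Y := fun z : ℝ => z) hZ h0 h1 hI' hid
  -- compose with the block length
  have hcomp : TendstoInDistribution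
      (fun (lam : ℝ) (ω : ℕ → ℝ) => (√(Lb lam))⁻¹ * ∑ k ∈ Finset.range (Lb lam), ω (k + 1))
      (𝓝[>] 0) (fun z : ℝ => z) (fun _ => P) (gaussianReal 0 1) :=
    ⟨fun lam => hclt.forall_aemeasurable (Lb lam), hclt.aemeasurable_limit,
      hclt.tendsto.comp Lb_tendsto⟩
  -- constants
  have hc : Tendsto (fun lam : ℝ => ((-2 * √(lam ^ 2 * (Lb lam : ℝ)),
      -2 * ρ * (lam ^ 2 * (Lb lam : ℝ))) : ℝ × ℝ)) (𝓝[>] 0) (𝓝 (-2, -2 * ρ)) := by
    apply Tendsto.prodMk_nhds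
    · have := (Lb_lim.sqrt).const_mul (-2)
      rw [Real.sqrt_one, mul_one] at this
      exact this
    · have := Lb_lim.const_mul (-2 * ρ)
      rw [mul_one] at this
      exact this
  have hcm : TendstoInMeasure P (fun (lam : ℝ) (_ : ℕ → ℝ) => ((-2 * √(lam ^ 2 * (Lb lam : ℝ)),
      -2 * ρ * (lam ^ 2 * (Lb lam : ℝ))) : ℝ × ℝ)) (𝓝[>] 0) (fun _ => ((-2, -2 * ρ) : ℝ × ℝ)) := by
    intro ε hε
    apply tendsto_const_nhds.congr'
    have h2 : ∀ᶠ lam in 𝓝[>] (0 : ℝ), edist ((-2 * √(lam ^ 2 * (Lb lam : ℝ)),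
      -2 * ρ * (lam ^ 2 * (Lb lam : ℝ))) : ℝ × ℝ) (-2, -2 * ρ) < ε :=
      EMetric.tendsto_nhds.1 hc ε hε
    filter_upwards [h2] with lam hlam
    have : {x : ℕ → ℝ | ε ≤ edist ((-2 * √(lam ^ 2 * (Lb lam : ℝ)),
      -2 * ρ * (lam ^ 2 * (Lb lam : ℝ))) : ℝ × ℝ) (-2, -2 * ρ)} = ∅ := by
      ext x
      simp only [Set.mem_ofPred_eq, Set.mem_empty_iff_false, iff_false, not_le]
      exact hlam
    rw [this, measure_empty]
  have hg : Continuous (fun p : ℝ × (ℝ × ℝ) => p.2.1 * p.1 + p.2.2) := by fun_prop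
  have hsl := hcomp.continuous_comp_prodMk_of_tendstoInMeasure_const hg hcm
    (fun _ => aemeasurable_const)
  have ht := hsl.tendsto
  have hlim : (⟨(gaussianReal 0 1).map (fun z : ℝ => ((z, ((-2 : ℝ), -2 * ρ)) : ℝ × (ℝ × ℝ)).2.1 *
      ((z, ((-2 : ℝ), -2 * ρ)) : ℝ × (ℝ × ℝ)).1 + ((z, ((-2 : ℝ), -2 * ρ)) : ℝ × (ℝ × ℝ)).2.2),
      Measure.isProbabilityMeasure_map (by fun_prop)⟩ : ProbabilityMeasure ℝ) = gamP ρ := by
    apply Subtype.ext
    show (gaussianReal 0 1).map (fun z : ℝ => -2 * z + -2 * ρ) = gam ρ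
    have e : (fun z : ℝ => -2 * z + -2 * ρ) = (fun z => z + -2 * ρ) ∘ (fun z => -2 * z) := rfl
    rw [e, ← Measure.map_map (by fun_prop) (by fun_prop), gaussianReal_map_const_mul,
      gaussianReal_map_add_const]
    unfold gam
    congr 1
    · ring
    · ext
      simp
      norm_num
  rw [← hlim]
  refine ht.congr' ?_
  filter_upwards [self_mem_nhdsWithin, Lb_tendsto.eventually_ge_atTop 1] with lam hlam hL
  have hlam0 : (0 : ℝ) < lam := hlam
  apply Subtype.ext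
  show P.map _ = (muP ν ρ lam : Measure ℝ)
  unfold muP
  show P.map _ = P.map _
  congr 1
  funext ω
  rw [Yb_zero]
  have hL0 : (0 : ℝ) < Lb lam := by exact_mod_cast hL
  have hs : √(lam ^ 2 * (Lb lam : ℝ)) = lam * √(Lb lam : ℝ) := by
    rw [Real.sqrt_mul (by positivity), Real.sqrt_sq hlam0.le]
  have hs0 : √(Lb lam : ℝ) ≠ 0 := (Real.sqrt_pos.2 hL0).ne'
  rw [hs]
  field_simp
  ring

end Pool.Agent.TH983
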