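import Pool.Agent.TH983.Mgf
import Pool.Agent.TH983.Transfer2

/-!
# Central limit theorem on general time scales, and convergence of integrals
-/

set_option autoImplicit false
set_option maxHeartbeats 4000000
open MeasureTheory ProbabilityTheory Filter Topology
open scoped ENNReal NNReal

namespace Pool.Agent.TH983
open Cop764

theorem meas_Swt (lam h : ℝ) (i j : ℕ) : Measurable (fun ω : ℕ → ℝ => S (wt lam h ω) i j) := by
  unfold S wt
  refine Finset.measurable_fun_sum _ fun n _ => ?_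
  have h1 : Measurable (fun ω : ℕ → ℝ => ω n) := measurable_pi_apply n
  exact (h1.add_const h).const_mul _

/-- law of the sum of the weights over the first `N` sites -/
noncomputable def muS (ν : Measure ℝ) [IsProbabilityMeasure ν] (κ lam : ℝ) (N : ℕ) :
    ProbabilityMeasure ℝ :=
  ⟨(disorder ν).map (fun ω => S (wt lam (κ * lam) ω) 0 N),
    Measure.isProbabilityMeasure_map (meas_Swt _ _ _ _).aemeasurable⟩

/-- limiting Gaussian law -/
noncomputable def gamY (κ y : ℝ) : ProbabilityMeasure ℝ :=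
  ⟨gaussianReal (-2 * κ * y) (4 * y).toNNReal, inferInstance⟩

theorem Swt_zero (lam κ : ℝ) (ω : ℕ → ℝ) (N : ℕ) :
    S (wt lam (κ * lam) ω) 0 N =
      -2 * lam * ∑ k ∈ Finset.range N, ω (k + 1) - 2 * κ * (lam ^ 2 * N) := by
  have h := Yb_zero lam κ ω N
  unfold Yb at h
  rw [Nat.zero_mul, Nat.zero_add, Nat.one_mul] at h
  exact h

theorem scale_atTop {N : ℝ → ℕ} {y : ℝ} (hy : 0 < y)
    (hN : Tendsto (fun lam : ℝ => lam ^ 2 * (N lam : ℝ)) (𝓝[>] 0) (𝓝 y)) :
    Tendsto N (𝓝[>] 0) atTop := by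
  have h1 : Tendsto (fun lam : ℝ => lam ^ 2) (𝓝[>] 0) (𝓝[>] 0) := by
    apply tendsto_nhdsWithin_iff.2
    constructor
    · have : Tendsto (fun lam : ℝ => lam ^ 2) (𝓝 0) (𝓝 (0 ^ 2)) := (continuous_pow 2).tendsto 0
      rw [zero_pow two_ne_zero] at this
      exact this.mono_left nhdsWithin_le_nhds
    · filter_upwards [self_mem_nhdsWithin] with lam hlam
      exact pow_pos (Set.mem_Ioi.1 hlam) 2
  have h2 : Tendsto (fun lam : ℝ => (lam ^ 2)⁻¹) (𝓝[>] 0) atTop := tendsto_inv_nhdsGT_zero.comp h1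
  have h3 : Tendsto (fun lam : ℝ => (lam ^ 2 * (N lam : ℝ)) * (lam ^ 2)⁻¹) (𝓝[>] 0) atTop :=
    hN.pos_mul_atTop hy h2
  have h4 : Tendsto (fun lam : ℝ => (N lam : ℝ)) (𝓝[>] 0) atTop := by
    refine h3.congr' ?_
    filter_upwards [self_mem_nhdsWithin] with lam hlam
    have : (lam : ℝ) ≠ 0 := (Set.mem_Ioi.1 hlam).ne'
    field_simp
  exact tendsto_natCast_atTop_iff.1 h4

theorem clt_gen (ν : Measure ℝ) [IsProbabilityMeasure ν] (hmean : ∫ x, x ∂ν = 0)
    (hvar : ∫ x, x ^ 2 ∂ν = 1) (κ : ℝ) {N : ℝ → ℕ} {y : ℝ} (hy : 0 < y)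
    (hN : Tendsto (fun lam : ℝ => lam ^ 2 * (N lam : ℝ)) (𝓝[>] 0) (𝓝 y)) :
    Tendsto (fun lam => muS ν κ lam (N lam)) (𝓝[>] 0) (𝓝 (gamY κ y)) := by
  set P := disorder ν with hP
  have hNt := scale_atTop hy hN
  have hev : ∀ n : ℕ, MeasurePreserving (fun ω : ℕ → ℝ => ω n) P ν := by
    intro n
    have := measurePreserving_eval_infinitePi (fun _ : ℕ => ν) n
    rw [hP]
    unfold disorder
    exact this
  have hI : iIndepFun (fun (i : ℕ) (ω : ℕ → ℝ) => ω i) P := by
    rw [hP]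
    unfold disorder
    exact iIndepFun_infinitePi (X := fun _ (x : ℝ) => x) (fun _ => measurable_id)
  have hI' : iIndepFun (fun (i : ℕ) (ω : ℕ → ℝ) => ω (i + 1)) P :=
    hI.precomp (g := fun i => i + 1) (add_left_injective 1)
  have hid : ∀ i : ℕ, IdentDistrib (fun ω : ℕ → ℝ => ω (i + 1)) (fun ω : ℕ → ℝ => ω (0 + 1)) P P := by
    intro i
    refine ⟨(measurable_pi_apply _).aemeasurable, (measurable_pi_apply _).aemeasurable, ?_⟩
    rw [(hev (i + 1)).map_eq, (hev (0 + 1)).map_eq]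
  have h0 : ∫ ω, ω (0 + 1) ∂P = 0 := by
    rw [← hmean, ← (hev (0 + 1)).map_eq,
      integral_map (measurable_pi_apply _).aemeasurable (by fun_prop)]
  have h1 : ∫ ω, (ω (0 + 1)) ^ 2 ∂P = 1 := by
    rw [← hvar, ← (hev (0 + 1)).map_eq,
      integral_map (measurable_pi_apply _).aemeasurable (by fun_prop)]
  have hZ : HasLaw (fun z : ℝ => z) (gaussianReal 0 1) (gaussianReal 0 1) :=
    ⟨aemeasurable_id', by simp [Measure.map_id']⟩
  have hclt := tendstoInDistribution_inv_sqrt_mul_sum (P := P) (P' := gaussianReal 0 1)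
    (X := fun (i : ℕ) (ω : ℕ → ℝ) => ω (i + 1)) (Y := fun z : ℝ => z) hZ h0 h1 hI' hid
  have hcomp : TendstoInDistribution
      (fun (lam : ℝ) (ω : ℕ → ℝ) => (√(N lam))⁻¹ * ∑ k ∈ Finset.range (N lam), ω (k + 1))
      (𝓝[>] 0) (fun z : ℝ => z) (fun _ => P) (gaussianReal 0 1) :=
    ⟨fun lam => hclt.forall_aemeasurable (N lam), hclt.aemeasurable_limit,
      hclt.tendsto.comp hNt⟩
  have hc : Tendsto (fun lam : ℝ => ((-2 * √(lam ^ 2 * (N lam : ℝ)),
      -2 * κ * (lam ^ 2 * (N lam : ℝ))) : ℝ × ℝ)) (𝓝[>] 0) (𝓝 (-2 * √y, -2 * κ * y)) := by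
    apply Tendsto.prodMk_nhds
    · exact (hN.sqrt).const_mul (-2)
    · exact hN.const_mul (-2 * κ)
  have hcm : TendstoInMeasure P (fun (lam : ℝ) (_ : ℕ → ℝ) => ((-2 * √(lam ^ 2 * (N lam : ℝ)),
      -2 * κ * (lam ^ 2 * (N lam : ℝ))) : ℝ × ℝ)) (𝓝[>] 0)
      (fun _ => ((-2 * √y, -2 * κ * y) : ℝ × ℝ)) := by
    intro ε hε
    apply tendsto_const_nhds.congr'
    have h2 : ∀ᶠ lam in 𝓝[>] (0 : ℝ), edist ((-2 * √(lam ^ 2 * (N lam : ℝ)),
      -2 * κ * (lam ^ 2 * (N lam : ℝ))) : ℝ × ℝ) (-2 * √y, -2 * κ * y) < ε :=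
      EMetric.tendsto_nhds.1 hc ε hε
    filter_upwards [h2] with lam hlam
    have : {x : ℕ → ℝ | ε ≤ edist ((-2 * √(lam ^ 2 * (N lam : ℝ)),
      -2 * κ * (lam ^ 2 * (N lam : ℝ))) : ℝ × ℝ) (-2 * √y, -2 * κ * y)} = ∅ := by
      ext x
      simp only [Set.mem_ofPred_eq, Set.mem_empty_iff_false, iff_false, not_le]
      exact hlam
    rw [this, measure_empty]
  have hg : Continuous (fun p : ℝ × (ℝ × ℝ) => p.2.1 * p.1 + p.2.2) := by fun_prop
  have hsl := hcomp.continuous_comp_prodMk_of_tendstoInMeasure_const hg hcm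
    (fun _ => aemeasurable_const)
  have ht := hsl.tendsto
  have hlim : (⟨(gaussianReal 0 1).map (fun z : ℝ => ((z, (-2 * √y, -2 * κ * y)) : ℝ × (ℝ × ℝ)).2.1 *
      ((z, (-2 * √y, -2 * κ * y)) : ℝ × (ℝ × ℝ)).1 +
      ((z, (-2 * √y, -2 * κ * y)) : ℝ × (ℝ × ℝ)).2.2),
      Measure.isProbabilityMeasure_map (by fun_prop)⟩ : ProbabilityMeasure ℝ) = gamY κ y := by
    apply Subtype.ext
    show (gaussianReal 0 1).map (fun z : ℝ => -2 * √y * z + -2 * κ * y) =
      gaussianReal (-2 * κ * y) (4 * y).toNNReal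
    have e : (fun z : ℝ => -2 * √y * z + -2 * κ * y) =
        (fun z => z + -2 * κ * y) ∘ (fun z => (-2 * √y) * z) := rfl
    rw [e, ← Measure.map_map (by fun_prop) (by fun_prop), gaussianReal_map_const_mul,
      gaussianReal_map_add_const]
    congr 1
    · ring
    · ext
      simp only [mul_one, NNReal.coe_mk]
      rw [Real.coe_toNNReal _ (by positivity), mul_pow, Real.sq_sqrt hy.le]
      norm_num
  rw [← hlim]
  refine ht.congr' ?_
  filter_upwards [self_mem_nhdsWithin, hNt.eventually_ge_atTop 1] with lam hlam hL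
  have hlam0 : (0 : ℝ) < lam := hlam
  apply Subtype.ext
  show P.map _ = (muS ν κ lam (N lam) : Measure ℝ)
  unfold muS
  show P.map _ = P.map _
  congr 1
  funext ω
  rw [Swt_zero]
  have hL0 : (0 : ℝ) < N lam := by exact_mod_cast hL
  have hs : √(lam ^ 2 * (N lam : ℝ)) = lam * √(N lam : ℝ) := by
    rw [Real.sqrt_mul (by positivity), Real.sqrt_sq hlam0.le]
  have hs0 : √(N lam : ℝ) ≠ 0 := (Real.sqrt_pos.2 hL0).ne'
  rw [hs]
  field_simp
  ring

/-- convergence of integrals under a second moment bound -/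
theorem conv_int {E : Type*} [TopologicalSpace E] [MeasurableSpace E] [OpensMeasurableSpace E]
    {μ : ℝ → ProbabilityMeasure E} {μ0 : ProbabilityMeasure E}
    {l : Filter ℝ} (hμ : Tendsto μ l (𝓝 μ0)) {F : E → ℝ} (hF : Continuous F) (hF0 : ∀ x, 0 ≤ F x)
    {C : ℝ} (hi : ∀ᶠ t in l, Integrable (fun x => F x ^ 2) (μ t : Measure E) ∧
      ∫ x, F x ^ 2 ∂(μ t : Measure E) ≤ C)
    (hi0 : Integrable (fun x => F x ^ 2) (μ0 : Measure E)) :
    Tendsto (fun t => ∫ x, F x ∂(μ t : Measure E)) l (𝓝 (∫ x, F x ∂(μ0 : Measure E))) := by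
  -- truncations
  have key : ∀ (m : ProbabilityMeasure E), Integrable (fun x => F x ^ 2) (m : Measure E) →
      ∀ T : ℝ, 0 < T → Integrable F (m : Measure E) ∧
        ∫ x, min (F x) T ∂(m : Measure E) ≤ ∫ x, F x ∂(m : Measure E) ∧
        ∫ x, F x ∂(m : Measure E) ≤ ∫ x, min (F x) T ∂(m : Measure E) +
          (∫ x, F x ^ 2 ∂(m : Measure E)) / T := by
    intro m hm T hT
    have hFi : Integrable F (m : Measure E) := by
      have h1 : Integrable (fun x => 1 + F x ^ 2) (m : Measure E) := (integrable_const 1).add hm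
      refine h1.mono' hF.measurable.aestronglyMeasurable (Filter.Eventually.of_forall fun x => ?_)
      rw [Real.norm_eq_abs, abs_of_nonneg (hF0 x)]
      nlinarith [sq_nonneg (F x - 1), hF0 x]
    have hmin : Integrable (fun x => min (F x) T) (m : Measure E) := by
      refine hFi.mono' ((hF.min continuous_const).measurable.aestronglyMeasurable)
        (Filter.Eventually.of_forall fun x => ?_)
      rw [Real.norm_eq_abs, abs_of_nonneg (le_min (hF0 x) hT.le)]
      exact min_le_left _ _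
    refine ⟨hFi, integral_mono hmin hFi fun x => min_le_left _ _, ?_⟩
    rw [← integral_div, ← integral_add hmin (hm.div_const T)]
    refine integral_mono hFi (hmin.add (hm.div_const T)) fun x => ?_
    show F x ≤ min (F x) T + F x ^ 2 / T
    rcases le_total (F x) T with hx | hx
    · rw [min_eq_left hx]
      have : 0 ≤ F x ^ 2 / T := by positivity
      linarith
    · rw [min_eq_right hx]
      have : F x ≤ F x ^ 2 / T := by
        rw [le_div_iff₀ hT]
        nlinarith [hF0 x]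
      linarith
  have hC0 : ∀ᶠ t in l, ∀ T : ℝ, 0 < T →
      ∫ x, min (F x) T ∂(μ t : Measure E) ≤ ∫ x, F x ∂(μ t : Measure E) ∧
      ∫ x, F x ∂(μ t : Measure E) ≤ ∫ x, min (F x) T ∂(μ t : Measure E) + C / T := by
    filter_upwards [hi] with t ht T hT
    obtain ⟨_, k1, k2⟩ := key (μ t) ht.1 T hT
    exact ⟨k1, k2.trans (by gcongr; exact ht.2)⟩
  have hconv : ∀ T : ℝ, 0 < T → Tendsto (fun t => ∫ x, min (F x) T ∂(μ t : Measure E)) l
      (𝓝 (∫ x, min (F x) T ∂(μ0 : Measure E))) := by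
    intro T hT
    let f : BoundedContinuousFunction E ℝ := BoundedContinuousFunction.ofNormedAddCommGroup
      (fun x => min (F x) T) (hF.min continuous_const) T (fun x => by
        rw [Real.norm_eq_abs, abs_of_nonneg (le_min (hF0 x) hT.le)]
        exact min_le_right _ _)
    exact (ProbabilityMeasure.tendsto_iff_forall_integral_tendsto.1 hμ) f
  set C' : ℝ := |C| + ∫ x, F x ^ 2 ∂(μ0 : Measure E) + 1 with hC'
  have hI0 : 0 ≤ ∫ x, F x ^ 2 ∂(μ0 : Measure E) := integral_nonneg fun x => sq_nonneg _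
  have hC'0 : 0 < C' := by have := abs_nonneg C; rw [hC']; linarith
  rw [Metric.tendsto_nhds]
  intro ε hε
  set T : ℝ := 4 * C' / ε with hT
  have hT0 : 0 < T := by positivity
  have hCT : C' / T = ε / 4 := by rw [hT]; field_simp
  obtain ⟨_, k1, k2⟩ := key μ0 hi0 T hT0
  have h5 := (Metric.tendsto_nhds.1 (hconv T hT0)) (ε / 4) (by positivity)
  filter_upwards [hC0, h5] with t h6 h7
  obtain ⟨g1, g2⟩ := h6 T hT0
  rw [Real.dist_eq] at h7 ⊢
  have h8 := abs_lt.1 h7
  have e1 : C / T ≤ ε / 4 := by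
    rw [← hCT]
    have := le_abs_self C
    apply div_le_div_of_nonneg_right _ hT0.le
    rw [hC']; linarith
  have e2 : (∫ x, F x ^ 2 ∂(μ0 : Measure E)) / T ≤ ε / 4 := by
    rw [← hCT]
    apply div_le_div_of_nonneg_right _ hT0.le
    have := abs_nonneg C
    rw [hC']; linarith
  rw [abs_lt]
  constructor <;> linarith [h8.1, h8.2]

end Pool.Agent.TH983
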