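import Pool.Agent.Helper764.Cop_rec
import Pool.Agent.Helper764.Cop_loc

/-!
# The constrained partition function as a path integral
-/

set_option autoImplicit false
set_option maxHeartbeats 4000000
open MeasureTheory ProbabilityTheory Filter Topology
open scoped ENNReal NNReal

namespace Pool.Agent.TH983
open Cop764 Cop764.M_rec

/-- renewal at `N` -/
def renAt (N : ℕ) : Set (ℕ → ℕ × Bool) := {x | ∃ j, tau x j = N}

theorem renAt_meas (N : ℕ) : MeasurableSet (renAt N) := by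
  have : renAt N = ⋃ j : ℕ, {x | tau x j = N} := by
    ext x
    simp [renAt]
  rw [this]
  exact MeasurableSet.iUnion fun j => measurableSet_eq_fun (tau_meas j) measurable_const

/-- constrained integrand -/
noncomputable def Pc (w : ℕ → ℝ) (N : ℕ) : (ℕ → ℕ × Bool) → ℝ := (renAt N).indicator (Ph w N)

theorem Pc_meas (w : ℕ → ℝ) (N : ℕ) : Measurable (Pc w N) := (Ph_meas w N).indicator (renAt_meas N)

theorem Pc_bd (w : ℕ → ℝ) (N : ℕ) (x : ℕ → ℕ × Bool) :
    ‖Pc w N x‖ ≤ Real.exp (∑ n ∈ Finset.Icc 1 N, (n : ℝ) * |w n|) := by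
  unfold Pc
  by_cases h : x ∈ renAt N
  · rw [Set.indicator_of_mem h]
    exact Ph_bd w N x
  · rw [Set.indicator_of_notMem h, norm_zero]
    exact (Real.exp_pos _).le

/-- constrained path partition function -/
noncomputable def Zcw (κ : PMF ℕ) (w : ℕ → ℝ) (N : ℕ) : ℝ := ∫ x, Pc w N x ∂(pathMeasure κ)

theorem Zcw_fubini (κ : PMF ℕ) (w : ℕ → ℝ) (N : ℕ) :
    Integrable (fun k => ∫ b, (∫ x, Pc w N (cons764 ((k, b), x)) ∂(pathMeasure κ))
      ∂(PMF.uniformOfFintype Bool).toMeasure) κ.toMeasure ∧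
    Zcw κ w N = ∫ k, (∫ b, (∫ x, Pc w N (cons764 ((k, b), x)) ∂(pathMeasure κ))
      ∂(PMF.uniformOfFintype Bool).toMeasure) ∂κ.toMeasure := by
  have hmp : MeasurePreserving (cons764 : (ℕ × Bool) × (ℕ → (ℕ × Bool)) → ℕ → (ℕ × Bool))
      ((stepLaw κ).prod (pathMeasure κ)) (pathMeasure κ) := cons_mp (stepLaw κ)
  have hm : Measurable (fun q : (ℕ × Bool) × (ℕ → (ℕ × Bool)) => Pc w N (cons764 q)) :=
    (Pc_meas w N).comp hmp.measurable
  have hint : Integrable (fun q : (ℕ × Bool) × (ℕ → (ℕ × Bool)) => Pc w N (cons764 q))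
      ((stepLaw κ).prod (pathMeasure κ)) :=
    Integrable.of_bound hm.aestronglyMeasurable _ (Filter.Eventually.of_forall
      (fun q => Pc_bd w N (cons764 q)))
  have h1 : Zcw κ w N = ∫ q, Pc w N (cons764 q) ∂((stepLaw κ).prod (pathMeasure κ)) := by
    have h2 : Zcw κ w N = ∫ x, Pc w N x ∂(pathMeasure κ) := rfl
    rw [h2]
    conv_lhs => rw [← hmp.map_eq]
    rw [integral_map hmp.measurable.aemeasurable (Pc_meas w N).aestronglyMeasurable]
  have hint2 := hint.integral_prod_left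
  have hint3 : Integrable (fun p : ℕ × Bool => ∫ x, Pc w N (cons764 (p, x)) ∂(pathMeasure κ))
      (κ.toMeasure.prod (PMF.uniformOfFintype Bool).toMeasure) := hint2
  refine ⟨hint3.integral_prod_left, ?_⟩
  rw [h1, integral_prod _ hint]
  show ∫ p, (∫ x, Pc w N (cons764 (p, x)) ∂(pathMeasure κ))
    ∂(κ.toMeasure.prod (PMF.uniformOfFintype Bool).toMeasure) = _
  rw [integral_prod _ hint3]

theorem mem_ren_cons {N k : ℕ} (hN : 1 ≤ N) (b : Bool) (x : ℕ → ℕ × Bool) :
    cons764 ((k, b), x) ∈ renAt N ↔ k ≤ N ∧ x ∈ renAt (N - k) := by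
  constructor
  · rintro ⟨j, hj⟩
    cases j with
    | zero =>
      rw [tau_zero] at hj
      omega
    | succ j =>
      rw [tau_cons] at hj
      have h2 : k + tau x j = N := hj
      exact ⟨by omega, j, by omega⟩
  · rintro ⟨h1, j, hj⟩
    refine ⟨j + 1, ?_⟩
    rw [tau_cons]
    show k + tau x j = N
    omega

theorem innerc_big (κ : PMF ℕ) (h0 : κ 0 = 0) (w : ℕ → ℝ) (N k : ℕ) (hk : 1 ≤ k) (hkN : k ≤ N) :
    ∫ b, (∫ x, Pc w N (cons764 ((k, b), x)) ∂(pathMeasure κ))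
      ∂(PMF.uniformOfFintype Bool).toMeasure = phi w 0 k * Zcw κ (fun n => w (n + k)) (N - k) := by
  have h1 : ∀ b : Bool, ∫ x, Pc w N (cons764 ((k, b), x)) ∂(pathMeasure κ)
      = Real.exp ((if b = true then 1 else 0) * S w 0 k) * Zcw κ (fun n => w (n + k)) (N - k) := by
    intro b
    unfold Zcw
    rw [← integral_const_mul]
    apply integral_congr_ae
    filter_upwards [ae_gap κ h0] with x hx
    unfold Pc
    by_cases hr : x ∈ renAt (N - k)
    · rw [Set.indicator_of_mem hr, Set.indicator_of_mem ((mem_ren_cons (by omega) b x).2 ⟨hkN, hr⟩)]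
      unfold Ph
      rw [expo_big w k b x hx hk N hkN, Real.exp_add]
    · rw [Set.indicator_of_notMem hr, Set.indicator_of_notMem
        (fun hc => hr ((mem_ren_cons (by omega) b x).1 hc).2), mul_zero]
  rw [bool_int, h1, h1]
  unfold phi
  simp
  ring

theorem innerc_small (κ : PMF ℕ) (w : ℕ → ℝ) (N k : ℕ) (hN : 1 ≤ N) (hkN : N < k) :
    ∫ b, (∫ x, Pc w N (cons764 ((k, b), x)) ∂(pathMeasure κ))
      ∂(PMF.uniformOfFintype Bool).toMeasure = 0 := by
  have h1 : ∀ (b : Bool) (x : ℕ → ℕ × Bool), Pc w N (cons764 ((k, b), x)) = 0 := by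
    intro b x
    unfold Pc
    rw [Set.indicator_of_notMem (fun hc => by
      have := ((mem_ren_cons hN b x).1 hc).1
      omega)]
  simp only [h1, integral_zero]

theorem Zcw_rec (κ : PMF ℕ) (h0 : κ 0 = 0) (w : ℕ → ℝ) (N : ℕ) (hN : 1 ≤ N) :
    Zcw κ w N = ∑ k ∈ Finset.Icc 1 N, (κ k).toReal * phi w 0 k *
      Zcw κ (fun n => w (n + k)) (N - k) := by
  obtain ⟨hint, hZ⟩ := Zcw_fubini κ w N
  rw [hZ, PMF.integral_eq_tsum κ _ hint]
  obtain ⟨Gf, hGf⟩ : ∃ Gf : ℕ → ℝ, ∀ k, Gf k =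
      ∫ b, (∫ x, Pc w N (cons764 ((k, b), x)) ∂(pathMeasure κ))
      ∂(PMF.uniformOfFintype Bool).toMeasure := ⟨_, fun _ => rfl⟩
  simp only [← hGf, smul_eq_mul]
  have hz : ∀ k ∉ Finset.Icc 1 N, (κ k).toReal * Gf k = 0 := by
    intro k hk
    rw [Finset.mem_Icc, not_and_or] at hk
    by_cases hk0 : k = 0
    · rw [hk0, h0]
      simp
    · rw [hGf, innerc_small κ w N k hN (by omega), mul_zero]
  rw [tsum_eq_sum hz]
  apply Finset.sum_congr rfl
  intro k hk
  rw [Finset.mem_Icc] at hk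
  rw [hGf, innerc_big κ h0 w N k hk.1 hk.2]
  ring

theorem Zcw_zero (κ : PMF ℕ) (w : ℕ → ℝ) : Zcw κ w 0 = 1 := by
  have h1 : ∀ x : ℕ → ℕ × Bool, Pc w 0 x = 1 := by
    intro x
    unfold Pc
    rw [Set.indicator_of_mem (show x ∈ renAt 0 from ⟨0, tau_zero x⟩)]
    unfold Ph
    simp
  unfold Zcw
  simp only [h1]
  simp

/-- the constrained partition function is the recursive one -/
theorem Zcw_eq (κ : PMF ℕ) (h0 : κ 0 = 0) (N : ℕ) : ∀ w : ℕ → ℝ,
    Zcw κ w N = G (fun n => (κ n).toReal) w 0 N := by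
  induction N using Nat.strong_induction_on with
  | _ N ih =>
    intro w
    rcases Nat.eq_zero_or_pos N with hN | hN
    · subst hN
      rw [Zcw_zero, G_eq, if_pos rfl]
    · rw [Zcw_rec κ h0 w N hN, G_eq, if_neg (by omega)]
      have e : Finset.Icc 1 N = Finset.Ioc 0 N := by
        ext i
        rw [Finset.mem_Icc, Finset.mem_Ioc]
        omega
      rw [e]
      refine Finset.sum_congr rfl fun k hk => ?_
      rw [Finset.mem_Ioc] at hk
      rw [ih (N - k) (by omega), M_loc.J_loc.1 _ w k 0 (N - k), Nat.sub_zero, zero_add,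
        Nat.sub_add_cancel hk.2]

end Pool.Agent.TH983
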