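import Pool.Agent.TH983.Frac1
import Pool.Agent.TH983.Zc
import Pool.Agent.Helper764.Cop_fe
import Pool.Agent.Helper764.Cop_EF
import Pool.Agent.Helper764.Cop_Z

/-!
# Localization forces a fractional moment larger than one
-/

set_option autoImplicit false
set_option maxHeartbeats 4000000
open MeasureTheory ProbabilityTheory Filter Topology
open scoped ENNReal NNReal

namespace Pool.Agent.TH983
open Cop764

variable {D : Data} {c0 : ℝ} {n0 : ℕ} {h : ℝ}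

theorem G_pos0 (hK : KHyp D.K D.α c0 n0) {N : ℕ} (hN : n0 ≤ N) (ω : ℕ → ℝ) :
    0 < G D.K (D.w h ω) 0 N := by
  have hn0 := hK.n0_pos
  have h1 := (M_G.J_G D.K (D.w h ω) hK.nonneg).2.2.1 0 N (by omega)
  refine lt_of_lt_of_le (mul_pos ?_ ?_) h1
  · have h2 := hK.lower N hN
    have h3 : (0 : ℝ) < N := by exact_mod_cast (show 0 < N by omega)
    have h4 := hK.c0_pos
    rw [Nat.sub_zero]
    exact lt_of_lt_of_le (by positivity) h2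
  · have := M_fe.fe833_half (D.w h ω) 0 N
    linarith

theorem Gpow_int (hK : KHyp D.K D.α c0 n0) (h0 : 0 ≤ h) {θ : ℝ} (hθ : 0 ≤ θ) (hθ1 : θ ≤ 1) {N : ℕ}
    (hN : 1 ≤ N) : Integrable (fun ω => (G D.K (D.w h ω) 0 N) ^ θ) D.P := by
  obtain ⟨C1, _, hEF⟩ := M_EF.J_EF D
  have h1 := (hEF h h0 0 N hN).1
  rw [zero_add] at h1
  refine ((integrable_const (1 : ℝ)).add h1).mono'
    (((M_meas.J_meas D h 0 N).1.pow_const θ).aestronglyMeasurable) ?_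
  refine Filter.Eventually.of_forall fun ω => ?_
  have hG0 := (M_G.J_G D.K (D.w h ω) hK.nonneg).2.1 0 N
  have hGF : G D.K (D.w h ω) 0 N ≤ F D.K (D.w h ω) 0 N :=
    (M_Z.J_Z D h ω N).1.trans (M_Z.J_Z D h ω N).2
  rw [Real.norm_eq_abs, abs_of_nonneg (Real.rpow_nonneg hG0 _)]
  show _ ≤ 1 + F D.K (D.w h ω) 0 N
  rcases le_total (G D.K (D.w h ω) 0 N) 1 with h2 | h2
  · have := Real.rpow_le_one hG0 h2 hθ
    linarith
  · have := Real.rpow_le_rpow_of_exponent_le h2 hθ1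
    rw [Real.rpow_one] at this
    linarith

theorem lF_le (hK : KHyp D.K D.α c0 n0) (ℓ : ℕ) (ω : ℕ → ℝ) :
    D.lF h (0 + n0) (ℓ + n0) ω ≤ (2 * Real.log c0⁻¹ + 2 * Real.log ((ℓ : ℝ) + 1) +
      2 * (1 + D.α) * Real.log ((ℓ : ℝ) + n0)) +
      ((|S (D.w h ω) 0 n0| + |S (D.w h ω) (ℓ + n0) (ℓ + 2 * n0)|) + D.lG h 0 (ℓ + 2 * n0) ω) := by
  have hn0 := hK.n0_pos
  have hc0 := hK.c0_pos
  have h1 := M_FG.J_FG D.K (D.w h ω) D.α c0 n0 hK n0 0 ℓ le_rfl (Nat.zero_le _)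
  simp only [Nat.cast_zero, sub_zero, zero_add] at h1
  have hF : 0 < F D.K (D.w h ω) n0 (ℓ + n0) := by
    have h2 := (M_Fbd.J_Fbd D.K (D.w h ω) D.α c0 n0 hK n0 (ℓ + n0) (by omega)).1
    have h3 := M_fe.fe833_half (D.w h ω) n0 (ℓ + n0)
    linarith
  have hG := G_pos0 (D := D) (h := h) hK (show n0 ≤ ℓ + 2 * n0 by omega) ω
  have hl1 : (0 : ℝ) < (ℓ : ℝ) + 1 := by positivity
  have hn0' : (0 : ℝ) < n0 := by exact_mod_cast hn0
  have hl2 : (0 : ℝ) < (ℓ : ℝ) + n0 := by positivity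
  unfold Data.lF Data.lG
  rw [zero_add]
  refine (Real.log_le_log hF h1).trans (le_of_eq ?_)
  have e1 : (0 : ℝ) < c0⁻¹ ^ 2 := by positivity
  have e2 : (0 : ℝ) < ((ℓ : ℝ) + 1) ^ 2 := by positivity
  have e3 : (0 : ℝ) < ((ℓ : ℝ) + n0) ^ (2 * (1 + D.α)) := Real.rpow_pos_of_pos hl2 _
  rw [Real.log_mul (by positivity) hG.ne', Real.log_mul (by positivity) (Real.exp_pos _).ne',
    Real.log_mul (by positivity) e3.ne', Real.log_mul e1.ne' e2.ne', Real.log_exp,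
    Real.log_rpow hl2, Real.log_pow, Real.log_pow]
  push_cast
  ring

/-- localization gives positive expected log of the constrained partition function -/
theorem lG_pos (hK : KHyp D.K D.α c0 n0) (h0 : 0 ≤ h) (hf : 0 < D.f h) :
    ∃ N : ℕ, n0 ≤ N ∧ 0 < ∫ ω, D.lG h 0 N ω ∂D.P := by
  by_contra hcon
  push Not at hcon
  have hα := D.hα
  have hn0 := hK.n0_pos
  have hc0 := hK.c0_pos
  obtain ⟨intF, intG, _⟩ := M_int.J_int D c0 n0 hK h h0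
  obtain ⟨A, hA⟩ : ∃ A : ℝ, A = ∫ ω, |S (D.w h ω) 0 n0| ∂D.P := ⟨_, rfl⟩
  have key : ∀ ℓ : ℕ, 1 ≤ ℓ → (ℓ : ℝ) * D.f h ≤ Real.log 6 + 2 * Real.log c0⁻¹ + 2 * A +
      (2 + 2 * (1 + D.α)) * Real.log ((ℓ : ℝ) + n0) := by
    intro ℓ hℓ
    have h1 := (M_fe.J_fe D h h0).2 ℓ hℓ
    have h2 : ∫ ω, D.lF h (0 + n0) (ℓ + n0) ω ∂D.P = ∫ ω, D.lF h 0 ℓ ω ∂D.P :=
      M_fe.fe833_lFshift D h 0 ℓ n0
    have hS1 := M_fe.fe833_S D h 0 n0
    have hS2 := M_fe.fe833_S D h (ℓ + n0) (ℓ + 2 * n0)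
    have h3 : ∫ ω, D.lF h (0 + n0) (ℓ + n0) ω ∂D.P ≤
        ∫ ω, ((2 * Real.log c0⁻¹ + 2 * Real.log ((ℓ : ℝ) + 1) +
          2 * (1 + D.α) * Real.log ((ℓ : ℝ) + n0)) +
          ((|S (D.w h ω) 0 n0| + |S (D.w h ω) (ℓ + n0) (ℓ + 2 * n0)|) +
            D.lG h 0 (ℓ + 2 * n0) ω)) ∂D.P := by
      refine integral_mono (intF _ _ (by omega)) ?_ (fun ω => lF_le hK ℓ ω)
      exact (integrable_const _).add ((hS1.add hS2).add (intG 0 (ℓ + 2 * n0) (by omega)))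
    rw [M_fe.fe833_add4 D _ _ _ _ hS1 hS2 (intG 0 (ℓ + 2 * n0) (by omega))] at h3
    have h4 : ∫ ω, |S (D.w h ω) (ℓ + n0) (ℓ + 2 * n0)| ∂D.P = A := by
      rw [hA, ← M_fe.fe833_Sshift D h 0 n0 (ℓ + n0)]
      congr 2
      funext ω
      congr 2
      · omega
      · omega
    have h5 := hcon (ℓ + 2 * n0) (by omega)
    have hle : Real.log ((ℓ : ℝ) + 1) ≤ Real.log ((ℓ : ℝ) + n0) := by
      apply Real.log_le_log (by positivity)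
      have : (1 : ℝ) ≤ n0 := by exact_mod_cast hn0
      linarith
    rw [h4, ← hA, h2] at h3
    linarith
  obtain ⟨B, hB⟩ : ∃ B : ℝ, B = Real.log 6 + 2 * Real.log c0⁻¹ + 2 * A := ⟨_, rfl⟩
  obtain ⟨C, hC⟩ : ∃ C : ℝ, C = 2 + 2 * (1 + D.α) := ⟨_, rfl⟩
  have hC0 : 0 < C := by rw [hC]; linarith
  obtain ⟨ε, hε⟩ : ∃ ε : ℝ, ε = D.f h / (2 * C) := ⟨_, rfl⟩
  have hε0 : 0 < ε := by rw [hε]; positivity
  have hCε : C * ε = D.f h / 2 := by rw [hε]; field_simp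
  obtain ⟨ℓ, hℓ⟩ := exists_nat_gt ((B + C * (ε * n0 - 1 - Real.log ε)) / (D.f h / 2))
  have h1 := key (ℓ + 1) (by omega)
  have hl2 : (0 : ℝ) < ((ℓ + 1 : ℕ) : ℝ) + n0 := by positivity
  have h2 : Real.log (((ℓ + 1 : ℕ) : ℝ) + n0) ≤ ε * (((ℓ + 1 : ℕ) : ℝ) + n0) - 1 - Real.log ε := by
    have h3 := Real.log_le_sub_one_of_pos (show 0 < ε * (((ℓ + 1 : ℕ) : ℝ) + n0) by positivity)
    rw [Real.log_mul hε0.ne' hl2.ne'] at h3
    linarith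
  rw [← hB, ← hC] at h1
  have h4 : C * Real.log (((ℓ + 1 : ℕ) : ℝ) + n0) ≤
      C * (ε * (((ℓ + 1 : ℕ) : ℝ) + n0) - 1 - Real.log ε) := mul_le_mul_of_nonneg_left h2 hC0.le
  rw [div_lt_iff₀ (by positivity)] at hℓ
  push_cast at h1 h4
  have h5 : C * (ε * ((ℓ : ℝ) + 1 + n0) - 1 - Real.log ε) =
      C * ε * ((ℓ : ℝ) + 1) + C * (ε * n0 - 1 - Real.log ε) := by ring
  rw [h5, hCε] at h4
  nlinarith [h1, h4, hℓ, hf]

/-- the converse of the fractional moment criterion -/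
theorem frac_conv (hK : KHyp D.K D.α c0 n0) (h0 : 0 ≤ h) (hf : 0 < D.f h) {θ : ℝ} (hθ : 0 < θ)
    (hθ1 : θ ≤ 1) : ∃ N : ℕ, 1 ≤ N ∧ 1 < ∫ ω, (G D.K (D.w h ω) 0 N) ^ θ ∂D.P := by
  obtain ⟨N, hN, hpos⟩ := lG_pos hK h0 hf
  have hn0 := hK.n0_pos
  refine ⟨N, by omega, ?_⟩
  have hint := (M_int.J_int D c0 n0 hK h h0).2.1 0 N (by omega)
  have h1 : ∫ ω, (1 + θ * D.lG h 0 N ω) ∂D.P ≤ ∫ ω, (G D.K (D.w h ω) 0 N) ^ θ ∂D.P := by
    refine integral_mono ((integrable_const _).add (hint.const_mul θ))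
      (Gpow_int hK h0 hθ.le hθ1 (by omega)) fun ω => ?_
    have hG := G_pos0 (D := D) (h := h) hK hN ω
    have h2 := Real.add_one_le_exp (Real.log (G D.K (D.w h ω) 0 N) * θ)
    rw [← Real.rpow_def_of_pos hG] at h2
    show 1 + θ * Real.log (G D.K (D.w h ω) 0 N) ≤ _
    linarith
  rw [integral_add (integrable_const _) (hint.const_mul θ), integral_const_mul, integral_const] at h1
  have h3 : 0 < θ * ∫ ω, D.lG h 0 N ω ∂D.P := mul_pos hθ hpos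
  simp only [probReal_univ, smul_eq_mul, one_mul] at h1
  linarith

/-- exact criterion -/
theorem frac_iff (D : Data) {h : ℝ} (h0 : 0 ≤ h) : 0 < D.f h ↔
    ∃ N : ℕ, 1 ≤ N ∧ 1 < ∫ ω, (G D.K (D.w h ω) 0 N) ^ ((1 + D.α)⁻¹) ∂D.P := by
  obtain ⟨c0, n0, hK⟩ := M_K.J_K D
  have hα := D.hα
  constructor
  · intro hf
    exact frac_conv hK h0 hf (by positivity) (inv_le_one_of_one_le₀ (by linarith))
  · rintro ⟨N, hN, hE⟩
    exact frac_crit hK h0 hN hE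

end Pool.Agent.TH983
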