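import Pool.Agent.TH983.TiltMain

/-!
# The renewal argument behind the criterion
-/

set_option autoImplicit false
set_option maxHeartbeats 4000000
open MeasureTheory ProbabilityTheory Filter Topology
open scoped ENNReal NNReal

namespace Pool.Agent.TH983
open Cop764

/-- recursion for the renewal function -/
theorem u_rec (r : ℕ → ℝ) {n : ℕ} (hn : 0 < n) :
    u r n = ∑ k ∈ Finset.Ioc 0 n, r k * u r (n - k) := by
  conv_lhs => unfold u
  rw [G_eq, if_neg (by omega)]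
  refine Finset.sum_congr rfl fun k hk => ?_
  rw [Finset.mem_Ioc] at hk
  rw [G_zero_shift _ k n hk.2, Nat.sub_zero]
  have : phi (fun _ => 0) 0 k = 1 := by unfold phi S; simp
  rw [this]
  ring

/-- exponential tilt of the renewal function -/
theorem u_tilt (r : ℕ → ℝ) (x : ℝ) : ∀ n : ℕ, u (fun k => x ^ k * r k) n = x ^ n * u r n := by
  intro n
  induction n using Nat.strong_induction_on with
  | _ n ih =>
    rcases Nat.eq_zero_or_pos n with h | h
    · subst h; rw [u_zero, u_zero]; simp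
    · rw [u_rec _ h, u_rec r h, Finset.mul_sum]
      refine Finset.sum_congr rfl fun k hk => ?_
      rw [Finset.mem_Ioc] at hk
      rw [ih (n - k) (by omega)]
      have : x ^ n = x ^ k * x ^ (n - k) := by rw [← pow_add]; congr 1; omega
      rw [this]
      ring

/-- comparison of renewal functions -/
theorem u_comp {r r' : ℕ → ℝ} {y : ℝ} (hy : 0 ≤ y) (hr' : ∀ n, 0 ≤ r' n) {N : ℕ}
    (hle : ∀ k, 1 ≤ k → k ≤ N → y ^ k * r' k ≤ r k) : ∀ n ≤ N, y ^ n * u r' n ≤ u r n := by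
  intro n
  induction n using Nat.strong_induction_on with
  | _ n ih =>
    intro hn
    rcases Nat.eq_zero_or_pos n with h | h
    · subst h; rw [u_zero, u_zero]; simp
    · rw [u_rec r h, u_rec r' h, Finset.mul_sum]
      refine Finset.sum_le_sum fun k hk => ?_
      rw [Finset.mem_Ioc] at hk
      have h1 := ih (n - k) (by omega) (by omega)
      have h2 := hle k hk.1 (by omega)
      have h3 : 0 ≤ y ^ k * r' k := mul_nonneg (pow_nonneg hy _) (hr' _)
      have h4 : 0 ≤ y ^ (n - k) * u r' (n - k) := mul_nonneg (pow_nonneg hy _) (u_nonneg hr' _)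
      have : y ^ n = y ^ k * y ^ (n - k) := by rw [← pow_add]; congr 1; omega
      rw [this]
      calc y ^ k * y ^ (n - k) * (r' k * u r' (n - k)) =
            (y ^ k * r' k) * (y ^ (n - k) * u r' (n - k)) := by ring
        _ ≤ _ := mul_le_mul h2 h1 h4 (h3.trans h2)

theorem U_mono {r : ℕ → ℝ} (hr : ∀ n, 0 ≤ r n) : Monotone (U r) := by
  intro a b hab
  unfold U
  apply Finset.sum_le_sum_of_subset_of_nonneg
  · intro n hn
    rw [Finset.mem_range] at hn ⊢
    omega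
  · intro n _ _
    exact u_nonneg hr n

/-- one step of the renewal equation, summed -/
theorem U_step {r : ℕ → ℝ} (hr : ∀ n, 0 ≤ r n) (A B : ℕ) :
    1 + (∑ k ∈ Finset.Ioc 0 B, r k) * U r A ≤ U r (A + B) := by
  have h1 : U r (A + B) = 1 + ∑ n ∈ Finset.Ioc 0 (A + B), ∑ k ∈ Finset.Ioc 0 n, r k * u r (n - k) := by
    unfold U
    rw [Finset.range_eq_Ico, Finset.sum_eq_sum_Ico_succ_bot (by omega), u_zero]
    congr 1
    refine Finset.sum_congr rfl fun n hn => ?_
    rw [Finset.mem_Ioc] at hn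
    exact u_rec r (by omega)
  have h2 : ∑ n ∈ Finset.Ioc 0 (A + B), ∑ k ∈ Finset.Ioc 0 n, r k * u r (n - k) =
      ∑ k ∈ Finset.Ioc 0 (A + B), ∑ n ∈ Finset.Icc k (A + B), r k * u r (n - k) := by
    apply Finset.sum_comm'
    intro x y
    simp only [Finset.mem_Ioc, Finset.mem_Icc]
    omega
  rw [h1, h2, Finset.sum_mul]
  have h3 : ∀ k ∈ Finset.Ioc 0 B, r k * U r A ≤
      ∑ n ∈ Finset.Icc k (A + B), r k * u r (n - k) := by
    intro k hk
    rw [Finset.mem_Ioc] at hk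
    rw [← Finset.mul_sum]
    apply mul_le_mul_of_nonneg_left _ (hr k)
    have e1 : ∑ n ∈ Finset.Icc k (A + B), u r (n - k) =
        ∑ n ∈ Finset.range (A + B + 1 - k), u r n := by
      rw [show Finset.Icc k (A + B) = Finset.Ico k (A + B + 1) from rfl,
        Finset.sum_Ico_eq_sum_range]
      refine Finset.sum_congr rfl fun n _ => ?_
      rw [Nat.add_sub_cancel_left]
    rw [e1]
    unfold U
    apply Finset.sum_le_sum_of_subset_of_nonneg
    · intro n hn
      rw [Finset.mem_range] at hn ⊢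
      omega
    · intro n _ _
      exact u_nonneg hr n
  have h4 : ∑ k ∈ Finset.Ioc 0 B, ∑ n ∈ Finset.Icc k (A + B), r k * u r (n - k) ≤
      ∑ k ∈ Finset.Ioc 0 (A + B), ∑ n ∈ Finset.Icc k (A + B), r k * u r (n - k) := by
    apply Finset.sum_le_sum_of_subset_of_nonneg
    · exact Finset.Ioc_subset_Ioc_right (by omega)
    · intro k _ _
      exact Finset.sum_nonneg fun n _ => mul_nonneg (hr k) (u_nonneg hr _)
  have h5 := Finset.sum_le_sum h3
  linarith

/-- the scalar sum of clusters with their long excursions -/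
theorem v_sum_ge {r1 r2 : ℕ → ℝ} (hr1 : ∀ n, 0 ≤ r1 n) (hr2 : ∀ n, 0 ≤ r2 n) (A B : ℕ) {T : ℕ}
    (hT : A + B ≤ T) :
    U r1 A * ∑ n ∈ Finset.Ioc 0 B, r2 n ≤
      ∑ m ∈ Finset.Ioc 0 T, ∑ a ∈ Finset.Ico 0 m, u r1 a * r2 (m - a) := by
  have h2 : ∑ m ∈ Finset.Ioc 0 T, ∑ a ∈ Finset.Ico 0 m, u r1 a * r2 (m - a) =
      ∑ a ∈ Finset.range T, ∑ m ∈ Finset.Ioc a T, u r1 a * r2 (m - a) := by
    apply Finset.sum_comm'
    intro x y
    simp only [Finset.mem_Ioc, Finset.mem_Ico, Finset.mem_range]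
    omega
  rw [h2]
  unfold U
  rw [Finset.sum_mul]
  have h3 : ∀ a ∈ Finset.range (A + 1), u r1 a * ∑ n ∈ Finset.Ioc 0 B, r2 n ≤
      ∑ m ∈ Finset.Ioc a T, u r1 a * r2 (m - a) := by
    intro a ha
    rw [Finset.mem_range] at ha
    rw [← Finset.mul_sum]
    apply mul_le_mul_of_nonneg_left _ (u_nonneg hr1 a)
    have e1 : ∑ m ∈ Finset.Ioc a T, r2 (m - a) = ∑ n ∈ Finset.Ioc 0 (T - a), r2 n := by
      have k1 : Finset.Ioc a T = Finset.Ico (a + 1) (T + 1) := by
        ext n; simp only [Finset.mem_Ioc, Finset.mem_Ico]; omega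
      have k2 : Finset.Ioc 0 (T - a) = Finset.Ico 1 (T - a + 1) := by
        ext n; simp only [Finset.mem_Ioc, Finset.mem_Ico]; omega
      rw [k1, k2, Finset.sum_Ico_eq_sum_range, Finset.sum_Ico_eq_sum_range]
      have : T + 1 - (a + 1) = T - a + 1 - 1 := by omega
      rw [this]
      refine Finset.sum_congr rfl fun n _ => ?_
      congr 1
      omega
    rw [e1]
    apply Finset.sum_le_sum_of_subset_of_nonneg
    · exact Finset.Ioc_subset_Ioc_right (by omega)
    · intro n _ _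
      exact hr2 n
  refine (Finset.sum_le_sum h3).trans ?_
  rcases Nat.lt_or_ge A T with hAT | hAT
  · apply Finset.sum_le_sum_of_subset_of_nonneg
    · intro a ha
      rw [Finset.mem_range] at ha ⊢
      omega
    · intro a _ _
      exact Finset.sum_nonneg fun m _ => mul_nonneg (u_nonneg hr1 a) (hr2 _)
  · have hB : B = 0 := by omega
    have hAT' : A = T := by omega
    rw [Finset.sum_range_succ, hAT']
    simp

/-- the abstract criterion -/
theorem crit_abs {r1 r2 g s : ℕ → ℝ} (hr1 : ∀ n, 0 ≤ r1 n) (hr2 : ∀ n, 0 ≤ r2 n)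
    (hg : ∀ n, 0 ≤ g n)
    (hs : ∀ m, ∑ a ∈ Finset.Ico 0 m, u r1 a * r2 (m - a) + g m ≤ s m)
    {B T1 : ℕ} {η R I : ℝ} (hη : 0 ≤ η)
    (h1 : 1 - η ≤ ∑ n ∈ Finset.Ioc 0 B, (r1 n + r2 n)) (hR0 : 0 < R)
    (hR : R ≤ ∑ n ∈ Finset.Ioc 0 B, r2 n) (hI : I ≤ ∑ m ∈ Finset.Ioc 0 T1, g m)
    (hηI : η < R * I) : ∃ T : ℕ, 1 < ∑ m ∈ Finset.Ioc 0 T, s m := by
  by_contra hcon
  push Not at hcon
  set RB := ∑ n ∈ Finset.Ioc 0 B, r2 n with hRB
  set ρ := ∑ n ∈ Finset.Ioc 0 B, r1 n with hρ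
  rw [Finset.sum_add_distrib] at h1
  have hRB0 : 0 < RB := lt_of_lt_of_le hR0 hR
  have hkey : ∀ A : ℕ, U r1 A * RB + I ≤ 1 := by
    intro A
    set T := max (A + B) T1 with hT
    have e1 := v_sum_ge hr1 hr2 A B (le_max_left (A + B) T1)
    have e2 : ∑ m ∈ Finset.Ioc 0 T1, g m ≤ ∑ m ∈ Finset.Ioc 0 T, g m :=
      Finset.sum_le_sum_of_subset_of_nonneg (Finset.Ioc_subset_Ioc_right (le_max_right _ _))
        (fun m _ _ => hg m)
    have e3 : ∑ m ∈ Finset.Ioc 0 T, (∑ a ∈ Finset.Ico 0 m, u r1 a * r2 (m - a) + g m) ≤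
        ∑ m ∈ Finset.Ioc 0 T, s m := Finset.sum_le_sum fun m _ => hs m
    rw [Finset.sum_add_distrib] at e3
    have e4 := hcon T
    linarith
  have hmono := U_mono hr1
  have hbdd : BddAbove (Set.range (U r1)) := by
    refine ⟨(1 - I) / RB, ?_⟩
    rintro _ ⟨A, rfl⟩
    rw [le_div_iff₀ hRB0]
    linarith [hkey A]
  have hlim := tendsto_atTop_ciSup hmono hbdd
  set V := ⨆ i, U r1 i with hV
  have hV1 : V * RB + I ≤ 1 := le_of_tendsto ((hlim.mul_const RB).add_const I)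
    (Filter.Eventually.of_forall hkey)
  have hstep : 1 + ρ * V ≤ V := by
    have l1 : Tendsto (fun A => U r1 (A + B)) atTop (𝓝 V) :=
      hlim.comp (tendsto_add_atTop_nat B)
    have l2 : Tendsto (fun A => 1 + ρ * U r1 A) atTop (𝓝 (1 + ρ * V)) :=
      (hlim.const_mul ρ).const_add 1
    exact le_of_tendsto_of_tendsto' l2 l1 fun A => U_step hr1 A B
  have hV0 : 0 ≤ V := (Finset.sum_nonneg fun r _ => u_nonneg hr1 r : (0 : ℝ) ≤ U r1 0).trans
    (le_ciSup hbdd 0)
  have h2 : I ≤ η * V := by nlinarith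
  have h3 : V * R ≤ 1 - I := by nlinarith
  have hI0 : 0 < I := by
    by_contra hc
    push Not at hc
    nlinarith
  nlinarith

/-! ### shift of the field -/

theorem phi_shift_h (D : Data) (h t : ℝ) (ht : 0 ≤ t) (ω : ℕ → ℝ) {i j : ℕ} (hij : i ≤ j) :
    Real.exp (-(2 * D.lam * t)) ^ (j - i) * phi (D.w h ω) i j ≤ phi (D.w (h + t) ω) i j := by
  have hlam := D.hlam
  have hS : S (D.w (h + t) ω) i j = S (D.w h ω) i j + ((j - i : ℕ) : ℝ) * (-(2 * D.lam * t)) := by
    unfold S Data.w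
    have : ∀ n ∈ Finset.Ioc i j, -2 * D.lam * (ω n + (h + t)) =
        -2 * D.lam * (ω n + h) + -(2 * D.lam * t) := by intro n _; ring
    rw [Finset.sum_congr rfl this, Finset.sum_add_distrib, Finset.sum_const, Nat.card_Ioc,
      nsmul_eq_mul]
  unfold phi
  rw [hS, ← Real.exp_nat_mul, Real.exp_add]
  have h1 : Real.exp (((j - i : ℕ) : ℝ) * (-(2 * D.lam * t))) ≤ 1 := by
    apply Real.exp_le_one_iff.2
    have : (0 : ℝ) ≤ ((j - i : ℕ) : ℝ) := Nat.cast_nonneg _
    have h2 : 0 ≤ 2 * D.lam * t := by positivity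
    nlinarith
  have h2 := Real.exp_pos (((j - i : ℕ) : ℝ) * (-(2 * D.lam * t)))
  have h3 := Real.exp_pos (S (D.w h ω) i j)
  nlinarith

theorem G_shift_h {K : ℕ → ℝ} (hK : ∀ n, 0 ≤ K n) (D : Data) (h t : ℝ) (ht : 0 ≤ t)
    (ω : ℕ → ℝ) : ∀ d i j : ℕ, j - i = d → i ≤ j →
    Real.exp (-(2 * D.lam * t)) ^ (j - i) * G K (D.w h ω) i j ≤ G K (D.w (h + t) ω) i j := by
  have hG := M_G.J_G K (D.w h ω) hK
  intro d
  induction d using Nat.strong_induction_on with
  | _ d ih =>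
    intro i j hd hij
    rw [G_eq K (D.w h ω), G_eq K (D.w (h + t) ω)]
    split_ifs with hc
    · subst hc; simp
    · rw [Finset.mul_sum]
      refine Finset.sum_le_sum fun k hk => ?_
      rw [Finset.mem_Ioc] at hk
      have h1 := ih (j - k) (by omega) k j rfl hk.2
      have h2 := phi_shift_h D h t ht ω hk.1.le
      set E := Real.exp (-(2 * D.lam * t)) with hE
      have hE0 : 0 < E := Real.exp_pos _
      have h3 : 0 ≤ E ^ (j - k) * G K (D.w h ω) k j := mul_nonneg (by positivity) (hG.2.1 k j)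
      have h4 : 0 ≤ E ^ (k - i) * phi (D.w h ω) i k :=
        mul_nonneg (by positivity) (phi_pos _ _ _).le
      have e : E ^ (j - i) = E ^ (k - i) * E ^ (j - k) := by
        rw [← pow_add]; congr 1; omega
      rw [e]
      calc E ^ (k - i) * E ^ (j - k) * (K (k - i) * phi (D.w h ω) i k * G K (D.w h ω) k j) =
            K (k - i) * ((E ^ (k - i) * phi (D.w h ω) i k) * (E ^ (j - k) * G K (D.w h ω) k j)) := by
              ring
        _ ≤ K (k - i) * (phi (D.w (h + t) ω) i k * G K (D.w (h + t) ω) k j) :=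
            mul_le_mul_of_nonneg_left (mul_le_mul h2 h1 h3 (h4.trans h2)) (hK _)
        _ = _ := by ring

variable {D : Data} {c0 : ℝ} {n0 : ℕ} {h β : ℝ}

theorem sN_shift (hK : KHyp D.K D.α c0 n0) (h0 : 0 ≤ h) (hβ : 1 < β) {t : ℝ} (ht : 0 ≤ t)
    (cut m : ℕ) :
    Real.exp (-(2 * D.lam * t)) ^ m * sN D h β cut m ≤ sN D (h + t) β cut m := by
  have hβ0 : 0 < β := by linarith
  have hKS := KS_nonneg hK.nonneg cut
  have a1 := adm_Vm hK h0 hβ cut m
  have a2 := adm_Vm hK (show 0 ≤ h + t by linarith) hβ cut m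
  set E := Real.exp (-(2 * D.lam * t)) with hE
  have hE0 : 0 < E := Real.exp_pos _
  unfold sN
  rw [← nm_smul hβ0 a1.nn (show 0 ≤ E ^ m by positivity)]
  apply nm_mono hβ0 (a1.smul hβ0 (by positivity)) a2
  intro ω
  show E ^ m * Vm D.K (D.w h ω) cut 0 m ≤ Vm D.K (D.w (h + t) ω) cut 0 m
  unfold Vm
  rw [Finset.mul_sum]
  refine Finset.sum_le_sum fun a ha => ?_
  rw [Finset.mem_Ico] at ha
  have h1 := G_shift_h hKS D h t ht ω _ 0 a rfl (Nat.zero_le a)
  have h2 := phi_shift_h D h t ht ω ha.2.le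
  rw [Nat.sub_zero] at h1
  have e : E ^ m = E ^ a * E ^ (m - a) := by rw [← pow_add]; congr 1; omega
  have h3 : 0 ≤ E ^ a * G (KS D.K cut) (D.w h ω) 0 a :=
    mul_nonneg (by positivity) ((M_G.J_G _ (D.w h ω) hKS).2.1 0 a)
  have h4 : 0 ≤ E ^ (m - a) * phi (D.w h ω) a m := mul_nonneg (by positivity) (phi_pos _ _ _).le
  have h5 := KLg_nonneg hK.nonneg cut (m - a)
  rw [e]
  calc E ^ a * E ^ (m - a) * (G (KS D.K cut) (D.w h ω) 0 a * KLg D.K cut (m - a) *
        phi (D.w h ω) a m) = KLg D.K cut (m - a) * ((E ^ a * G (KS D.K cut) (D.w h ω) 0 a) *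
        (E ^ (m - a) * phi (D.w h ω) a m)) := by ring
    _ ≤ KLg D.K cut (m - a) * (G (KS D.K cut) (D.w (h + t) ω) 0 a * phi (D.w (h + t) ω) a m) :=
        mul_le_mul_of_nonneg_left (mul_le_mul h1 h2 h4 (h3.trans h1)) h5
    _ = _ := by ring

end Pool.Agent.TH983
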