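import Pool.Agent.Helper764.CopDefs
import Pool.Agent.Helper764.Cop_G
import Pool.Agent.Helper764.Cop_loc

/-!
# Deterministic inequalities for the copolymer partition function

Straddling decomposition of the constrained partition function and block inequalities.
-/

set_option autoImplicit false
set_option maxHeartbeats 4000000
open MeasureTheory ProbabilityTheory Filter Topology
open scoped ENNReal NNReal

namespace Pool.Agent.TH983
open Cop764

theorem phi_pos (w : ℕ → ℝ) (i j : ℕ) : 0 < phi w i j := by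
  unfold phi
  have := Real.exp_pos (S w i j)
  linarith

theorem half_le_phi (w : ℕ → ℝ) (i j : ℕ) : 1 / 2 ≤ phi w i j := by
  unfold phi
  have := Real.exp_pos (S w i j)
  linarith

theorem exp_half_le_phi (w : ℕ → ℝ) (i j : ℕ) : Real.exp (S w i j) / 2 ≤ phi w i j := by
  unfold phi
  linarith

theorem exp_S_half_le_phi (w : ℕ → ℝ) (i j : ℕ) : Real.exp (S w i j / 2) ≤ phi w i j := by
  unfold phi
  have h : Real.exp (S w i j) = Real.exp (S w i j / 2) * Real.exp (S w i j / 2) := by
    rw [← Real.exp_add]; congr 1; ring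
  rw [h]
  nlinarith [sq_nonneg (Real.exp (S w i j / 2) - 1)]

theorem S_add (w : ℕ → ℝ) {i b k : ℕ} (h1 : i ≤ b) (h2 : b ≤ k) :
    S w i k = S w i b + S w b k := by
  unfold S
  rw [← Finset.Ioc_union_Ioc_eq_Ioc h1 h2, Finset.sum_union (Finset.Ioc_disjoint_Ioc_of_le le_rfl)]

/-- straddling decomposition: the renewal jump over the level `t` -/
theorem straddle (K w : ℕ → ℝ) (hK : ∀ n, 0 ≤ K n) : ∀ (d i t j : ℕ), t - i = d → i ≤ t → t < j →
    G K w i j = ∑ a ∈ Finset.Icc i t, ∑ b ∈ Finset.Ioc t j,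
      G K w i a * (K (b - a) * phi w a b) * G K w b j := by
  have hG := M_G.J_G K w hK
  intro d
  induction d using Nat.strong_induction_on with
  | _ d ih =>
    intro i t j hd hit htj
    rw [← Finset.Ioc_insert_left hit, Finset.sum_insert (by simp), hG.1 i]
    have e1 : G K w i j = ∑ l ∈ Finset.Ioc i t, K (l - i) * phi w i l * G K w l j
          + ∑ l ∈ Finset.Ioc t j, K (l - i) * phi w i l * G K w l j := by
      rw [G_eq, if_neg (by omega), ← Finset.Ioc_union_Ioc_eq_Ioc hit htj.le,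
        Finset.sum_union (Finset.Ioc_disjoint_Ioc_of_le le_rfl)]
    rw [e1, add_comm]
    congr 1
    · exact Finset.sum_congr rfl fun b _ => by ring
    · have e2 : ∀ l ∈ Finset.Ioc i t, K (l - i) * phi w i l * G K w l j =
          ∑ a ∈ Finset.Icc l t, K (l - i) * phi w i l * G K w l a *
            ∑ b ∈ Finset.Ioc t j, (K (b - a) * phi w a b) * G K w b j := by
        intro l hl
        rw [Finset.mem_Ioc] at hl
        rw [ih (t - l) (by omega) l t j rfl hl.2 htj, Finset.mul_sum]
        refine Finset.sum_congr rfl fun a _ => ?_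
        rw [Finset.mul_sum, Finset.mul_sum]
        refine Finset.sum_congr rfl fun b _ => ?_
        ring
      rw [Finset.sum_congr rfl e2]
      have e3 : ∀ a ∈ Finset.Ioc i t, ∑ b ∈ Finset.Ioc t j,
          G K w i a * (K (b - a) * phi w a b) * G K w b j =
          ∑ l ∈ Finset.Ioc i a, K (l - i) * phi w i l * G K w l a *
            ∑ b ∈ Finset.Ioc t j, (K (b - a) * phi w a b) * G K w b j := by
        intro a ha
        rw [Finset.mem_Ioc] at ha
        rw [← Finset.sum_mul]
        have : G K w i a = ∑ l ∈ Finset.Ioc i a, K (l - i) * phi w i l * G K w l a := by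
          rw [G_eq, if_neg (by omega)]
        rw [← this, Finset.mul_sum]
        refine Finset.sum_congr rfl fun b _ => ?_
        ring
      rw [Finset.sum_congr rfl e3]
      apply Finset.sum_comm'
      intro x y
      simp only [Finset.mem_Ioc, Finset.mem_Icc]
      omega

/-- lower bound by restricting the straddling jump -/
theorem straddle_ge (K w : ℕ → ℝ) (hK : ∀ n, 0 ≤ K n) (i t j : ℕ) (hit : i ≤ t) (htj : t < j)
    (A B : Finset ℕ) (hA : A ⊆ Finset.Icc i t) (hB : B ⊆ Finset.Ioc t j) :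
    ∑ a ∈ A, ∑ b ∈ B, G K w i a * (K (b - a) * phi w a b) * G K w b j ≤ G K w i j := by
  have hG := M_G.J_G K w hK
  rw [straddle K w hK _ i t j rfl hit htj]
  have hnn : ∀ a b, 0 ≤ G K w i a * (K (b - a) * phi w a b) * G K w b j := fun a b =>
    mul_nonneg (mul_nonneg (hG.2.1 _ _) (mul_nonneg (hK _) (phi_pos w a b).le)) (hG.2.1 _ _)
  calc ∑ a ∈ A, ∑ b ∈ B, G K w i a * (K (b - a) * phi w a b) * G K w b j
      ≤ ∑ a ∈ A, ∑ b ∈ Finset.Ioc t j, G K w i a * (K (b - a) * phi w a b) * G K w b j :=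
        Finset.sum_le_sum fun a _ => Finset.sum_le_sum_of_subset_of_nonneg hB fun b _ _ => hnn a b
    _ ≤ _ := Finset.sum_le_sum_of_subset_of_nonneg hA fun a _ _ =>
        Finset.sum_nonneg fun b _ => hnn a b

/-- renewal mass function -/
noncomputable def u (K : ℕ → ℝ) (r : ℕ) : ℝ := G K (fun _ => 0) 0 r

theorem u_nonneg {K : ℕ → ℝ} (hK : ∀ n, 0 ≤ K n) (r : ℕ) : 0 ≤ u K r :=
  (M_G.J_G K _ hK).2.1 0 r

theorem G_zero_shift (K : ℕ → ℝ) (i j : ℕ) (hij : i ≤ j) :
    G K (fun _ => 0) i j = u K (j - i) := by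
  have h := (M_loc.J_loc).1 K (fun _ => 0) i 0 (j - i)
  rw [zero_add, Nat.sub_add_cancel hij] at h
  exact h.symm

/-- Jensen: `G ≥ e^{S/2} u` -/
theorem G_ge (K w : ℕ → ℝ) (hK : ∀ n, 0 ≤ K n) : ∀ (d i j : ℕ), j - i = d → i ≤ j →
    Real.exp (S w i j / 2) * u K (j - i) ≤ G K w i j := by
  have hG := M_G.J_G K w hK
  intro d
  induction d using Nat.strong_induction_on with
  | _ d ih =>
    intro i j hd hij
    rcases Nat.eq_or_lt_of_le hij with h | h
    · subst h
      rw [hG.1, Nat.sub_self]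
      have h1 : u K 0 = 1 := (M_G.J_G K _ hK).1 0
      have h2 : S w i i = 0 := by unfold S; simp
      rw [h1, h2]
      simp
    · rw [← G_zero_shift K i j hij, G_eq K (fun _ => 0) i j, G_eq K w i j, if_neg (by omega),
        if_neg (by omega), Finset.mul_sum]
      refine Finset.sum_le_sum fun k hk => ?_
      rw [Finset.mem_Ioc] at hk
      have h1 := ih (j - k) (by omega) k j rfl hk.2
      have h2 : phi (fun _ => 0) i k = 1 := by unfold phi S; simp
      rw [h2, G_zero_shift K k j hk.2, S_add w hk.1.le hk.2]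
      have h3 : Real.exp ((S w i k + S w k j) / 2) = Real.exp (S w i k / 2) * Real.exp (S w k j / 2) := by
        rw [← Real.exp_add]; congr 1; ring
      rw [h3]
      have h4 := exp_S_half_le_phi w i k
      have h5 := Real.exp_pos (S w k j / 2)
      have h6 := u_nonneg hK (j - k)
      have h7 := hK (k - i)
      calc Real.exp (S w i k / 2) * Real.exp (S w k j / 2) * (K (k - i) * 1 * u K (j - k))
          = (K (k - i) * Real.exp (S w i k / 2)) * (Real.exp (S w k j / 2) * u K (j - k)) := by ring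
        _ ≤ (K (k - i) * phi w i k) * G K w k j := by
            apply mul_le_mul _ h1 (by positivity) (mul_nonneg h7 (phi_pos w i k).le)
            exact mul_le_mul_of_nonneg_left h4 h7

/-! ### block quantities -/

/-- value function: paths entering block `c` in its first part and pinned at `M` -/
noncomputable def Vb (K w : ℕ → ℝ) (L q M c : ℕ) : ℝ :=
  ∑ m ∈ Finset.Ioc (c * L) (c * L + q), min 1 (Real.exp (S w (c * L) m)) * G K w m M

/-- contact factor of a cycle start block -/
noncomputable def Bst (K w : ℕ → ℝ) (L q c : ℕ) : ℝ :=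
  ∑ m ∈ Finset.Ioc (c * L) (c * L + q), ∑ m' ∈ Finset.Icc m (m + q),
    min 1 (Real.exp (S w (c * L) m)) * G K w m m'

/-- contact factor before a negative stretch -/
noncomputable def Bmi (K w : ℕ → ℝ) (L q n : ℕ) : ℝ :=
  ∑ m ∈ Finset.Ioc (n * L) (n * L + q), ∑ m' ∈ Finset.Icc m (m + q),
    G K w m m' * Real.exp (S w m' ((n + 1) * L))

/-- lower bound of the cost of a jump between blocks at distance `d` -/
noncomputable def kap (c0 α : ℝ) (L d : ℕ) : ℝ := c0 * (((d + 1 : ℕ) : ℝ) * (L : ℝ)) ^ (-(1 + α))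

theorem kap_le {K : ℕ → ℝ} {α c0 : ℝ} {n0 : ℕ} (hK : KHyp K α c0 n0) {L d r : ℕ} (h1 : n0 ≤ r)
    (h2 : r ≤ (d + 1) * L) : kap c0 α L d ≤ K r := by
  refine le_trans ?_ (hK.lower r h1)
  unfold kap
  have hn0 := hK.n0_pos
  have hr : (0 : ℝ) < r := by exact_mod_cast (show 0 < r by omega)
  have h3 : (r : ℝ) ≤ ((d + 1 : ℕ) : ℝ) * (L : ℝ) := by exact_mod_cast h2
  apply mul_le_mul_of_nonneg_left _ hK.c0_pos.le
  exact Real.rpow_le_rpow_of_nonpos hr h3 (by have := hK.alpha_pos; linarith)

theorem kap_pos {α c0 : ℝ} (hc : 0 < c0) {L d : ℕ} (hL : 0 < L) : 0 < kap c0 α L d := by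
  unfold kap
  have : (0 : ℝ) < L := by exact_mod_cast hL
  positivity

theorem mul_sum_mul (s : Finset ℕ) (f : ℕ → ℝ) (a b : ℝ) :
    a * (∑ i ∈ s, f i) * b = ∑ i ∈ s, a * f i * b := by
  rw [Finset.mul_sum, Finset.sum_mul]

theorem mul_sum_mul_mul (s : Finset ℕ) (f : ℕ → ℝ) (a b c : ℝ) :
    a * (∑ i ∈ s, f i) * b * c = ∑ i ∈ s, a * f i * b * c := by
  rw [Finset.mul_sum, Finset.sum_mul, Finset.sum_mul]

theorem jump1 {K : ℕ → ℝ} {α c0 : ℝ} {n0 : ℕ} (hK : KHyp K α c0 n0) (w : ℕ → ℝ) {L q : ℕ}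
    (hL : 2 * q + n0 ≤ L) {c n M : ℕ} (hcn : c < n) (hM : n * L + q ≤ M) :
    kap c0 α L (n - c) / 2 * Bst K w L q c *
      ∑ k ∈ Finset.Ioc (n * L) (n * L + q), G K w k M ≤ Vb K w L q M c := by
  have hG := M_G.J_G K w hK.nonneg
  have hn0 := hK.n0_pos
  have hcL : (c + 1) * L ≤ n * L := Nat.mul_le_mul_right L hcn
  have hcL' : (c + 1) * L = c * L + L := by ring
  unfold Vb Bst
  rw [mul_sum_mul]
  refine Finset.sum_le_sum fun m hm => ?_
  rw [Finset.mem_Ioc] at hm
  have hmin : 0 ≤ min 1 (Real.exp (S w (c * L) m)) := le_min zero_le_one (Real.exp_pos _).le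
  have key : ∑ m' ∈ Finset.Icc m (m + q), ∑ k ∈ Finset.Ioc (n * L) (n * L + q),
      G K w m m' * (K (k - m') * phi w m' k) * G K w k M ≤ G K w m M := by
    apply straddle_ge K w hK.nonneg m (m + q) M (by omega) (by omega)
    · exact subset_rfl
    · intro k hk
      rw [Finset.mem_Ioc] at hk ⊢
      omega
  calc kap c0 α L (n - c) / 2 * (∑ m' ∈ Finset.Icc m (m + q),
        min 1 (Real.exp (S w (c * L) m)) * G K w m m') *
        ∑ k ∈ Finset.Ioc (n * L) (n * L + q), G K w k M
      = min 1 (Real.exp (S w (c * L) m)) * ∑ m' ∈ Finset.Icc m (m + q),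
          ∑ k ∈ Finset.Ioc (n * L) (n * L + q),
            G K w m m' * (kap c0 α L (n - c) * (1 / 2)) * G K w k M := by
        rw [mul_sum_mul, Finset.mul_sum]
        refine Finset.sum_congr rfl fun m' _ => ?_
        rw [Finset.mul_sum, Finset.mul_sum]
        refine Finset.sum_congr rfl fun k _ => ?_
        ring
    _ ≤ min 1 (Real.exp (S w (c * L) m)) * G K w m M := by
        apply mul_le_mul_of_nonneg_left _ hmin
        refine le_trans ?_ key
        refine Finset.sum_le_sum fun m' hm' => Finset.sum_le_sum fun k hk => ?_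
        rw [Finset.mem_Icc] at hm'
        rw [Finset.mem_Ioc] at hk
        have h1 : kap c0 α L (n - c) ≤ K (k - m') := by
          apply kap_le hK
          · omega
          · have : (n - c + 1) * L + c * L = (n + 1) * L := by
              rw [← Nat.add_mul]; congr 1; omega
            have h3 : (n + 1) * L = n * L + L := by ring
            omega
        have h2 := half_le_phi w m' k
        have h3 : 0 ≤ G K w m m' := hG.2.1 _ _
        have h4 : 0 ≤ G K w k M := hG.2.1 _ _
        have h5 : 0 ≤ K (k - m') := hK.nonneg _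
        apply mul_le_mul_of_nonneg_right _ h4
        apply mul_le_mul_of_nonneg_left _ h3
        exact mul_le_mul h1 h2 (by norm_num) h5

theorem jump2 {K : ℕ → ℝ} {α c0 : ℝ} {n0 : ℕ} (hK : KHyp K α c0 n0) (w : ℕ → ℝ) {L q : ℕ}
    (hL : 2 * q + n0 ≤ L) {n e M : ℕ} (hne : n < e) (hM : e * L + q ≤ M) :
    kap c0 α L (e - n) / 2 * Bmi K w L q n * Real.exp (S w ((n + 1) * L) (e * L)) *
      Vb K w L q M e ≤ ∑ k ∈ Finset.Ioc (n * L) (n * L + q), G K w k M := by
  have hG := M_G.J_G K w hK.nonneg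
  have hn0 := hK.n0_pos
  have hcL : (n + 1) * L ≤ e * L := Nat.mul_le_mul_right L hne
  have hcL' : (n + 1) * L = n * L + L := by ring
  unfold Vb Bmi
  rw [mul_sum_mul_mul]
  refine Finset.sum_le_sum fun m hm => ?_
  rw [Finset.mem_Ioc] at hm
  have key : ∑ m' ∈ Finset.Icc m (m + q), ∑ k ∈ Finset.Ioc (e * L) (e * L + q),
      G K w m m' * (K (k - m') * phi w m' k) * G K w k M ≤ G K w m M := by
    apply straddle_ge K w hK.nonneg m (m + q) M (by omega) (by omega)
    · exact subset_rfl
    · intro k hk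
      rw [Finset.mem_Ioc] at hk ⊢
      omega
  refine le_trans ?_ key
  rw [mul_sum_mul_mul]
  refine Finset.sum_le_sum fun m' hm' => ?_
  rw [Finset.mem_Icc] at hm'
  rw [Finset.mul_sum]
  refine Finset.sum_le_sum fun k hk => ?_
  rw [Finset.mem_Ioc] at hk
  have h1 : kap c0 α L (e - n) ≤ K (k - m') := by
    apply kap_le hK
    · omega
    · have : (e - n + 1) * L + n * L = (e + 1) * L := by
        rw [← Nat.add_mul]; congr 1; omega
      have h3 : (e + 1) * L = e * L + L := by ring
      omega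
  have h2 := exp_half_le_phi w m' k
  have h3 : 0 ≤ G K w m m' := hG.2.1 _ _
  have h4 : 0 ≤ G K w k M := hG.2.1 _ _
  have h5 : 0 ≤ K (k - m') := hK.nonneg _
  have h6 : S w m' k = S w m' ((n + 1) * L) + S w ((n + 1) * L) (e * L) + S w (e * L) k := by
    rw [S_add w (show m' ≤ (n + 1) * L by omega) (show (n + 1) * L ≤ k by omega),
      S_add w hcL (show e * L ≤ k by omega)]
    ring
  have h7 : min 1 (Real.exp (S w (e * L) k)) ≤ Real.exp (S w (e * L) k) := min_le_right _ _
  have h8 := Real.exp_pos (S w m' ((n + 1) * L))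
  have h9 := Real.exp_pos (S w ((n + 1) * L) (e * L))
  have hkp : 0 ≤ kap c0 α L (e - n) := by
    unfold kap
    have := hK.c0_pos
    positivity
  calc kap c0 α L (e - n) / 2 * (G K w m m' * Real.exp (S w m' ((n + 1) * L))) *
        Real.exp (S w ((n + 1) * L) (e * L)) * (min 1 (Real.exp (S w (e * L) k)) * G K w k M)
      ≤ kap c0 α L (e - n) / 2 * (G K w m m' * Real.exp (S w m' ((n + 1) * L))) *
        Real.exp (S w ((n + 1) * L) (e * L)) * (Real.exp (S w (e * L) k) * G K w k M) := by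
        gcongr
    _ = G K w m m' * (kap c0 α L (e - n) * (Real.exp (S w m' k) / 2)) * G K w k M := by
        rw [h6, Real.exp_add, Real.exp_add]
        ring
    _ ≤ G K w m m' * (K (k - m') * phi w m' k) * G K w k M := by
        apply mul_le_mul_of_nonneg_right _ h4
        apply mul_le_mul_of_nonneg_left _ h3
        exact mul_le_mul h1 h2 (by positivity) h5

theorem Vb_le_sum {K : ℕ → ℝ} (hK : ∀ n, 0 ≤ K n) (w : ℕ → ℝ) (L q M c : ℕ) :
    Vb K w L q M c ≤ ∑ k ∈ Finset.Ioc (c * L) (c * L + q), G K w k M := by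
  unfold Vb
  refine Finset.sum_le_sum fun m _ => ?_
  have := (M_G.J_G K w hK).2.1 m M
  calc _ ≤ 1 * G K w m M := mul_le_mul_of_nonneg_right (min_le_left _ _) this
    _ = _ := one_mul _

/-- entering block `1` from the origin -/
theorem enter {K : ℕ → ℝ} {α c0 : ℝ} {n0 : ℕ} (hK : KHyp K α c0 n0) (w : ℕ → ℝ) {L q : ℕ}
    (hL : 2 * q + n0 ≤ L) {M : ℕ} (hM : L + q < M) :
    kap c0 α L 1 / 2 * Vb K w L q M 1 ≤ G K w 0 M := by
  have hG := M_G.J_G K w hK.nonneg
  have hn0 := hK.n0_pos
  have key : ∑ a ∈ ({0} : Finset ℕ), ∑ k ∈ Finset.Ioc (1 * L) (1 * L + q),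
      G K w 0 a * (K (k - a) * phi w a k) * G K w k M ≤ G K w 0 M := by
    apply straddle_ge K w hK.nonneg 0 L M (by omega) (by omega)
    · intro a ha
      simp only [Finset.mem_singleton] at ha
      subst ha
      simp
    · intro k hk
      rw [Finset.mem_Ioc] at hk ⊢
      omega
  rw [Finset.sum_singleton] at key
  refine le_trans ?_ key
  refine (mul_le_mul_of_nonneg_left (Vb_le_sum hK.nonneg w L q M 1) ?_).trans ?_
  · unfold kap
    have := hK.c0_pos
    positivity
  rw [Finset.mul_sum]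
  refine Finset.sum_le_sum fun k hk => ?_
  rw [Finset.mem_Ioc] at hk
  have h1 : kap c0 α L 1 ≤ K (k - 0) := by
    apply kap_le hK <;> omega
  have h2 := half_le_phi w 0 k
  have h4 : 0 ≤ G K w k M := hG.2.1 _ _
  have h5 : 0 ≤ K (k - 0) := hK.nonneg _
  rw [hG.1 0]
  calc kap c0 α L 1 / 2 * G K w k M = 1 * (kap c0 α L 1 * (1 / 2)) * G K w k M := by ring
    _ ≤ _ := by
      apply mul_le_mul_of_nonneg_right _ h4
      apply mul_le_mul_of_nonneg_left _ zero_le_one
      exact mul_le_mul h1 h2 (by norm_num) h5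

end Pool.Agent.TH983
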