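import Pool.Agent.TH983.Gau

/-!
# Explicit lower bound for the level of the integral criterion
-/

set_option autoImplicit false
set_option maxHeartbeats 4000000
open MeasureTheory ProbabilityTheory Filter Topology
open scoped ENNReal NNReal

namespace Pool.Agent.TH983
open Cop764

/-- algebraic core of the derivative inequality -/
theorem core_q {θ q : ℝ} (hθ0 : 0 < θ) (hθ1 : θ < 1) (hq0 : 0 < q) (hq1 : q ≤ 1) :
    (1 - q ^ θ) * (1 + q) ^ (1 - θ) ≤ 1 - q := by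
  have h1 : (1 + q) ^ (1 - θ) ≤ 1 + (1 - θ) * q :=
    rpow_one_add_le_one_add_mul_self (by linarith) (by linarith) (by linarith)
  have h2 : q ^ (1 - θ) ≤ 1 + (1 - θ) * (q - 1) := by
    have := rpow_one_add_le_one_add_mul_self (s := q - 1) (p := 1 - θ) (by linarith)
      (by linarith) (by linarith)
    rwa [add_sub_cancel] at this
  have h3 : q ^ θ ≤ 1 := Real.rpow_le_one hq0.le hq1 hθ0.le
  have h4 : (1 - q ^ θ) * (1 + q) ^ (1 - θ) ≤ (1 - q ^ θ) * (1 + (1 - θ) * q) :=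
    mul_le_mul_of_nonneg_left h1 (by linarith)
  refine h4.trans ?_
  -- (2 - θ) q ≤ q^θ (1 + (1-θ) q)
  have h5 : (2 - θ) * q ^ (1 - θ) ≤ 1 + (1 - θ) * q := by
    have h6 : (2 - θ) * q ^ (1 - θ) ≤ (2 - θ) * (1 + (1 - θ) * (q - 1)) :=
      mul_le_mul_of_nonneg_left h2 (by linarith)
    have h7 : (1 + (1 - θ) * q) - (2 - θ) * (1 + (1 - θ) * (q - 1)) = (1 - θ) ^ 2 * (1 - q) := by
      ring
    have h8 : 0 ≤ (1 - θ) ^ 2 * (1 - q) := mul_nonneg (sq_nonneg _) (by linarith)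
    linarith
  have hqθ : 0 < q ^ θ := Real.rpow_pos_of_pos hq0 _
  have h9 : q ^ θ * ((2 - θ) * q ^ (1 - θ)) ≤ q ^ θ * (1 + (1 - θ) * q) :=
    mul_le_mul_of_nonneg_left h5 hqθ.le
  have h10 : q ^ θ * q ^ (1 - θ) = q := by
    rw [← Real.rpow_add hq0]
    simp
  have h11 : q ^ θ * ((2 - θ) * q ^ (1 - θ)) = (2 - θ) * q := by
    calc q ^ θ * ((2 - θ) * q ^ (1 - θ)) = (2 - θ) * (q ^ θ * q ^ (1 - θ)) := by ring
      _ = _ := by rw [h10]
  rw [h11] at h9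
  nlinarith

/-- comparison of hyperbolic sines -/
theorem sinh_comp {θ x : ℝ} (hθ0 : 0 < θ) (hθ1 : θ < 1) (hx : 0 ≤ x) :
    2 ^ (1 - θ) * Real.sinh (θ * x) ≤ Real.cosh x ^ (θ - 1) * Real.sinh x := by
  set q := Real.exp (-2 * x) with hq
  have hq0 : 0 < q := Real.exp_pos _
  have hq1 : q ≤ 1 := Real.exp_le_one_iff.2 (by linarith)
  have h := core_q hθ0 hθ1 hq0 hq1
  have e1 : Real.sinh (θ * x) = Real.exp (θ * x) * (1 - q ^ θ) / 2 := by
    rw [Real.sinh_eq, hq, ← Real.exp_mul, mul_sub, ← Real.exp_add, mul_one]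
    congr 2
    congr 1; ring
  have e2 : Real.sinh x = Real.exp x * (1 - q) / 2 := by
    rw [Real.sinh_eq, hq, mul_sub, ← Real.exp_add, mul_one]
    congr 2
    congr 1; ring
  have e3 : Real.cosh x = Real.exp x * (1 + q) / 2 := by
    rw [Real.cosh_eq, hq, mul_add, ← Real.exp_add, mul_one]
    congr 2
    congr 1; ring
  have hp : 0 < 1 + q := by linarith
  have e4 : Real.cosh x ^ (θ - 1) = Real.exp (x * (θ - 1)) * (1 + q) ^ (θ - 1) * 2 ^ (1 - θ) := by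
    rw [e3, Real.div_rpow (by positivity) (by norm_num), Real.mul_rpow (Real.exp_pos _).le hp.le,
      ← Real.exp_mul, div_eq_mul_inv, ← Real.rpow_neg (by norm_num)]
    congr 2; ring
  have e5 : (1 + q) ^ (θ - 1) * (1 + q) ^ (1 - θ) = 1 := by
    rw [← Real.rpow_add hp]; simp
  have e6 : 0 < (1 + q) ^ (θ - 1) := Real.rpow_pos_of_pos hp _
  have h2 : 1 - q ^ θ ≤ (1 + q) ^ (θ - 1) * (1 - q) := by
    have := mul_le_mul_of_nonneg_left h e6.le
    calc 1 - q ^ θ = (1 - q ^ θ) * ((1 + q) ^ (θ - 1) * (1 + q) ^ (1 - θ)) := by rw [e5, mul_one]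
      _ = (1 + q) ^ (θ - 1) * ((1 - q ^ θ) * (1 + q) ^ (1 - θ)) := by ring
      _ ≤ _ := this
  rw [e1, e4, e2]
  have e7 : Real.exp (x * (θ - 1)) * Real.exp x = Real.exp (θ * x) := by
    rw [← Real.exp_add]; congr 1; ring
  have e8 : Real.exp (x * (θ - 1)) * (1 + q) ^ (θ - 1) * 2 ^ (1 - θ) * (Real.exp x * (1 - q) / 2) =
      2 ^ (1 - θ) * (Real.exp (θ * x) * ((1 + q) ^ (θ - 1) * (1 - q)) / 2) := by
    rw [← e7]; ring
  rw [e8]
  have h3 : (0 : ℝ) < 2 ^ (1 - θ) := Real.rpow_pos_of_pos two_pos _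
  apply mul_le_mul_of_nonneg_left _ h3.le
  apply div_le_div_of_nonneg_right _ (by norm_num)
  exact mul_le_mul_of_nonneg_left h2 (Real.exp_pos _).le

theorem cosh_pow_ge {θ : ℝ} (hθ0 : 0 < θ) (hθ1 : θ < 1) (x : ℝ) :
    1 - 2 ^ (1 - θ) + 2 ^ (1 - θ) * Real.cosh (θ * x) ≤ Real.cosh x ^ θ := by
  -- reduce to nonnegative arguments
  wlog hx : 0 ≤ x with H
  · have := H hθ0 hθ1 (-x) (by linarith)
    rwa [mul_neg, Real.cosh_neg, Real.cosh_neg] at this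
  set F : ℝ → ℝ := fun x => Real.cosh x ^ θ - 2 ^ (1 - θ) * Real.cosh (θ * x) with hF
  have hder : ∀ x, HasDerivAt F (Real.sinh x * θ * Real.cosh x ^ (θ - 1) -
      2 ^ (1 - θ) * (Real.sinh (θ * x) * θ)) x := by
    intro x
    have h1 : HasDerivAt (fun x => Real.cosh x ^ θ) (Real.sinh x * θ * Real.cosh x ^ (θ - 1)) x :=
      (Real.hasDerivAt_cosh x).rpow_const (Or.inl (Real.cosh_pos x).ne')
    have h2 : HasDerivAt (fun x => Real.cosh (θ * x)) (Real.sinh (θ * x) * θ) x := by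
      have h3 : HasDerivAt (fun x : ℝ => θ * x) θ x := by
        simpa using (hasDerivAt_id x).const_mul θ
      exact (Real.hasDerivAt_cosh (θ * x)).comp x h3
    exact h1.sub (h2.const_mul _)
  have hmono : MonotoneOn F (Set.Ici 0) := by
    apply monotoneOn_of_deriv_nonneg (convex_Ici 0)
    · exact fun x _ => (hder x).continuousAt.continuousWithinAt
    · exact fun x _ => (hder x).differentiableAt.differentiableWithinAt
    · intro x hx
      rw [interior_Ici] at hx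
      rw [(hder x).deriv]
      have := sinh_comp hθ0 hθ1 (le_of_lt hx)
      nlinarith
  have h := hmono (Set.mem_Ici.2 le_rfl) (Set.mem_Ici.2 hx) hx
  simp only [hF, mul_zero, Real.cosh_zero, Real.one_rpow, mul_one] at h
  linarith

/-- lower bound of the power of the excursion weight by three exponentials -/
theorem ph_pow_ge3 {θ : ℝ} (hθ0 : 0 < θ) (hθ1 : θ < 1) (s : ℝ) :
    (1 - 2 ^ (1 - θ)) * Real.exp (θ / 2 * s) + 2 ^ (1 - θ) / 2 * (1 + Real.exp (θ * s)) ≤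
      ph s ^ θ := by
  have h := cosh_pow_ge hθ0 hθ1 (s / 2)
  have e1 : ph s = Real.exp (s / 2) * Real.cosh (s / 2) := by
    unfold ph
    rw [Real.cosh_eq]
    have h1 : Real.exp s = Real.exp (s / 2) * Real.exp (s / 2) := by
      rw [← Real.exp_add]; congr 1; ring
    have h2 : Real.exp (s / 2) * Real.exp (-(s / 2)) = 1 := by rw [← Real.exp_add]; simp
    rw [h1]
    linear_combination (-1 / 2 : ℝ) * h2
  rw [e1, Real.mul_rpow (Real.exp_pos _).le (Real.cosh_pos _).le, ← Real.exp_mul]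
  have e2 : s / 2 * θ = θ / 2 * s := by ring
  rw [e2]
  have h3 := mul_le_mul_of_nonneg_left h (Real.exp_pos (θ / 2 * s)).le
  refine le_trans (le_of_eq ?_) h3
  rw [Real.cosh_eq]
  have e3 : θ * (s / 2) = θ / 2 * s := by ring
  rw [e3]
  have h4 : Real.exp (θ * s) = Real.exp (θ / 2 * s) * Real.exp (θ / 2 * s) := by
    rw [← Real.exp_add]; congr 1; ring
  have h5 : Real.exp (θ / 2 * s) * Real.exp (-(θ / 2 * s)) = 1 := by rw [← Real.exp_add]; simp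
  rw [h4]
  linear_combination (-(2 ^ (1 - θ)) / 2 : ℝ) * h5

theorem aG_ge3 {θ κ y : ℝ} (hθ0 : 0 < θ) (hθ1 : θ < 1) (hy : 0 ≤ y) :
    (1 - 2 ^ (1 - θ)) * Real.exp (-(θ * (κ - θ / 2)) * y) +
      2 ^ (1 - θ) / 2 * (1 + Real.exp (-(2 * θ * (κ - θ)) * y)) ≤ aG κ θ y := by
  rw [← aG_eq κ θ hy]
  have g1 := gamY_mgf κ hy (θ / 2)
  have g2 := gamY_mgf κ hy θ
  have i1 : Integrable (fun s => (1 - 2 ^ (1 - θ)) * Real.exp (θ / 2 * s))
      (gamY κ y : Measure ℝ) := g1.1.const_mul _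
  have i2 : Integrable (fun s => 2 ^ (1 - θ) / 2 * (1 + Real.exp (θ * s)))
      (gamY κ y : Measure ℝ) := ((integrable_const 1).add g2.1).const_mul _
  have h := integral_mono (i1.add i2) (ph_rpow_int hθ0.le κ y) fun s => ph_pow_ge3 hθ0 hθ1 s
  refine le_trans (le_of_eq ?_) h
  have e1 : ∫ s, (fun s => (1 - 2 ^ (1 - θ)) * Real.exp (θ / 2 * s)) s +
      (fun s => 2 ^ (1 - θ) / 2 * (1 + Real.exp (θ * s))) s ∂(gamY κ y : Measure ℝ) =
      (1 - 2 ^ (1 - θ)) * Real.exp (-2 * κ * y * (θ / 2) + 2 * y * (θ / 2) ^ 2) +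
      2 ^ (1 - θ) / 2 * (1 + Real.exp (-2 * κ * y * θ + 2 * y * θ ^ 2)) := by
    rw [integral_add i1 i2, integral_const_mul, integral_const_mul,
      integral_add (integrable_const 1) g2.1, g1.2, g2.2]
    simp
  refine Eq.trans ?_ e1.symm
  congr 2
  · congr 1; ring
  · congr 2; ring

/-! ### the scaling integral -/

/-- integrand of the scaling integral -/
noncomputable def gs (α ρ y : ℝ) : ℝ := y ^ (-(1 + α)) * (1 - Real.exp (-ρ * y))

theorem gs_meas (α ρ : ℝ) : Measurable (gs α ρ) := by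
  unfold gs
  have h1 : Measurable (fun y : ℝ => 1 - Real.exp (-ρ * y)) := by fun_prop
  exact (measurable_id.pow_const _).mul h1

theorem gs_nonneg {α ρ y : ℝ} (hρ : 0 ≤ ρ) (hy : 0 < y) : 0 ≤ gs α ρ y := by
  unfold gs
  apply mul_nonneg (Real.rpow_nonneg hy.le _)
  have : Real.exp (-ρ * y) ≤ 1 := Real.exp_le_one_iff.2 (by nlinarith)
  linarith

theorem gs_int {α ρ : ℝ} (hα : 0 < α) (hα1 : α < 1) (hρ : 0 ≤ ρ) :
    IntegrableOn (gs α ρ) (Set.Ioi 0) := by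
  have hsplit : Set.Ioi (0 : ℝ) = Set.Ioc 0 1 ∪ Set.Ioi 1 :=
    (Set.Ioc_union_Ioi_eq_Ioi zero_le_one).symm
  rw [hsplit]
  refine IntegrableOn.union ?_ ?_
  · have h1 : IntegrableOn (fun y : ℝ => ρ * y ^ (-α)) (Set.Ioc 0 1) := by
      have := (intervalIntegral.intervalIntegrable_rpow' (a := 0) (b := 1)
        (show -1 < -α by linarith)).const_mul ρ
      rwa [intervalIntegrable_iff_integrableOn_Ioc_of_le zero_le_one] at this
    refine Integrable.mono' h1 (gs_meas α ρ).aestronglyMeasurable ?_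
    rw [ae_restrict_iff' measurableSet_Ioc]
    refine Filter.Eventually.of_forall fun y hy => ?_
    have hy0 := hy.1
    rw [Real.norm_eq_abs, abs_of_nonneg (gs_nonneg hρ hy0)]
    unfold gs
    have h2 : 1 - Real.exp (-ρ * y) ≤ ρ * y := by
      have := Real.add_one_le_exp (-ρ * y)
      linarith
    calc y ^ (-(1 + α)) * (1 - Real.exp (-ρ * y)) ≤ y ^ (-(1 + α)) * (ρ * y) :=
          mul_le_mul_of_nonneg_left h2 (Real.rpow_nonneg hy0.le _)
      _ = ρ * (y ^ (-(1 + α)) * y) := by ring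
      _ = ρ * y ^ (-α) := by
          congr 1
          rw [← Real.rpow_add_one hy0.ne']
          congr 1; ring
  · have h1 : IntegrableOn (fun y : ℝ => y ^ (-(1 + α))) (Set.Ioi 1) :=
      integrableOn_Ioi_rpow_of_lt (by linarith) one_pos
    refine Integrable.mono' h1 (gs_meas α ρ).aestronglyMeasurable ?_
    rw [ae_restrict_iff' measurableSet_Ioi]
    refine Filter.Eventually.of_forall fun y hy => ?_
    have hy0 : (0 : ℝ) < y := lt_trans one_pos hy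
    rw [Real.norm_eq_abs, abs_of_nonneg (gs_nonneg hρ hy0)]
    unfold gs
    have h2 : 1 - Real.exp (-ρ * y) ≤ 1 := by
      have := Real.exp_pos (-ρ * y)
      linarith
    exact mul_le_of_le_one_right (Real.rpow_nonneg hy0.le _) h2

theorem gs_scale {α ρ : ℝ} (hρ : 0 < ρ) :
    ∫ y in Set.Ioi (0 : ℝ), gs α ρ y = ρ ^ α * ∫ y in Set.Ioi (0 : ℝ), gs α 1 y := by
  have h := MeasureTheory.integral_comp_mul_left_Ioi (gs α 1) 0 hρ
  rw [mul_zero, smul_eq_mul] at h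
  have h2 : ∫ y in Set.Ioi (0 : ℝ), gs α ρ y =
      ∫ y in Set.Ioi (0 : ℝ), ρ ^ (1 + α) * gs α 1 (ρ * y) := by
    refine setIntegral_congr_fun measurableSet_Ioi fun y hy => ?_
    have hy0 : (0 : ℝ) < y := hy
    unfold gs
    show y ^ (-(1 + α)) * (1 - Real.exp (-ρ * y)) =
      ρ ^ (1 + α) * ((ρ * y) ^ (-(1 + α)) * (1 - Real.exp (-1 * (ρ * y))))
    rw [Real.mul_rpow hρ.le hy0.le]
    have h3 : ρ ^ (1 + α) * ρ ^ (-(1 + α)) = 1 := by
      rw [← Real.rpow_add hρ]; simp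
    have h4 : -1 * (ρ * y) = -ρ * y := by ring
    rw [h4]
    calc y ^ (-(1 + α)) * (1 - Real.exp (-ρ * y)) =
          (ρ ^ (1 + α) * ρ ^ (-(1 + α))) * (y ^ (-(1 + α)) * (1 - Real.exp (-ρ * y))) := by
            rw [h3, one_mul]
      _ = _ := by ring
  rw [h2, integral_const_mul, h, ← mul_assoc]
  congr 1
  rw [Real.rpow_add hρ, Real.rpow_one]
  field_simp

/-- sufficient condition for the integral criterion -/
theorem Jf_nonneg_of {α κ : ℝ} (hα : 0 < α) (hα1 : α < 1) (hκ : (1 + α)⁻¹ < κ)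
    (hc : 2 ^ (1 - (1 + α)⁻¹) / 2 * (2 * (1 + α)⁻¹ * (κ - (1 + α)⁻¹)) ^ α ≤
      (2 ^ (1 - (1 + α)⁻¹) - 1) * ((1 + α)⁻¹ * (κ - (1 + α)⁻¹ / 2)) ^ α) :
    0 ≤ ∫ y in Set.Ioi (0 : ℝ), Jf α κ y := by
  have hβ : 1 < 1 + α := by linarith
  obtain ⟨θ, hθ⟩ : ∃ θ : ℝ, θ = (1 + α)⁻¹ := ⟨_, rfl⟩
  rw [← hθ] at hκ hc
  have hθ0 : 0 < θ := by rw [hθ]; positivity
  have hθ1 : θ < 1 := by rw [hθ]; exact inv_lt_one_of_one_lt₀ hβ
  obtain ⟨B, hB⟩ : ∃ B : ℝ, B = 2 ^ (1 - θ) := ⟨_, rfl⟩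
  rw [← hB] at hc
  obtain ⟨ρ1, hρ1⟩ : ∃ ρ1 : ℝ, ρ1 = θ * (κ - θ / 2) := ⟨_, rfl⟩
  obtain ⟨ρ2, hρ2⟩ : ∃ ρ2 : ℝ, ρ2 = 2 * θ * (κ - θ) := ⟨_, rfl⟩
  rw [← hρ1, ← hρ2] at hc
  have hρ10 : 0 < ρ1 := by rw [hρ1]; exact mul_pos hθ0 (by linarith)
  have hρ20 : 0 < ρ2 := by rw [hρ2]; exact mul_pos (by linarith) (by linarith)
  have hJ := Jf_int hα hα1 (show (1 + α)⁻¹ ≤ κ by rw [← hθ]; exact hκ.le)
  have g1 := gs_int hα hα1 hρ10.le
  have g2 := gs_int hα hα1 hρ20.le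
  have hint : IntegrableOn (fun y => (1 + α) * ((B - 1) * gs α ρ1 y - B / 2 * gs α ρ2 y))
      (Set.Ioi 0) := ((g1.const_mul _).sub (g2.const_mul _)).const_mul _
  have hle : ∫ y in Set.Ioi (0 : ℝ), (1 + α) * ((B - 1) * gs α ρ1 y - B / 2 * gs α ρ2 y) ≤
      ∫ y in Set.Ioi (0 : ℝ), Jf α κ y := by
    refine setIntegral_mono_on hint hJ measurableSet_Ioi fun y hy => ?_
    have hy0 : (0 : ℝ) < y := hy
    have ha := aG_ge3 (κ := κ) hθ0 hθ1 hy0.le
    rw [← hB, ← hρ1, ← hρ2] at ha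
    have hapos := aG_pos κ θ hθ0.le hy0.le
    have hbern := one_add_mul_self_le_rpow_one_add (s := aG κ θ y - 1) (by linarith)
      (p := 1 + α) (by linarith)
    rw [add_sub_cancel] at hbern
    unfold Jf aP gs
    rw [← hθ]
    have hyp : 0 ≤ y ^ (-(1 + α)) := Real.rpow_nonneg hy0.le _
    have e1 : (1 + α) * ((B - 1) * (y ^ (-(1 + α)) * (1 - Real.exp (-ρ1 * y))) -
        B / 2 * (y ^ (-(1 + α)) * (1 - Real.exp (-ρ2 * y)))) =
        y ^ (-(1 + α)) * ((1 + α) * (((1 - B) * Real.exp (-ρ1 * y) +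
          B / 2 * (1 + Real.exp (-ρ2 * y))) - 1)) := by ring
    rw [e1]
    apply mul_le_mul_of_nonneg_left _ hyp
    have h2 : (1 + α) * (((1 - B) * Real.exp (-ρ1 * y) + B / 2 * (1 + Real.exp (-ρ2 * y))) - 1) ≤
        (1 + α) * (aG κ θ y - 1) := mul_le_mul_of_nonneg_left (by linarith) (by linarith)
    linarith
  refine le_trans ?_ hle
  rw [integral_const_mul, integral_sub (g1.const_mul _) (g2.const_mul _), integral_const_mul,
    integral_const_mul, gs_scale hρ10, gs_scale hρ20]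
  have hΨ : 0 ≤ ∫ y in Set.Ioi (0 : ℝ), gs α 1 y :=
    setIntegral_nonneg measurableSet_Ioi fun y hy => gs_nonneg zero_le_one hy
  apply mul_nonneg (by linarith)
  have e2 : (B - 1) * (ρ1 ^ α * ∫ y in Set.Ioi (0 : ℝ), gs α 1 y) -
      B / 2 * (ρ2 ^ α * ∫ y in Set.Ioi (0 : ℝ), gs α 1 y) =
      ((B - 1) * ρ1 ^ α - B / 2 * ρ2 ^ α) * ∫ y in Set.Ioi (0 : ℝ), gs α 1 y := by ring
  rw [e2]
  exact mul_nonneg (by linarith) hΨ

/-- explicit level -/
noncomputable def Rx (α : ℝ) : ℝ := (2 - 2 ^ (1 + α)⁻¹) ^ (-α⁻¹)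

/-- explicit level -/
noncomputable def kx (α : ℝ) : ℝ := (1 + α)⁻¹ * (1 + 1 / (4 * Rx α - 2))

theorem two_pow_bounds {α : ℝ} (hα : 0 < α) :
    1 < (2 : ℝ) ^ (1 + α)⁻¹ ∧ (2 : ℝ) ^ (1 + α)⁻¹ < 2 := by
  have hβ : 1 < 1 + α := by linarith
  have h0 : 0 < (1 + α)⁻¹ := by positivity
  have h1 : (1 + α)⁻¹ < 1 := inv_lt_one_of_one_lt₀ hβ
  refine ⟨Real.one_lt_rpow (by norm_num) h0, ?_⟩
  have := Real.rpow_lt_rpow_of_exponent_lt (show (1 : ℝ) < 2 by norm_num) h1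
  rwa [Real.rpow_one] at this

theorem Rx_gt {α : ℝ} (hα : 0 < α) : 1 < Rx α := by
  obtain ⟨h1, h2⟩ := two_pow_bounds hα
  unfold Rx
  apply Real.one_lt_rpow_of_pos_of_lt_one_of_neg (by linarith) (by linarith)
  have : 0 < α⁻¹ := by positivity
  linarith

theorem kx_gt {α : ℝ} (hα : 0 < α) : (1 + α)⁻¹ < kx α := by
  have h := Rx_gt hα
  have h0 : 0 < (1 + α)⁻¹ := by positivity
  unfold kx
  have h1 : 0 < 1 / (4 * Rx α - 2) := by
    apply div_pos one_pos; linarith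
  nlinarith

theorem kx_crit {α : ℝ} (hα : 0 < α) (hα1 : α < 1) :
    0 ≤ ∫ y in Set.Ioi (0 : ℝ), Jf α (kx α) y := by
  apply Jf_nonneg_of hα hα1 (kx_gt hα)
  obtain ⟨t1, t2⟩ := two_pow_bounds hα
  have hR := Rx_gt hα
  have hRα : Rx α ^ α = (2 - 2 ^ (1 + α)⁻¹)⁻¹ := by
    unfold Rx
    rw [← Real.rpow_mul (by linarith), neg_mul, inv_mul_cancel₀ hα.ne', Real.rpow_neg_one]
  have hkxd : kx α = (1 + α)⁻¹ * (1 + 1 / (4 * Rx α - 2)) := rfl
  obtain ⟨θ, hθ⟩ : ∃ θ : ℝ, θ = (1 + α)⁻¹ := ⟨_, rfl⟩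
  rw [← hθ] at t1 t2 hRα hkxd ⊢
  have hθ0 : 0 < θ := by rw [hθ]; positivity
  obtain ⟨R, hRd⟩ : ∃ R : ℝ, R = Rx α := ⟨_, rfl⟩
  rw [← hRd] at hR hRα hkxd
  have h4 : 0 < 4 * R - 2 := by linarith
  have e1 : 2 * θ * (kx α - θ) = θ ^ 2 / (2 * R - 1) := by
    rw [hkxd]
    have h5 : 2 * R - 1 ≠ 0 := by
      have : 0 < 2 * R - 1 := by linarith
      exact this.ne'
    have h6 : 4 * R - 2 = 2 * (2 * R - 1) := by ring
    rw [h6]
    field_simp
    ring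
  have e2 : θ * (kx α - θ / 2) = R * (θ ^ 2 / (2 * R - 1)) := by
    rw [hkxd]
    have h5 : 2 * R - 1 ≠ 0 := by
      have : 0 < 2 * R - 1 := by linarith
      exact this.ne'
    have h6 : 4 * R - 2 = 2 * (2 * R - 1) := by ring
    rw [h6]
    field_simp
    ring
  have h7 : 0 < θ ^ 2 / (2 * R - 1) := div_pos (by positivity) (by linarith)
  rw [e1, e2, Real.mul_rpow (by linarith) h7.le, hRα]
  have hP : 0 < (θ ^ 2 / (2 * R - 1)) ^ α := Real.rpow_pos_of_pos h7 _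
  have hB : (2 : ℝ) ^ (1 - θ) = 2 / 2 ^ θ := by
    rw [Real.rpow_sub (by norm_num), Real.rpow_one]
  rw [hB]
  obtain ⟨T, hT⟩ : ∃ T : ℝ, T = (2 : ℝ) ^ θ := ⟨_, rfl⟩
  rw [← hT] at t1 t2 ⊢
  have h8 : 2 - T ≠ 0 := by
    have : 0 < 2 - T := by linarith
    exact this.ne'
  have h9 : T ≠ 0 := by
    have : 0 < T := by linarith
    exact this.ne'
  apply le_of_eq
  field_simp

end Pool.Agent.TH983
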