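import Pool.Agent.TH983.Expl

/-!
# The critical level of the integral criterion
-/

set_option autoImplicit false
set_option maxHeartbeats 4000000
open MeasureTheory ProbabilityTheory Filter Topology
open scoped ENNReal NNReal

namespace Pool.Agent.TH983
open Cop764

theorem aG_cont {θ y : ℝ} (hθ0 : 0 ≤ θ) (hy : 0 ≤ y) :
    ContinuousOn (fun κ => aG κ θ y) (Set.Ici 0) := by
  unfold aG
  have hI : Integrable (fun z : ℝ => 1 + Real.exp (θ * 2 * √y * z)) (gaussianReal 0 1) :=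
    (integrable_const 1).add (integrable_exp_mul_gaussianReal _)
  refine continuousOn_of_dominated (bound := fun z => 1 + Real.exp (θ * 2 * √y * z)) ?_ ?_ hI ?_
  · intro κ _
    have : Continuous (fun z : ℝ => ph (-2 * κ * y + 2 * √y * z) ^ θ) :=
      Continuous.rpow_const (ph_cont.comp (by fun_prop)) fun p => Or.inl (ph_pos _).ne'
    exact this.measurable.aestronglyMeasurable
  · intro κ hκ
    have hκ0 : (0 : ℝ) ≤ κ := hκ
    refine Filter.Eventually.of_forall fun z => ?_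
    rw [Real.norm_eq_abs, abs_of_nonneg (Real.rpow_nonneg (ph_pos _).le _)]
    refine (ph_rpow_le hθ0 _).trans ?_
    have : Real.exp (θ * (-2 * κ * y + 2 * √y * z)) ≤ Real.exp (θ * 2 * √y * z) := by
      apply Real.exp_le_exp.2
      have : 0 ≤ θ * κ * y := by positivity
      nlinarith
    linarith
  · refine Filter.Eventually.of_forall fun z => ?_
    have : Continuous (fun κ : ℝ => ph (-2 * κ * y + 2 * √y * z) ^ θ) :=
      Continuous.rpow_const (ph_cont.comp (by fun_prop)) fun p => Or.inl (ph_pos _).ne'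
    exact this.continuousOn

/-- dominating function -/
noncomputable def bdJ (α y : ℝ) : ℝ :=
  (1 + Real.exp 2) * (y ^ (-α) * Set.indicator (Set.Ioc 0 1) (fun _ => (1 : ℝ)) y) +
    (2 ^ (1 + α) + 1) * (y ^ (-(1 + α)) * Set.indicator (Set.Ioi 1) (fun _ => (1 : ℝ)) y)

theorem bdJ_int {α : ℝ} (hα : 0 < α) (hα1 : α < 1) : IntegrableOn (bdJ α) (Set.Ioi 0) := by
  have h1 : IntegrableOn (fun y : ℝ => y ^ (-α)) (Set.Ioc 0 1) := by
    have := (intervalIntegral.intervalIntegrable_rpow' (a := 0) (b := 1)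
      (show -1 < -α by linarith))
    rwa [intervalIntegrable_iff_integrableOn_Ioc_of_le zero_le_one] at this
  have h2 : IntegrableOn (fun y : ℝ => y ^ (-(1 + α))) (Set.Ioi 1) :=
    integrableOn_Ioi_rpow_of_lt (by linarith) one_pos
  have e1 : (fun y : ℝ => y ^ (-α) * Set.indicator (Set.Ioc 0 1) (fun _ => (1 : ℝ)) y) =
      Set.indicator (Set.Ioc 0 1) (fun y : ℝ => y ^ (-α)) := by
    funext y
    by_cases hy : y ∈ Set.Ioc (0 : ℝ) 1
    · rw [Set.indicator_of_mem hy, Set.indicator_of_mem hy, mul_one]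
    · rw [Set.indicator_of_notMem hy, Set.indicator_of_notMem hy, mul_zero]
  have e2 : (fun y : ℝ => y ^ (-(1 + α)) * Set.indicator (Set.Ioi 1) (fun _ => (1 : ℝ)) y) =
      Set.indicator (Set.Ioi 1) (fun y : ℝ => y ^ (-(1 + α))) := by
    funext y
    by_cases hy : y ∈ Set.Ioi (1 : ℝ)
    · rw [Set.indicator_of_mem hy, Set.indicator_of_mem hy, mul_one]
    · rw [Set.indicator_of_notMem hy, Set.indicator_of_notMem hy, mul_zero]
  have i1 : Integrable (fun y : ℝ => y ^ (-α) * Set.indicator (Set.Ioc 0 1)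
      (fun _ => (1 : ℝ)) y) := by
    rw [e1, integrable_indicator_iff measurableSet_Ioc]
    exact h1
  have i2 : Integrable (fun y : ℝ => y ^ (-(1 + α)) * Set.indicator (Set.Ioi 1)
      (fun _ => (1 : ℝ)) y) := by
    rw [e2, integrable_indicator_iff measurableSet_Ioi]
    exact h2
  exact ((i1.const_mul _).add (i2.const_mul _)).integrableOn

theorem Jf_bd {α κ y : ℝ} (hα : 0 < α) (hκ : (1 + α)⁻¹ ≤ κ) (hκ1 : κ ≤ 1) (hy0 : 0 < y) :
    |Jf α κ y| ≤ bdJ α y := by
  have hβ : 1 < 1 + α := by linarith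
  have hκ0 : 0 ≤ κ := (by positivity : (0 : ℝ) ≤ (1 + α)⁻¹).trans hκ
  unfold Jf bdJ
  rw [abs_mul, abs_of_nonneg (Real.rpow_nonneg hy0.le _)]
  rcases le_or_gt y 1 with hy1 | hy1
  · rw [Set.indicator_of_mem (show y ∈ Set.Ioc (0 : ℝ) 1 from ⟨hy0, hy1⟩),
      Set.indicator_of_notMem (show y ∉ Set.Ioi (1 : ℝ) from not_lt.2 hy1), mul_one, mul_zero,
      mul_zero, add_zero]
    have hb := aP_bounds hβ hκ0 hy0.le
    have h2 : |aP κ (1 + α) y - 1| ≤ (1 + Real.exp 2) * y := by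
      rw [abs_le]
      have e1 : y * Real.exp (2 * y) ≤ Real.exp 2 * y := by
        have : Real.exp (2 * y) ≤ Real.exp 2 := Real.exp_le_exp.2 (by linarith)
        nlinarith
      have e2 : 0 ≤ Real.exp 2 * y := by positivity
      have e3 : κ * y ≤ y := by nlinarith
      constructor
      · linarith [hb.1]
      · linarith [hb.2]
    calc y ^ (-(1 + α)) * |aP κ (1 + α) y - 1| ≤ y ^ (-(1 + α)) * ((1 + Real.exp 2) * y) :=
          mul_le_mul_of_nonneg_left h2 (Real.rpow_nonneg hy0.le _)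
      _ = (1 + Real.exp 2) * (y ^ (-(1 + α)) * y) := by ring
      _ = (1 + Real.exp 2) * y ^ (-α) := by
          congr 1
          rw [← Real.rpow_add_one hy0.ne']
          congr 1; ring
  · rw [Set.indicator_of_notMem (show y ∉ Set.Ioc (0 : ℝ) 1 from fun h => absurd h.2 (not_le.2 hy1)),
      Set.indicator_of_mem (show y ∈ Set.Ioi (1 : ℝ) from hy1), mul_one, mul_zero,
      mul_zero, zero_add, mul_comm]
    have h2 : |aP κ (1 + α) y - 1| ≤ 2 ^ (1 + α) + 1 := by
      rw [abs_le]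
      have e1 := aP_nonneg (κ := κ) hβ hy0.le
      have e2 := aP_le hβ hκ hy0.le
      constructor <;> linarith [Real.rpow_nonneg (zero_le_two : (0:ℝ) ≤ 2) (1 + α)]
    exact mul_le_mul_of_nonneg_right h2 (Real.rpow_nonneg hy0.le _)

/-- the criterion as a function of the level -/
noncomputable def IJ (α κ : ℝ) : ℝ := ∫ y in Set.Ioi (0 : ℝ), Jf α κ y

theorem IJ_cont {α : ℝ} (hα : 0 < α) (hα1 : α < 1) :
    ContinuousOn (IJ α) (Set.Icc (1 + α)⁻¹ 1) := by
  have hθ0 : 0 < (1 + α)⁻¹ := by positivity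
  unfold IJ
  refine continuousOn_of_dominated (bound := bdJ α) ?_ ?_ (bdJ_int hα hα1) ?_
  · intro κ _
    exact (Jf_meas α κ).aestronglyMeasurable
  · intro κ hκ
    rw [ae_restrict_iff' measurableSet_Ioi]
    refine Filter.Eventually.of_forall fun y hy => ?_
    rw [Real.norm_eq_abs]
    exact Jf_bd hα hκ.1 hκ.2 hy
  · rw [ae_restrict_iff' measurableSet_Ioi]
    refine Filter.Eventually.of_forall fun y hy => ?_
    have hy0 : (0 : ℝ) < y := hy
    have h1 : ContinuousOn (fun κ => aG κ (1 + α)⁻¹ y) (Set.Icc (1 + α)⁻¹ 1) :=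
      (aG_cont hθ0.le hy0.le).mono fun κ hκ => hθ0.le.trans hκ.1
    have h2 : ContinuousOn (fun κ => aG κ (1 + α)⁻¹ y ^ (1 + α)) (Set.Icc (1 + α)⁻¹ 1) :=
      h1.rpow_const fun κ _ => Or.inl (aG_pos κ _ hθ0.le hy0.le).ne'
    exact continuousOn_const.mul (h2.sub continuousOn_const)

/-- the criterion fails above level one -/
theorem IJ_neg {α κ : ℝ} (hα : 0 < α) (hα1 : α < 1) (hκ : 1 < κ) : IJ α κ < 0 := by
  have hβ : 1 < 1 + α := by linarith
  have hθ1 : (1 + α)⁻¹ < 1 := inv_lt_one_of_one_lt₀ hβ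
  have hi := Jf_int hα hα1 (show (1 + α)⁻¹ ≤ κ by linarith)
  have hpt : ∀ y ∈ Set.Ioi (0 : ℝ), 0 < -Jf α κ y := by
    intro y hy
    have hy0 : (0 : ℝ) < y := hy
    have hθ : 0 ≤ (1 + α)⁻¹ := by positivity
    have h1 := nm_le_mean (P := (gamY κ y : Measure ℝ)) hβ (X := ph) ph_pos (by
      have := ph_rpow_int (θ := 1) zero_le_one κ y
      simpa using this) (ph_rpow_int hθ κ y)
    have h2 : nm (gamY κ y : Measure ℝ) (1 + α) ph = aP κ (1 + α) y := by
      unfold nm aP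
      rw [aG_eq κ (1 + α)⁻¹ hy0.le]
    rw [h2] at h1
    have h3 := gamY_mgf κ hy0.le 1
    have h4 : ∫ s, ph s ∂(gamY κ y : Measure ℝ) = (1 + Real.exp (-2 * κ * y + 2 * y)) / 2 := by
      have e1 : ph = fun s : ℝ => (1 + Real.exp (1 * s)) / 2 := by
        funext s; unfold ph; rw [one_mul]
      rw [e1, integral_div, integral_add (integrable_const 1) h3.1, h3.2]
      simp
    rw [h4] at h1
    have h5 : Real.exp (-2 * κ * y + 2 * y) < 1 := by
      rw [Real.exp_lt_one_iff]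
      nlinarith [mul_pos hy0 (show 0 < κ - 1 by linarith)]
    unfold Jf
    rw [neg_pos]
    apply mul_neg_of_pos_of_neg (Real.rpow_pos_of_pos hy0 _)
    linarith
  have hneg : IntegrableOn (fun y => -Jf α κ y) (Set.Ioi 0) := hi.neg
  have h : 0 < ∫ y in Set.Ioi (0 : ℝ), -Jf α κ y := by
    rw [setIntegral_pos_iff_support_of_nonneg_ae _ hneg]
    · have : Function.support (fun y => -Jf α κ y) ∩ Set.Ioi 0 = Set.Ioi 0 := by
        ext y
        simp only [Set.mem_inter_iff, Function.mem_support, and_iff_right_iff_imp]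
        intro hy
        exact (hpt y hy).ne'
      rw [this, Real.volume_Ioi]
      exact ENNReal.zero_lt_top
    · rw [Filter.EventuallyLE, ae_restrict_iff' measurableSet_Ioi]
      exact Filter.Eventually.of_forall fun y hy => (hpt y hy).le
  rw [integral_neg] at h
  unfold IJ
  linarith

/-- the set of levels allowed by the criterion -/
def SJ (α : ℝ) : Set ℝ := {κ | (1 + α)⁻¹ ≤ κ ∧ 0 ≤ IJ α κ}

theorem SJ_bdd {α : ℝ} (hα : 0 < α) (hα1 : α < 1) : ∀ κ ∈ SJ α, κ ≤ 1 := by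
  intro κ hκ
  by_contra hc
  push Not at hc
  linarith [hκ.2, IJ_neg hα hα1 hc]

theorem SJ_sup {α : ℝ} (hα : 0 < α) (hα1 : α < 1) :
    sSup (SJ α) ∈ SJ α ∧ kx α ≤ sSup (SJ α) ∧ sSup (SJ α) ≤ 1 := by
  have hkx : kx α ∈ SJ α := ⟨(kx_gt hα).le, kx_crit hα hα1⟩
  have hbdd : BddAbove (SJ α) := ⟨1, fun κ hκ => SJ_bdd hα hα1 κ hκ⟩
  have heq : SJ α = Set.Icc (1 + α)⁻¹ 1 ∩ (IJ α) ⁻¹' (Set.Ici 0) := by
    ext κ
    constructor
    · intro h
      exact ⟨⟨h.1, SJ_bdd hα hα1 κ h⟩, h.2⟩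
    · intro h
      exact ⟨h.1.1, h.2⟩
  have hcl : IsClosed (SJ α) := by
    rw [heq]
    exact (IJ_cont hα hα1).preimage_isClosed_of_isClosed isClosed_Icc isClosed_Ici
  refine ⟨hcl.csSup_mem ⟨_, hkx⟩ hbdd, le_csSup hbdd hkx, ?_⟩
  exact csSup_le ⟨_, hkx⟩ fun κ hκ => SJ_bdd hα hα1 κ hκ

end Pool.Agent.TH983
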