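import Pool.Agent.TH983.Loc1
import Pool.Agent.TH983.Big2
import Pool.Agent.TH983.KStar
import Pool.Agent.TH983.Hc

/-!
# Lower bounds for the critical curve at weak coupling
-/

set_option autoImplicit false
set_option maxHeartbeats 4000000
open MeasureTheory ProbabilityTheory Filter Topology
open scoped ENNReal NNReal

namespace Pool.Agent.TH983
open Cop764

theorem slope_of_loc (D : Data) {k : ℝ} (hk : 0 ≤ k)
    (h : ∀ᶠ lam in 𝓝[>] (0 : ℝ), ∀ hlam : 0 < lam, 0 < (Dat D lam hlam).f (k * lam)) :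
    ∀ᶠ lam in 𝓝[>] (0 : ℝ), k ≤ hcr D.κ D.ν lam / lam := by
  filter_upwards [h, self_mem_nhdsWithin] with lam h1 hlam
  have hlam0 : (0 : ℝ) < lam := hlam
  have h2 := (hcr_char (Dat D lam hlam0)).2 (k * lam) (by positivity)
  have h3 : k * lam < hcr D.κ D.ν lam := h2.1 (h1 hlam0)
  rw [le_div_iff₀ hlam0]
  exact h3.le

/-- strict improvement over the level of the integral criterion -/
theorem slope_lt_one (D : Data) (hα1 : D.α < 1) : ∃ m : ℝ, sSup (SJ D.α) < m ∧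
    ∀ᶠ lam in 𝓝[>] (0 : ℝ), m ≤ hcr D.κ D.ν lam / lam := by
  obtain ⟨h1, _, _⟩ := SJ_sup D.hα hα1
  obtain ⟨δ, hδ, hloc⟩ := loc_above D hα1 h1.1 h1.2
  refine ⟨sSup (SJ D.α) + δ, by linarith, slope_of_loc D ?_ hloc⟩
  have : 0 ≤ (1 + D.α)⁻¹ := by have := D.hα; positivity
  linarith [h1.1]

/-- strict bound for every tail exponent -/
theorem slope_all (D : Data) : ∃ m : ℝ, 1 / (1 + D.α) < m ∧
    ∀ᶠ lam in 𝓝[>] (0 : ℝ), m ≤ hcr D.κ D.ν lam / lam := by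
  have hα := D.hα
  rcases lt_or_ge D.α 1 with h | h
  · obtain ⟨m, hm, hev⟩ := slope_lt_one D h
    refine ⟨m, ?_, hev⟩
    have := (SJ_sup D.hα h).2.1
    have h2 := kx_gt hα
    rw [one_div]
    linarith
  · have h0 : 0 < (1 + D.α)⁻¹ := by positivity
    refine ⟨11 / 10 * (1 + D.α)⁻¹, ?_, slope_of_loc D (by positivity) (big_loc D h)⟩
    rw [one_div]
    linarith

/-- numerical value of the explicit level at one half -/
theorem kx_half : (6976 / 10000 : ℝ) ≤ kx (1 / 2) := by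
  have hR := Rx_gt (α := 1 / 2) (by norm_num)
  have e1 : Rx (1 / 2) = ((2 - 2 ^ (2 / 3 : ℝ)) ^ 2)⁻¹ := by
    unfold Rx
    rw [show (1 + 1 / 2 : ℝ)⁻¹ = 2 / 3 by norm_num, show -(1 / 2 : ℝ)⁻¹ = -2 by norm_num,
      Real.rpow_neg (by
        have := (two_pow_bounds (α := 1 / 2) (by norm_num)).2
        rw [show (1 + 1 / 2 : ℝ)⁻¹ = 2 / 3 by norm_num] at this
        linarith)]
    norm_num
  obtain ⟨t, ht⟩ : ∃ t : ℝ, t = 2 ^ (2 / 3 : ℝ) := ⟨_, rfl⟩
  have ht0 : 0 < t := by rw [ht]; positivity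
  have ht3 : t ^ 3 = 4 := by
    rw [ht, ← Real.rpow_natCast, ← Real.rpow_mul (by norm_num)]
    norm_num
  have ht1 : t ≤ 15875 / 10000 := by
    by_contra hc
    push Not at hc
    have : (15875 / 10000 : ℝ) ^ 3 < t ^ 3 := pow_lt_pow_left₀ hc (by norm_num) (by norm_num)
    rw [ht3] at this
    norm_num at this
  rw [← ht] at e1
  have h2 : (4125 / 10000 : ℝ) ≤ 2 - t := by linarith
  have h3 : (4125 / 10000 : ℝ) ^ 2 ≤ (2 - t) ^ 2 := pow_le_pow_left₀ (by norm_num) h2 2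
  have h4 : Rx (1 / 2) ≤ 588 / 100 := by
    rw [e1]
    calc ((2 - t) ^ 2)⁻¹ ≤ ((4125 / 10000 : ℝ) ^ 2)⁻¹ := inv_anti₀ (by norm_num) h3
      _ ≤ _ := by norm_num
  unfold kx
  have h5 : (1 : ℝ) / (2152 / 100) ≤ 1 / (4 * Rx (1 / 2) - 2) := by
    apply one_div_le_one_div_of_le (by linarith)
    linarith
  have h6 : (1 + 1 / 2 : ℝ)⁻¹ = 2 / 3 := by norm_num
  rw [h6]
  norm_num at h5 ⊢
  linarith

end Pool.Agent.TH983
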