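import Pool.Agent.TH983.Blocks
import Pool.Agent.Helper764.Cop_strE
import Pool.Agent.Helper764.Cop_block
import Pool.Agent.Helper764.Cop_int

/-!
# A fractional moment larger than one forces localization
-/

set_option autoImplicit false
set_option maxHeartbeats 4000000
open MeasureTheory ProbabilityTheory Filter Topology
open scoped ENNReal NNReal

namespace Pool.Agent.TH983
open Cop764

variable {D : Data} {c0 : ℝ} {n0 : ℕ} {h : ℝ}

/-- polynomial tail in the delocalized phase -/
theorem tail_deloc (hK : KHyp D.K D.α c0 n0) (h0 : 0 ≤ h) (hf : D.f h ≤ 0) {l : ℕ} (hl : n0 ≤ l)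
    (m : ℝ) : D.P.real {ω | (1 + D.α) * m ≤ D.lG h 0 l ω} ≤
      Real.exp (1 + (1 + D.α)⁻¹ * Real.log (2 / c0)) * l * Real.exp (-m) := by
  have hα := D.hα
  have hn0 := hK.n0_pos
  have hβ : 0 < 1 + D.α := by linarith
  have hl0 : (0 : ℝ) < l := by exact_mod_cast (show 0 < l by omega)
  set q := Real.exp (1 + (1 + D.α)⁻¹ * Real.log (2 / c0)) * l * Real.exp (-m) with hq
  have hq0 : 0 < q := by positivity
  rcases lt_or_ge 1 q with h1 | h1
  · exact measureReal_le_one.trans h1.le
  · have h2 := M_strE.J_strE D c0 n0 hK h h0 l hl q hq0 h1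
    set b := Real.log (2 / c0) + (1 + D.α) * (Real.log l + Real.log q⁻¹) with hb
    have hb1 : b = (1 + D.α) * (m - 1) := by
      rw [hb, Real.log_inv, hq, Real.log_mul (by positivity) (by positivity),
        Real.log_mul (by positivity) hl0.ne', Real.log_exp, Real.log_exp]
      field_simp
      ring
    have hint : Integrable (fun ω => max (D.lG h 0 l ω - b) 0) D.P := by
      have h3 := (M_int.J_int D c0 n0 hK h h0).2.1 0 l (by omega)
      exact (h3.sub (integrable_const b)).sup (integrable_const 0)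
    have h4 := mul_meas_ge_le_integral_of_nonneg (μ := D.P)
      (f := fun ω => max (D.lG h 0 l ω - b) 0)
      (Filter.Eventually.of_forall fun ω => le_max_right _ _) hint (1 + D.α)
    have h5 : D.P.real {ω | (1 + D.α) * m ≤ D.lG h 0 l ω} ≤
        D.P.real {ω | 1 + D.α ≤ max (D.lG h 0 l ω - b) 0} := by
      refine measureReal_mono (fun ω hω => ?_) (measure_ne_top _ _)
      simp only [Set.mem_ofPred_eq] at hω ⊢
      refine le_trans ?_ (le_max_left _ _)
      rw [hb1]
      linarith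
    have h6 : (l : ℝ) * D.f h ≤ 0 := mul_nonpos_of_nonneg_of_nonpos hl0.le hf
    have h7 : (1 + D.α) * D.P.real {ω | 1 + D.α ≤ max (D.lG h 0 l ω - b) 0} ≤ (1 + D.α) * q := by
      refine h4.trans (h2.trans ?_)
      linarith
    exact h5.trans (le_of_mul_le_mul_left h7 hβ)

/-- supermultiplicativity along blocks -/
theorem G_prod {K w : ℕ → ℝ} (hK : ∀ n, 0 ≤ K n) (N : ℕ) : ∀ j : ℕ,
    ∏ i ∈ Finset.range j, G K w (i * N) ((i + 1) * N) ≤ G K w 0 (j * N) := by
  have hG := M_G.J_G K w hK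
  intro j
  induction j with
  | zero => simp [hG.1]
  | succ j ih =>
    rw [Finset.prod_range_succ]
    refine (mul_le_mul_of_nonneg_right ih (hG.2.1 _ _)).trans ?_
    exact hG.2.2.2 _ _ _ (Nat.zero_le _) (Nat.mul_le_mul_right N (Nat.le_succ j))

theorem frac_crit (hK : KHyp D.K D.α c0 n0) (h0 : 0 ≤ h) {N : ℕ} (hN : 1 ≤ N)
    (hE : 1 < ∫ ω, (G D.K (D.w h ω) 0 N) ^ ((1 + D.α)⁻¹) ∂D.P) : 0 < D.f h := by
  by_contra hcon
  push Not at hcon
  have hα := D.hα
  have hβ : 0 < 1 + D.α := by linarith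
  set θ := (1 + D.α)⁻¹ with hθ
  have hθ0 : 0 < θ := by positivity
  have hGnn : ∀ (ω : ℕ → ℝ) (a b : ℕ), 0 ≤ G D.K (D.w h ω) a b := fun ω a b =>
    (M_G.J_G D.K (D.w h ω) hK.nonneg).2.1 a b
  set X : (ℕ → ℝ) → ℝ := fun ω => (G D.K (D.w h ω) 0 N) ^ θ with hX
  have hXm : Measurable X := (meas_G D h 0 N).pow_const θ
  have hX0 : ∀ ω, 0 ≤ X ω := fun ω => Real.rpow_nonneg (hGnn ω 0 N) _
  have hXi : Integrable X D.P := by
    by_contra hc
    rw [integral_undef hc] at hE
    linarith
  -- truncation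
  obtain ⟨B, hB⟩ : ∃ B : ℕ, 1 < ∫ ω, min (X ω) (B : ℝ) ∂D.P := by
    have ht : Tendsto (fun B : ℕ => ∫ ω, min (X ω) (B : ℝ) ∂D.P) atTop (𝓝 (∫ ω, X ω ∂D.P)) := by
      apply tendsto_integral_of_dominated_convergence (fun ω => |X ω|)
      · exact fun B => (hXm.min measurable_const).aestronglyMeasurable
      · exact hXi.abs
      · intro B
        refine Filter.Eventually.of_forall fun ω => ?_
        rw [Real.norm_eq_abs, abs_of_nonneg (le_min (hX0 ω) (Nat.cast_nonneg B)),
          abs_of_nonneg (hX0 ω)]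
        exact min_le_left _ _
      · refine Filter.Eventually.of_forall fun ω => ?_
        refine tendsto_const_nhds.congr' ?_
        filter_upwards [tendsto_natCast_atTop_atTop.eventually_ge_atTop (X ω)] with B hB
        exact (min_eq_left hB).symm
    exact (ht.eventually (lt_mem_nhds hE)).exists
  set μ1 := ∫ ω, min (X ω) (B : ℝ) ∂D.P with hμ1
  set g : (ℕ → ℝ) → ℝ := fun ω => min (X ω) (B : ℝ) with hg
  have hgm : Measurable g := hXm.min measurable_const
  have hg0 : ∀ ω, 0 ≤ g ω := fun ω => le_min (hX0 ω) (Nat.cast_nonneg B)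
  have hgloc : ∀ ω ω' : ℕ → ℝ, (∀ n ∈ Finset.Ioc 0 N, ω n = ω' n) → g ω = g ω' := by
    intro ω ω' hh
    simp only [hg, hX]
    rw [G_congr D h hh le_rfl le_rfl]
  have hblock := M_block.J_block D N g hgm hgloc hg0
  have hB0 : (0 : ℝ) ≤ B := Nat.cast_nonneg B
  have hB1 : (1 : ℝ) ≤ B := by
    have h1 : μ1 ≤ ∫ _, (B : ℝ) ∂D.P := by
      rw [hμ1]
      exact integral_mono_of_nonneg (Filter.Eventually.of_forall fun ω => hg0 ω)
        (integrable_const _) (Filter.Eventually.of_forall fun ω => min_le_right _ _)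
    simp at h1
    linarith
  set Y : ℕ → (ℕ → ℝ) → ℝ := fun j ω => ∏ i ∈ Finset.range j, g (fun n => ω (n + i * N)) with hY
  have hgs : ∀ (ω : ℕ → ℝ) (i : ℕ), g (fun n => ω (n + i * N)) =
      min ((G D.K (D.w h ω) (i * N) ((i + 1) * N)) ^ θ) (B : ℝ) := by
    intro ω i
    have h1 := (M_loc.J_loc).1 D.K (D.w h ω) (i * N) 0 N
    rw [Nat.zero_add, w_shift] at h1
    simp only [hg, hX]
    rw [h1, show N + i * N = (i + 1) * N by ring]
  have hYG : ∀ j ω, Y j ω ≤ (G D.K (D.w h ω) 0 (j * N)) ^ θ := by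
    intro j ω
    simp only [hY]
    calc ∏ i ∈ Finset.range j, g (fun n => ω (n + i * N))
        ≤ ∏ i ∈ Finset.range j, (G D.K (D.w h ω) (i * N) ((i + 1) * N)) ^ θ := by
          apply Finset.prod_le_prod
          · intro i _; exact hg0 _
          · intro i _; rw [hgs]; exact min_le_left _ _
      _ = (∏ i ∈ Finset.range j, G D.K (D.w h ω) (i * N) ((i + 1) * N)) ^ θ :=
          Real.finsetProd_rpow _ _ (fun i _ => hGnn ω _ _) _
      _ ≤ _ := Real.rpow_le_rpow (Finset.prod_nonneg fun i _ => hGnn ω _ _)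
          (G_prod hK.nonneg N j) hθ0.le
  have hYB : ∀ j ω, Y j ω ≤ (B : ℝ) ^ j := by
    intro j ω
    simp only [hY]
    calc ∏ i ∈ Finset.range j, g (fun n => ω (n + i * N)) ≤ ∏ _i ∈ Finset.range j, (B : ℝ) := by
          apply Finset.prod_le_prod
          · intro i _; exact hg0 _
          · intro i _; exact min_le_right _ _
      _ = _ := by simp
  have hYm : ∀ j, Measurable (Y j) := by
    intro j
    refine Finset.measurable_prod _ fun i _ => hgm.comp ?_
    exact measurable_pi_lambda _ fun n => measurable_pi_apply _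
  -- the main bound
  set C1 := Real.exp (1 + (1 + D.α)⁻¹ * Real.log (2 / c0)) with hC1
  have key : ∀ j : ℕ, n0 ≤ j → μ1 ^ j ≤
      Real.exp 1 + (j * Real.log B + 1) * (Real.exp 1 * (C1 * (j * N))) := by
    intro j hj
    have hjN : n0 ≤ j * N := hj.trans (Nat.le_mul_of_pos_right j hN)
    have hn0 := hK.n0_pos
    set M : ℕ := ⌊(j : ℝ) * Real.log B⌋₊ with hM
    have hMle : (M : ℝ) ≤ j * Real.log B :=
      Nat.floor_le (mul_nonneg (Nat.cast_nonneg j) (Real.log_nonneg hB1))
    have hpt : ∀ ω, Y j ω ≤ Real.exp 1 + ∑ m ∈ Finset.Icc 1 M,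
        Real.exp ((m : ℝ) + 1) * ({ω | (1 + D.α) * m ≤ D.lG h 0 (j * N) ω}).indicator
          (fun _ => (1 : ℝ)) ω := by
      intro ω
      have hsum0 : ∀ m ∈ Finset.Icc 1 M, 0 ≤ Real.exp ((m : ℝ) + 1) *
          ({ω | (1 + D.α) * m ≤ D.lG h 0 (j * N) ω}).indicator (fun _ => (1 : ℝ)) ω := by
        intro m _
        exact mul_nonneg (Real.exp_pos _).le (Set.indicator_nonneg (fun _ _ => zero_le_one) _)
      rcases lt_or_ge (Y j ω) (Real.exp 1) with h1 | h1
      · have := Finset.sum_nonneg hsum0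
        linarith
      · have hYpos : 0 < Y j ω := lt_of_lt_of_le (Real.exp_pos 1) h1
        have hlogY : 1 ≤ Real.log (Y j ω) := by
          rw [Real.le_log_iff_exp_le hYpos]; exact h1
        have hlogY2 : Real.log (Y j ω) ≤ j * Real.log B := by
          have := Real.log_le_log hYpos (hYB j ω)
          rwa [Real.log_pow] at this
        set m := ⌊Real.log (Y j ω)⌋₊ with hm
        have hm1 : 1 ≤ m := by
          rw [hm]; exact Nat.le_floor (by exact_mod_cast hlogY)
        have hmM : m ≤ M := Nat.floor_le_floor hlogY2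
        have hmle : (m : ℝ) ≤ Real.log (Y j ω) := Nat.floor_le (by linarith)
        have hmlt : Real.log (Y j ω) < m + 1 := Nat.lt_floor_add_one _
        have hmem : ω ∈ {ω | (1 + D.α) * (m : ℝ) ≤ D.lG h 0 (j * N) ω} := by
          simp only [Set.mem_ofPred_eq, Data.lG]
          have h2 := hYG j ω
          have hGpos : 0 < G D.K (D.w h ω) 0 (j * N) := by
            by_contra hc
            have h3 : G D.K (D.w h ω) 0 (j * N) = 0 := le_antisymm (not_lt.1 hc) (hGnn ω _ _)
            rw [h3, Real.zero_rpow hθ0.ne'] at h2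
            linarith
          have h3 := Real.log_le_log hYpos h2
          rw [Real.log_rpow hGpos] at h3
          have h4 : (m : ℝ) ≤ θ * Real.log (G D.K (D.w h ω) 0 (j * N)) := hmle.trans h3
          have h5 := mul_le_mul_of_nonneg_left h4 hβ.le
          have h6 : (1 + D.α) * (θ * Real.log (G D.K (D.w h ω) 0 (j * N))) =
              Real.log (G D.K (D.w h ω) 0 (j * N)) := by
            rw [hθ]; field_simp
          linarith
        have h7 := Finset.single_le_sum hsum0 (Finset.mem_Icc.2 ⟨hm1, hmM⟩)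
        rw [Set.indicator_of_mem hmem, mul_one] at h7
        have h8 : Y j ω ≤ Real.exp ((m : ℝ) + 1) := by
          calc Y j ω = Real.exp (Real.log (Y j ω)) := (Real.exp_log hYpos).symm
            _ ≤ _ := Real.exp_le_exp.2 hmlt.le
        have := Real.exp_pos 1
        linarith
    have hmeas : ∀ m : ℕ, MeasurableSet {ω | (1 + D.α) * (m : ℝ) ≤ D.lG h 0 (j * N) ω} := fun m =>
      measurableSet_le measurable_const (Real.measurable_log.comp (meas_G D h 0 (j * N)))
    have hinti : ∀ m ∈ Finset.Icc 1 M, Integrable (fun ω => Real.exp ((m : ℝ) + 1) *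
        ({ω | (1 + D.α) * (m : ℝ) ≤ D.lG h 0 (j * N) ω}).indicator (fun _ => (1 : ℝ)) ω) D.P :=
      fun m _ => ((integrable_const 1).indicator (hmeas m)).const_mul _
    have hYi : Integrable (Y j) D.P := by
      refine (integrable_const ((B : ℝ) ^ j)).mono' (hYm j).aestronglyMeasurable
        (Filter.Eventually.of_forall fun ω => ?_)
      rw [Real.norm_eq_abs, abs_of_nonneg (Finset.prod_nonneg fun i _ => hg0 _)]
      exact hYB j ω
    have h1 : ∫ ω, Y j ω ∂D.P ≤ ∫ ω, (Real.exp 1 + ∑ m ∈ Finset.Icc 1 M,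
        Real.exp ((m : ℝ) + 1) * ({ω | (1 + D.α) * m ≤ D.lG h 0 (j * N) ω}).indicator
          (fun _ => (1 : ℝ)) ω) ∂D.P :=
      integral_mono hYi ((integrable_const _).add (integrable_finsetSum _ hinti)) hpt
    have h2 : ∫ ω, Y j ω ∂D.P = μ1 ^ j := hblock j
    rw [h2, integral_add (integrable_const _) (integrable_finsetSum _ hinti),
      integral_finsetSum _ hinti] at h1
    simp only [integral_const, probReal_univ, smul_eq_mul, one_mul] at h1
    refine h1.trans ?_
    have h3 : ∀ m ∈ Finset.Icc 1 M, ∫ ω, Real.exp ((m : ℝ) + 1) *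
        ({ω | (1 + D.α) * (m : ℝ) ≤ D.lG h 0 (j * N) ω}).indicator (fun _ => (1 : ℝ)) ω ∂D.P ≤
        Real.exp 1 * (C1 * (j * N)) := by
      intro m _
      rw [integral_const_mul, integral_indicator (hmeas m)]
      simp only [integral_const, smul_eq_mul, mul_one, measureReal_restrict_apply_univ]
      have h4 := tail_deloc hK h0 hcon hjN (m : ℝ)
      calc Real.exp ((m : ℝ) + 1) * D.P.real {ω | (1 + D.α) * (m : ℝ) ≤ D.lG h 0 (j * N) ω}
          ≤ Real.exp ((m : ℝ) + 1) * (C1 * ((j * N : ℕ) : ℝ) * Real.exp (-m)) :=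
            mul_le_mul_of_nonneg_left h4 (Real.exp_pos _).le
        _ = (Real.exp ((m : ℝ) + 1) * Real.exp (-m)) * (C1 * (j * N)) := by push_cast; ring
        _ = _ := by rw [← Real.exp_add]; congr 2; ring
    have h5 := Finset.sum_le_sum h3
    rw [Finset.sum_const, nsmul_eq_mul, Nat.card_Icc, Nat.add_sub_cancel] at h5
    have hc0 : 0 ≤ Real.exp 1 * (C1 * (j * N)) := by positivity
    have h6 : (M : ℝ) * (Real.exp 1 * (C1 * (j * N))) ≤
        (j * Real.log B + 1) * (Real.exp 1 * (C1 * (j * N))) :=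
      mul_le_mul_of_nonneg_right (by linarith) hc0
    linarith
  -- growth contradiction
  set C2 : ℝ := Real.exp 1 + (Real.log B + 1) * (Real.exp 1 * (C1 * N)) with hC2
  have key2 : ∀ j : ℕ, n0 ≤ j → μ1 ^ j ≤ C2 * (j : ℝ) ^ 2 := by
    intro j hj
    have hn0 := hK.n0_pos
    have hj1 : (1 : ℝ) ≤ j := by exact_mod_cast (show 1 ≤ j by omega)
    have hlB := Real.log_nonneg hB1
    refine (key j hj).trans ?_
    rw [hC2]
    have e1 : Real.exp 1 ≤ Real.exp 1 * (j : ℝ) ^ 2 := by
      have : (1 : ℝ) ≤ (j : ℝ) ^ 2 := by nlinarith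
      nlinarith [Real.exp_pos 1]
    have e2 : (j * Real.log B + 1) * (Real.exp 1 * (C1 * (j * N))) ≤
        (Real.log B + 1) * (Real.exp 1 * (C1 * N)) * (j : ℝ) ^ 2 := by
      have e3 : (j * Real.log B + 1) ≤ (Real.log B + 1) * j := by nlinarith
      have e4 : 0 ≤ Real.exp 1 * (C1 * (j * N)) := by positivity
      calc _ ≤ ((Real.log B + 1) * j) * (Real.exp 1 * (C1 * (j * N))) :=
            mul_le_mul_of_nonneg_right e3 e4
        _ = _ := by ring
    linarith
  have hlim := tendsto_pow_const_div_const_pow_of_one_lt 2 hB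
  have hC2pos : 0 < C2 := by
    have hlB := Real.log_nonneg hB1
    rw [hC2]; positivity
  have hev := hlim.eventually (gt_mem_nhds (show (0 : ℝ) < (C2 + 1)⁻¹ by positivity))
  obtain ⟨j, hj1, hj2⟩ := (hev.and (eventually_ge_atTop n0)).exists
  have h1 := key2 j hj2
  have hpow : 0 < μ1 ^ j := by positivity
  rw [div_lt_iff₀ hpow] at hj1
  have h2 : (C2 + 1) * (j : ℝ) ^ 2 < μ1 ^ j := by
    have := mul_lt_mul_of_pos_left hj1 (show 0 < C2 + 1 by positivity)
    rwa [← mul_assoc, mul_inv_cancel₀ (by positivity), one_mul] at this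
  have : (0 : ℝ) ≤ (j : ℝ) ^ 2 := by positivity
  linarith

end Pool.Agent.TH983
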