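import Pool.Agent.TH983.ScalB

/-!
# Lower bound of the gain over the window
-/

set_option autoImplicit false
set_option maxHeartbeats 4000000
open MeasureTheory ProbabilityTheory Filter Topology
open scoped ENNReal NNReal

namespace Pool.Agent.TH983
open Cop764

/-- the gain over the window is bounded below: fixed sizes -/
theorem gain_core (D : Data) {c0 : ℝ} {n0 : ℕ} (hK : KHyp D.K D.α c0 n0) {κ : ℝ}
    (hκ : 0 ≤ κ) {c cU : ℝ} (hc : 0 < c) (hcU : 0 < cU)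
    (hU : ∀ R : ℕ, 1 ≤ R → cU * (R : ℝ) ^ D.α ≤ U D.K R) {Mr c3 c2 : ℝ} (hMr : 0 < Mr)
    (hc3 : c3 = min 1 (c0 * Real.exp (-(4 * κ)) * (Real.exp (-κ) * cU) * (24 * Mr) ^ (-(1 + D.α))))
    (hc2 : c2 = c * ((Real.exp (-κ) * cU * (2 * Mr) ^ (-D.α)) *
      (c0 * Real.exp (-(4 * κ)) * (4 : ℝ) ^ (-(1 + D.α)) * c3)))
    (lam : ℝ) (hlam : 0 < lam) {L e0 e1 : ℕ} (hn0L : n0 ≤ L) (hL1 : 1 ≤ L)
    (hlamL : lam ^ 2 * (L : ℝ) ≤ 1) (he3 : 3 * e0 ≤ L) (he2 : 2 ≤ e0) (he1 : 2 * e1 ≤ e0)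
    (he1' : 1 ≤ e1) (hLe0 : (L : ℝ) ≤ 2 * Mr * e0) (hLe1 : (L : ℝ) ≤ 6 * Mr * e1) {m : ℕ}
    (hm1 : 2 * e0 + 3 * L ≤ m) (hm2 : m ≤ 3 * e0 + 3 * L) :
    (∀ a ≤ e0, 0 < KLg D.K (2 * L) (m - a) *
      aN (Dat D lam hlam) (κ * lam) (1 + D.α) (m - a)) ∧
    (∀ a ≤ e0, 0 < yS (Dat D lam hlam) (κ * lam) (1 + D.α) (2 * L) e0 L a m) ∧
    c2 / (L : ℝ) ≤ c * ∑ a ∈ Finset.Icc 0 e0,
      uS (Dat D lam hlam) (κ * lam) (1 + D.α) (2 * L) a *
      min (KLg D.K (2 * L) (m - a) * aN (Dat D lam hlam) (κ * lam) (1 + D.α) (m - a))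
        (yS (Dat D lam hlam) (κ * lam) (1 + D.α) (2 * L) e0 L a m) := by
  have hα := D.hα
  have hc0 := hK.c0_pos
  obtain ⟨β, hβd⟩ : ∃ β : ℝ, β = 1 + D.α := ⟨_, rfl⟩
  rw [← hβd] at hc3 hc2 ⊢
  have hβ : 1 < β := by linarith
  have hβ0 : 0 < β := by linarith
  have hc3p : 0 < c3 := by
    rw [hc3]
    apply lt_min one_pos
    positivity
  have hc31 : c3 ≤ 1 := by rw [hc3]; exact min_le_left _ _
  have hc32 : c3 ≤ c0 * Real.exp (-(4 * κ)) * (Real.exp (-κ) * cU) * (24 * Mr) ^ (-β) := by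
    rw [hc3]; exact min_le_right _ _
  have hLr : (0 : ℝ) < L := by exact_mod_cast hL1
  have hKn : ∀ n, 0 ≤ D.K n := hK.nonneg
  -- lower bound of the basic factor
  obtain ⟨b0, hb0⟩ : ∃ b0 : ℝ, b0 = c0 * (4 * (L : ℝ)) ^ (-β) * Real.exp (-(4 * κ)) := ⟨_, rfl⟩
  have hb0p : 0 < b0 := by rw [hb0]; positivity
  have hbase : ∀ n : ℕ, L ≤ n → n ≤ 4 * L →
      b0 ≤ D.K n * aN (Dat D lam hlam) (κ * lam) β n := by
    intro n h1 h2
    have hn : (0 : ℝ) < n := by exact_mod_cast (show 0 < n by omega)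
    have hnL : (n : ℝ) ≤ 4 * L := by exact_mod_cast h2
    have g1 : c0 * (4 * (L : ℝ)) ^ (-β) ≤ D.K n := by
      have := hK.lower n (by omega)
      rw [← hβd] at this
      refine le_trans ?_ this
      apply mul_le_mul_of_nonneg_left _ hc0.le
      exact Real.rpow_le_rpow_of_nonpos hn hnL (by linarith)
    have g2 : Real.exp (-(4 * κ)) ≤ aN (Dat D lam hlam) (κ * lam) β n := by
      refine le_trans ?_ (aN_lower D hβ lam hlam hK hκ n)
      apply Real.exp_le_exp.2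
      have g3 : lam ^ 2 * (n : ℝ) ≤ 4 := by
        have : lam ^ 2 * (n : ℝ) ≤ lam ^ 2 * (4 * L) := mul_le_mul_of_nonneg_left hnL (sq_nonneg _)
        linarith
      have := mul_le_mul_of_nonneg_left g3 hκ
      linarith
    rw [hb0]
    exact mul_le_mul g1 g2 (Real.exp_pos _).le (hKn n)
  have hx : ∀ a ≤ e0, b0 ≤ KLg D.K (2 * L) (m - a) *
      aN (Dat D lam hlam) (κ * lam) β (m - a) := by
    intro a ha
    have : KLg D.K (2 * L) (m - a) = D.K (m - a) := by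
      unfold KLg; rw [if_neg (by omega)]
    rw [this]
    exact hbase _ (by omega) (by omega)
  have huS0 : ∀ n, 0 ≤ uS (Dat D lam hlam) (κ * lam) β (2 * L) n :=
    uS_nonneg (D := Dat D lam hlam) hKn (2 * L)
  have hUS : ∀ R : ℕ, 1 ≤ R → R ≤ L → Real.exp (-κ) * cU * (R : ℝ) ^ D.α ≤
      ∑ a ∈ Finset.range (R + 1), uS (Dat D lam hlam) (κ * lam) β (2 * L) a := by
    intro R h1 h2
    refine le_trans ?_ (uS_lower D hβ lam hlam hK hκ (cut := 2 * L) (R := R) (by omega))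
    have g1 := hU R h1
    have g2 : Real.exp (-κ) ≤ Real.exp (-(κ * (lam ^ 2 * R))) := by
      apply Real.exp_le_exp.2
      have h1 : lam ^ 2 * (R : ℝ) ≤ lam ^ 2 * L :=
        mul_le_mul_of_nonneg_left (Nat.cast_le.2 h2) (sq_nonneg _)
      have h3 : κ * (lam ^ 2 * (R : ℝ)) ≤ κ * 1 := mul_le_mul_of_nonneg_left (h1.trans hlamL) hκ
      linarith
    have g3 : 0 ≤ cU * (R : ℝ) ^ D.α := by positivity
    calc Real.exp (-κ) * cU * (R : ℝ) ^ D.α = Real.exp (-κ) * (cU * (R : ℝ) ^ D.α) := by ring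
      _ ≤ Real.exp (-(κ * (lam ^ 2 * R))) * U D.K R := mul_le_mul g2 g1 g3 (Real.exp_pos _).le
  have he1r : (0 : ℝ) < e1 := by exact_mod_cast he1'
  have he0r : (0 : ℝ) < e0 := by exact_mod_cast (show 0 < e0 by omega)
  have hy : ∀ a ≤ e0, b0 * c3 ≤ yS (Dat D lam hlam) (κ * lam) β (2 * L) e0 L a m := by
    intro a ha
    have hsumP : (e1 : ℝ) * (Real.exp (-κ) * cU * (e1 : ℝ) ^ D.α) ≤
        ∑ p ∈ Pr e0 L, uS (Dat D lam hlam) (κ * lam) β (2 * L) (p.2 - p.1) := by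
      refine le_trans ?_ (Pr_sum_ge huS0 (e0 := e0) (e1 := e1) (L := L) he1)
      have g1 := hUS e1 he1' (by omega)
      have g2 : (e1 : ℝ) ≤ ((e1 + 1 : ℕ) : ℝ) := by push_cast; linarith
      have g3 : 0 ≤ Real.exp (-κ) * cU * (e1 : ℝ) ^ D.α := by positivity
      exact mul_le_mul g2 g1 g3 (by positivity)
    have hyS : b0 * b0 * ∑ p ∈ Pr e0 L, uS (Dat D lam hlam) (κ * lam) β (2 * L) (p.2 - p.1) ≤
        yS (Dat D lam hlam) (κ * lam) β (2 * L) e0 L a m := by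
      unfold yS
      rw [Finset.mul_sum]
      refine Finset.sum_le_sum fun p hp => ?_
      have hp' := mem_Pr hp
      have k1 : KS (Dat D lam hlam).K (2 * L) (p.1 - a) = D.K (p.1 - a) := by
        unfold KS; rw [if_pos (by omega)]; rfl
      have k2 : KLg (Dat D lam hlam).K (2 * L) (m - p.2) = D.K (m - p.2) := by
        unfold KLg; rw [if_neg (by omega)]; rfl
      have g1 := hbase (p.1 - a) (by omega) (by omega)
      have g2 := hbase (m - p.2) (by omega) (by omega)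
      rw [k1, k2]
      have g3 := huS0 (p.2 - p.1)
      calc b0 * b0 * uS (Dat D lam hlam) (κ * lam) β (2 * L) (p.2 - p.1) =
            b0 * uS (Dat D lam hlam) (κ * lam) β (2 * L) (p.2 - p.1) * b0 := by ring
        _ ≤ D.K (p.1 - a) * aN (Dat D lam hlam) (κ * lam) β (p.1 - a) *
            uS (Dat D lam hlam) (κ * lam) β (2 * L) (p.2 - p.1) *
            (D.K (m - p.2) * aN (Dat D lam hlam) (κ * lam) β (m - p.2)) := by
            apply mul_le_mul _ g2 hb0p.le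
            · exact mul_nonneg (hb0p.le.trans g1) g3
            · exact mul_le_mul_of_nonneg_right g1 g3
    refine le_trans ?_ hyS
    have h1 : b0 * b0 * ((e1 : ℝ) * (Real.exp (-κ) * cU * (e1 : ℝ) ^ D.α)) ≤
        b0 * b0 * ∑ p ∈ Pr e0 L, uS (Dat D lam hlam) (κ * lam) β (2 * L) (p.2 - p.1) :=
      mul_le_mul_of_nonneg_left hsumP (by positivity)
    refine le_trans ?_ h1
    have h2 : (e1 : ℝ) * (e1 : ℝ) ^ D.α = (e1 : ℝ) ^ β := by
      rw [hβd, Real.rpow_add he1r, Real.rpow_one]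
    have h3 : (24 * Mr) ^ (-β) ≤ (4 * (L : ℝ)) ^ (-β) * (e1 : ℝ) ^ β := by
      have g1 : (4 * (L : ℝ)) ^ (-β) * (e1 : ℝ) ^ β = (4 * (L : ℝ) / e1) ^ (-β) := by
        rw [Real.div_rpow (by positivity) he1r.le, Real.rpow_neg he1r.le, div_inv_eq_mul]
      rw [g1]
      apply Real.rpow_le_rpow_of_nonpos (by positivity) _ (by linarith)
      rw [div_le_iff₀ he1r]
      linarith
    calc b0 * c3 ≤ b0 * (c0 * Real.exp (-(4 * κ)) * (Real.exp (-κ) * cU) * (24 * Mr) ^ (-β)) :=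
          mul_le_mul_of_nonneg_left hc32 hb0p.le
      _ ≤ b0 * (c0 * Real.exp (-(4 * κ)) * (Real.exp (-κ) * cU) *
            ((4 * (L : ℝ)) ^ (-β) * (e1 : ℝ) ^ β)) := by
          apply mul_le_mul_of_nonneg_left _ hb0p.le
          apply mul_le_mul_of_nonneg_left h3 (by positivity)
      _ = b0 * b0 * ((e1 : ℝ) * (Real.exp (-κ) * cU * (e1 : ℝ) ^ D.α)) := by
          rw [← h2]
          have hb0' : c0 * Real.exp (-(4 * κ)) * (4 * (L : ℝ)) ^ (-β) = b0 := by rw [hb0]; ring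
          calc b0 * (c0 * Real.exp (-(4 * κ)) * (Real.exp (-κ) * cU) *
              ((4 * (L : ℝ)) ^ (-β) * ((e1 : ℝ) * (e1 : ℝ) ^ D.α))) =
              b0 * (c0 * Real.exp (-(4 * κ)) * (4 * (L : ℝ)) ^ (-β)) *
              ((e1 : ℝ) * (Real.exp (-κ) * cU * (e1 : ℝ) ^ D.α)) := by ring
            _ = _ := by rw [hb0']
  refine ⟨fun a ha => lt_of_lt_of_le hb0p (hx a ha),
    fun a ha => lt_of_lt_of_le (by positivity) (hy a ha), ?_⟩
  have hmin : ∀ a ≤ e0, b0 * c3 ≤ min (KLg D.K (2 * L) (m - a) *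
      aN (Dat D lam hlam) (κ * lam) β (m - a))
      (yS (Dat D lam hlam) (κ * lam) β (2 * L) e0 L a m) := by
    intro a ha
    apply le_min _ (hy a ha)
    refine le_trans ?_ (hx a ha)
    exact mul_le_of_le_one_right hb0p.le hc31
  have hrange : Finset.Icc 0 e0 = Finset.range (e0 + 1) := by
    ext k; simp only [Finset.mem_Icc, Finset.mem_range]; omega
  have hsum1 : (Real.exp (-κ) * cU * (e0 : ℝ) ^ D.α) * (b0 * c3) ≤
      ∑ a ∈ Finset.Icc 0 e0, uS (Dat D lam hlam) (κ * lam) β (2 * L) a *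
        min (KLg D.K (2 * L) (m - a) * aN (Dat D lam hlam) (κ * lam) β (m - a))
          (yS (Dat D lam hlam) (κ * lam) β (2 * L) e0 L a m) := by
    have g1 : (∑ a ∈ Finset.Icc 0 e0, uS (Dat D lam hlam) (κ * lam) β (2 * L) a) * (b0 * c3) ≤
        ∑ a ∈ Finset.Icc 0 e0, uS (Dat D lam hlam) (κ * lam) β (2 * L) a *
        min (KLg D.K (2 * L) (m - a) * aN (Dat D lam hlam) (κ * lam) β (m - a))
          (yS (Dat D lam hlam) (κ * lam) β (2 * L) e0 L a m) := by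
      rw [Finset.sum_mul]
      refine Finset.sum_le_sum fun a ha => ?_
      rw [Finset.mem_Icc] at ha
      exact mul_le_mul_of_nonneg_left (hmin a ha.2) (huS0 a)
    refine le_trans ?_ g1
    apply mul_le_mul_of_nonneg_right _ (by positivity)
    rw [hrange]
    exact hUS e0 (by omega) (by omega)
  have h4 : ((2 * Mr) ^ (-D.α)) * (L : ℝ) ^ D.α ≤ (e0 : ℝ) ^ D.α := by
    have g1 : (L : ℝ) / (2 * Mr) ≤ e0 := by
      rw [div_le_iff₀ (by positivity)]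
      linarith
    have g2 := Real.rpow_le_rpow (by positivity) g1 hα.le
    rw [Real.div_rpow hLr.le (by positivity)] at g2
    rw [Real.rpow_neg (by positivity), inv_mul_eq_div]
    exact g2
  have h5 : (L : ℝ) ^ D.α * (4 * (L : ℝ)) ^ (-β) = (4 : ℝ) ^ (-β) * (L : ℝ)⁻¹ := by
    rw [Real.mul_rpow (by norm_num) hLr.le]
    have : (L : ℝ) ^ D.α * (L : ℝ) ^ (-β) = (L : ℝ)⁻¹ := by
      rw [← Real.rpow_add hLr, hβd, ← Real.rpow_neg_one]
      congr 1
      ring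
    calc (L : ℝ) ^ D.α * ((4 : ℝ) ^ (-β) * (L : ℝ) ^ (-β)) =
          (4 : ℝ) ^ (-β) * ((L : ℝ) ^ D.α * (L : ℝ) ^ (-β)) := by ring
      _ = _ := by rw [this]
  have h6 : c2 / (L : ℝ) ≤ c * ((Real.exp (-κ) * cU * (e0 : ℝ) ^ D.α) * (b0 * c3)) := by
    have g1 : c2 / (L : ℝ) = c * ((Real.exp (-κ) * cU * (((2 * Mr) ^ (-D.α)) * (L : ℝ) ^ D.α)) *
        (b0 * c3)) := by
      calc c2 / (L : ℝ) = c * (Real.exp (-κ) * cU * (2 * Mr) ^ (-D.α)) *
            (c0 * Real.exp (-(4 * κ)) * c3) * ((4 : ℝ) ^ (-β) * (L : ℝ)⁻¹) := by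
              rw [hc2, div_eq_mul_inv]; ring
        _ = c * (Real.exp (-κ) * cU * (2 * Mr) ^ (-D.α)) *
            (c0 * Real.exp (-(4 * κ)) * c3) * ((L : ℝ) ^ D.α * (4 * (L : ℝ)) ^ (-β)) := by rw [h5]
        _ = _ := by rw [hb0]; ring
    rw [g1]
    apply mul_le_mul_of_nonneg_left _ hc.le
    apply mul_le_mul_of_nonneg_right _ (by positivity)
    exact mul_le_mul_of_nonneg_left h4 (by positivity)
  exact h6.trans (mul_le_mul_of_nonneg_left hsum1 hc.le)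

end Pool.Agent.TH983
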