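import Pool.Agent.TH983.ScalB

/-!
# The Gaussian integral criterion
-/

set_option autoImplicit false
set_option maxHeartbeats 4000000
open MeasureTheory ProbabilityTheory Filter Topology
open scoped ENNReal NNReal

namespace Pool.Agent.TH983
open Cop764

/-- Gaussian mean of the power of the excursion weight -/
noncomputable def aG (κ θ y : ℝ) : ℝ :=
  ∫ z, ph (-2 * κ * y + 2 * √y * z) ^ θ ∂(gaussianReal 0 1)

theorem gamY_map (κ : ℝ) {y : ℝ} (hy : 0 ≤ y) :
    (gaussianReal 0 1).map (fun z : ℝ => -2 * κ * y + 2 * √y * z) = (gamY κ y : Measure ℝ) := by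
  have e : (fun z : ℝ => -2 * κ * y + 2 * √y * z) =
      (fun z => z + -2 * κ * y) ∘ (fun z => (2 * √y) * z) := by
    funext z; simp only [Function.comp]; ring
  rw [e, ← Measure.map_map (by fun_prop) (by fun_prop), gaussianReal_map_const_mul,
    gaussianReal_map_add_const]
  show gaussianReal _ _ = gaussianReal (-2 * κ * y) (4 * y).toNNReal
  congr 1
  · ring
  · ext
    simp only [mul_one, NNReal.coe_mk]
    rw [Real.coe_toNNReal _ (by positivity), mul_pow, Real.sq_sqrt hy]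
    norm_num

theorem aG_eq (κ θ : ℝ) {y : ℝ} (hy : 0 ≤ y) :
    ∫ s, ph s ^ θ ∂(gamY κ y : Measure ℝ) = aG κ θ y := by
  rw [← gamY_map κ hy, integral_map (by fun_prop)]
  · rfl
  · exact (ph_cont.rpow_const fun x => Or.inl (ph_pos x).ne').measurable.aestronglyMeasurable

theorem aG_meas (κ θ : ℝ) : Measurable (aG κ θ) := by
  unfold aG
  have h : Measurable (fun p : ℝ × ℝ => ph (-2 * κ * p.1 + 2 * √p.1 * p.2) ^ θ) := by
    have : Continuous (fun p : ℝ × ℝ => ph (-2 * κ * p.1 + 2 * √p.1 * p.2) ^ θ) := by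
      refine Continuous.rpow_const (ph_cont.comp (by fun_prop)) fun p => Or.inl (ph_pos _).ne'
    exact this.measurable
  exact (h.stronglyMeasurable.integral_prod_right).measurable

theorem gamY_mgf (κ : ℝ) {y : ℝ} (hy : 0 ≤ y) (t : ℝ) :
    Integrable (fun s => Real.exp (t * s)) (gamY κ y : Measure ℝ) ∧
    ∫ s, Real.exp (t * s) ∂(gamY κ y : Measure ℝ) =
      Real.exp (-2 * κ * y * t + 2 * y * t ^ 2) := by
  refine ⟨integrable_exp_mul_gaussianReal t, ?_⟩
  have h := mgf_gaussianReal (p := gaussianReal (-2 * κ * y) (4 * y).toNNReal) (X := id)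
    (μ := -2 * κ * y) (v := (4 * y).toNNReal) (by rw [Measure.map_id]) t
  unfold mgf at h
  show ∫ s, Real.exp (t * s) ∂(gaussianReal (-2 * κ * y) (4 * y).toNNReal) = _
  simp only [id] at h
  rw [h, Real.coe_toNNReal _ (by positivity)]
  congr 1
  ring

theorem ph_rpow_le {θ : ℝ} (hθ0 : 0 ≤ θ) (s : ℝ) : ph s ^ θ ≤ 1 + Real.exp (θ * s) := by
  rcases le_total s 0 with h | h
  · have h1 : ph s ≤ 1 := by
      unfold ph
      have := Real.exp_le_one_iff.2 h
      linarith
    have h2 : ph s ^ θ ≤ 1 := Real.rpow_le_one (ph_pos s).le h1 hθ0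
    have := Real.exp_pos (θ * s)
    linarith
  · have h1 : ph s ≤ Real.exp s := by
      unfold ph
      have := Real.one_le_exp h
      linarith
    have h2 : ph s ^ θ ≤ Real.exp s ^ θ := Real.rpow_le_rpow (ph_pos s).le h1 hθ0
    rw [← Real.exp_mul, mul_comm s θ] at h2
    linarith

theorem ph_ge (s : ℝ) : Real.exp (s / 2) ≤ ph s := by
  unfold ph
  have e3 : Real.exp s = Real.exp (s / 2) * Real.exp (s / 2) := by
    rw [← Real.exp_add]; congr 1; ring
  rw [e3]
  nlinarith [sq_nonneg (Real.exp (s / 2) - 1)]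

theorem ph_rpow_meas (θ : ℝ) : Measurable (fun s => ph s ^ θ) :=
  (ph_cont.rpow_const fun x => Or.inl (ph_pos x).ne').measurable

theorem ph_rpow_int {θ : ℝ} (hθ0 : 0 ≤ θ) (κ y : ℝ) :
    Integrable (fun s => ph s ^ θ) (gamY κ y : Measure ℝ) := by
  have h1 : Integrable (fun s => 1 + Real.exp (θ * s)) (gamY κ y : Measure ℝ) :=
    (integrable_const 1).add (integrable_exp_mul_gaussianReal θ)
  refine h1.mono' (ph_rpow_meas θ).aestronglyMeasurable (Filter.Eventually.of_forall fun s => ?_)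
  rw [Real.norm_eq_abs, abs_of_nonneg (Real.rpow_nonneg (ph_pos s).le _)]
  exact ph_rpow_le hθ0 s

theorem aG_lower {κ θ y : ℝ} (hθ0 : 0 ≤ θ) (hy : 0 ≤ y) :
    Real.exp (-(θ * κ * y)) ≤ aG κ θ y := by
  rw [← aG_eq κ θ hy]
  have h1 := gamY_mgf κ hy (θ / 2)
  have h2 : ∫ s, Real.exp (θ / 2 * s) ∂(gamY κ y : Measure ℝ) ≤
      ∫ s, ph s ^ θ ∂(gamY κ y : Measure ℝ) := by
    refine integral_mono h1.1 (ph_rpow_int hθ0 κ y) fun s => ?_
    show Real.exp (θ / 2 * s) ≤ ph s ^ θ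
    have h3 := Real.rpow_le_rpow (Real.exp_pos _).le (ph_ge s) hθ0
    rw [← Real.exp_mul] at h3
    refine le_trans (le_of_eq ?_) h3
    congr 1; ring
  rw [h1.2] at h2
  refine le_trans (Real.exp_le_exp.2 ?_) h2
  nlinarith [mul_nonneg hy (sq_nonneg θ)]

theorem aG_pos (κ θ : ℝ) {y : ℝ} (hθ0 : 0 ≤ θ) (hy : 0 ≤ y) : 0 < aG κ θ y :=
  lt_of_lt_of_le (Real.exp_pos _) (aG_lower hθ0 hy)

theorem aG_le_two {κ θ y : ℝ} (hθ0 : 0 ≤ θ) (hκ : θ ≤ κ) (hy : 0 ≤ y) : aG κ θ y ≤ 2 := by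
  rw [← aG_eq κ θ hy]
  have h1 := gamY_mgf κ hy θ
  have h2 : ∫ s, ph s ^ θ ∂(gamY κ y : Measure ℝ) ≤
      ∫ s, (1 + Real.exp (θ * s)) ∂(gamY κ y : Measure ℝ) :=
    integral_mono (ph_rpow_int hθ0 κ y) ((integrable_const 1).add h1.1) fun s => ph_rpow_le hθ0 s
  rw [integral_add (integrable_const 1) h1.1, h1.2] at h2
  simp only [integral_const, probReal_univ, smul_eq_mul, one_mul] at h2
  have h3 : Real.exp (-2 * κ * y * θ + 2 * y * θ ^ 2) ≤ 1 := by
    apply Real.exp_le_one_iff.2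
    have : 0 ≤ y * θ * (κ - θ) := by
      have : 0 ≤ κ - θ := by linarith
      positivity
    nlinarith
  linarith

theorem exp_sub_le (x : ℝ) : Real.exp x - 1 ≤ x * Real.exp x := by
  have e1 := Real.one_sub_le_exp_neg x
  have e2 := Real.exp_pos x
  have e3 : Real.exp (-x) * Real.exp x = 1 := by rw [← Real.exp_add]; simp
  nlinarith

/-- the power of the Gaussian mean -/
noncomputable def aP (κ β y : ℝ) : ℝ := aG κ β⁻¹ y ^ β

theorem aP_bounds {κ β y : ℝ} (hβ : 1 < β) (hκ : 0 ≤ κ) (hy : 0 ≤ y) :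
    -(κ * y) ≤ aP κ β y - 1 ∧ aP κ β y - 1 ≤ y * Real.exp (2 * y) := by
  have hβ0 : 0 < β := by linarith
  have hθ : 0 ≤ β⁻¹ := by positivity
  constructor
  · have h1 := Real.rpow_le_rpow (Real.exp_pos _).le (aG_lower (κ := κ) hθ hy) hβ0.le
    rw [← Real.exp_mul] at h1
    have h2 : -(β⁻¹ * κ * y) * β = -(κ * y) := by field_simp
    rw [h2] at h1
    have h3 := Real.add_one_le_exp (-(κ * y))
    unfold aP
    linarith
  · have h1 := nm_le_mean (P := (gamY κ y : Measure ℝ)) hβ (X := ph) ph_pos (by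
      have := ph_rpow_int (θ := 1) zero_le_one κ y
      simpa using this) (ph_rpow_int hθ κ y)
    have h2 : nm (gamY κ y : Measure ℝ) β ph = aP κ β y := by
      unfold nm aP
      rw [aG_eq κ β⁻¹ hy]
    rw [h2] at h1
    have h3 := gamY_mgf κ hy 1
    have h4 : ∫ s, ph s ∂(gamY κ y : Measure ℝ) = (1 + Real.exp (-2 * κ * y + 2 * y)) / 2 := by
      have e1 : ph = fun s : ℝ => (1 + Real.exp (1 * s)) / 2 := by
        funext s; unfold ph; rw [one_mul]
      rw [e1, integral_div, integral_add (integrable_const 1) h3.1, h3.2]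
      simp
    rw [h4] at h1
    have h5 : Real.exp (-2 * κ * y + 2 * y) ≤ Real.exp (2 * y) := by
      apply Real.exp_le_exp.2
      nlinarith [mul_nonneg hκ hy]
    have h6 := exp_sub_le (2 * y)
    linarith

theorem aP_nonneg {κ β y : ℝ} (hβ : 1 < β) (hy : 0 ≤ y) : 0 ≤ aP κ β y :=
  Real.rpow_nonneg (aG_pos κ _ (by positivity) hy).le _

theorem aP_le {κ β y : ℝ} (hβ : 1 < β) (hκ : β⁻¹ ≤ κ) (hy : 0 ≤ y) : aP κ β y ≤ 2 ^ β := by
  have hθ : 0 ≤ β⁻¹ := by positivity
  exact Real.rpow_le_rpow (aG_pos κ _ hθ hy).le (aG_le_two hθ hκ hy) (by linarith)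

theorem aP_meas (κ β : ℝ) : Measurable (aP κ β) := (aG_meas κ β⁻¹).pow_const _

/-- integrand of the criterion -/
noncomputable def Jf (α κ y : ℝ) : ℝ := y ^ (-(1 + α)) * (aP κ (1 + α) y - 1)

theorem Jf_meas (α κ : ℝ) : Measurable (Jf α κ) := by
  unfold Jf
  exact (measurable_id.pow_const _).mul ((aP_meas κ (1 + α)).sub_const 1)

theorem Jf_int {α κ : ℝ} (hα : 0 < α) (hα1 : α < 1) (hκ : (1 + α)⁻¹ ≤ κ) :
    IntegrableOn (Jf α κ) (Set.Ioi 0) := by
  have hβ : 1 < 1 + α := by linarith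
  have hκ0 : 0 ≤ κ := (by positivity : (0 : ℝ) ≤ (1 + α)⁻¹).trans hκ
  have hsplit : Set.Ioi (0 : ℝ) = Set.Ioc 0 1 ∪ Set.Ioi 1 :=
    (Set.Ioc_union_Ioi_eq_Ioi zero_le_one).symm
  rw [hsplit]
  refine IntegrableOn.union ?_ ?_
  · have h1 : IntegrableOn (fun y : ℝ => (κ + Real.exp 2) * y ^ (-α)) (Set.Ioc 0 1) := by
      have := (intervalIntegral.intervalIntegrable_rpow' (a := 0) (b := 1)
        (show -1 < -α by linarith)).const_mul (κ + Real.exp 2)
      rwa [intervalIntegrable_iff_integrableOn_Ioc_of_le zero_le_one] at this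
    refine Integrable.mono' h1 (Jf_meas α κ).aestronglyMeasurable ?_
    rw [ae_restrict_iff' measurableSet_Ioc]
    refine Filter.Eventually.of_forall fun y hy => ?_
    obtain ⟨hy0, hy1⟩ := hy
    have hb := aP_bounds hβ hκ0 hy0.le
    have h2 : |aP κ (1 + α) y - 1| ≤ (κ + Real.exp 2) * y := by
      rw [abs_le]
      have e1 : y * Real.exp (2 * y) ≤ Real.exp 2 * y := by
        have : Real.exp (2 * y) ≤ Real.exp 2 := Real.exp_le_exp.2 (by linarith)
        nlinarith
      have e2 : 0 ≤ Real.exp 2 * y := by positivity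
      have e3 : 0 ≤ κ * y := by positivity
      constructor
      · linarith [hb.1]
      · linarith [hb.2]
    unfold Jf
    rw [Real.norm_eq_abs, abs_mul, abs_of_nonneg (Real.rpow_nonneg hy0.le _)]
    calc y ^ (-(1 + α)) * |aP κ (1 + α) y - 1| ≤ y ^ (-(1 + α)) * ((κ + Real.exp 2) * y) :=
          mul_le_mul_of_nonneg_left h2 (Real.rpow_nonneg hy0.le _)
      _ = (κ + Real.exp 2) * (y ^ (-(1 + α)) * y) := by ring
      _ = (κ + Real.exp 2) * y ^ (-α) := by
          congr 1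
          rw [← Real.rpow_add_one hy0.ne']
          congr 1; ring
  · have h1 : IntegrableOn (fun y : ℝ => (2 ^ (1 + α) + 1) * y ^ (-(1 + α))) (Set.Ioi 1) :=
      (integrableOn_Ioi_rpow_of_lt (by linarith) one_pos).const_mul _
    refine Integrable.mono' h1 (Jf_meas α κ).aestronglyMeasurable ?_
    rw [ae_restrict_iff' measurableSet_Ioi]
    refine Filter.Eventually.of_forall fun y hy => ?_
    have hy0 : (0 : ℝ) < y := lt_trans one_pos hy
    have h2 : |aP κ (1 + α) y - 1| ≤ 2 ^ (1 + α) + 1 := by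
      rw [abs_le]
      have e1 := aP_nonneg (κ := κ) hβ hy0.le
      have e2 := aP_le hβ hκ hy0.le
      constructor <;> linarith [Real.rpow_nonneg (zero_le_two : (0:ℝ) ≤ 2) (1 + α)]
    unfold Jf
    rw [Real.norm_eq_abs, abs_mul, abs_of_nonneg (Real.rpow_nonneg hy0.le _), mul_comm]
    exact mul_le_mul_of_nonneg_right h2 (Real.rpow_nonneg hy0.le _)

/-- at the Monthus point the Gaussian mean exceeds one -/
theorem aG_gt_one {θ y : ℝ} (hθ0 : 0 < θ) (hθ1 : θ < 1) (hy : 0 < y) : 1 < aG θ θ y := by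
  rw [← aG_eq θ θ hy.le]
  have h1 := gamY_mgf θ hy.le θ
  have h2 : Real.exp (-2 * θ * y * θ + 2 * y * θ ^ 2) = 1 := by
    rw [show -2 * θ * y * θ + 2 * y * θ ^ 2 = 0 by ring, Real.exp_zero]
  rw [h2] at h1
  set g : ℝ → ℝ := fun s => ph s ^ θ - (1 + Real.exp (θ * s)) / 2 with hg
  have hpt : ∀ s : ℝ, s ≠ 0 → 0 < g s := by
    intro s hs
    have hne : (1 : ℝ) ≠ Real.exp s := by
      intro h
      exact hs (by rw [← Real.log_exp s, ← h, Real.log_one])
    have h3 := (Real.strictConcaveOn_rpow hθ0 hθ1).2 (Set.mem_Ici.2 (zero_le_one' ℝ))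
      (Set.mem_Ici.2 (Real.exp_pos s).le) hne (show (0 : ℝ) < 1 / 2 by norm_num)
      (show (0 : ℝ) < 1 / 2 by norm_num) (by norm_num)
    simp only [smul_eq_mul, Real.one_rpow] at h3
    rw [← Real.exp_mul] at h3
    simp only [hg, ph]
    have e1 : (1 + Real.exp s) / 2 = 1 / 2 * 1 + 1 / 2 * Real.exp s := by ring
    rw [e1, mul_comm θ s]
    linarith
  have hg0 : ∀ s, 0 ≤ g s := by
    intro s
    by_cases hs : s = 0
    · subst hs
      simp [hg, ph]
    · exact (hpt s hs).le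
  have hgi : Integrable g (gamY θ y : Measure ℝ) :=
    (ph_rpow_int hθ0.le θ y).sub (((integrable_const 1).add h1.1).div_const 2)
  have hpos : 0 < ∫ s, g s ∂(gamY θ y : Measure ℝ) := by
    rw [integral_pos_iff_support_of_nonneg hg0 hgi]
    have hsub : ({0}ᶜ : Set ℝ) ⊆ Function.support g := by
      intro s hs
      exact (hpt s hs).ne'
    refine lt_of_lt_of_le ?_ (measure_mono hsub)
    have hna : NullSingletonClass (gaussianReal (-2 * θ * y) (4 * y).toNNReal) := by
      apply nullSingletonClass_gaussianReal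
      simp only [ne_eq, Real.toNNReal_eq_zero, not_le]
      positivity
    have h0 : (gamY θ y : Measure ℝ) {0} = 0 := by
      show gaussianReal (-2 * θ * y) (4 * y).toNNReal {0} = 0
      exact measure_singleton 0
    rw [measure_compl (measurableSet_singleton 0) (by rw [h0]; exact ENNReal.zero_ne_top), h0,
      measure_univ]
    simp
  have h4 : ∫ s, g s ∂(gamY θ y : Measure ℝ) = ∫ s, ph s ^ θ ∂(gamY θ y : Measure ℝ) - 1 := by
    have hi1 : Integrable (fun s => (1 + Real.exp (θ * s)) / 2) (gamY θ y : Measure ℝ) :=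
      ((integrable_const 1).add h1.1).div_const 2
    simp only [hg]
    rw [integral_sub (ph_rpow_int hθ0.le θ y) hi1, integral_div,
      integral_add (integrable_const 1) h1.1, h1.2]
    simp
  linarith

theorem Jf_pos_point {α y : ℝ} (hα : 0 < α) (hy : 0 < y) : 0 < Jf α (1 + α)⁻¹ y := by
  have hβ : 1 < 1 + α := by linarith
  have h1 : 1 < aG (1 + α)⁻¹ (1 + α)⁻¹ y :=
    aG_gt_one (by positivity) (inv_lt_one_of_one_lt₀ hβ) hy
  unfold Jf aP
  apply mul_pos (Real.rpow_pos_of_pos hy _)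
  have := Real.one_lt_rpow h1 (show 0 < 1 + α by linarith)
  linarith

/-- the criterion is strictly positive at the Monthus point -/
theorem Jf_pos {α : ℝ} (hα : 0 < α) (hα1 : α < 1) :
    0 < ∫ y in Set.Ioi (0 : ℝ), Jf α (1 + α)⁻¹ y := by
  have hi := Jf_int hα hα1 (le_refl (1 + α)⁻¹)
  rw [setIntegral_pos_iff_support_of_nonneg_ae _ hi]
  · have : Function.support (Jf α (1 + α)⁻¹) ∩ Set.Ioi 0 = Set.Ioi 0 := by
      ext y
      simp only [Set.mem_inter_iff, Function.mem_support, and_iff_right_iff_imp]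
      intro hy
      exact (Jf_pos_point hα hy).ne'
    rw [this, Real.volume_Ioi]
    exact ENNReal.zero_lt_top
  · rw [Filter.EventuallyLE, ae_restrict_iff' measurableSet_Ioi]
    exact Filter.Eventually.of_forall fun y hy => (Jf_pos_point hα hy).le

end Pool.Agent.TH983
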