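import Pool.Agent.TH983.SecondMoment
import Pool.Agent.TH983.Det
import Pool.Agent.Helper764.Cop_indep

/-!
# The Gaussian random walk with drift `-2ρ` and variance `4` per step
-/

set_option autoImplicit false
set_option maxHeartbeats 4000000
open MeasureTheory ProbabilityTheory Filter Topology
open scoped ENNReal NNReal

namespace Pool.Agent.TH983
open Cop764

/-- law of one Gaussian block -/
noncomputable def gam (ρ : ℝ) : Measure ℝ := gaussianReal (-2 * ρ) 4

instance instGam (ρ : ℝ) : IsProbabilityMeasure (gam ρ) := by unfold gam; infer_instance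

/-- i.i.d. Gaussian blocks -/
noncomputable def Pg (ρ : ℝ) : Measure (ℕ → ℝ) := disorder (gam ρ)

instance instPg (ρ : ℝ) : IsProbabilityMeasure (Pg ρ) := by unfold Pg; infer_instance

theorem pg_eval (ρ : ℝ) (n : ℕ) : (Pg ρ).map (fun y : ℕ → ℝ => y n) = gam ρ := by
  have := measurePreserving_eval_infinitePi (fun _ : ℕ => gam ρ) n
  unfold Pg disorder
  exact this.map_eq

theorem S_measurable (i j : ℕ) : Measurable (fun y : ℕ → ℝ => S y i j) := by
  unfold S
  exact Finset.measurable_fun_sum _ fun n _ => measurable_pi_apply n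

theorem S_dep {i j : ℕ} {s : Finset ℕ} (hs : Finset.Ioc i j ⊆ s) {y y' : ℕ → ℝ}
    (h : ∀ n ∈ s, y n = y' n) : S y i j = S y' i j := by
  unfold S
  exact Finset.sum_congr rfl fun n hn => h n (hs hn)

theorem S_succ (y : ℕ → ℝ) (n d : ℕ) : S y n (n + (d + 1)) = S y n (n + d) + y (n + d + 1) := by
  unfold S
  rw [show n + (d + 1) = n + d + 1 by ring,
    ← Finset.insert_Ioc_right_eq_Ioc_add_one (by omega : n ≤ n + d), Finset.sum_insert (by simp),
    add_comm]

theorem S_map (ρ : ℝ) (n d : ℕ) :
    (Pg ρ).map (fun y => S y n (n + d)) = gaussianReal (-2 * ρ * d) (4 * d) := by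
  induction d with
  | zero =>
    have : (fun y : ℕ → ℝ => S y n (n + 0)) = fun _ => 0 := by
      funext y
      simp [S]
    rw [this, Measure.map_const]
    simp
  | succ d ih =>
    have h1 : (fun y : ℕ → ℝ => S y n (n + (d + 1))) =
        (fun y => S y n (n + d)) + fun y => y (n + d + 1) := by
      funext y
      exact S_succ y n d
    have hind : IndepFun (fun y : ℕ → ℝ => S y n (n + d)) (fun y => y (n + d + 1)) (Pg ρ) := by
      apply M_indep.J_indep (gam ρ) (Finset.Ioc n (n + d)) {n + d + 1}
      · simp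
      · exact S_measurable _ _
      · exact measurable_pi_apply _
      · intro y y' h
        exact S_dep subset_rfl h
      · intro y y' h
        exact h _ (by simp)
    rw [h1, gaussianReal_add_gaussianReal_of_indepFun hind ih (pg_eval ρ _)]
    congr 1
    · push_cast; ring
    · push_cast; ring

theorem exp_S (ρ t : ℝ) (n d : ℕ) : ∫ y, Real.exp (t * S y n (n + d)) ∂(Pg ρ) =
    Real.exp (-2 * ρ * d * t + 2 * d * t ^ 2) := by
  have h := mgf_gaussianReal (S_map ρ n d) t
  unfold mgf at h
  rw [h]
  congr 1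
  push_cast
  ring

theorem exp_S_int (ρ t : ℝ) (n d : ℕ) : Integrable (fun y => Real.exp (t * S y n (n + d))) (Pg ρ) := by
  have h := integrable_exp_mul_gaussianReal (μ := -2 * ρ * d) (v := 4 * d) t
  rw [← S_map ρ n d] at h
  exact (integrable_map_measure (by fun_prop) (S_measurable _ _).aemeasurable).1 h

theorem exp_y (ρ : ℝ) (n : ℕ) : ∫ y, Real.exp (ρ * y n) ∂(Pg ρ) = 1 := by
  have h := mgf_gaussianReal (pg_eval ρ n) ρ
  unfold mgf at h
  rw [h]
  push_cast
  rw [show -2 * ρ * ρ + 4 * ρ ^ 2 / 2 = 0 by ring, Real.exp_zero]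

theorem tail_half (ρ : ℝ) (hρ : 0 ≤ ρ) (n d : ℕ) (x : ℝ) :
    (Pg ρ).real {y | x ≤ S y n (n + d)} ≤ Real.exp (-(ρ / 2) * x - ρ ^ 2 / 2 * d) := by
  have h := measure_ge_le_exp_mul_mgf (μ := Pg ρ) (X := fun y => S y n (n + d)) x
    (show 0 ≤ ρ / 2 by linarith) (exp_S_int ρ (ρ / 2) n d)
  unfold mgf at h
  rw [exp_S, ← Real.exp_add] at h
  refine h.trans (le_of_eq ?_)
  congr 1
  ring

/-- first passage event -/
def Mx (b : (ℕ → ℝ) → ℝ) (m R : ℕ) : Set (ℕ → ℝ) :=
  {y | ∃ r ∈ Finset.Icc 1 R, b y ≤ S y m (m + r)}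

theorem Mx_meas {b : (ℕ → ℝ) → ℝ} (hb : Measurable b) (m R : ℕ) : MeasurableSet (Mx b m R) := by
  have : Mx b m R = ⋃ r ∈ Finset.Icc 1 R, {y | b y ≤ S y m (m + r)} := by
    ext y
    simp [Mx]
  rw [this]
  exact Finset.measurableSet_biUnion _ fun r _ => measurableSet_le hb (S_measurable _ _)

theorem Mx_dep {b : (ℕ → ℝ) → ℝ} {m R : ℕ} {s : Finset ℕ}
    (hb : ∀ y y' : ℕ → ℝ, (∀ n ∈ s, y n = y' n) → b y = b y') (hs : Finset.Ioc m (m + R) ⊆ s)
    {y y' : ℕ → ℝ} (h : ∀ n ∈ s, y n = y' n) : y ∈ Mx b m R ↔ y' ∈ Mx b m R := by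
  unfold Mx
  simp only [Set.mem_ofPred_eq]
  rw [hb y y' h]
  have : ∀ r ∈ Finset.Icc 1 R, S y m (m + r) = S y' m (m + r) := by
    intro r hr
    rw [Finset.mem_Icc] at hr
    exact S_dep ((Finset.Ioc_subset_Ioc_right (by omega)).trans hs) h
  constructor
  · rintro ⟨r, hr, h1⟩
    exact ⟨r, hr, by rw [← this r hr]; exact h1⟩
  · rintro ⟨r, hr, h1⟩
    exact ⟨r, hr, by rw [this r hr]; exact h1⟩

/-- Lundberg type maximal inequality with a level depending on the past -/
theorem maximal {ρ : ℝ} (hρ : 0 ≤ ρ) (m : ℕ) (b : (ℕ → ℝ) → ℝ) (hbm : Measurable b)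
    (hb0 : ∀ y, 0 ≤ b y)
    (hdep : ∀ y y' : ℕ → ℝ, (∀ n ∈ Finset.Ioc 0 m, y n = y' n) → b y = b y') (R : ℕ) :
    (Pg ρ).real (Mx b m R) ≤ ∫ y, Real.exp (-ρ * b y) ∂(Pg ρ) := by
  classical
  set g : ℕ → (ℕ → ℝ) → ℝ := fun r y =>
    (Mx b m r)ᶜ.indicator (fun y => Real.exp (ρ * (S y m (m + r) - b y))) y with hg
  have hexpm : ∀ r, Measurable (fun y => Real.exp (ρ * (S y m (m + r) - b y))) := fun r =>
    (((S_measurable _ _).sub hbm).const_mul _).exp
  have hgm : ∀ r, Measurable (g r) := fun r => (hexpm r).indicator (Mx_meas hbm m r).compl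
  have hexpi : ∀ r, Integrable (fun y => Real.exp (ρ * (S y m (m + r) - b y))) (Pg ρ) := by
    intro r
    refine (exp_S_int ρ ρ m r).mono' (hexpm r).aestronglyMeasurable (Eventually.of_forall fun y => ?_)
    rw [Real.norm_eq_abs, abs_of_pos (Real.exp_pos _)]
    apply Real.exp_le_exp.2
    have := hb0 y
    nlinarith
  have hgi : ∀ r, Integrable (g r) (Pg ρ) := fun r => (hexpi r).indicator (Mx_meas hbm m r).compl
  have hdep' : ∀ r, ∀ y y' : ℕ → ℝ, (∀ n ∈ Finset.Ioc 0 (m + r), y n = y' n) → b y = b y' := by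
    intro r y y' h
    apply hdep
    intro n hn
    rw [Finset.mem_Ioc] at hn
    exact h n (Finset.mem_Ioc.2 ⟨hn.1, by omega⟩)
  have hgdep : ∀ r, ∀ y y' : ℕ → ℝ, (∀ n ∈ Finset.Ioc 0 (m + r), y n = y' n) → g r y = g r y' := by
    intro r y y' h
    rw [hg]
    simp only
    have hsub : Finset.Ioc m (m + r) ⊆ Finset.Ioc 0 (m + r) :=
      Finset.Ioc_subset_Ioc_left (Nat.zero_le _)
    have h1 := Mx_dep (R := r) (hdep' r) hsub h
    have h2 : S y m (m + r) = S y' m (m + r) := S_dep hsub h
    have h3 := hdep' r y y' h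
    by_cases hy : y ∈ Mx b m r
    · have hy' := h1.1 hy
      rw [Set.indicator_of_notMem (by simpa using hy), Set.indicator_of_notMem (by simpa using hy')]
    · have hy' : y' ∉ Mx b m r := fun hc => hy (h1.2 hc)
      rw [Set.indicator_of_mem (by simpa using hy), Set.indicator_of_mem (by simpa using hy'), h2, h3]
  have key : ∀ r : ℕ, (Pg ρ).real (Mx b m r) + ∫ y, g r y ∂(Pg ρ) ≤
      ∫ y, Real.exp (-ρ * b y) ∂(Pg ρ) := by
    intro r
    induction r with
    | zero =>
      have h1 : Mx b m 0 = ∅ := by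
        ext y
        simp [Mx]
      rw [h1]
      simp only [measureReal_empty, zero_add]
      apply le_of_eq
      apply integral_congr_ae
      refine Eventually.of_forall fun y => ?_
      show g 0 y = _
      rw [hg]
      simp only
      rw [h1]
      simp [S]
    | succ r ih =>
      -- compare with the one step extension
      have hstep : ∫ y, (Mx b m r)ᶜ.indicator
          (fun y => Real.exp (ρ * (S y m (m + (r + 1)) - b y))) y ∂(Pg ρ) = ∫ y, g r y ∂(Pg ρ) := by
        have e1 : ∀ y, (Mx b m r)ᶜ.indicator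
            (fun y => Real.exp (ρ * (S y m (m + (r + 1)) - b y))) y =
            g r y * Real.exp (ρ * y (m + r + 1)) := by
          intro y
          rw [hg]
          simp only
          by_cases hy : y ∈ Mx b m r
          · rw [Set.indicator_of_notMem (by simpa using hy),
              Set.indicator_of_notMem (by simpa using hy), zero_mul]
          · rw [Set.indicator_of_mem (by simpa using hy), Set.indicator_of_mem (by simpa using hy),
              ← Real.exp_add, S_succ]
            congr 1
            ring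
        simp only [e1]
        have hind : IndepFun (g r) (fun y => Real.exp (ρ * y (m + r + 1))) (Pg ρ) := by
          apply M_indep.J_indep (gam ρ) (Finset.Ioc 0 (m + r)) {m + r + 1}
          · simp
          · exact hgm r
          · exact ((measurable_pi_apply _).const_mul _).exp
          · exact hgdep r
          · intro y y' h
            rw [h _ (by simp)]
        rw [hind.integral_fun_mul_eq_mul_integral (hgm r).aestronglyMeasurable
          ((measurable_pi_apply _).const_mul _).exp.aestronglyMeasurable, exp_y, mul_one]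
      have hMsub : Mx b m r ⊆ Mx b m (r + 1) := by
        rintro y ⟨k, hk, h1⟩
        rw [Finset.mem_Icc] at hk
        exact ⟨k, Finset.mem_Icc.2 ⟨hk.1, by omega⟩, h1⟩
      have hpt : ∀ y, (Mx b m (r + 1) \ Mx b m r).indicator (fun _ => (1 : ℝ)) y + g (r + 1) y ≤
          (Mx b m r)ᶜ.indicator (fun y => Real.exp (ρ * (S y m (m + (r + 1)) - b y))) y := by
        intro y
        rw [hg]
        simp only
        by_cases hy : y ∈ Mx b m r
        · have hy1 := hMsub hy
          rw [Set.indicator_of_notMem (fun hc => hc.2 hy),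
            Set.indicator_of_notMem (by simpa using hy1), Set.indicator_of_notMem (by simpa using hy)]
          simp
        · rw [Set.indicator_of_mem (s := (Mx b m r)ᶜ) (by simpa using hy)]
          by_cases hy1 : y ∈ Mx b m (r + 1)
          · have hmd : y ∈ Mx b m (r + 1) \ Mx b m r := ⟨hy1, hy⟩
            rw [Set.indicator_of_mem hmd, Set.indicator_of_notMem (by simpa using hy1)]
            have hb1 : b y ≤ S y m (m + (r + 1)) := by
              obtain ⟨k, hk, h1⟩ := hy1
              rw [Finset.mem_Icc] at hk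
              rcases Nat.lt_or_ge k (r + 1) with hlt | hge
              · exact absurd (show y ∈ Mx b m r from
                  ⟨k, Finset.mem_Icc.2 ⟨hk.1, by omega⟩, h1⟩) hy
              · have : k = r + 1 := by omega
                rw [this] at h1
                exact h1
            rw [add_zero]
            apply Real.one_le_exp
            apply mul_nonneg hρ
            linarith
          · rw [Set.indicator_of_notMem (fun hc => hy1 hc.1), Set.indicator_of_mem (by simpa using hy1)]
            simp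
      have hdm : MeasurableSet (Mx b m (r + 1) \ Mx b m r) :=
        (Mx_meas hbm m (r + 1)).diff (Mx_meas hbm m r)
      have hint1 : Integrable (fun y => (Mx b m (r + 1) \ Mx b m r).indicator (fun _ => (1 : ℝ)) y)
          (Pg ρ) := (integrable_const 1).indicator hdm
      have hle := integral_mono (μ := Pg ρ) (hint1.add (hgi (r + 1)))
        ((hexpi (r + 1)).indicator (Mx_meas hbm m r).compl) hpt
      simp only [Pi.add_apply] at hle
      rw [integral_add hint1 (hgi (r + 1)), hstep, integral_indicator_const _ hdm] at hle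
      have hmeas : (Pg ρ).real (Mx b m (r + 1)) = (Pg ρ).real (Mx b m r) +
          (Pg ρ).real (Mx b m (r + 1) \ Mx b m r) := by
        rw [measureReal_sdiff hMsub (Mx_meas hbm m r)]
        ring
      rw [hmeas]
      simp only [smul_eq_mul, mul_one] at hle
      linarith
  have h1 := key R
  have h2 : 0 ≤ ∫ y, g R y ∂(Pg ρ) := integral_nonneg fun y =>
    Set.indicator_nonneg (fun y _ => (Real.exp_pos _).le) y
  linarith

end Pool.Agent.TH983
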