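import Pool.Agent.TH983.Gauss1

/-!
# Gaussian random walk: probability of reaching a high level, and pair bounds
-/

set_option autoImplicit false
set_option maxHeartbeats 4000000
open MeasureTheory ProbabilityTheory Filter Topology
open scoped ENNReal NNReal

namespace Pool.Agent.TH983
open Cop764

/-- sets depending on disjoint finite sets of coordinates are independent -/
theorem real_inter (ν : Measure ℝ) [IsProbabilityMeasure ν] {s t : Finset ℕ} (hst : Disjoint s t)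
    {A B : Set (ℕ → ℝ)} (hA : MeasurableSet A) (hB : MeasurableSet B)
    (hAs : ∀ ω ω' : ℕ → ℝ, (∀ n ∈ s, ω n = ω' n) → (ω ∈ A ↔ ω' ∈ A))
    (hBt : ∀ ω ω' : ℕ → ℝ, (∀ n ∈ t, ω n = ω' n) → (ω ∈ B ↔ ω' ∈ B)) :
    (disorder ν).real (A ∩ B) = (disorder ν).real A * (disorder ν).real B := by
  classical
  have hind : IndepFun (A.indicator (fun _ => (1 : ℝ))) (B.indicator (fun _ => (1 : ℝ)))
      (disorder ν) := by
    apply M_indep.J_indep ν s t hst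
    · exact measurable_const.indicator hA
    · exact measurable_const.indicator hB
    · intro ω ω' h
      have := hAs ω ω' h
      by_cases h1 : ω ∈ A
      · rw [Set.indicator_of_mem h1, Set.indicator_of_mem (this.1 h1)]
      · rw [Set.indicator_of_notMem h1, Set.indicator_of_notMem (fun h2 => h1 (this.2 h2))]
    · intro ω ω' h
      have := hBt ω ω' h
      by_cases h1 : ω ∈ B
      · rw [Set.indicator_of_mem h1, Set.indicator_of_mem (this.1 h1)]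
      · rw [Set.indicator_of_notMem h1, Set.indicator_of_notMem (fun h2 => h1 (this.2 h2))]
  have e : ∀ C : Set (ℕ → ℝ), (C.indicator (fun _ => (1 : ℝ))) ⁻¹' {1} = C := by
    intro C
    ext ω
    by_cases h1 : ω ∈ C
    · simp [h1]
    · simp [h1]
  have h := hind.measure_inter_preimage_eq_mul {1} {1} (measurableSet_singleton _)
    (measurableSet_singleton _)
  rw [e A, e B] at h
  simp only [measureReal_def]
  rw [h, ENNReal.toReal_mul]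

/-- upper event -/
def Acl (x : ℝ) (Λ : Finset ℕ) (n : ℕ) : Set (ℕ → ℝ) := {y | ∃ ℓ ∈ Λ, x ≤ S y n (n + ℓ)}

/-- lower event -/
def Aop (x : ℝ) (Λ : Finset ℕ) (n : ℕ) : Set (ℕ → ℝ) :=
  ⋃ ℓ ∈ Λ, {y | x < S y n (n + ℓ) ∧ S y n (n + ℓ) < x + 1}

theorem Acl_meas (x : ℝ) (Λ : Finset ℕ) (n : ℕ) : MeasurableSet (Acl x Λ n) := by
  have : Acl x Λ n = ⋃ ℓ ∈ Λ, {y | x ≤ S y n (n + ℓ)} := by
    ext y
    simp [Acl]
  rw [this]
  exact Finset.measurableSet_biUnion _ fun r _ => measurableSet_le measurable_const (S_measurable _ _)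

theorem Acl_sub (x : ℝ) {Λ : Finset ℕ} {R : ℕ} (hΛ : Λ ⊆ Finset.Icc 1 R) (n : ℕ) :
    Acl x Λ n ⊆ Mx (fun _ => x) n R := by
  rintro y ⟨ℓ, hℓ, h⟩
  exact ⟨ℓ, hΛ hℓ, h⟩

theorem Acl_dep (x : ℝ) {Λ : Finset ℕ} {R : ℕ} (hΛ : Λ ⊆ Finset.Icc 1 R) (n : ℕ)
    {y y' : ℕ → ℝ} (h : ∀ k ∈ Finset.Ioc n (n + R), y k = y' k) :
    y ∈ Acl x Λ n ↔ y' ∈ Acl x Λ n := by
  have : ∀ ℓ ∈ Λ, S y n (n + ℓ) = S y' n (n + ℓ) := by
    intro ℓ hℓ
    have := Finset.mem_Icc.1 (hΛ hℓ)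
    exact S_dep (Finset.Ioc_subset_Ioc_right (by omega)) h
  unfold Acl
  constructor
  · rintro ⟨r, hr, h1⟩
    exact ⟨r, hr, by rw [← this r hr]; exact h1⟩
  · rintro ⟨r, hr, h1⟩
    exact ⟨r, hr, by rw [this r hr]; exact h1⟩

theorem Mx_const {ρ : ℝ} (hρ : 0 ≤ ρ) {x : ℝ} (hx : 0 ≤ x) (n R : ℕ) :
    (Pg ρ).real (Mx (fun _ => x) n R) ≤ Real.exp (-ρ * x) := by
  have h := maximal hρ n (fun _ => x) measurable_const (fun _ => hx) (fun _ _ _ => rfl) R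
  simpa using h

theorem Acl_le {ρ : ℝ} (hρ : 0 ≤ ρ) {x : ℝ} (hx : 0 ≤ x) {Λ : Finset ℕ} {R : ℕ}
    (hΛ : Λ ⊆ Finset.Icc 1 R) (n : ℕ) : (Pg ρ).real (Acl x Λ n) ≤ Real.exp (-ρ * x) :=
  (measureReal_mono (Acl_sub x hΛ n)).trans (Mx_const hρ hx n R)

/-- pair bound -/
theorem Acl_pair {ρ : ℝ} (hρ : 0 ≤ ρ) {x : ℝ} (hx : 0 ≤ x) {Λ : Finset ℕ} {R : ℕ}
    (hΛ : Λ ⊆ Finset.Icc 1 R) {n m : ℕ} (hnm : n < m) :
    (Pg ρ).real (Acl x Λ n ∩ Acl x Λ m) ≤ Real.exp (-ρ * x) * Real.exp (-ρ * x) +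
      Real.exp (-ρ * x) * Real.exp (-(ρ ^ 2 / 2) * ((m - n : ℕ) : ℝ)) := by
  set E1 : Set (ℕ → ℝ) := Acl x (Λ.filter (fun ℓ => n + ℓ ≤ m)) n with hE1
  set b : (ℕ → ℝ) → ℝ := fun y => x + max 0 (-S y n m) with hb
  have hbm : Measurable b := by
    rw [hb]
    exact ((measurable_const.max (S_measurable n m).neg).const_add x)
  have hb0 : ∀ y, 0 ≤ b y := fun y => add_nonneg hx (le_max_left _ _)
  have hbdep : ∀ y y' : ℕ → ℝ, (∀ k ∈ Finset.Ioc 0 m, y k = y' k) → b y = b y' := by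
    intro y y' h
    rw [hb]
    simp only
    rw [S_dep (Finset.Ioc_subset_Ioc_left (Nat.zero_le n)) h]
  have hsub : Acl x Λ n ∩ Acl x Λ m ⊆ (E1 ∩ Acl x Λ m) ∪ Mx b m R := by
    rintro y ⟨⟨ℓ, hℓ, h1⟩, ⟨ℓ', hℓ', h2⟩⟩
    by_cases hc : n + ℓ ≤ m
    · left
      exact ⟨⟨ℓ, Finset.mem_filter.2 ⟨hℓ, hc⟩, h1⟩, ⟨ℓ', hℓ', h2⟩⟩
    · right
      have hl := Finset.mem_Icc.1 (hΛ hℓ)
      have hsplit : S y n (n + ℓ) = S y n m + S y m (n + ℓ) := S_add y hnm.le (by omega)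
      rcases le_total 0 (S y n m) with hs | hs
      · refine ⟨ℓ', hΛ hℓ', ?_⟩
        show x + max 0 (-S y n m) ≤ _
        rw [max_eq_left (by linarith)]
        linarith
      · refine ⟨n + ℓ - m, Finset.mem_Icc.2 ⟨by omega, by omega⟩, ?_⟩
        show x + max 0 (-S y n m) ≤ _
        rw [max_eq_right (by linarith), show m + (n + ℓ - m) = n + ℓ by omega]
        linarith
  have hE1m : MeasurableSet E1 := Acl_meas _ _ _
  have h1 : (Pg ρ).real (E1 ∩ Acl x Λ m) = (Pg ρ).real E1 * (Pg ρ).real (Acl x Λ m) := by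
    have hd : Disjoint (Finset.Ioc 0 m) (Finset.Ioc m (m + R)) :=
      Finset.Ioc_disjoint_Ioc_of_le le_rfl
    refine real_inter (gam ρ) hd hE1m (Acl_meas _ _ _) ?_ ?_
    · intro y y' h
      have : ∀ ℓ ∈ Λ.filter (fun ℓ => n + ℓ ≤ m), S y n (n + ℓ) = S y' n (n + ℓ) := by
        intro ℓ hℓ
        have := (Finset.mem_filter.1 hℓ).2
        refine S_dep ?_ h
        intro k hk
        rw [Finset.mem_Ioc] at hk ⊢
        omega
      rw [hE1]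
      unfold Acl
      constructor
      · rintro ⟨r, hr, h1⟩
        exact ⟨r, hr, by rw [← this r hr]; exact h1⟩
      · rintro ⟨r, hr, h1⟩
        exact ⟨r, hr, by rw [this r hr]; exact h1⟩
    · intro y y' h
      exact Acl_dep x hΛ m h
  have h2 : (Pg ρ).real E1 ≤ Real.exp (-ρ * x) :=
    Acl_le hρ hx ((Finset.filter_subset _ _).trans hΛ) n
  have h3 : (Pg ρ).real (Acl x Λ m) ≤ Real.exp (-ρ * x) := Acl_le hρ hx hΛ m
  have h4 : (Pg ρ).real (Mx b m R) ≤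
      Real.exp (-ρ * x) * Real.exp (-(ρ ^ 2 / 2) * ((m - n : ℕ) : ℝ)) := by
    refine (maximal hρ m b hbm hb0 hbdep R).trans ?_
    have hm : n + (m - n) = m := by omega
    have h5 := exp_S ρ (ρ / 2) n (m - n)
    have h6 := exp_S_int ρ (ρ / 2) n (m - n)
    rw [hm] at h5 h6
    have h7 : ∫ y, Real.exp (-ρ * b y) ∂(Pg ρ) ≤
        ∫ y, Real.exp (-ρ * x) * Real.exp (ρ / 2 * S y n m) ∂(Pg ρ) := by
      apply integral_mono_of_nonneg
      · exact Eventually.of_forall fun y => (Real.exp_pos _).le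
      · exact h6.const_mul _
      · refine Eventually.of_forall fun y => ?_
        show Real.exp (-ρ * b y) ≤ Real.exp (-ρ * x) * Real.exp (ρ / 2 * S y n m)
        rw [← Real.exp_add]
        apply Real.exp_le_exp.2
        show -ρ * (x + max 0 (-S y n m)) ≤ _
        rcases le_total 0 (S y n m) with hs | hs
        · rw [max_eq_left (by linarith)]
          nlinarith
        · rw [max_eq_right (by linarith)]
          nlinarith
    refine h7.trans (le_of_eq ?_)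
    rw [integral_const_mul, h5]
    congr 2
    ring
  have h8 : (0 : ℝ) ≤ (Pg ρ).real (Acl x Λ m) := measureReal_nonneg
  calc (Pg ρ).real (Acl x Λ n ∩ Acl x Λ m)
      ≤ (Pg ρ).real ((E1 ∩ Acl x Λ m) ∪ Mx b m R) := measureReal_mono hsub
    _ ≤ (Pg ρ).real (E1 ∩ Acl x Λ m) + (Pg ρ).real (Mx b m R) := measureReal_union_le _ _
    _ ≤ _ := by
        rw [h1]
        have := (Real.exp_pos (-ρ * x)).le
        gcongr

/-- distance on `ℕ` -/
def dd (i j : ℕ) : ℕ := (i - j) + (j - i)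

theorem geom_le (s : Finset ℕ) : ∑ k ∈ s, Real.exp (-(1 / 8)) ^ k ≤ 9 := by
  have h1 : Real.exp (-(1 / 8)) ≤ 8 / 9 := by
    have h2 := Real.add_one_le_exp (1 / 8 : ℝ)
    rw [Real.exp_neg, inv_le_comm₀ (Real.exp_pos _) (by norm_num)]
    linarith
  have h0 := Real.exp_pos (-(1 / 8 : ℝ))
  have hlt : Real.exp (-(1 / 8)) < 1 := by linarith
  have hs := summable_geometric_of_lt_one h0.le hlt
  have h3 := hs.sum_le_tsum s (fun _ _ => by positivity)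
  rw [tsum_geometric_of_lt_one h0.le hlt] at h3
  refine h3.trans ?_
  rw [inv_le_comm₀ (by linarith) (by norm_num)]
  linarith

theorem dd_sum (Λ : Finset ℕ) (i : ℕ) : ∑ j ∈ Λ, Real.exp (-(1 / 8)) ^ (dd i j) ≤ 18 := by
  classical
  have hpos : 0 < Real.exp (-(1 / 8 : ℝ)) := Real.exp_pos _
  rw [← Finset.sum_filter_add_sum_filter_not Λ (fun j => i ≤ j)]
  have h1 : ∑ j ∈ Λ.filter (fun j => i ≤ j), Real.exp (-(1 / 8)) ^ (dd i j) ≤ 9 := by
    have : ∑ j ∈ Λ.filter (fun j => i ≤ j), Real.exp (-(1 / 8)) ^ (dd i j) =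
        ∑ k ∈ (Λ.filter (fun j => i ≤ j)).image (fun j => j - i), Real.exp (-(1 / 8)) ^ k := by
      rw [Finset.sum_image]
      · refine Finset.sum_congr rfl fun j hj => ?_
        have := (Finset.mem_filter.1 hj).2
        congr 1
        unfold dd
        omega
      · intro a ha b hb hab
        have h2 := (Finset.mem_filter.1 ha).2
        have h3 := (Finset.mem_filter.1 hb).2
        simp only at hab
        omega
    rw [this]
    exact geom_le _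
  have h2 : ∑ j ∈ Λ.filter (fun j => ¬ i ≤ j), Real.exp (-(1 / 8)) ^ (dd i j) ≤ 9 := by
    have : ∑ j ∈ Λ.filter (fun j => ¬ i ≤ j), Real.exp (-(1 / 8)) ^ (dd i j) =
        ∑ k ∈ (Λ.filter (fun j => ¬ i ≤ j)).image (fun j => i - j), Real.exp (-(1 / 8)) ^ k := by
      rw [Finset.sum_image]
      · refine Finset.sum_congr rfl fun j hj => ?_
        have := (Finset.mem_filter.1 hj).2
        congr 1
        unfold dd
        omega
      · intro a ha b hb hab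
        have h2 := (Finset.mem_filter.1 ha).2
        have h3 := (Finset.mem_filter.1 hb).2
        simp only at hab
        omega
    rw [this]
    exact geom_le _
  linarith

/-- first length used at level `x` -/
noncomputable def aL (ρ x : ℝ) : ℕ := ⌈x / (2 * ρ)⌉₊

/-- number of lengths used at level `x` (minus one) -/
noncomputable def kL (x : ℝ) : ℕ := ⌊Real.sqrt x / 4⌋₊

/-- lengths used at level `x` -/
noncomputable def Lam (ρ x : ℝ) : Finset ℕ := Finset.Icc (aL ρ x) (aL ρ x + kL x)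

theorem Lam_facts {ρ x : ℝ} (hρ : 1 / 2 ≤ ρ) (hρ1 : ρ ≤ 1) (hx : 16 ≤ x) {ℓ : ℕ}
    (hℓ : ℓ ∈ Lam ρ x) : 1 ≤ ℓ ∧ x ≤ 2 * ρ * ℓ ∧ 2 * ρ * ℓ ≤ x + Real.sqrt x ∧ (ℓ : ℝ) ≤ 2 * x := by
  unfold Lam aL kL at hℓ
  rw [Finset.mem_Icc] at hℓ
  have hρ0 : 0 < 2 * ρ := by linarith
  have hs4 : 4 ≤ Real.sqrt x := by
    rw [show (4 : ℝ) = Real.sqrt 16 by
      rw [show (16 : ℝ) = 4 ^ 2 by norm_num, Real.sqrt_sq (by norm_num)]]
    exact Real.sqrt_le_sqrt hx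
  have hsx : Real.sqrt x ≤ x := by
    have := Real.sq_sqrt (show 0 ≤ x by linarith)
    nlinarith
  have h1 : x / (2 * ρ) ≤ (⌈x / (2 * ρ)⌉₊ : ℝ) := Nat.le_ceil _
  have h2 : (⌈x / (2 * ρ)⌉₊ : ℝ) < x / (2 * ρ) + 1 := Nat.ceil_lt_add_one (by positivity)
  have h3 : (⌊Real.sqrt x / 4⌋₊ : ℝ) ≤ Real.sqrt x / 4 := Nat.floor_le (by positivity)
  have h4 : (⌈x / (2 * ρ)⌉₊ : ℝ) ≤ ℓ := by exact_mod_cast hℓ.1
  have h5 : (ℓ : ℝ) ≤ (⌈x / (2 * ρ)⌉₊ : ℝ) + (⌊Real.sqrt x / 4⌋₊ : ℝ) := by exact_mod_cast hℓ.2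
  have h6 : x ≤ 2 * ρ * ℓ := by
    have : x / (2 * ρ) ≤ ℓ := h1.trans h4
    rw [div_le_iff₀ hρ0] at this
    linarith
  have h7 : 2 * ρ * ℓ ≤ x + Real.sqrt x := by
    have h8 : (ℓ : ℝ) ≤ x / (2 * ρ) + 1 + Real.sqrt x / 4 := by linarith
    have h9 : 2 * ρ * ℓ ≤ 2 * ρ * (x / (2 * ρ) + 1 + Real.sqrt x / 4) :=
      mul_le_mul_of_nonneg_left h8 hρ0.le
    have h10 : 2 * ρ * (x / (2 * ρ) + 1 + Real.sqrt x / 4) = x + 2 * ρ + ρ * Real.sqrt x / 2 := by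
      field_simp
      ring
    rw [h10] at h9
    nlinarith
  refine ⟨?_, h6, h7, ?_⟩
  · by_contra hc
    have : ℓ = 0 := by omega
    rw [this] at h6
    simp at h6
    linarith
  · have : (ℓ : ℝ) ≤ 2 * ρ * ℓ := by
      have : (0 : ℝ) ≤ ℓ := Nat.cast_nonneg _
      nlinarith
    linarith

theorem Lam_card {ρ x : ℝ} : Real.sqrt x / 4 ≤ ((Lam ρ x).card : ℝ) := by
  unfold Lam kL
  rw [Nat.card_Icc]
  have h := (Nat.lt_floor_add_one (Real.sqrt x / 4)).le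
  refine h.trans ?_
  have : aL ρ x + ⌊Real.sqrt x / 4⌋₊ + 1 - aL ρ x = ⌊Real.sqrt x / 4⌋₊ + 1 := by omega
  rw [this]
  push_cast
  exact le_rfl

/-- the slice event -/
def Sl (x : ℝ) (n ℓ : ℕ) : Set (ℕ → ℝ) := {y | x < S y n (n + ℓ) ∧ S y n (n + ℓ) < x + 1}

theorem Sl_meas (x : ℝ) (n ℓ : ℕ) : MeasurableSet (Sl x n ℓ) :=
  (measurableSet_lt measurable_const (S_measurable _ _)).inter
    (measurableSet_lt (S_measurable _ _) measurable_const)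

theorem pdf_low {ρ x : ℝ} (hρ : 1 / 2 ≤ ρ) (hρ1 : ρ ≤ 1) (hx : 16 ≤ x) {ℓ : ℕ}
    (hℓ : ℓ ∈ Lam ρ x) {y : ℝ} (hy : y ∈ Set.Ioo x (x + 1)) :
    Real.exp (-ρ * x) / (72 * Real.sqrt x) ≤ gaussianPDFReal (-2 * ρ * ℓ) (4 * ℓ) y := by
  obtain ⟨h1, h2, h3, h4⟩ := Lam_facts hρ hρ1 hx hℓ
  have hℓ0 : (0 : ℝ) < ℓ := by exact_mod_cast h1
  have hs4 : 4 ≤ Real.sqrt x := by
    rw [show (4 : ℝ) = Real.sqrt 16 by
      rw [show (16 : ℝ) = 4 ^ 2 by norm_num, Real.sqrt_sq (by norm_num)]]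
    exact Real.sqrt_le_sqrt hx
  have hsq := Real.sq_sqrt (show 0 ≤ x by linarith)
  unfold gaussianPDFReal
  push_cast
  have e1 : Real.sqrt (2 * Real.pi * (4 * ℓ)) ≤ 8 * Real.sqrt x := by
    rw [show 8 * Real.sqrt x = Real.sqrt (64 * x) by
      rw [Real.sqrt_mul (by norm_num), show (64 : ℝ) = 8 ^ 2 by norm_num,
        Real.sqrt_sq (by norm_num)]]
    apply Real.sqrt_le_sqrt
    have := Real.pi_lt_four
    nlinarith
  have e1' : 0 < Real.sqrt (2 * Real.pi * (4 * ℓ)) := Real.sqrt_pos.2 (by positivity)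
  have e2 : Real.exp (-ρ * x) * (1 / 9) ≤
      Real.exp (-(y - -2 * ρ * ℓ) ^ 2 / (2 * (4 * ℓ))) := by
    have h5 : (1 : ℝ) / 9 ≤ Real.exp (-2) := by
      rw [Real.exp_neg, one_div]
      apply inv_anti₀ (Real.exp_pos _)
      have h6 : Real.exp 2 = Real.exp 1 * Real.exp 1 := by rw [← Real.exp_add]; norm_num
      have h7 := Real.exp_one_lt_d9
      have h8 := Real.exp_pos 1
      rw [h6]
      nlinarith
    calc Real.exp (-ρ * x) * (1 / 9) ≤ Real.exp (-ρ * x) * Real.exp (-2) :=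
          mul_le_mul_of_nonneg_left h5 (Real.exp_pos _).le
      _ = Real.exp (-ρ * x - 2) := by rw [← Real.exp_add]; congr 1
      _ ≤ _ := by
          apply Real.exp_le_exp.2
          rw [neg_div, le_neg, div_le_iff₀ (by positivity)]
          have hy1 := hy.1
          have hy2 := hy.2
          have h9 : (y - 2 * ρ * ℓ) ^ 2 ≤ x := by
            rw [← hsq]
            apply sq_le_sq'
            · linarith
            · linarith
          nlinarith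
  rw [div_le_iff₀ (by positivity)]
  have e3 : 0 < Real.exp (-ρ * x) := Real.exp_pos _
  have e4 : (1 : ℝ) ≤ (Real.sqrt (2 * Real.pi * (4 * ℓ)))⁻¹ * (8 * Real.sqrt x) := by
    rw [inv_mul_eq_div, le_div_iff₀ e1', one_mul]
    exact e1
  calc Real.exp (-ρ * x) = 9 * (Real.exp (-ρ * x) * (1 / 9)) * 1 := by ring
    _ ≤ 9 * Real.exp (-(y - -2 * ρ * ℓ) ^ 2 / (2 * (4 * ℓ))) *
        ((Real.sqrt (2 * Real.pi * (4 * ℓ)))⁻¹ * (8 * Real.sqrt x)) := by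
        apply mul_le_mul _ e4 (by norm_num) (by positivity)
        exact mul_le_mul_of_nonneg_left e2 (by norm_num)
    _ = _ := by ring

theorem Sl_low {ρ x : ℝ} (hρ : 1 / 2 ≤ ρ) (hρ1 : ρ ≤ 1) (hx : 16 ≤ x) (n : ℕ) {ℓ : ℕ}
    (hℓ : ℓ ∈ Lam ρ x) :
    Real.exp (-ρ * x) / (72 * Real.sqrt x) ≤ (Pg ρ).real (Sl x n ℓ) := by
  obtain ⟨h1, h2, h3, h4⟩ := Lam_facts hρ hρ1 hx hℓ
  have hv : (4 * ℓ : ℝ≥0) ≠ 0 := by
    have : (ℓ : ℝ≥0) ≠ 0 := by
      have : ℓ ≠ 0 := by omega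
      exact_mod_cast this
    positivity
  have e1 : (Pg ρ) (Sl x n ℓ) = gaussianReal (-2 * ρ * ℓ) (4 * ℓ) (Set.Ioo x (x + 1)) := by
    rw [← S_map ρ n ℓ, Measure.map_apply (S_measurable _ _) measurableSet_Ioo]
    rfl
  rw [measureReal_def, e1, gaussianReal_apply_eq_integral _ hv, ENNReal.toReal_ofReal
    (integral_nonneg fun _ => gaussianPDFReal_nonneg _ _ _)]
  have h5 : ∫ _ in Set.Ioo x (x + 1), Real.exp (-ρ * x) / (72 * Real.sqrt x) ≤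
      ∫ y in Set.Ioo x (x + 1), gaussianPDFReal (-2 * ρ * ℓ) (4 * ℓ) y := by
    apply setIntegral_mono_on
    · exact integrableOn_const (by simp)
    · exact (integrable_gaussianPDFReal _ _).integrableOn
    · exact measurableSet_Ioo
    · intro y hy
      exact pdf_low hρ hρ1 hx hℓ hy
  rw [setIntegral_const] at h5
  simpa using h5

theorem Sl_pair {ρ x : ℝ} (hρ : 1 / 2 ≤ ρ) (hρ1 : ρ ≤ 1) (n : ℕ) {ℓ ℓ' : ℕ} (hl : ℓ ≤ ℓ') :
    (Pg ρ).real (Sl x n ℓ ∩ Sl x n ℓ') ≤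
      2 * (Pg ρ).real (Sl x n ℓ) * Real.exp (-(1 / 8)) ^ (ℓ' - ℓ) := by
  set B : Set (ℕ → ℝ) := {y | -1 ≤ S y (n + ℓ) (n + ℓ')} with hB
  have hsub : Sl x n ℓ ∩ Sl x n ℓ' ⊆ Sl x n ℓ ∩ B := by
    rintro y ⟨h1, h2⟩
    refine ⟨h1, ?_⟩
    have h3 : S y n (n + ℓ') = S y n (n + ℓ) + S y (n + ℓ) (n + ℓ') := S_add y (by omega) (by omega)
    have h4 := h1.2
    have h5 := h2.1
    show -1 ≤ S y (n + ℓ) (n + ℓ')
    linarith
  have hind : (Pg ρ).real (Sl x n ℓ ∩ B) = (Pg ρ).real (Sl x n ℓ) * (Pg ρ).real B := by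
    refine real_inter (gam ρ) (s := Finset.Ioc n (n + ℓ)) (t := Finset.Ioc (n + ℓ) (n + ℓ'))
      (Finset.Ioc_disjoint_Ioc_of_le le_rfl) (Sl_meas _ _ _)
      (measurableSet_le measurable_const (S_measurable _ _)) ?_ ?_
    · intro y y' h
      have : S y n (n + ℓ) = S y' n (n + ℓ) := S_dep subset_rfl h
      show (x < S y n (n + ℓ) ∧ S y n (n + ℓ) < x + 1) ↔ (x < S y' n (n + ℓ) ∧ S y' n (n + ℓ) < x + 1)
      rw [this]
    · intro y y' h
      have : S y (n + ℓ) (n + ℓ') = S y' (n + ℓ) (n + ℓ') := S_dep subset_rfl h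
      show -1 ≤ S y (n + ℓ) (n + ℓ') ↔ -1 ≤ S y' (n + ℓ) (n + ℓ')
      rw [this]
  have hBle : (Pg ρ).real B ≤ 2 * Real.exp (-(1 / 8)) ^ (ℓ' - ℓ) := by
    have h1 := tail_half ρ (by linarith) (n + ℓ) (ℓ' - ℓ) (-1)
    rw [show n + ℓ + (ℓ' - ℓ) = n + ℓ' by omega] at h1
    refine h1.trans ?_
    have h2 : Real.exp (-(ρ / 2) * -1 - ρ ^ 2 / 2 * ((ℓ' - ℓ : ℕ) : ℝ)) ≤
        Real.exp (1 / 2) * Real.exp (-(1 / 8) * ((ℓ' - ℓ : ℕ) : ℝ)) := by
      rw [← Real.exp_add]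
      apply Real.exp_le_exp.2
      have h8 : (0 : ℝ) ≤ ((ℓ' - ℓ : ℕ) : ℝ) := Nat.cast_nonneg _
      have h9 : (1 : ℝ) / 4 ≤ ρ ^ 2 := by nlinarith
      have h10 : (1 : ℝ) / 4 * ((ℓ' - ℓ : ℕ) : ℝ) ≤ ρ ^ 2 * ((ℓ' - ℓ : ℕ) : ℝ) :=
        mul_le_mul_of_nonneg_right h9 h8
      linarith
    have h3 : Real.exp (1 / 2 : ℝ) ≤ 2 := by
      have h4 : Real.exp (1 / 2 : ℝ) ^ 2 = Real.exp 1 := by
        rw [← Real.exp_nat_mul]; norm_num
      have h5 := Real.exp_one_lt_d9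
      have h6 := Real.exp_pos (1 / 2 : ℝ)
      nlinarith
    have h7 : Real.exp (-(1 / 8) * ((ℓ' - ℓ : ℕ) : ℝ)) = Real.exp (-(1 / 8)) ^ (ℓ' - ℓ) := by
      rw [← Real.exp_nat_mul, mul_comm]
    rw [h7] at h2
    refine h2.trans ?_
    apply mul_le_mul_of_nonneg_right h3 (by positivity)
  calc (Pg ρ).real (Sl x n ℓ ∩ Sl x n ℓ') ≤ (Pg ρ).real (Sl x n ℓ ∩ B) := measureReal_mono hsub
    _ = (Pg ρ).real (Sl x n ℓ) * (Pg ρ).real B := hind
    _ ≤ (Pg ρ).real (Sl x n ℓ) * (2 * Real.exp (-(1 / 8)) ^ (ℓ' - ℓ)) :=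
        mul_le_mul_of_nonneg_left hBle measureReal_nonneg
    _ = _ := by ring

/-- lower bound on the probability of reaching level `x` -/
theorem Aop_ge {ρ x : ℝ} (hρ : 1 / 2 ≤ ρ) (hρ1 : ρ ≤ 1) (hx : 16 ≤ x) (n : ℕ) :
    Real.exp (-ρ * x) / 20736 ≤ (Pg ρ).real (Aop x (Lam ρ x) n) := by
  set Λ := Lam ρ x with hΛ
  set v := ∑ ℓ ∈ Λ, (Pg ρ).real (Sl x n ℓ) with hv
  have hsx : 0 < Real.sqrt x := Real.sqrt_pos.2 (by linarith)
  have hv1 : Real.exp (-ρ * x) / 288 ≤ v := by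
    have h1 : ∑ ℓ ∈ Λ, Real.exp (-ρ * x) / (72 * Real.sqrt x) ≤ v :=
      Finset.sum_le_sum fun ℓ hℓ => Sl_low hρ hρ1 hx n hℓ
    rw [Finset.sum_const, nsmul_eq_mul] at h1
    refine le_trans ?_ h1
    have h2 : Real.sqrt x / 4 ≤ (Λ.card : ℝ) := Lam_card
    calc Real.exp (-ρ * x) / 288 = Real.sqrt x / 4 * (Real.exp (-ρ * x) / (72 * Real.sqrt x)) := by
          field_simp
          ring
      _ ≤ _ := mul_le_mul_of_nonneg_right h2 (by positivity)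
  have hv0 : 0 < v := lt_of_lt_of_le (by positivity) hv1
  have hsm := second_moment (Pg ρ) Λ (fun ℓ => Sl x n ℓ) (fun ℓ _ => Sl_meas x n ℓ)
  have hU : (⋃ ℓ ∈ Λ, Sl x n ℓ) = Aop x Λ n := rfl
  rw [hU, ← hv] at hsm
  have hpair : ∑ i ∈ Λ, ∑ j ∈ Λ, (Pg ρ).real (Sl x n i ∩ Sl x n j) ≤ 72 * v := by
    have hq : 0 < Real.exp (-(1 / 8 : ℝ)) := Real.exp_pos _
    have h1 : ∀ i ∈ Λ, ∀ j ∈ Λ, (Pg ρ).real (Sl x n i ∩ Sl x n j) ≤
        2 * (Pg ρ).real (Sl x n i) * Real.exp (-(1 / 8)) ^ (dd i j) +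
        2 * (Pg ρ).real (Sl x n j) * Real.exp (-(1 / 8)) ^ (dd j i) := by
      intro i _ j _
      have p1 : 0 ≤ (Pg ρ).real (Sl x n i) := measureReal_nonneg
      have p2 : 0 ≤ (Pg ρ).real (Sl x n j) := measureReal_nonneg
      rcases le_total i j with hij | hij
      · have h2 := Sl_pair (x := x) hρ hρ1 n hij
        have h3 : dd i j = j - i := by unfold dd; omega
        rw [h3]
        have : 0 ≤ 2 * (Pg ρ).real (Sl x n j) * Real.exp (-(1 / 8)) ^ (dd j i) := by positivity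
        linarith
      · have h2 := Sl_pair (x := x) hρ hρ1 n hij
        rw [Set.inter_comm] at h2
        have h3 : dd j i = i - j := by unfold dd; omega
        rw [h3]
        have : 0 ≤ 2 * (Pg ρ).real (Sl x n i) * Real.exp (-(1 / 8)) ^ (dd i j) := by positivity
        linarith
    have h2 : ∑ i ∈ Λ, ∑ j ∈ Λ, (Pg ρ).real (Sl x n i ∩ Sl x n j) ≤
        ∑ i ∈ Λ, ∑ j ∈ Λ, (2 * (Pg ρ).real (Sl x n i) * Real.exp (-(1 / 8)) ^ (dd i j) +
        2 * (Pg ρ).real (Sl x n j) * Real.exp (-(1 / 8)) ^ (dd j i)) :=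
      Finset.sum_le_sum fun i hi => Finset.sum_le_sum fun j hj => h1 i hi j hj
    refine h2.trans ?_
    simp only [Finset.sum_add_distrib]
    have h3 : ∑ i ∈ Λ, ∑ j ∈ Λ, 2 * (Pg ρ).real (Sl x n j) * Real.exp (-(1 / 8)) ^ (dd j i) =
        ∑ i ∈ Λ, ∑ j ∈ Λ, 2 * (Pg ρ).real (Sl x n i) * Real.exp (-(1 / 8)) ^ (dd i j) := by
      rw [Finset.sum_comm]
    rw [h3]
    have h4 : ∑ i ∈ Λ, ∑ j ∈ Λ, 2 * (Pg ρ).real (Sl x n i) * Real.exp (-(1 / 8)) ^ (dd i j) ≤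
        ∑ i ∈ Λ, 36 * (Pg ρ).real (Sl x n i) := by
      refine Finset.sum_le_sum fun i _ => ?_
      rw [← Finset.mul_sum]
      have h5 := dd_sum Λ i
      have h6 : 0 ≤ 2 * (Pg ρ).real (Sl x n i) := by
        have : 0 ≤ (Pg ρ).real (Sl x n i) := measureReal_nonneg
        linarith
      calc _ ≤ 2 * (Pg ρ).real (Sl x n i) * 18 := mul_le_mul_of_nonneg_left h5 h6
        _ = _ := by ring
    rw [← Finset.mul_sum] at h4
    linarith
  have hA0 : 0 ≤ (Pg ρ).real (Aop x Λ n) := measureReal_nonneg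
  have h1 : v ^ 2 ≤ (Pg ρ).real (Aop x Λ n) * (72 * v) :=
    hsm.trans (mul_le_mul_of_nonneg_left hpair hA0)
  have h2 : v ≤ (Pg ρ).real (Aop x Λ n) * 72 := by
    have h3 : v * v ≤ ((Pg ρ).real (Aop x Λ n) * 72) * v := by nlinarith
    exact le_of_mul_le_mul_right h3 hv0
  linarith

end Pool.Agent.TH983
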