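import Pool.Agent.TH983.Det

/-!
# Lower bound on the renewal function

If `K` is a probability law on the positive integers with `K n ≤ C n^{-(1+α)}`, `0 < α < 1`, then
the renewal function satisfies `∑_{r ≤ R} u(r) ≥ c R^α`.
-/

set_option autoImplicit false
set_option maxHeartbeats 4000000
open MeasureTheory ProbabilityTheory Filter Topology
open scoped ENNReal NNReal

namespace Pool.Agent.TH983
open Cop764

/-- renewal function -/
noncomputable def U (K : ℕ → ℝ) (R : ℕ) : ℝ := ∑ r ∈ Finset.range (R + 1), u K r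

/-- tail of the gap law -/
noncomputable def T (K : ℕ → ℝ) (n : ℕ) : ℝ := 1 - ∑ k ∈ Finset.Icc 1 n, K k

theorem T_succ (K : ℕ → ℝ) (n : ℕ) : T K (n + 1) = T K n - K (n + 1) := by
  unfold T
  rw [Finset.sum_Icc_succ_top (by omega)]
  ring

theorem u_zero (K : ℕ → ℝ) : u K 0 = 1 := by
  unfold u
  rw [G_eq, if_pos rfl]

theorem u_succ (K : ℕ → ℝ) (n : ℕ) :
    u K (n + 1) = ∑ r ∈ Finset.range (n + 1), u K r * K (n + 1 - r) := by
  have h1 : u K (n + 1) = ∑ k ∈ Finset.Ioc 0 (n + 1), K k * u K (n + 1 - k) := by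
    conv_lhs => unfold u
    rw [G_eq, if_neg (by omega)]
    refine Finset.sum_congr rfl fun k hk => ?_
    rw [Finset.mem_Ioc] at hk
    have h2 : phi (fun _ => 0) 0 k = 1 := by unfold phi S; simp
    rw [h2, G_zero_shift K k (n + 1) hk.2]
    simp
  rw [h1]
  refine Finset.sum_bij' (fun k _ => n + 1 - k) (fun r _ => n + 1 - r) ?_ ?_ ?_ ?_ ?_
  · intro k hk
    rw [Finset.mem_Ioc] at hk
    rw [Finset.mem_range]
    omega
  · intro r hr
    rw [Finset.mem_range] at hr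
    rw [Finset.mem_Ioc]
    omega
  · intro k hk
    rw [Finset.mem_Ioc] at hk
    show n + 1 - (n + 1 - k) = k
    omega
  · intro r hr
    rw [Finset.mem_range] at hr
    show n + 1 - (n + 1 - r) = r
    omega
  · intro k hk
    rw [Finset.mem_Ioc] at hk
    rw [show n + 1 - (n + 1 - k) = k by omega]
    ring

theorem renewal_identity (K : ℕ → ℝ) : ∀ R : ℕ,
    ∑ r ∈ Finset.range (R + 1), u K r * T K (R - r) = 1 := by
  intro R
  induction R with
  | zero =>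
    simp [u_zero, T]
  | succ R ih =>
    rw [Finset.sum_range_succ]
    have h1 : ∑ r ∈ Finset.range (R + 1), u K r * T K (R + 1 - r) =
        ∑ r ∈ Finset.range (R + 1), u K r * T K (R - r) -
        ∑ r ∈ Finset.range (R + 1), u K r * K (R + 1 - r) := by
      rw [← Finset.sum_sub_distrib]
      refine Finset.sum_congr rfl fun r hr => ?_
      rw [Finset.mem_range] at hr
      have h2 := T_succ K (R - r)
      rw [show R - r + 1 = R + 1 - r by omega] at h2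
      rw [h2]
      ring
    have h3 : T K (R + 1 - (R + 1)) = 1 := by simp [T]
    rw [h1, ih, ← u_succ, h3]
    ring

theorem U_mul_ge {K : ℕ → ℝ} (hK : ∀ n, 0 ≤ K n) (hT : ∀ n, 0 ≤ T K n) (R : ℕ) :
    ((R + 1 : ℕ) : ℝ) ≤ U K R * ∑ j ∈ Finset.range (R + 1), T K j := by
  have h1 : ((R + 1 : ℕ) : ℝ) = ∑ R' ∈ Finset.range (R + 1),
      ∑ r ∈ Finset.range (R' + 1), u K r * T K (R' - r) := by
    rw [Finset.sum_congr rfl fun R' _ => renewal_identity K R']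
    simp
  have h2 : ∀ R' ∈ Finset.range (R + 1), ∑ r ∈ Finset.range (R' + 1), u K r * T K (R' - r) =
      ∑ r ∈ Finset.range (R + 1), if r ≤ R' then u K r * T K (R' - r) else 0 := by
    intro R' hR'
    rw [Finset.mem_range] at hR'
    rw [← Finset.sum_filter]
    apply Finset.sum_congr _ fun _ _ => rfl
    ext r
    simp only [Finset.mem_range, Finset.mem_filter]
    omega
  rw [h1, Finset.sum_congr rfl h2, Finset.sum_comm]
  unfold U
  rw [Finset.sum_mul]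
  refine Finset.sum_le_sum fun r hr => ?_
  rw [Finset.mem_range] at hr
  rw [← Finset.sum_filter]
  have h3 : (Finset.range (R + 1)).filter (fun R' => r ≤ R') = Finset.Ico r (R + 1) := by
    ext x
    simp only [Finset.mem_filter, Finset.mem_range, Finset.mem_Ico]
    omega
  rw [h3, Finset.sum_Ico_eq_sum_range, ← Finset.mul_sum]
  apply mul_le_mul_of_nonneg_left _ (u_nonneg hK r)
  calc ∑ i ∈ Finset.range (R + 1 - r), T K (r + i - r)
      = ∑ i ∈ Finset.range (R + 1 - r), T K i := by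
        refine Finset.sum_congr rfl fun i _ => ?_
        rw [Nat.add_sub_cancel_left]
    _ ≤ ∑ i ∈ Finset.range (R + 1), T K i := by
        apply Finset.sum_le_sum_of_subset_of_nonneg
        · intro x hx
          rw [Finset.mem_range] at hx ⊢
          omega
        · intro i _ _
          exact hT i

theorem telescope1 {α : ℝ} (hα : 0 < α) (k : ℕ) (hk : 1 ≤ k) :
    α * ((k + 1 : ℕ) : ℝ) ^ (-(1 + α)) ≤ (k : ℝ) ^ (-α) - ((k + 1 : ℕ) : ℝ) ^ (-α) := by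
  have hk0 : (0 : ℝ) < k := by exact_mod_cast hk
  have hk1 : (0 : ℝ) < ((k + 1 : ℕ) : ℝ) := by positivity
  set y : ℝ := ((k + 1 : ℕ) : ℝ) with hy
  have hyk : (k : ℝ) = y * (1 - y⁻¹) := by
    rw [mul_sub, mul_one, mul_inv_cancel₀ hk1.ne', hy]
    push_cast
    ring
  have hy1 : 0 < 1 - y⁻¹ := by
    have : 0 < y * (1 - y⁻¹) := by rw [← hyk]; exact hk0
    exact (pos_iff_pos_of_mul_pos this).1 hk1
  have h1 : 1 + α * y⁻¹ ≤ (1 - y⁻¹) ^ (-α) := by
    rw [Real.rpow_def_of_pos hy1]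
    have h2 : Real.log (1 - y⁻¹) ≤ - y⁻¹ := by
      have := Real.log_le_sub_one_of_pos hy1
      linarith
    have h3 : α * y⁻¹ ≤ Real.log (1 - y⁻¹) * -α := by nlinarith
    have h4 := Real.add_one_le_exp (Real.log (1 - y⁻¹) * -α)
    linarith
  rw [hyk, Real.mul_rpow hk1.le hy1.le]
  have h5 : y ^ (-(1 + α)) = y ^ (-α) * y⁻¹ := by
    rw [show -(1 + α) = -α + (-1) by ring, Real.rpow_add hk1, Real.rpow_neg_one]
  rw [h5]
  have h6 : 0 < y ^ (-α) := Real.rpow_pos_of_pos hk1 _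
  nlinarith

theorem telescope2 {α : ℝ} (hα : 0 < α) (hα1 : α < 1) (k : ℕ) :
    (1 - α) * ((k + 1 : ℕ) : ℝ) ^ (-α) ≤ ((k + 1 : ℕ) : ℝ) ^ (1 - α) - (k : ℝ) ^ (1 - α) := by
  have hk1 : (0 : ℝ) < ((k + 1 : ℕ) : ℝ) := by positivity
  set y : ℝ := ((k + 1 : ℕ) : ℝ) with hy
  have hyk : (k : ℝ) = y * (1 + -y⁻¹) := by
    rw [mul_add, mul_one, mul_neg, mul_inv_cancel₀ hk1.ne', hy]
    push_cast
    ring
  have hyinv : y⁻¹ ≤ 1 := inv_le_one_of_one_le₀ (by rw [hy]; push_cast; linarith [Nat.cast_nonneg (α := ℝ) k])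
  have h1 : (1 + -y⁻¹) ^ (1 - α) ≤ 1 + (1 - α) * (-y⁻¹) :=
    rpow_one_add_le_one_add_mul_self (by linarith) (by linarith) (by linarith)
  rw [hyk, Real.mul_rpow hk1.le (by linarith)]
  have h5 : y ^ (-α) = y ^ (1 - α) * y⁻¹ := by
    rw [show -α = (1 - α) + (-1) by ring, Real.rpow_add hk1, Real.rpow_neg_one]
  rw [h5]
  have h6 : 0 < y ^ (1 - α) := Real.rpow_pos_of_pos hk1 _
  nlinarith

theorem sum_tail1 {α : ℝ} (hα : 0 < α) (n : ℕ) (hn : 1 ≤ n) : ∀ m : ℕ, n ≤ m →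
    ∑ k ∈ Finset.Ioc n m, (k : ℝ) ^ (-(1 + α)) ≤ α⁻¹ * ((n : ℝ) ^ (-α) - (m : ℝ) ^ (-α)) := by
  intro m hm
  induction m, hm using Nat.le_induction with
  | base => simp
  | succ m hm ih =>
    rw [← Finset.insert_Ioc_right_eq_Ioc_add_one (by omega : n ≤ m), Finset.sum_insert (by simp)]
    have h := telescope1 hα m (by omega)
    have h2 : ((m + 1 : ℕ) : ℝ) ^ (-(1 + α)) ≤
        α⁻¹ * ((m : ℝ) ^ (-α) - ((m + 1 : ℕ) : ℝ) ^ (-α)) := by
      rw [inv_mul_eq_div, le_div_iff₀ hα]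
      linarith
    calc _ ≤ α⁻¹ * ((m : ℝ) ^ (-α) - ((m + 1 : ℕ) : ℝ) ^ (-α)) +
        α⁻¹ * ((n : ℝ) ^ (-α) - (m : ℝ) ^ (-α)) := add_le_add h2 ih
      _ = _ := by ring

theorem sum_tail2 {α : ℝ} (hα : 0 < α) (hα1 : α < 1) (R : ℕ) :
    ∑ k ∈ Finset.range R, ((k + 1 : ℕ) : ℝ) ^ (-α) ≤ (1 - α)⁻¹ * (R : ℝ) ^ (1 - α) := by
  induction R with
  | zero =>
    simp only [Finset.range_zero, Finset.sum_empty, Nat.cast_zero]
    rw [Real.zero_rpow (by linarith)]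
    simp
  | succ R ih =>
    rw [Finset.sum_range_succ]
    have h := telescope2 hα hα1 R
    have h1 : 0 < 1 - α := by linarith
    have h2 : ((R + 1 : ℕ) : ℝ) ^ (-α) ≤
        (1 - α)⁻¹ * (((R + 1 : ℕ) : ℝ) ^ (1 - α) - (R : ℝ) ^ (1 - α)) := by
      rw [inv_mul_eq_div, le_div_iff₀ h1]
      linarith
    calc _ ≤ (1 - α)⁻¹ * (R : ℝ) ^ (1 - α) +
        (1 - α)⁻¹ * (((R + 1 : ℕ) : ℝ) ^ (1 - α) - (R : ℝ) ^ (1 - α)) := add_le_add ih h2
      _ = _ := by ring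

/-- lower bound on the renewal function -/
theorem U_ge {K : ℕ → ℝ} (hK : ∀ n, 0 ≤ K n) (hK0 : K 0 = 0) (hsum : HasSum K 1) {α C : ℝ}
    (hα : 0 < α) (hα1 : α < 1) (hC : ∀ n : ℕ, 1 ≤ n → K n ≤ C * (n : ℝ) ^ (-(1 + α))) :
    ∃ c : ℝ, 0 < c ∧ ∀ R : ℕ, 1 ≤ R → c * (R : ℝ) ^ α ≤ U K R := by
  have hC0 : 0 ≤ C := by
    have h1 := hC 1 le_rfl
    have h2 := hK 1
    simp at h1
    linarith
  have hpart : ∀ n : ℕ, ∑ k ∈ Finset.Icc 1 n, K k = ∑ k ∈ Finset.range (n + 1), K k := by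
    intro n
    rw [Finset.range_eq_Ico, Finset.sum_eq_sum_Ico_succ_bot (by omega), hK0, zero_add]
    rfl
  have hTn : ∀ n, 0 ≤ T K n := by
    intro n
    unfold T
    rw [hpart]
    have := sum_le_hasSum (Finset.range (n + 1)) (fun i _ => hK i) hsum
    linarith
  have hTle : ∀ n : ℕ, 1 ≤ n → T K n ≤ C * α⁻¹ * (n : ℝ) ^ (-α) := by
    intro n hn
    have hlim : Tendsto (fun m : ℕ => ∑ k ∈ Finset.range (m + 1), K k -
        ∑ k ∈ Finset.range (n + 1), K k) atTop (𝓝 (1 - ∑ k ∈ Finset.range (n + 1), K k)) :=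
      ((tendsto_add_atTop_iff_nat 1).2 hsum.tendsto_sum_nat).sub_const _
    have : T K n = 1 - ∑ k ∈ Finset.range (n + 1), K k := by unfold T; rw [hpart]
    rw [this]
    refine le_of_tendsto hlim ?_
    filter_upwards [eventually_ge_atTop n] with m hm
    have h1 : ∑ k ∈ Finset.range (m + 1), K k - ∑ k ∈ Finset.range (n + 1), K k =
        ∑ k ∈ Finset.Ioc n m, K k := by
      rw [← hpart, ← hpart, sub_eq_iff_eq_add]
      rw [show Finset.Icc 1 m = Finset.Ioc 0 m from rfl, show Finset.Icc 1 n = Finset.Ioc 0 n from rfl,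
        ← Finset.Ioc_union_Ioc_eq_Ioc (Nat.zero_le n) hm,
        Finset.sum_union (Finset.Ioc_disjoint_Ioc_of_le le_rfl), add_comm]
    rw [h1]
    have h2 : ∑ k ∈ Finset.Ioc n m, K k ≤ ∑ k ∈ Finset.Ioc n m, C * (k : ℝ) ^ (-(1 + α)) := by
      refine Finset.sum_le_sum fun k hk => ?_
      rw [Finset.mem_Ioc] at hk
      exact hC k (by omega)
    rw [← Finset.mul_sum] at h2
    have h3 := sum_tail1 hα n hn m hm
    have h4 : 0 ≤ (m : ℝ) ^ (-α) := Real.rpow_nonneg (Nat.cast_nonneg _) _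
    calc _ ≤ C * ∑ k ∈ Finset.Ioc n m, (k : ℝ) ^ (-(1 + α)) := h2
      _ ≤ C * (α⁻¹ * ((n : ℝ) ^ (-α) - (m : ℝ) ^ (-α))) := mul_le_mul_of_nonneg_left h3 hC0
      _ ≤ C * (α⁻¹ * ((n : ℝ) ^ (-α))) := by
          apply mul_le_mul_of_nonneg_left _ hC0
          apply mul_le_mul_of_nonneg_left _ (inv_nonneg.2 hα.le)
          linarith
      _ = _ := by ring
  set C2 : ℝ := 1 + C * α⁻¹ * (1 - α)⁻¹ with hC2
  have h1α : 0 < 1 - α := by linarith
  have hC2pos : 0 < C2 := by positivity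
  refine ⟨C2⁻¹, by positivity, fun R hR => ?_⟩
  have hR0 : (0 : ℝ) < R := by exact_mod_cast hR
  have hsumT : ∑ j ∈ Finset.range (R + 1), T K j ≤ C2 * (R : ℝ) ^ (1 - α) := by
    rw [Finset.sum_range_succ']
    have h0 : T K 0 = 1 := by simp [T]
    rw [h0]
    have h1 : ∑ k ∈ Finset.range R, T K (k + 1) ≤
        ∑ k ∈ Finset.range R, C * α⁻¹ * ((k + 1 : ℕ) : ℝ) ^ (-α) :=
      Finset.sum_le_sum fun k _ => hTle (k + 1) (by omega)
    rw [← Finset.mul_sum] at h1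
    have h2 := sum_tail2 hα hα1 R
    have h3 : (1 : ℝ) ≤ (R : ℝ) ^ (1 - α) := Real.one_le_rpow (by exact_mod_cast hR) h1α.le
    have h4 : 0 ≤ C * α⁻¹ := by positivity
    calc _ ≤ C * α⁻¹ * ((1 - α)⁻¹ * (R : ℝ) ^ (1 - α)) + (R : ℝ) ^ (1 - α) :=
          add_le_add (h1.trans (mul_le_mul_of_nonneg_left h2 h4)) h3
      _ = _ := by rw [hC2]; ring
  have hmain := U_mul_ge hK hTn R
  have hU0 : 0 ≤ U K R := Finset.sum_nonneg fun r _ => u_nonneg hK r
  have h5 : (R : ℝ) ≤ U K R * (C2 * (R : ℝ) ^ (1 - α)) := by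
    refine le_trans ?_ (hmain.trans (mul_le_mul_of_nonneg_left hsumT hU0))
    push_cast
    linarith
  have h6 : (R : ℝ) = (R : ℝ) ^ α * (R : ℝ) ^ (1 - α) := by
    rw [← Real.rpow_add hR0]
    simp
  have h7 : 0 < (R : ℝ) ^ (1 - α) := Real.rpow_pos_of_pos hR0 _
  rw [inv_mul_le_iff₀ hC2pos]
  have h8 : (R : ℝ) ^ α * (R : ℝ) ^ (1 - α) ≤ (C2 * U K R) * (R : ℝ) ^ (1 - α) := by
    rw [← h6]
    calc (R : ℝ) ≤ _ := h5
      _ = _ := by ring
  exact le_of_mul_le_mul_right h8 h7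

end Pool.Agent.TH983
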