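import Pool.Agent.TH983.Transfer2

/-!
# Transfer of block events from the Gaussian walk to the disorder as `λ → 0`
-/

set_option autoImplicit false
set_option maxHeartbeats 4000000
open MeasureTheory ProbabilityTheory Filter Topology
open scoped ENNReal NNReal

namespace Pool.Agent.TH983
open Cop764

/-- extension by zero of a finite block vector -/
noncomputable def ext0 (N : ℕ) (v : Fin N → ℝ) : ℕ → ℝ := fun n => if h : n < N then v ⟨n, h⟩ else 0

theorem ext0_cont (N : ℕ) : Continuous (ext0 N) := by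
  refine continuous_pi fun n => ?_
  unfold ext0
  by_cases h : n < N
  · simp only [h, dif_pos]
    exact continuous_apply _
  · simp only [h, dif_neg, not_false_eq_true]
    exact continuous_const

/-- dependence on the first `N` coordinates -/
def DepN (N : ℕ) (A : Set (ℕ → ℝ)) : Prop :=
  ∀ y y' : ℕ → ℝ, (∀ n < N, y n = y' n) → (y ∈ A ↔ y' ∈ A)

theorem dep_ext {N : ℕ} {A : Set (ℕ → ℝ)} (hA : DepN N A) (y : ℕ → ℝ) :
    y ∈ A ↔ (fun k : Fin N => y k) ∈ ext0 N ⁻¹' A := by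
  rw [Set.mem_preimage]
  apply hA
  intro n hn
  unfold ext0
  simp [hn]

theorem gauss_pi (ρ : ℝ) (N : ℕ) :
    (Pg ρ).map (fun (y : ℕ → ℝ) (k : Fin N) => y k) = Measure.pi (fun _ : Fin N => gam ρ) := by
  have hI : iIndepFun (fun (k : Fin N) (y : ℕ → ℝ) => y (k : ℕ)) (Pg ρ) := by
    have h1 : iIndepFun (fun (i : ℕ) (ω : ℕ → ℝ) => ω i) (Pg ρ) := by
      unfold Pg disorder
      exact iIndepFun_infinitePi (X := fun _ (x : ℝ) => x) (fun _ => measurable_id)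
    exact h1.precomp (g := fun k : Fin N => (k : ℕ)) Fin.val_injective
  rw [hI.map_fun_eq_pi_map (fun k => (measurable_pi_apply _).aemeasurable)]
  congr 1
  funext k
  exact pg_eval ρ _

theorem gauss_eq (ρ : ℝ) {N : ℕ} {A : Set (ℕ → ℝ)} (hA : DepN N A) (hm : MeasurableSet A) :
    (Pg ρ) A = (ProbabilityMeasure.pi (fun _ : Fin N => gamP ρ) : Measure (Fin N → ℝ))
      (ext0 N ⁻¹' A) := by
  have h1 : (ProbabilityMeasure.pi (fun _ : Fin N => gamP ρ) : Measure (Fin N → ℝ)) =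
      Measure.pi (fun _ : Fin N => gam ρ) := rfl
  rw [h1, ← gauss_pi, Measure.map_apply (by fun_prop) ((ext0_cont N).measurable hm)]
  congr 1
  ext y
  exact dep_ext hA y

theorem block_eq (ν : Measure ℝ) [IsProbabilityMeasure ν] (ρ lam : ℝ) {N : ℕ} {A : Set (ℕ → ℝ)}
    (hA : DepN N A) (hm : MeasurableSet A) :
    (disorder ν) {ω | Yb (wt lam (ρ * lam) ω) (Lb lam) ∈ A} =
      (ProbabilityMeasure.pi (fun _ : Fin N => muP ν ρ lam) : Measure (Fin N → ℝ))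
      (ext0 N ⁻¹' A) := by
  have h1 : (ProbabilityMeasure.pi (fun _ : Fin N => muP ν ρ lam) : Measure (Fin N → ℝ)) =
      Measure.pi (fun _ : Fin N => (disorder ν).map
        (fun ω => Yb (wt lam (ρ * lam) ω) (Lb lam) 0)) := rfl
  rw [h1, ← blocks_pi, Measure.map_apply
    (measurable_pi_iff.2 fun k => Yb_meas _ _ _ _) ((ext0_cont N).measurable hm)]
  congr 1
  ext ω
  exact dep_ext hA _

theorem pi_tendsto (ν : Measure ℝ) [IsProbabilityMeasure ν] (hmean : ∫ x, x ∂ν = 0)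
    (hvar : ∫ x, x ^ 2 ∂ν = 1) (ρ : ℝ) (N : ℕ) :
    Tendsto (fun lam => ProbabilityMeasure.pi (fun _ : Fin N => muP ν ρ lam)) (𝓝[>] 0)
      (𝓝 (ProbabilityMeasure.pi (fun _ : Fin N => gamP ρ))) := by
  have h1 : Tendsto (fun lam => fun _ : Fin N => muP ν ρ lam) (𝓝[>] 0)
      (𝓝 (fun _ : Fin N => gamP ρ)) := tendsto_pi_nhds.2 fun _ => clt_block ν hmean hvar ρ
  exact (ProbabilityMeasure.continuous_pi.tendsto _).comp h1

theorem transfer_closed (ν : Measure ℝ) [IsProbabilityMeasure ν] (hmean : ∫ x, x ∂ν = 0)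
    (hvar : ∫ x, x ^ 2 ∂ν = 1) (ρ : ℝ) {N : ℕ} {A : Set (ℕ → ℝ)} (hA : DepN N A)
    (hcl : IsClosed A) {t : ℝ} (ht : (Pg ρ).real A < t) :
    ∀ᶠ lam in 𝓝[>] (0 : ℝ),
      (disorder ν).real {ω | Yb (wt lam (ρ * lam) ω) (Lb lam) ∈ A} < t := by
  have ht0 : 0 < t := lt_of_le_of_lt measureReal_nonneg ht
  have h1 := ProbabilityMeasure.limsup_measure_closed_le_of_tendsto (pi_tendsto ν hmean hvar ρ N)
    (hcl.preimage (ext0_cont N))
  rw [← gauss_eq ρ hA hcl.measurableSet] at h1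
  have h2 : (Pg ρ) A < ENNReal.ofReal t := by
    rw [measureReal_def] at ht
    rwa [ENNReal.lt_ofReal_iff_toReal_lt (measure_ne_top _ _)]
  have h3 := eventually_lt_of_limsup_lt (lt_of_le_of_lt h1 h2)
  filter_upwards [h3] with lam hlam
  rw [← block_eq ν ρ lam hA hcl.measurableSet] at hlam
  rwa [measureReal_def, ← ENNReal.lt_ofReal_iff_toReal_lt (measure_ne_top _ _)]

theorem transfer_open (ν : Measure ℝ) [IsProbabilityMeasure ν] (hmean : ∫ x, x ∂ν = 0)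
    (hvar : ∫ x, x ^ 2 ∂ν = 1) (ρ : ℝ) {N : ℕ} {A : Set (ℕ → ℝ)} (hA : DepN N A)
    (hop : IsOpen A) {t : ℝ} (ht : t < (Pg ρ).real A) :
    ∀ᶠ lam in 𝓝[>] (0 : ℝ),
      t < (disorder ν).real {ω | Yb (wt lam (ρ * lam) ω) (Lb lam) ∈ A} := by
  have hAc : DepN N Aᶜ := by
    intro y y' h
    rw [Set.mem_compl_iff, Set.mem_compl_iff, hA y y' h]
  have h1 : (Pg ρ).real Aᶜ < 1 - t := by
    rw [probReal_compl_eq_one_sub hop.measurableSet]
    linarith
  filter_upwards [transfer_closed ν hmean hvar ρ hAc hop.isClosed_compl h1] with lam hlam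
  have hm : MeasurableSet {ω | Yb (wt lam (ρ * lam) ω) (Lb lam) ∈ A} := by
    have hY : Measurable (fun ω => Yb (wt lam (ρ * lam) ω) (Lb lam)) :=
      measurable_pi_iff.2 fun k => Yb_meas _ _ _ _
    exact hY hop.measurableSet
  have e : {ω | Yb (wt lam (ρ * lam) ω) (Lb lam) ∈ Aᶜ} =
      {ω | Yb (wt lam (ρ * lam) ω) (Lb lam) ∈ A}ᶜ := rfl
  rw [e, probReal_compl_eq_one_sub hm] at hlam
  linarith

theorem S_cont (i j : ℕ) : Continuous (fun y : ℕ → ℝ => S y i j) := by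
  unfold S
  exact continuous_finsetSum _ fun n _ => continuous_apply n

theorem Acl_closed (x : ℝ) (Λ : Finset ℕ) (n : ℕ) : IsClosed (Acl x Λ n) := by
  have : Acl x Λ n = ⋃ ℓ ∈ Λ, {y | x ≤ S y n (n + ℓ)} := by
    ext y
    simp [Acl]
  rw [this]
  exact isClosed_biUnion_finset fun ℓ _ => isClosed_le continuous_const (S_cont _ _)

theorem Aop_open (x : ℝ) (Λ : Finset ℕ) (n : ℕ) : IsOpen (Aop x Λ n) := by
  unfold Aop
  refine isOpen_biUnion fun ℓ _ => ?_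
  exact (isOpen_lt continuous_const (S_cont _ _)).inter (isOpen_lt (S_cont _ _) continuous_const)

theorem Aop_sub_Acl (x : ℝ) (Λ : Finset ℕ) (n : ℕ) : Aop x Λ n ⊆ Acl x Λ n := by
  intro y hy
  unfold Aop at hy
  simp only [Set.mem_iUnion, Set.mem_ofPred_eq] at hy
  obtain ⟨ℓ, hℓ, h1, _⟩ := hy
  exact ⟨ℓ, hℓ, h1.le⟩

theorem Acl_depN (x : ℝ) {Λ : Finset ℕ} {R : ℕ} (hΛ : Λ ⊆ Finset.Icc 1 R) {n N : ℕ}
    (hN : n + R < N) : DepN N (Acl x Λ n) := by
  intro y y' h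
  apply Acl_dep x hΛ n
  intro k hk
  rw [Finset.mem_Ioc] at hk
  exact h k (by omega)

theorem Aop_depN (x : ℝ) {Λ : Finset ℕ} {R : ℕ} (hΛ : Λ ⊆ Finset.Icc 1 R) {n N : ℕ}
    (hN : n + R < N) : DepN N (Aop x Λ n) := by
  intro y y' h
  have : ∀ ℓ ∈ Λ, S y n (n + ℓ) = S y' n (n + ℓ) := by
    intro ℓ hℓ
    have h1 := Finset.mem_Icc.1 (hΛ hℓ)
    unfold S
    refine Finset.sum_congr rfl fun k hk => ?_
    rw [Finset.mem_Ioc] at hk
    exact h k (by omega)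
  unfold Aop
  simp only [Set.mem_iUnion, Set.mem_ofPred_eq]
  constructor
  · rintro ⟨ℓ, hℓ, h1⟩
    exact ⟨ℓ, hℓ, by rw [← this ℓ hℓ]; exact h1⟩
  · rintro ⟨ℓ, hℓ, h1⟩
    exact ⟨ℓ, hℓ, by rw [this ℓ hℓ]; exact h1⟩

end Pool.Agent.TH983
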