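import Pool.Agent.TH983.Blocks
import Pool.Agent.TH983.Renewal
import Pool.Agent.TH983.Transfer3
import Pool.Agent.Helper764.Cop_K

/-!
# Setup of the blocks and the gain of one cycle
-/

set_option autoImplicit false
set_option maxHeartbeats 4000000
open MeasureTheory ProbabilityTheory Filter Topology
open scoped ENNReal NNReal

namespace Pool.Agent.TH983
open Cop764

/-- change of the coupling parameter -/
noncomputable def Dat (D : Data) (lam : ℝ) (hlam : 0 < lam) : Data :=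
  { D with lam := lam, hlam := hlam }

/-- contact window -/
noncomputable def qb (lam : ℝ) : ℕ := Lb lam / 4

theorem Lb_large (m : ℕ) : ∀ᶠ lam in 𝓝[>] (0 : ℝ), m ≤ Lb lam :=
  Lb_tendsto.eventually_ge_atTop m

theorem blk_ev (D : Data) {c0 : ℝ} {n0 : ℕ} (hK : KHyp D.K D.α c0 n0) {ρ : ℝ} (h0 : 0 ≤ ρ)
    (h1 : ρ ≤ 1) : ∀ᶠ lam in 𝓝[>] (0 : ℝ), ∀ hlam : 0 < lam,
      Blk (Dat D lam hlam) c0 n0 (ρ * lam) (Lb lam) (qb lam) := by
  filter_upwards [Lb_large (2 * n0 + 4)] with lam hL hlam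
  refine ⟨hK, ?_, ?_, ?_, ?_, ?_⟩
  · positivity
  · show ρ * lam ≤ lam
    nlinarith
  · exact Lb_le hlam
  · unfold qb; omega
  · unfold qb; omega

theorem Wt_ge (D : Data) (hα1 : D.α < 1) : ∃ C0 : ℝ, 0 ≤ C0 ∧ ∀ L : ℕ, 8 ≤ L →
    (1 + D.α) * Real.log L - C0 ≤ Real.log (Wt D.K (L / 4)) := by
  have hα := D.hα
  have hKn : ∀ n, 0 ≤ D.K n := fun n => ENNReal.toReal_nonneg
  have hK0 : D.K 0 = 0 := by simp [Data.K, D.κ0]
  have hsum : HasSum D.K 1 := by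
    have h1 : Summable (fun n => (D.κ n).toReal) :=
      ENNReal.summable_toReal (by rw [D.κ.tsum_coe]; exact ENNReal.one_ne_top)
    have h2 : ∑' n, (D.κ n).toReal = 1 := by
      rw [← ENNReal.tsum_toReal_eq (fun n => D.κ.apply_ne_top n), D.κ.tsum_coe]
      simp
    have := h1.hasSum
    rw [h2] at this
    exact this
  obtain ⟨C, hC⟩ : ∃ C : ℝ, ∀ n : ℕ, 1 ≤ n → D.K n ≤ C * (n : ℝ) ^ (-(1 + D.α)) := by
    obtain ⟨C, hC⟩ := (D.htail.bddAbove_range)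
    refine ⟨C, fun n hn => ?_⟩
    have h1 : (n : ℝ) ^ (1 + D.α) * (D.κ n).toReal ≤ C := hC (Set.mem_range_self n)
    have hn0 : (0 : ℝ) < n := by exact_mod_cast hn
    have hx : (0 : ℝ) < (n : ℝ) ^ (1 + D.α) := Real.rpow_pos_of_pos hn0 _
    rw [Real.rpow_neg hn0.le, ← div_eq_mul_inv, le_div_iff₀ hx]
    show (D.κ n).toReal * _ ≤ C
    linarith
  obtain ⟨c, hc, hU⟩ := U_ge hKn hK0 hsum hα hα1 hC
  refine ⟨|(1 + D.α) * Real.log 8 - Real.log c|, abs_nonneg _, fun L hL => ?_⟩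
  have hq : 1 ≤ L / 4 := by omega
  have hq0 : (0 : ℝ) < ((L / 4 : ℕ) : ℝ) := by exact_mod_cast hq
  have hL0 : (0 : ℝ) < L := by exact_mod_cast (show 0 < L by omega)
  have h1 := hU (L / 4) hq
  have h2 : (L : ℝ) / 8 ≤ ((L / 4 : ℕ) : ℝ) := by
    rw [div_le_iff₀ (by norm_num)]
    exact_mod_cast (show L ≤ L / 4 * 8 by omega)
  have h3 : ((L / 4 : ℕ) : ℝ) * (c * ((L / 4 : ℕ) : ℝ) ^ D.α) ≤ Wt D.K (L / 4) := by
    unfold Wt
    exact mul_le_mul_of_nonneg_left h1 hq0.le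
  have h4 : ((L / 4 : ℕ) : ℝ) * (c * ((L / 4 : ℕ) : ℝ) ^ D.α) = c * ((L / 4 : ℕ) : ℝ) ^ (1 + D.α) := by
    rw [Real.rpow_add hq0, Real.rpow_one]
    ring
  rw [h4] at h3
  have h5 : Real.log (c * ((L / 4 : ℕ) : ℝ) ^ (1 + D.α)) ≤ Real.log (Wt D.K (L / 4)) :=
    Real.log_le_log (by positivity) h3
  rw [Real.log_mul hc.ne' (Real.rpow_pos_of_pos hq0 _).ne', Real.log_rpow hq0] at h5
  have h6 : Real.log ((L : ℝ) / 8) ≤ Real.log ((L / 4 : ℕ) : ℝ) :=
    Real.log_le_log (by positivity) h2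
  rw [Real.log_div hL0.ne' (by norm_num)] at h6
  have h7 : (1 + D.α) * (Real.log L - Real.log 8) ≤ (1 + D.α) * Real.log ((L / 4 : ℕ) : ℝ) :=
    mul_le_mul_of_nonneg_left h6 (by linarith)
  have h8 := le_abs_self ((1 + D.α) * Real.log 8 - Real.log c)
  linarith

theorem log_kap {c0 α : ℝ} (hc : 0 < c0) {L : ℕ} (hL : 0 < L) (d : ℕ) :
    Real.log (kap c0 α L d / 2) =
      Real.log (c0 / 2) - (1 + α) * (Real.log ((d + 1 : ℕ) : ℝ) + Real.log L) := by
  have hL0 : (0 : ℝ) < L := by exact_mod_cast hL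
  have hd : (0 : ℝ) < ((d + 1 : ℕ) : ℝ) := by positivity
  unfold kap
  rw [mul_div_right_comm, Real.log_mul (by positivity) (by positivity),
    Real.log_rpow (by positivity), Real.log_mul hd.ne' hL0.ne']
  ring

/-- gain of a cycle leaving block `0`, using the stretch between the blocks `n < e` -/
noncomputable def Wg (K : ℕ → ℝ) (c0 α : ℝ) (L q : ℕ) (w : ℕ → ℝ) (n e : ℕ) : ℝ :=
  2 * Real.log (c0 / 2) - (1 + α) * (Real.log ((n + 1 : ℕ) : ℝ) + Real.log ((e - n + 1 : ℕ) : ℝ))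
    - 2 * (1 + α) * Real.log L + (Real.log (Wt K q) - 9 / 2) + Real.log (Bmi K w L q n)
    + S w ((n + 1) * L) (e * L)

variable {D : Data} {c0 : ℝ} {n0 : ℕ} {h : ℝ} {L q : ℕ}

theorem cycle (B : Blk D c0 n0 h L q) {n e M : ℕ} (hn : 1 ≤ n) (hne : n < e)
    (hM : e * L + q + n0 ≤ M) (ω : ℕ → ℝ) :
    (Real.log (Bst D.K (D.w h ω) L q 0) - (Real.log (Wt D.K q) - 9 / 2)) +
      (Wg D.K c0 D.α L q (D.w h ω) n e + Real.log (Vb D.K (D.w h ω) L q M e)) ≤
      Real.log (Vb D.K (D.w h ω) L q M 0) := by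
  have hn0 := B.hK.n0_pos
  have hqL := B.hqL
  have hL0 : 0 < L := by have := B.hq; omega
  have hc0 := B.hK.c0_pos
  have hnL : n * L ≤ e * L := Nat.mul_le_mul_right L hne.le
  have h1 := jump1 B.hK (D.w h ω) B.hqL (c := 0) (n := n) (M := M) hn (by omega)
  have h2 := jump2 B.hK (D.w h ω) B.hqL (n := n) (e := e) (M := M) hne (by omega)
  have hB := (Bst_log B 0).1 ω
  have hBm := Bmi_pos B n ω
  have hV := (Vb_log B (c := e) (M := M) hM).1 ω
  have k1 := kap_pos (α := D.α) hc0 hL0 (d := n - 0)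
  have k2 := kap_pos (α := D.α) hc0 hL0 (d := e - n)
  set X := kap c0 D.α L (e - n) / 2 * Bmi D.K (D.w h ω) L q n *
      Real.exp (S (D.w h ω) ((n + 1) * L) (e * L)) * Vb D.K (D.w h ω) L q M e with hX
  have hX0 : 0 < X := by positivity
  have h3 : kap c0 D.α L (n - 0) / 2 * Bst D.K (D.w h ω) L q 0 * X ≤
      Vb D.K (D.w h ω) L q M 0 :=
    (mul_le_mul_of_nonneg_left h2 (by positivity)).trans h1
  have h4 := Real.log_le_log (by positivity) h3
  have e1 : Real.log (kap c0 D.α L (n - 0) / 2 * Bst D.K (D.w h ω) L q 0 * X) =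
      Real.log (kap c0 D.α L (n - 0) / 2) + Real.log (Bst D.K (D.w h ω) L q 0) + Real.log X := by
    rw [Real.log_mul (by positivity) hX0.ne', Real.log_mul (by positivity) hB.ne']
  have e2 : Real.log X = Real.log (kap c0 D.α L (e - n) / 2) + Real.log (Bmi D.K (D.w h ω) L q n) +
      S (D.w h ω) ((n + 1) * L) (e * L) + Real.log (Vb D.K (D.w h ω) L q M e) := by
    rw [hX, Real.log_mul (by positivity) hV.ne', Real.log_mul (by positivity) (Real.exp_pos _).ne',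
      Real.log_mul (by positivity) hBm.ne', Real.log_exp]
  rw [e1, e2, log_kap hc0 hL0, log_kap hc0 hL0, Nat.sub_zero] at h4
  unfold Wg
  linarith

theorem cycle_fail (B : Blk D c0 n0 h L q) {n M : ℕ} (hn : 1 ≤ n)
    (hM : n * L + q + n0 ≤ M) (ω : ℕ → ℝ) :
    (Real.log (Bst D.K (D.w h ω) L q 0) - (Real.log (Wt D.K q) - 9 / 2)) +
      ((Real.log (c0 / 2) - (1 + D.α) * (Real.log ((n + 1 : ℕ) : ℝ) + Real.log L) +
        (Real.log (Wt D.K q) - 9 / 2)) + Real.log (Vb D.K (D.w h ω) L q M n)) ≤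
      Real.log (Vb D.K (D.w h ω) L q M 0) := by
  have hn0 := B.hK.n0_pos
  have hqL := B.hqL
  have hL0 : 0 < L := by have := B.hq; omega
  have hc0 := B.hK.c0_pos
  have h1 := jump1 B.hK (D.w h ω) B.hqL (c := 0) (n := n) (M := M) hn (by omega)
  have h2 := Vb_le_sum B.hK.nonneg (D.w h ω) L q M n
  have hB := (Bst_log B 0).1 ω
  have hV := (Vb_log B (c := n) (M := M) hM).1 ω
  have k1 := kap_pos (α := D.α) hc0 hL0 (d := n - 0)
  have h3 : kap c0 D.α L (n - 0) / 2 * Bst D.K (D.w h ω) L q 0 * Vb D.K (D.w h ω) L q M n ≤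
      Vb D.K (D.w h ω) L q M 0 :=
    (mul_le_mul_of_nonneg_left h2 (by positivity)).trans h1
  have h4 := Real.log_le_log (by positivity) h3
  rw [Real.log_mul (by positivity) hV.ne', Real.log_mul (by positivity) hB.ne',
    log_kap hc0 hL0, Nat.sub_zero] at h4
  linarith

/-- the gain is at least `a` if the level `x` is reached -/
theorem Wg_ge {K : ℕ → ℝ} {c0 α C0 : ℝ} (hα : 0 < α) {L q : ℕ} {w : ℕ → ℝ} {n ℓ : ℕ}
    {x a : ℝ} {j : ℕ} (hW : (1 + α) * Real.log L - C0 ≤ Real.log (Wt K q))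
    (hB : Real.log (Wt K q) - 9 ≤ Real.log (Bmi K w L q n))
    (hS : x < S (Yb w L) n (n + ℓ)) (hn : n + 1 ≤ 2 ^ (j + 1)) (hℓ : ℓ + 2 ≤ 16 * (j + 1))
    (hx : a + (2 * C0 + 27 / 2 - 2 * Real.log (c0 / 2)) + (1 + α) * ((j + 1) * Real.log 2) +
      (1 + α) * Real.log (16 * (j + 1)) ≤ x) :
    a ≤ Wg K c0 α L q w n (n + ℓ + 1) := by
  rw [S_Yb] at hS
  unfold Wg
  have e1 : n + ℓ + 1 - n + 1 = ℓ + 2 := by omega
  rw [e1]
  have h1 : Real.log ((n + 1 : ℕ) : ℝ) ≤ (j + 1) * Real.log 2 := by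
    have h2 : Real.log ((n + 1 : ℕ) : ℝ) ≤ Real.log ((2 : ℝ) ^ (j + 1)) := by
      apply Real.log_le_log (by positivity)
      exact_mod_cast hn
    rw [Real.log_pow] at h2
    push_cast at h2 ⊢
    exact h2
  have h3 : Real.log ((ℓ + 2 : ℕ) : ℝ) ≤ Real.log (16 * (j + 1)) := by
    apply Real.log_le_log (by positivity)
    exact_mod_cast hℓ
  have h4 : (1 + α) * Real.log ((n + 1 : ℕ) : ℝ) ≤ (1 + α) * ((j + 1) * Real.log 2) :=
    mul_le_mul_of_nonneg_left h1 (by linarith)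
  have h5 : (1 + α) * Real.log ((ℓ + 2 : ℕ) : ℝ) ≤ (1 + α) * Real.log (16 * (j + 1)) :=
    mul_le_mul_of_nonneg_left h3 (by linarith)
  linarith

end Pool.Agent.TH983
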