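import Pool.Agent.TH983.Nm
import Pool.Agent.TH983.Scale1
import Pool.Agent.Helper764.Cop_EF
import Pool.Agent.Helper764.Cop_Fbd

/-!
# Kernels, clusters and the growth criterion
-/

set_option autoImplicit false
set_option maxHeartbeats 4000000
open MeasureTheory ProbabilityTheory Filter Topology
open scoped ENNReal NNReal

namespace Pool.Agent.TH983
open Cop764

/-- dependence on a finite set of coordinates -/
def Loc (s : Finset ℕ) (X : (ℕ → ℝ) → ℝ) : Prop :=
  ∀ ω ω' : ℕ → ℝ, (∀ n ∈ s, ω n = ω' n) → X ω = X ω'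

variable {D : Data} {c0 : ℝ} {n0 : ℕ} {h β : ℝ}

theorem mul_indep (hβ : 0 < β) {X Y : (ℕ → ℝ) → ℝ} (hX : Adm D.P β X) (hY : Adm D.P β Y)
    {s t : Finset ℕ} (hst : Disjoint s t) (hXs : Loc s X) (hYt : Loc t Y) :
    Adm D.P β (fun ω => X ω * Y ω) ∧ nm D.P β (fun ω => X ω * Y ω) = nm D.P β X * nm D.P β Y := by
  have hind : IndepFun (fun ω => X ω ^ β⁻¹) (fun ω => Y ω ^ β⁻¹) (disorder D.ν) := by
    apply M_indep.J_indep D.ν s t hst
    · exact hX.meas.pow_const _
    · exact hY.meas.pow_const _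
    · intro ω ω' hh
      show X ω ^ β⁻¹ = X ω' ^ β⁻¹
      rw [hXs ω ω' hh]
    · intro ω ω' hh
      show Y ω ^ β⁻¹ = Y ω' ^ β⁻¹
      rw [hYt ω ω' hh]
  have hi : Integrable (fun ω => X ω ^ β⁻¹ * Y ω ^ β⁻¹) D.P := hind.integrable_mul hX.int hY.int
  refine ⟨⟨hX.meas.mul hY.meas, fun ω => mul_nonneg (hX.nn ω) (hY.nn ω), ?_⟩, ?_⟩
  · have : (fun ω => (X ω * Y ω) ^ β⁻¹) = fun ω => X ω ^ β⁻¹ * Y ω ^ β⁻¹ := by
      funext ω
      rw [Real.mul_rpow (hX.nn ω) (hY.nn ω)]
    rw [this]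
    exact hi
  · apply nm_mul hX.nn hY.nn
    exact hind.integral_fun_mul_eq_mul_integral hX.int.aestronglyMeasurable
      hY.int.aestronglyMeasurable

/-- stationarity of the norm -/
theorem nm_shift {X : (ℕ → ℝ) → ℝ} (hX : Measurable X) (k : ℕ) :
    nm D.P β (fun ω => X (fun n => ω (n + k))) = nm D.P β X := by
  unfold nm
  have hs := M_stat.J_stat D.ν k
  have h1 : ∫ ω, X ω ^ β⁻¹ ∂D.P =
      ∫ ω, X ω ^ β⁻¹ ∂(Measure.map (fun (ω : ℕ → ℝ) (n : ℕ) => ω (n + k)) D.P) := by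
    unfold Data.P
    rw [hs.map_eq]
  rw [h1, integral_map hs.measurable.aemeasurable (hX.pow_const _).aestronglyMeasurable]

theorem phi_shift (D : Data) (h : ℝ) (ω : ℕ → ℝ) {i j : ℕ} (hij : i ≤ j) :
    phi (D.w h ω) i j = phi (D.w h (fun n => ω (n + i))) 0 (j - i) := by
  have h1 := (M_loc.J_loc).2.2.1 (D.w h ω) i 0 (j - i)
  rw [Nat.zero_add, Nat.sub_add_cancel hij, w_shift] at h1
  unfold phi
  rw [h1]

theorem G_shift (K : ℕ → ℝ) (D : Data) (h : ℝ) (ω : ℕ → ℝ) {i j : ℕ} (hij : i ≤ j) :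
    G K (D.w h ω) i j = G K (D.w h (fun n => ω (n + i))) 0 (j - i) := by
  have h1 := (M_loc.J_loc).1 K (D.w h ω) i 0 (j - i)
  rw [Nat.zero_add, Nat.sub_add_cancel hij, w_shift] at h1
  exact h1.symm

theorem phi_loc (D : Data) (h : ℝ) (i j : ℕ) : Loc (Finset.Ioc i j) (fun ω => phi (D.w h ω) i j) := by
  intro ω ω' hh
  show phi (D.w h ω) i j = phi (D.w h ω') i j
  unfold phi
  rw [S_congr D h hh le_rfl le_rfl]

theorem G_loc (K : ℕ → ℝ) (D : Data) (h : ℝ) (i j : ℕ) :
    Loc (Finset.Ioc i j) (fun ω => G K (D.w h ω) i j) := by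
  intro ω ω' hh
  exact ((M_loc.J_loc).2.2.2 K _ _ i j (fun n hn => w_congr D h hh n hn)).1

theorem meas_phi (D : Data) (h : ℝ) (i j : ℕ) : Measurable (fun ω => phi (D.w h ω) i j) := by
  unfold phi
  exact ((meas_S D h i j).exp.const_add 1).div_const 2

theorem meas_Gk (K : ℕ → ℝ) (D : Data) (h : ℝ) : ∀ d i j : ℕ, j - i = d →
    Measurable (fun ω => G K (D.w h ω) i j) := by
  intro d
  induction d using Nat.strong_induction_on with
  | _ d ih =>
    intro i j hd
    have e : (fun ω => G K (D.w h ω) i j) = fun ω => if i = j then 1 else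
        ∑ k ∈ Finset.Ioc i j, K (k - i) * phi (D.w h ω) i k * G K (D.w h ω) k j := by
      funext ω
      rw [G_eq]
    rw [e]
    by_cases hij : i = j
    · simp only [hij, if_true]; exact measurable_const
    · simp only [hij, if_false]
      refine Finset.measurable_fun_sum _ fun k hk => ?_
      rw [Finset.mem_Ioc] at hk
      exact ((meas_phi D h i k).const_mul _).mul (ih (j - k) (by omega) k j rfl)

theorem G_mono {K K' w : ℕ → ℝ} (hK' : ∀ n, 0 ≤ K' n) (hle : ∀ n, K' n ≤ K n) : ∀ d i j : ℕ,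
    j - i = d → G K' w i j ≤ G K w i j := by
  have hK : ∀ n, 0 ≤ K n := fun n => (hK' n).trans (hle n)
  intro d
  induction d using Nat.strong_induction_on with
  | _ d ih =>
    intro i j hd
    rw [G_eq K', G_eq K]
    split_ifs with hij
    · exact le_rfl
    · refine Finset.sum_le_sum fun k hk => ?_
      rw [Finset.mem_Ioc] at hk
      have h1 := ih (j - k) (by omega) k j rfl
      have h2 := (phi_pos w i k).le
      have h3 := (M_G.J_G K' w hK').2.1 k j
      apply mul_le_mul _ h1 h3 (mul_nonneg (hK _) h2)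
      exact mul_le_mul_of_nonneg_right (hle _) h2

theorem adm_of_int (hβ : 1 ≤ β) {X : (ℕ → ℝ) → ℝ} (hm : Measurable X) (h0 : ∀ ω, 0 ≤ X ω)
    (hi : Integrable X D.P) : Adm D.P β X := by
  have hβ0 : 0 < β := by linarith
  refine ⟨hm, h0, ?_⟩
  have h1 : Integrable (fun ω => 1 + X ω) D.P := (integrable_const 1).add hi
  refine h1.mono' (hm.pow_const _).aestronglyMeasurable (Filter.Eventually.of_forall fun ω => ?_)
  rw [Real.norm_eq_abs, abs_of_nonneg (Real.rpow_nonneg (h0 ω) _)]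
  rcases le_total (X ω) 1 with hx | hx
  · have := Real.rpow_le_one (h0 ω) hx (show 0 ≤ β⁻¹ by positivity)
    linarith [h0 ω]
  · have := Real.rpow_le_rpow_of_exponent_le hx (inv_le_one_of_one_le₀ hβ)
    rw [Real.rpow_one] at this
    linarith

theorem F_ge_G {K w : ℕ → ℝ} (hK : ∀ n, 0 ≤ K n) {a b : ℕ} (hab : a ≤ b) :
    G K w a b ≤ F K w a b := by
  have hG := M_G.J_G K w hK
  have hnn : ∀ i k, 0 ≤ phi w a i * G K w i k * phi w k b := fun i k =>
    mul_nonneg (mul_nonneg (phi_pos _ _ _).le (hG.2.1 _ _)) (phi_pos _ _ _).le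
  have h1 : phi w a a * G K w a b * phi w b b ≤ F K w a b := by
    unfold F
    refine le_trans ?_ (Finset.single_le_sum (f := fun i => ∑ k ∈ Finset.Icc i b,
      phi w a i * G K w i k * phi w k b) (fun i _ => Finset.sum_nonneg fun k _ => hnn i k)
      (Finset.mem_Icc.2 ⟨le_rfl, hab⟩))
    exact Finset.single_le_sum (f := fun k => phi w a a * G K w a k * phi w k b)
      (fun k _ => hnn a k) (Finset.mem_Icc.2 ⟨hab, le_rfl⟩)
  have h2 : ∀ c : ℕ, phi w c c = 1 := by intro c; unfold phi S; simp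
  rwa [h2, h2, one_mul, mul_one] at h1

theorem G_integrable (hK : KHyp D.K D.α c0 n0) (h0 : 0 ≤ h) {a b : ℕ} (hab : a < b) :
    Integrable (fun ω => G D.K (D.w h ω) a b) D.P := by
  obtain ⟨C, _, hC⟩ := M_EF.J_EF D
  have h1 := (hC h h0 a (b - a) (by omega)).1
  rw [show a + (b - a) = b by omega] at h1
  refine h1.mono' (meas_G D h a b).aestronglyMeasurable (Filter.Eventually.of_forall fun ω => ?_)
  rw [Real.norm_eq_abs, abs_of_nonneg ((M_G.J_G D.K (D.w h ω) hK.nonneg).2.1 a b)]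
  exact F_ge_G hK.nonneg hab.le

theorem phi_integrable (hK : KHyp D.K D.α c0 n0) (h0 : 0 ≤ h) {a b : ℕ} (hab : a ≤ b) :
    Integrable (fun ω => phi (D.w h ω) a b) D.P := by
  rcases Nat.eq_or_lt_of_le hab with h2 | h2
  · subst h2
    have : (fun ω => phi (D.w h ω) a a) = fun _ => 1 := by
      funext ω; unfold phi S; simp
    rw [this]
    exact integrable_const _
  · obtain ⟨C, _, hC⟩ := M_EF.J_EF D
    have h1 := (hC h h0 a (b - a) (by omega)).1
    rw [show a + (b - a) = b by omega] at h1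
    refine h1.mono' (meas_phi D h a b).aestronglyMeasurable
      (Filter.Eventually.of_forall fun ω => ?_)
    rw [Real.norm_eq_abs, abs_of_nonneg (phi_pos _ a b).le]
    exact (M_Fbd.J_Fbd D.K (D.w h ω) D.α c0 n0 hK a b hab).1

theorem adm_phi (hK : KHyp D.K D.α c0 n0) (h0 : 0 ≤ h) (hβ : 1 ≤ β) {a b : ℕ} (hab : a ≤ b) :
    Adm D.P β (fun ω => phi (D.w h ω) a b) :=
  adm_of_int hβ (meas_phi D h a b) (fun ω => (phi_pos _ a b).le) (phi_integrable hK h0 hab)

theorem adm_G (hK : KHyp D.K D.α c0 n0) (h0 : 0 ≤ h) (hβ : 1 ≤ β) {K' : ℕ → ℝ}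
    (hK' : ∀ n, 0 ≤ K' n) (hle : ∀ n, K' n ≤ D.K n) {a b : ℕ} (hab : a ≤ b) :
    Adm D.P β (fun ω => G K' (D.w h ω) a b) := by
  have hnn : ∀ ω, 0 ≤ G K' (D.w h ω) a b := fun ω => (M_G.J_G K' (D.w h ω) hK').2.1 a b
  refine adm_of_int hβ (meas_Gk K' D h _ a b rfl) hnn ?_
  rcases Nat.eq_or_lt_of_le hab with h2 | h2
  · subst h2
    have : (fun ω => G K' (D.w h ω) a a) = fun _ => 1 := by
      funext ω; exact (M_G.J_G K' (D.w h ω) hK').1 a
    rw [this]
    exact integrable_const _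
  · refine (G_integrable hK h0 h2).mono' (meas_Gk K' D h _ a b rfl).aestronglyMeasurable
      (Filter.Eventually.of_forall fun ω => ?_)
    rw [Real.norm_eq_abs, abs_of_nonneg (hnn ω)]
    exact G_mono hK' hle _ a b rfl

/-- norm of an excursion factor -/
noncomputable def aN (D : Data) (h β : ℝ) (n : ℕ) : ℝ := nm D.P β (fun ω => phi (D.w h ω) 0 n)

/-- norm of a constrained partition function -/
noncomputable def gN (D : Data) (h β : ℝ) (K' : ℕ → ℝ) (n : ℕ) : ℝ :=
  nm D.P β (fun ω => G K' (D.w h ω) 0 n)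

theorem aN_nonneg (n : ℕ) : 0 ≤ aN D h β n := nm_nonneg fun ω => (phi_pos _ 0 n).le

theorem nm_phi {i j : ℕ} (hij : i ≤ j) :
    nm D.P β (fun ω => phi (D.w h ω) i j) = aN D h β (j - i) := by
  unfold aN
  rw [← nm_shift (β := β) (meas_phi D h 0 (j - i)) i]
  congr 1
  funext ω
  exact phi_shift D h ω hij

theorem nm_G (K' : ℕ → ℝ) {i j : ℕ} (hij : i ≤ j) :
    nm D.P β (fun ω => G K' (D.w h ω) i j) = gN D h β K' (j - i) := by
  unfold gN
  rw [← nm_shift (β := β) (meas_Gk K' D h _ 0 (j - i) rfl) i]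
  congr 1
  funext ω
  exact G_shift K' D h ω hij

theorem gN_nonneg {K' : ℕ → ℝ} (hK' : ∀ n, 0 ≤ K' n) (n : ℕ) : 0 ≤ gN D h β K' n :=
  nm_nonneg fun ω => (M_G.J_G K' (D.w h ω) hK').2.1 0 n

theorem gN_zero (hβ : 0 < β) {K' : ℕ → ℝ} (hK' : ∀ n, 0 ≤ K' n) : gN D h β K' 0 = 1 := by
  unfold gN nm
  have : (fun ω => G K' (D.w h ω) 0 0 ^ β⁻¹) = fun _ => 1 := by
    funext ω; rw [(M_G.J_G K' (D.w h ω) hK').1 0, Real.one_rpow]
  rw [this]
  simp

/-- first step lower bound -/
theorem gN_step (hK : KHyp D.K D.α c0 n0) (h0 : 0 ≤ h) (hβ : 1 < β) {K' : ℕ → ℝ}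
    (hK' : ∀ n, 0 ≤ K' n) (hle : ∀ n, K' n ≤ D.K n) {n : ℕ} (hn : 0 < n) :
    ∑ k ∈ Finset.Ioc 0 n, K' k * aN D h β k * gN D h β K' (n - k) ≤ gN D h β K' n := by
  have hβ0 : 0 < β := by linarith
  have e : gN D h β K' n = nm D.P β (fun ω => ∑ k ∈ Finset.Ioc 0 n,
      K' k * (phi (D.w h ω) 0 k * G K' (D.w h ω) k n)) := by
    unfold gN
    congr 1
    funext ω
    rw [G_eq, if_neg (by omega)]
    refine Finset.sum_congr rfl fun k _ => ?_
    rw [Nat.sub_zero]; ring
  have hterm : ∀ k ∈ Finset.Ioc 0 n,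
      Adm D.P β (fun ω => phi (D.w h ω) 0 k * G K' (D.w h ω) k n) ∧
      nm D.P β (fun ω => phi (D.w h ω) 0 k * G K' (D.w h ω) k n) =
        aN D h β k * gN D h β K' (n - k) := by
    intro k hk
    rw [Finset.mem_Ioc] at hk
    have h1 := mul_indep hβ0 (adm_phi hK h0 hβ.le (Nat.zero_le k))
      (adm_G hK h0 hβ.le hK' hle hk.2) (Finset.Ioc_disjoint_Ioc_of_le le_rfl)
      (phi_loc D h 0 k) (G_loc K' D h k n)
    refine ⟨h1.1, ?_⟩
    rw [h1.2, nm_G K' hk.2]
    rfl
  rw [e]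
  refine le_trans (le_of_eq ?_) (nm_sum hβ _ _ fun k hk => ((hterm k hk).1.smul hβ0 (hK' k)))
  refine Finset.sum_congr rfl fun k hk => ?_
  rw [nm_smul hβ0 (hterm k hk).1.nn (hK' k), (hterm k hk).2]
  ring

/-- the norm of a cluster dominates the renewal function of the tilted kernel -/
theorem gN_ge_u (hK : KHyp D.K D.α c0 n0) (h0 : 0 ≤ h) (hβ : 1 < β) {K' : ℕ → ℝ}
    (hK' : ∀ n, 0 ≤ K' n) (hle : ∀ n, K' n ≤ D.K n) :
    ∀ n : ℕ, u (fun k => K' k * aN D h β k) n ≤ gN D h β K' n := by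
  have hβ0 : 0 < β := by linarith
  intro n
  induction n using Nat.strong_induction_on with
  | _ n ih =>
    rcases Nat.eq_zero_or_pos n with h1 | h1
    · subst h1
      rw [u_zero, gN_zero hβ0 hK']
    · refine le_trans ?_ (gN_step hK h0 hβ hK' hle h1)
      have e : u (fun k => K' k * aN D h β k) n = ∑ k ∈ Finset.Ioc 0 n,
          K' k * aN D h β k * u (fun k => K' k * aN D h β k) (n - k) := by
        conv_lhs => unfold u
        rw [G_eq, if_neg (by omega)]
        refine Finset.sum_congr rfl fun k hk => ?_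
        rw [Finset.mem_Ioc] at hk
        rw [G_zero_shift _ k n hk.2, Nat.sub_zero]
        have : phi (fun _ => 0) 0 k = 1 := by unfold phi S; simp
        rw [this]
        ring
      rw [e]
      refine Finset.sum_le_sum fun k hk => ?_
      rw [Finset.mem_Ioc] at hk
      exact mul_le_mul_of_nonneg_left (ih (n - k) (by omega)) (mul_nonneg (hK' k) (aN_nonneg k))

/-! ### decomposition at the long excursions -/

/-- short part of the kernel -/
def KS (K : ℕ → ℝ) (cut n : ℕ) : ℝ := if n < cut then K n else 0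

/-- long part of the kernel -/
def KLg (K : ℕ → ℝ) (cut n : ℕ) : ℝ := if n < cut then 0 else K n

theorem KS_nonneg {K : ℕ → ℝ} (hK : ∀ n, 0 ≤ K n) (cut n : ℕ) : 0 ≤ KS K cut n := by
  unfold KS; split_ifs <;> simp [hK]

theorem KLg_nonneg {K : ℕ → ℝ} (hK : ∀ n, 0 ≤ K n) (cut n : ℕ) : 0 ≤ KLg K cut n := by
  unfold KLg; split_ifs <;> simp [hK]

theorem KS_le {K : ℕ → ℝ} (hK : ∀ n, 0 ≤ K n) (cut n : ℕ) : KS K cut n ≤ K n := by
  unfold KS; split_ifs <;> simp [hK]

theorem KLg_le {K : ℕ → ℝ} (hK : ∀ n, 0 ≤ K n) (cut n : ℕ) : KLg K cut n ≤ K n := by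
  unfold KLg; split_ifs <;> simp [hK]

theorem KS_add (K : ℕ → ℝ) (cut n : ℕ) : KS K cut n + KLg K cut n = K n := by
  unfold KS KLg; split_ifs <;> simp

/-- a cluster of short excursions followed by one long excursion -/
noncomputable def Vm (K w : ℕ → ℝ) (cut i m : ℕ) : ℝ :=
  ∑ a ∈ Finset.Ico i m, G (KS K cut) w i a * KLg K cut (m - a) * phi w a m

theorem Vm_decomp {K w : ℕ → ℝ} (hK : ∀ n, 0 ≤ K n) (cut : ℕ) : ∀ d i n : ℕ, n - i = d → i ≤ n →
    ∑ m ∈ Finset.Ioc i n, Vm K w cut i m * G K w m n ≤ G K w i n := by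
  have hG := M_G.J_G K w hK
  have hGS := M_G.J_G (KS K cut) w (KS_nonneg hK cut)
  intro d
  induction d using Nat.strong_induction_on with
  | _ d ih =>
    intro i n hd hin
    rcases Nat.eq_or_lt_of_le hin with h1 | h1
    · subst h1
      simp [hG.1]
    · rw [G_eq K w i n, if_neg (by omega)]
      have e1 : ∑ k ∈ Finset.Ioc i n, K (k - i) * phi w i k * G K w k n =
          ∑ k ∈ Finset.Ioc i n, KLg K cut (k - i) * phi w i k * G K w k n +
          ∑ k ∈ Finset.Ioc i n, KS K cut (k - i) * phi w i k * G K w k n := by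
        rw [← Finset.sum_add_distrib]
        refine Finset.sum_congr rfl fun k _ => ?_
        rw [← KS_add K cut (k - i)]
        ring
      have e2 : ∑ k ∈ Finset.Ioc i n, KS K cut (k - i) * phi w i k *
          (∑ m ∈ Finset.Ioc k n, Vm K w cut k m * G K w m n) ≤
          ∑ k ∈ Finset.Ioc i n, KS K cut (k - i) * phi w i k * G K w k n := by
        refine Finset.sum_le_sum fun k hk => ?_
        rw [Finset.mem_Ioc] at hk
        exact mul_le_mul_of_nonneg_left (ih (n - k) (by omega) k n rfl hk.2)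
          (mul_nonneg (KS_nonneg hK _ _) (phi_pos _ _ _).le)
      rw [e1]
      refine le_trans (le_of_eq ?_) (add_le_add le_rfl e2)
      -- split off the first summand of `Vm`
      have e3 : ∀ m ∈ Finset.Ioc i n, Vm K w cut i m * G K w m n =
          KLg K cut (m - i) * phi w i m * G K w m n +
          ∑ a ∈ Finset.Ioo i m, (∑ k ∈ Finset.Ioc i a, KS K cut (k - i) * phi w i k *
            G (KS K cut) w k a) * KLg K cut (m - a) * phi w a m * G K w m n := by
        intro m hm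
        rw [Finset.mem_Ioc] at hm
        unfold Vm
        rw [← Finset.Ioo_insert_left hm.1, Finset.sum_insert (by simp), hGS.1 i, add_mul,
          Finset.sum_mul]
        congr 1
        · ring
        · refine Finset.sum_congr rfl fun a ha => ?_
          rw [Finset.mem_Ioo] at ha
          rw [G_eq (KS K cut) w i a, if_neg (by omega)]
      rw [Finset.sum_congr rfl e3, Finset.sum_add_distrib]
      congr 1
      have e4 : ∀ k ∈ Finset.Ioc i n, KS K cut (k - i) * phi w i k *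
          (∑ m ∈ Finset.Ioc k n, Vm K w cut k m * G K w m n) =
          ∑ m ∈ Finset.Ioc k n, ∑ a ∈ Finset.Ico k m, KS K cut (k - i) * phi w i k *
            G (KS K cut) w k a * KLg K cut (m - a) * phi w a m * G K w m n := by
        intro k _
        rw [Finset.mul_sum]
        refine Finset.sum_congr rfl fun m _ => ?_
        unfold Vm
        rw [Finset.sum_mul, Finset.mul_sum]
        refine Finset.sum_congr rfl fun a _ => ?_
        ring
      rw [Finset.sum_congr rfl e4]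
      have e5 : ∀ m ∈ Finset.Ioc i n, ∑ a ∈ Finset.Ioo i m, (∑ k ∈ Finset.Ioc i a,
          KS K cut (k - i) * phi w i k * G (KS K cut) w k a) * KLg K cut (m - a) * phi w a m *
            G K w m n = ∑ k ∈ Finset.Ioo i m, ∑ a ∈ Finset.Ico k m, KS K cut (k - i) * phi w i k *
            G (KS K cut) w k a * KLg K cut (m - a) * phi w a m * G K w m n := by
        intro m _
        have : ∀ a ∈ Finset.Ioo i m, (∑ k ∈ Finset.Ioc i a,
            KS K cut (k - i) * phi w i k * G (KS K cut) w k a) * KLg K cut (m - a) * phi w a m *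
            G K w m n = ∑ k ∈ Finset.Ioc i a, KS K cut (k - i) * phi w i k *
            G (KS K cut) w k a * KLg K cut (m - a) * phi w a m * G K w m n := by
          intro a _
          rw [Finset.sum_mul, Finset.sum_mul, Finset.sum_mul]
        rw [Finset.sum_congr rfl this]
        apply Finset.sum_comm'
        intro x y
        simp only [Finset.mem_Ioo, Finset.mem_Ioc, Finset.mem_Ico]
        omega
      rw [Finset.sum_congr rfl e5]
      apply Finset.sum_comm'
      intro x y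
      simp only [Finset.mem_Ioo, Finset.mem_Ioc]
      omega

/-- norm of a cluster with its long excursion -/
noncomputable def sN (D : Data) (h β : ℝ) (cut m : ℕ) : ℝ :=
  nm D.P β (fun ω => Vm D.K (D.w h ω) cut 0 m)

theorem Vm_loc (D : Data) (h : ℝ) (cut m : ℕ) :
    Loc (Finset.Ioc 0 m) (fun ω => Vm D.K (D.w h ω) cut 0 m) := by
  intro ω ω' hh
  simp only [Vm]
  refine Finset.sum_congr rfl fun a ha => ?_
  rw [Finset.mem_Ico] at ha
  have h1 : G (KS D.K cut) (D.w h ω) 0 a = G (KS D.K cut) (D.w h ω') 0 a :=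
    G_loc (KS D.K cut) D h 0 a ω ω' fun n hn => hh n (by
      rw [Finset.mem_Ioc] at hn ⊢; omega)
  have h2 : phi (D.w h ω) a m = phi (D.w h ω') a m :=
    phi_loc D h a m ω ω' fun n hn => hh n (by rw [Finset.mem_Ioc] at hn ⊢; omega)
  rw [h1, h2]

theorem adm_term (hK : KHyp D.K D.α c0 n0) (h0 : 0 ≤ h) (hβ : 1 < β) (cut : ℕ) {a m : ℕ}
    (ham : a ≤ m) :
    Adm D.P β (fun ω => G (KS D.K cut) (D.w h ω) 0 a * KLg D.K cut (m - a) * phi (D.w h ω) a m) ∧
    nm D.P β (fun ω => G (KS D.K cut) (D.w h ω) 0 a * KLg D.K cut (m - a) * phi (D.w h ω) a m) =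
      gN D h β (KS D.K cut) a * (KLg D.K cut (m - a) * aN D h β (m - a)) := by
  have hβ0 : 0 < β := by linarith
  have h1 := mul_indep hβ0 (adm_G hK h0 hβ.le (KS_nonneg hK.nonneg cut) (KS_le hK.nonneg cut)
    (Nat.zero_le a)) (adm_phi hK h0 hβ.le ham) (Finset.Ioc_disjoint_Ioc_of_le le_rfl)
    (G_loc (KS D.K cut) D h 0 a) (phi_loc D h a m)
  have e : (fun ω => G (KS D.K cut) (D.w h ω) 0 a * KLg D.K cut (m - a) * phi (D.w h ω) a m) =
      fun ω => KLg D.K cut (m - a) * (G (KS D.K cut) (D.w h ω) 0 a * phi (D.w h ω) a m) := by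
    funext ω; ring
  rw [e]
  refine ⟨h1.1.smul hβ0 (KLg_nonneg hK.nonneg _ _), ?_⟩
  rw [nm_smul hβ0 h1.1.nn (KLg_nonneg hK.nonneg _ _), h1.2, nm_phi ham]
  unfold gN
  ring

theorem adm_Vm (hK : KHyp D.K D.α c0 n0) (h0 : 0 ≤ h) (hβ : 1 < β) (cut m : ℕ) :
    Adm D.P β (fun ω => Vm D.K (D.w h ω) cut 0 m) := by
  unfold Vm
  exact Adm.sum (by linarith) _ _ fun a ha =>
    (adm_term hK h0 hβ cut (Finset.mem_Ico.1 ha).2.le).1

theorem sN_nonneg (hK : KHyp D.K D.α c0 n0) (h0 : 0 ≤ h) (hβ : 1 < β) (cut m : ℕ) :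
    0 ≤ sN D h β cut m := nm_nonneg (adm_Vm hK h0 hβ cut m).nn

/-- renewal inequality for the norms -/
theorem gN_renewal (hK : KHyp D.K D.α c0 n0) (h0 : 0 ≤ h) (hβ : 1 < β) (cut n : ℕ) :
    ∑ m ∈ Finset.Ioc 0 n, sN D h β cut m * gN D h β D.K (n - m) ≤ gN D h β D.K n := by
  have hβ0 : 0 < β := by linarith
  have hterm : ∀ m ∈ Finset.Ioc 0 n,
      Adm D.P β (fun ω => Vm D.K (D.w h ω) cut 0 m * G D.K (D.w h ω) m n) ∧
      nm D.P β (fun ω => Vm D.K (D.w h ω) cut 0 m * G D.K (D.w h ω) m n) =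
        sN D h β cut m * gN D h β D.K (n - m) := by
    intro m hm
    rw [Finset.mem_Ioc] at hm
    have h1 := mul_indep hβ0 (adm_Vm hK h0 hβ cut m)
      (adm_G hK h0 hβ.le hK.nonneg (fun _ => le_rfl) hm.2) (Finset.Ioc_disjoint_Ioc_of_le le_rfl)
      (Vm_loc D h cut m) (G_loc D.K D h m n)
    refine ⟨h1.1, ?_⟩
    rw [h1.2, nm_G D.K hm.2]
    rfl
  have h2 := nm_sum hβ (Finset.Ioc 0 n) _ fun m hm => (hterm m hm).1
  rw [Finset.sum_congr rfl fun m hm => (hterm m hm).2] at h2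
  refine h2.trans ?_
  exact nm_mono hβ0 (Adm.sum hβ0 _ _ fun m hm => (hterm m hm).1)
    (adm_G hK h0 hβ.le hK.nonneg (fun _ => le_rfl) (Nat.zero_le n))
    fun ω => Vm_decomp hK.nonneg cut _ 0 n rfl (Nat.zero_le n)

/-- growth of a renewal inequality with total mass larger than one -/
theorem renewal_growth (s g : ℕ → ℝ) (hs : ∀ m, 0 ≤ s m) (hg : ∀ n, 0 ≤ g n) (hg0 : g 0 = 1)
    (hren : ∀ n : ℕ, ∑ m ∈ Finset.Ioc 0 n, s m * g (n - m) ≤ g n) {T : ℕ}
    (hT : 1 < ∑ m ∈ Finset.Ioc 0 T, s m) : ∃ n : ℕ, 1 ≤ n ∧ 1 < g n := by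
  by_contra hcon
  push Not at hcon
  set σ := ∑ m ∈ Finset.Ioc 0 T, s m with hσ
  have hgle : ∀ n, g n ≤ 1 := by
    intro n
    rcases Nat.eq_zero_or_pos n with h1 | h1
    · rw [h1, hg0]
    · exact hcon n h1
  set Γ : ℕ → ℝ := fun N => ∑ n ∈ Finset.range (N + 1), g n with hΓ
  have hΓ0 : ∀ N, 0 ≤ Γ N := fun N => Finset.sum_nonneg fun n _ => hg n
  have hΓle : ∀ N : ℕ, Γ N ≤ N + 1 := by
    intro N
    have h1 : Γ N ≤ ∑ _n ∈ Finset.range (N + 1), (1 : ℝ) := Finset.sum_le_sum fun n _ => hgle n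
    simp at h1
    exact h1
  have hstep : ∀ N : ℕ, σ * Γ N ≤ Γ (N + T) := by
    intro N
    calc σ * Γ N = ∑ m ∈ Finset.Ioc 0 T, ∑ n ∈ Finset.range (N + 1), s m * g n := by
          rw [hσ, Finset.sum_mul]
          refine Finset.sum_congr rfl fun m _ => ?_
          rw [Finset.mul_sum]
      _ ≤ ∑ m ∈ Finset.Ioc 0 T, ∑ n ∈ Finset.Icc m (N + T), s m * g (n - m) := by
          refine Finset.sum_le_sum fun m hm => ?_
          rw [Finset.mem_Ioc] at hm
          have e1 : ∑ n ∈ Finset.Icc m (N + T), s m * g (n - m) =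
              ∑ n ∈ Finset.range (N + T + 1 - m), s m * g n := by
            rw [show Finset.Icc m (N + T) = Finset.Ico m (N + T + 1) from rfl,
              Finset.sum_Ico_eq_sum_range]
            refine Finset.sum_congr rfl fun n _ => ?_
            rw [Nat.add_sub_cancel_left]
          rw [e1]
          apply Finset.sum_le_sum_of_subset_of_nonneg
          · intro n hn
            rw [Finset.mem_range] at hn ⊢
            omega
          · intro n _ _
            exact mul_nonneg (hs m) (hg n)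
      _ ≤ ∑ n ∈ Finset.range (N + T + 1), ∑ m ∈ Finset.Ioc 0 n, s m * g (n - m) := by
          have e2 : ∑ m ∈ Finset.Ioc 0 T, ∑ n ∈ Finset.Icc m (N + T), s m * g (n - m) ≤
              ∑ m ∈ Finset.Ioc 0 (N + T), ∑ n ∈ Finset.Icc m (N + T), s m * g (n - m) := by
            apply Finset.sum_le_sum_of_subset_of_nonneg
            · exact Finset.Ioc_subset_Ioc_right (by omega)
            · intro m _ _
              exact Finset.sum_nonneg fun n _ => mul_nonneg (hs m) (hg _)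
          refine e2.trans (le_of_eq ?_)
          apply Finset.sum_comm'
          intro x y
          simp only [Finset.mem_Ioc, Finset.mem_Icc, Finset.mem_range]
          omega
      _ ≤ Γ (N + T) := Finset.sum_le_sum fun n _ => hren n
  have hpow : ∀ j : ℕ, σ ^ j ≤ Γ (j * T) := by
    intro j
    induction j with
    | zero => simp [hΓ, hg0]
    | succ j ih =>
      have h1 := hstep (j * T)
      rw [show (j + 1) * T = j * T + T by ring, pow_succ]
      have h2 : σ ^ j * σ ≤ Γ (j * T) * σ := mul_le_mul_of_nonneg_right ih (by linarith)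
      linarith
  have hlim := tendsto_pow_const_div_const_pow_of_one_lt 1 hT
  have hev := hlim.eventually (gt_mem_nhds (show (0 : ℝ) < ((T : ℝ) + 1)⁻¹ by positivity))
  obtain ⟨j, hj1, hj2⟩ := (hev.and (eventually_ge_atTop 1)).exists
  have hpowj : 0 < σ ^ j := by positivity
  rw [pow_one, div_lt_iff₀ hpowj] at hj1
  have h1 := (hpow j).trans (hΓle (j * T))
  have h2 : ((T : ℝ) + 1) * j < σ ^ j := by
    have := mul_lt_mul_of_pos_left hj1 (show 0 < (T : ℝ) + 1 by positivity)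
    rwa [← mul_assoc, mul_inv_cancel₀ (by positivity), one_mul] at this
  have hj : (1 : ℝ) ≤ j := by exact_mod_cast hj2
  push_cast at h1
  nlinarith

/-- localization criterion -/
theorem crit_sum (hK : KHyp D.K D.α c0 n0) (h0 : 0 ≤ h) (cut : ℕ) {T : ℕ}
    (hT : 1 < ∑ m ∈ Finset.Ioc 0 T, sN D h (1 + D.α) cut m) : 0 < D.f h := by
  have hα := D.hα
  have hβ : 1 < 1 + D.α := by linarith
  obtain ⟨n, hn1, hn⟩ := renewal_growth (sN D h (1 + D.α) cut) (gN D h (1 + D.α) D.K)
    (sN_nonneg hK h0 hβ cut) (gN_nonneg hK.nonneg) (gN_zero (by linarith) hK.nonneg)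
    (gN_renewal hK h0 hβ cut) hT
  apply frac_crit hK h0 hn1
  by_contra hc
  push Not at hc
  have h1 : gN D h (1 + D.α) D.K n ≤ 1 := by
    unfold gN nm
    exact Real.rpow_le_one (int_nonneg fun ω => (M_G.J_G D.K (D.w h ω) hK.nonneg).2.1 0 n) hc
      (by linarith)
  linarith

end Pool.Agent.TH983
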