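import Pool.Agent.TH983.SumD
import Pool.Agent.TH983.Gain

/-!
# Localization slightly above the level of the integral criterion
-/

set_option autoImplicit false
set_option maxHeartbeats 4000000
open MeasureTheory ProbabilityTheory Filter Topology
open scoped ENNReal NNReal

namespace Pool.Agent.TH983
open Cop764

/-- the renewal argument at fixed coupling -/
theorem loc_core (D : Data) {c0 : ℝ} {n0 : ℕ} (hK : KHyp D.K D.α c0 n0) {κ : ℝ} (hκ : 0 ≤ κ)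
    {c c2 c1 δ η Mr : ℝ} (hc : 0 < c) (hc2 : 0 < c2) (hδ0 : 0 ≤ δ) (hδ1 : δ ≤ 1) (hMr : 0 < Mr)
    (hη0 : 0 < η) (hc1 : c1 = 2 * Real.exp (-8) * c0 * (4 : ℝ) ^ (-(1 + D.α)) * Real.exp (-(4 * κ)))
    (hη : η < c1 * (Real.exp (-8) * c2 / (2 * Mr)))
    (lam : ℝ) (hlam : 0 < lam) {L e0 T0 : ℕ} {p1 p2 q1 q2 : ℝ} (hn0L : n0 ≤ L) (hL1 : 1 ≤ L)
    (hlamL : lam ^ 2 * (L : ℝ) ≤ 1) (he3 : 3 * e0 ≤ L) (hLe0 : (L : ℝ) ≤ 2 * Mr * e0)
    (hT0 : 4 ≤ T0) (hp1 : 0 ≤ p1) (hp2 : 0 ≤ p2) (hq1 : 0 ≤ q1) (hq2 : 0 ≤ q2)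
    (hT : Tilt (Dat D lam hlam) (κ * lam) (1 + D.α) e0 L p1 p2 q1 q2)
    (hnum : (2 + c) ^ (1 + D.α)⁻¹ ≤ (p1 ^ (1 + D.α) + q1 ^ (1 + D.α)) ^ (1 + D.α)⁻¹ +
      (p2 ^ (1 + D.α) + q2 ^ (1 + D.α)) ^ (1 + D.α)⁻¹)
    (hgain : ∀ m : ℕ, 2 * e0 + 3 * L ≤ m → m ≤ 3 * e0 + 3 * L →
      (∀ a ≤ e0, 0 < KLg D.K (2 * L) (m - a) *
        aN (Dat D lam hlam) (κ * lam) (1 + D.α) (m - a)) ∧
      (∀ a ≤ e0, 0 < yS (Dat D lam hlam) (κ * lam) (1 + D.α) (2 * L) e0 L a m) ∧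
      c2 / (L : ℝ) ≤ c * ∑ a ∈ Finset.Icc 0 e0,
        uS (Dat D lam hlam) (κ * lam) (1 + D.α) (2 * L) a *
        min (KLg D.K (2 * L) (m - a) * aN (Dat D lam hlam) (κ * lam) (1 + D.α) (m - a))
          (yS (Dat D lam hlam) (κ * lam) (1 + D.α) (2 * L) e0 L a m))
    (hsum : 1 - η * (L : ℝ) ^ (-D.α) ≤ ∑ n ∈ Finset.Ioc 0 (T0 * L),
        Real.exp (-(2 * δ * lam ^ 2)) ^ n *
          (D.K n * aN (Dat D lam hlam) (κ * lam) (1 + D.α) n)) :
    0 < (Dat D lam hlam).f (κ * lam + δ * lam) := by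
  have hα := D.hα
  have hc0 := hK.c0_pos
  obtain ⟨β, hβd⟩ : ∃ β : ℝ, β = 1 + D.α := ⟨_, rfl⟩
  rw [← hβd] at hc1 hT hnum hgain hsum
  have hβ : 1 < β := by linarith
  have hβ0 : 0 < β := by linarith
  have hKn : ∀ n, 0 ≤ D.K n := hK.nonneg
  have hLr : (0 : ℝ) < L := by exact_mod_cast hL1
  obtain ⟨x, hx⟩ : ∃ x : ℝ, x = Real.exp (-(2 * δ * lam ^ 2)) := ⟨_, rfl⟩
  rw [← hx] at hsum
  have hx0 : 0 < x := by rw [hx]; exact Real.exp_pos _
  have hxpow : ∀ n : ℕ, n ≤ 4 * L → Real.exp (-8) ≤ x ^ n := by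
    intro n hn
    rw [hx, ← Real.exp_nat_mul]
    apply Real.exp_le_exp.2
    have h1 : (n : ℝ) ≤ 4 * L := by exact_mod_cast hn
    have h2 : lam ^ 2 * (n : ℝ) ≤ 4 := by
      have : lam ^ 2 * (n : ℝ) ≤ lam ^ 2 * (4 * L) := mul_le_mul_of_nonneg_left h1 (sq_nonneg _)
      linarith
    have h3 : δ * (lam ^ 2 * (n : ℝ)) ≤ 1 * 4 :=
      mul_le_mul hδ1 h2 (by positivity) (by norm_num)
    nlinarith
  -- sequences
  set r1 : ℕ → ℝ := fun n => x ^ n * (KS D.K (2 * L) n * aN (Dat D lam hlam) (κ * lam) β n) with hr1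
  set r2 : ℕ → ℝ := fun n => x ^ n * (KLg D.K (2 * L) n * aN (Dat D lam hlam) (κ * lam) β n) with hr2
  have hr10 : ∀ n, 0 ≤ r1 n := fun n =>
    mul_nonneg (pow_nonneg hx0.le _) (mul_nonneg (KS_nonneg hKn _ _) (aN_nonneg _))
  have hr20 : ∀ n, 0 ≤ r2 n := fun n =>
    mul_nonneg (pow_nonneg hx0.le _) (mul_nonneg (KLg_nonneg hKn _ _) (aN_nonneg _))
  have hu : ∀ n, u r1 n = x ^ n * uS (Dat D lam hlam) (κ * lam) β (2 * L) n := fun n =>
    u_tilt (fun k => KS D.K (2 * L) k * aN (Dat D lam hlam) (κ * lam) β k) x n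
  set gg : ℕ → ℝ := fun m => if 2 * e0 + 3 * L ≤ m ∧ m ≤ 3 * e0 + 3 * L then
    x ^ m * (c * ∑ a ∈ Finset.Icc 0 e0, uS (Dat D lam hlam) (κ * lam) β (2 * L) a *
        min (KLg D.K (2 * L) (m - a) * aN (Dat D lam hlam) (κ * lam) β (m - a))
          (yS (Dat D lam hlam) (κ * lam) β (2 * L) e0 L a m)) else 0 with hgg
  have hgg1 : ∀ m, 2 * e0 + 3 * L ≤ m → m ≤ 3 * e0 + 3 * L →
      Real.exp (-8) * (c2 / L) ≤ gg m := by
    intro m h1 h2
    simp only [hgg]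
    rw [if_pos ⟨h1, h2⟩]
    exact mul_le_mul (hxpow m (by omega)) (hgain m h1 h2).2.2 (by positivity) (by positivity)
  have hgg0 : ∀ m, 0 ≤ gg m := by
    intro m
    by_cases hm : 2 * e0 + 3 * L ≤ m ∧ m ≤ 3 * e0 + 3 * L
    · exact le_trans (by positivity) (hgg1 m hm.1 hm.2)
    · simp only [hgg]
      rw [if_neg hm]
  -- the lower bound for the norms
  have hs : ∀ m, ∑ a ∈ Finset.Ico 0 m, u r1 a * r2 (m - a) + gg m ≤
      sN (Dat D lam hlam) (κ * lam + δ * lam) β (2 * L) m := by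
    intro m
    have hshift := sN_shift (D := Dat D lam hlam) (h := κ * lam) (β := β) hK (by positivity) hβ
      (t := δ * lam) (by positivity) (2 * L) m
    have hxe : Real.exp (-(2 * (Dat D lam hlam).lam * (δ * lam))) = x := by
      rw [hx]
      congr 1
      show -(2 * lam * (δ * lam)) = -(2 * δ * lam ^ 2)
      ring
    rw [hxe] at hshift
    refine le_trans ?_ hshift
    have e1 : ∑ a ∈ Finset.Ico 0 m, u r1 a * r2 (m - a) =
        x ^ m * vS (Dat D lam hlam) (κ * lam) β (2 * L) m := by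
      unfold vS
      rw [Finset.mul_sum]
      refine Finset.sum_congr rfl fun a ha => ?_
      rw [Finset.mem_Ico] at ha
      rw [hu]
      simp only [hr2]
      have : x ^ m = x ^ a * x ^ (m - a) := by rw [← pow_add]; congr 1; omega
      rw [this]
      show _ = _ * (_ * (KLg D.K (2 * L) (m - a) * _))
      ring
    rw [e1]
    by_cases hm : 2 * e0 + 3 * L ≤ m ∧ m ≤ 3 * e0 + 3 * L
    · have hg := hgain m hm.1 hm.2
      have e2 := sN_gain (D := Dat D lam hlam) (h := κ * lam) (β := β) hK (by positivity) hβ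
        (2 * L) (e0 := e0) (L := L) (m := m) hL1 (Finset.mem_Icc.2 hm) hp1 hp2 hq1 hq2 hc.le hT
        hnum hg.1 hg.2.1
      have e3 := mul_le_mul_of_nonneg_left e2 (pow_nonneg hx0.le m)
      refine le_trans (le_of_eq ?_) e3
      simp only [hgg]
      rw [if_pos hm, mul_add]
      rfl
    · have e2 := sN_ge_vS (D := Dat D lam hlam) (h := κ * lam) (β := β) hK (by positivity) hβ
        (2 * L) m
      have e3 := mul_le_mul_of_nonneg_left e2 (pow_nonneg hx0.le m)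
      simp only [hgg]
      rw [if_neg hm, add_zero]
      exact e3
  -- the sums
  have hsum' : 1 - η * (L : ℝ) ^ (-D.α) ≤ ∑ n ∈ Finset.Ioc 0 (T0 * L), (r1 n + r2 n) := by
    refine hsum.trans (le_of_eq (Finset.sum_congr rfl fun n _ => ?_))
    simp only [hr1, hr2]
    rw [← KS_add D.K (2 * L) n]
    ring
  have hLn : (0 : ℝ) < (L : ℝ) ^ (-D.α) := Real.rpow_pos_of_pos hLr _
  have hc1p : 0 < c1 := by rw [hc1]; positivity
  have hR : c1 * (L : ℝ) ^ (-D.α) ≤ ∑ n ∈ Finset.Ioc 0 (T0 * L), r2 n := by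
    have hsub : Finset.Ioc (2 * L) (4 * L) ⊆ Finset.Ioc 0 (T0 * L) := by
      apply Finset.Ioc_subset_Ioc (Nat.zero_le _)
      exact Nat.mul_le_mul_right L hT0
    refine le_trans ?_ (Finset.sum_le_sum_of_subset_of_nonneg hsub fun n _ _ => hr20 n)
    have hterm : ∀ n ∈ Finset.Ioc (2 * L) (4 * L),
        Real.exp (-8) * (c0 * (4 * (L : ℝ)) ^ (-β) * Real.exp (-(4 * κ))) ≤ r2 n := by
      intro n hn
      rw [Finset.mem_Ioc] at hn
      simp only [hr2]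
      have k1 : KLg D.K (2 * L) n = D.K n := by unfold KLg; rw [if_neg (by omega)]
      rw [k1]
      have hnr : (0 : ℝ) < n := by exact_mod_cast (show 0 < n by omega)
      have hnL : (n : ℝ) ≤ 4 * L := by exact_mod_cast hn.2
      have g1 : c0 * (4 * (L : ℝ)) ^ (-β) ≤ D.K n := by
        have := hK.lower n (by omega)
        rw [← hβd] at this
        refine le_trans ?_ this
        apply mul_le_mul_of_nonneg_left _ hc0.le
        exact Real.rpow_le_rpow_of_nonpos hnr hnL (by linarith)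
      have g2 : Real.exp (-(4 * κ)) ≤ aN (Dat D lam hlam) (κ * lam) β n := by
        refine le_trans ?_ (aN_lower D hβ lam hlam hK hκ n)
        apply Real.exp_le_exp.2
        have g3 : lam ^ 2 * (n : ℝ) ≤ 4 := by
          have : lam ^ 2 * (n : ℝ) ≤ lam ^ 2 * (4 * L) :=
            mul_le_mul_of_nonneg_left hnL (sq_nonneg _)
          linarith
        have := mul_le_mul_of_nonneg_left g3 hκ
        linarith
      exact mul_le_mul (hxpow n (by omega)) (mul_le_mul g1 g2 (Real.exp_pos _).le (hKn n))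
        (by positivity) (by positivity)
    have h1 := Finset.sum_le_sum hterm
    rw [Finset.sum_const, Nat.card_Ioc, nsmul_eq_mul] at h1
    refine le_trans (le_of_eq ?_) h1
    have e1 : ((4 * L - 2 * L : ℕ) : ℝ) = 2 * L := by
      rw [show 4 * L - 2 * L = 2 * L by omega]; push_cast; ring
    rw [e1, Real.mul_rpow (by norm_num) hLr.le, hc1]
    have e2 : (L : ℝ) * (L : ℝ) ^ (-β) = (L : ℝ) ^ (-D.α) := by
      rw [hβd, mul_comm, ← Real.rpow_add_one hLr.ne']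
      congr 1; ring
    rw [← e2]
    ring
  have hI : Real.exp (-8) * c2 / (2 * Mr) ≤ ∑ m ∈ Finset.Ioc 0 (4 * L), gg m := by
    have hsub : Finset.Icc (2 * e0 + 3 * L) (3 * e0 + 3 * L) ⊆ Finset.Ioc 0 (4 * L) := by
      intro k hk
      rw [Finset.mem_Icc] at hk
      rw [Finset.mem_Ioc]
      omega
    refine le_trans ?_ (Finset.sum_le_sum_of_subset_of_nonneg hsub fun n _ _ => hgg0 n)
    have h1 : ∑ _m ∈ Finset.Icc (2 * e0 + 3 * L) (3 * e0 + 3 * L), Real.exp (-8) * (c2 / L) ≤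
        ∑ m ∈ Finset.Icc (2 * e0 + 3 * L) (3 * e0 + 3 * L), gg m :=
      Finset.sum_le_sum fun m hm => hgg1 m (Finset.mem_Icc.1 hm).1 (Finset.mem_Icc.1 hm).2
    rw [Finset.sum_const, Nat.card_Icc, nsmul_eq_mul] at h1
    refine le_trans ?_ h1
    have e1 : (e0 : ℝ) ≤ ((3 * e0 + 3 * L + 1 - (2 * e0 + 3 * L) : ℕ) : ℝ) := by
      rw [show 3 * e0 + 3 * L + 1 - (2 * e0 + 3 * L) = e0 + 1 by omega]; push_cast; linarith
    have e2 : Real.exp (-8) * c2 / (2 * Mr) ≤ (e0 : ℝ) * (Real.exp (-8) * (c2 / L)) := by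
      rw [div_le_iff₀ (by positivity)]
      have e3 : (e0 : ℝ) * (Real.exp (-8) * (c2 / L)) * (2 * Mr) =
          (Real.exp (-8) * c2) * ((2 * Mr * e0) / L) := by
        field_simp
      rw [e3]
      apply le_mul_of_one_le_right (by positivity)
      rw [le_div_iff₀ hLr]
      linarith
    exact e2.trans (mul_le_mul_of_nonneg_right e1 (by positivity))
  obtain ⟨T, hTT⟩ := crit_abs hr10 hr20 hgg0 hs (η := η * (L : ℝ) ^ (-D.α)) (by positivity) hsum'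
    (R := c1 * (L : ℝ) ^ (-D.α)) (by positivity) hR hI (by
      calc η * (L : ℝ) ^ (-D.α) < (c1 * (Real.exp (-8) * c2 / (2 * Mr))) * (L : ℝ) ^ (-D.α) :=
            mul_lt_mul_of_pos_right hη hLn
        _ = c1 * (L : ℝ) ^ (-D.α) * (Real.exp (-8) * c2 / (2 * Mr)) := by ring)
  have hβ' : (1 + (Dat D lam hlam).α) = β := hβd.symm
  rw [← hβ'] at hTT
  exact crit_sum (D := Dat D lam hlam) hK (by positivity) (2 * L) hTT

/-- localization slightly above any level allowed by the integral criterion -/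
theorem loc_above (D : Data) (hα1 : D.α < 1) {κ : ℝ} (hκ : (1 + D.α)⁻¹ ≤ κ)
    (hI : 0 ≤ ∫ y in Set.Ioi (0 : ℝ), Jf D.α κ y) :
    ∃ δ : ℝ, 0 < δ ∧ ∀ᶠ lam in 𝓝[>] (0 : ℝ), ∀ hlam : 0 < lam,
      0 < (Dat D lam hlam).f ((κ + δ) * lam) := by
  obtain ⟨c0, n0, hK⟩ := M_K.J_K D
  have hα := D.hα
  have hβ : 1 < 1 + D.α := by linarith
  have hκ0 : 0 ≤ κ := (by positivity : (0 : ℝ) ≤ (1 + D.α)⁻¹).trans hκ
  have hc0 := hK.c0_pos
  obtain ⟨cU, hcU, hU⟩ := U_lower D hα1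
  obtain ⟨p0, q0, hp0, hp01, hq0, hq01, hne, htilt⟩ := tilt_ev D hκ0 hβ
  obtain ⟨η, c, hη, hc, hnum⟩ := num_gain hβ hp0 hp01 hq0 hq01 hne
  obtain ⟨M0, hM0⟩ := htilt η hη
  obtain ⟨M, hMd⟩ : ∃ M : ℕ, M = M0 + 3 := ⟨_, rfl⟩
  have hMr : (0 : ℝ) < M := by exact_mod_cast (show 0 < M by omega)
  obtain ⟨c3, hc3⟩ : ∃ c3 : ℝ, c3 = min 1 (c0 * Real.exp (-(4 * κ)) * (Real.exp (-κ) * cU) *
    (24 * (M : ℝ)) ^ (-(1 + D.α))) := ⟨_, rfl⟩
  have hc3p : 0 < c3 := by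
    rw [hc3]
    apply lt_min one_pos
    positivity
  obtain ⟨c2, hc2⟩ : ∃ c2 : ℝ, c2 = c * ((Real.exp (-κ) * cU * (2 * (M : ℝ)) ^ (-D.α)) *
      (c0 * Real.exp (-(4 * κ)) * (4 : ℝ) ^ (-(1 + D.α)) * c3)) := ⟨_, rfl⟩
  have hc2p : 0 < c2 := by rw [hc2]; positivity
  obtain ⟨c1, hc1⟩ : ∃ c1 : ℝ, c1 = 2 * Real.exp (-8) * c0 * (4 : ℝ) ^ (-(1 + D.α)) *
    Real.exp (-(4 * κ)) := ⟨_, rfl⟩
  have hc1p : 0 < c1 := by rw [hc1]; positivity
  set η1 : ℝ := c1 * (Real.exp (-8) * c2 / (2 * M)) / 2 with hη1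
  have hη1p : 0 < η1 := by positivity
  have hη1lt : η1 < c1 * (Real.exp (-8) * c2 / (2 * M)) := by
    have : 0 < c1 * (Real.exp (-8) * c2 / (2 * M)) := by positivity
    rw [hη1]; linarith
  obtain ⟨T0, hT0, δ, hδ0, hδ1, hsum⟩ := sum_crit D hK hα1 hκ hI hη1p
  refine ⟨δ, hδ0, ?_⟩
  filter_upwards [hM0 M (by omega), hsum, Lb_large (2 * M + n0 + 1)] with lam h1 h2 h3 hlam
  have hT := h1 hlam
  have hs := h2 hlam
  have hlamL0 : lam ^ 2 * (Lb lam : ℝ) ≤ 1 := Lb_le hlam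
  obtain ⟨L, hLd⟩ : ∃ L : ℕ, L = Lb lam := ⟨_, rfl⟩
  rw [← hLd] at hT hs hlamL0 h3
  obtain ⟨e0, he0⟩ : ∃ e0 : ℕ, e0 = L / M := ⟨_, rfl⟩
  rw [← he0] at hT
  have hn0 := hK.n0_pos
  have hL1 : 1 ≤ L := by omega
  have hdiv : M * e0 + L % M = L := by rw [he0]; exact Nat.div_add_mod L M
  have hmod : L % M < M := Nat.mod_lt _ (by omega)
  have he3 : 3 * e0 ≤ L := by
    have : 3 * e0 ≤ M * e0 := Nat.mul_le_mul_right e0 (by omega)
    omega
  have he2 : 2 ≤ e0 := by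
    rw [he0]
    exact (Nat.le_div_iff_mul_le (by omega)).2 (by omega)
  have hLe0 : (L : ℝ) ≤ 2 * M * e0 := by
    have h1 : L ≤ 2 * M * e0 := by nlinarith
    exact_mod_cast h1
  obtain ⟨e1, he1⟩ : ∃ e1 : ℕ, e1 = e0 / 2 := ⟨_, rfl⟩
  have hLe1 : (L : ℝ) ≤ 6 * M * e1 := by
    have h0 : e0 ≤ 3 * e1 := by omega
    have h1 : L ≤ 2 * M * e0 := by nlinarith
    have h2 : L ≤ 6 * M * e1 := by nlinarith
    exact_mod_cast h2
  have hgain : ∀ m : ℕ, 2 * e0 + 3 * L ≤ m → m ≤ 3 * e0 + 3 * L → _ := fun m hm1 hm2 =>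
    gain_core D hK hκ0 hc hcU hU hMr hc3 hc2 lam hlam (L := L) (e0 := e0) (e1 := e1)
      (by omega) hL1 hlamL0 he3 he2 (by omega) (by omega) hLe0 hLe1 (m := m) hm1 hm2
  have hn := hnum (max (p0 - η) 0) (max (1 - p0 - η) 0) (max (q0 - η) 0) (max (1 - q0 - η) 0)
    (le_max_right _ _) (le_max_right _ _) (le_max_right _ _) (le_max_right _ _)
    (le_max_left _ _) (le_max_left _ _) (le_max_left _ _) (le_max_left _ _)
  have hres := loc_core D hK hκ0 (c := c) (c2 := c2) (c1 := c1) (δ := δ) (η := η1) (Mr := M)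
    hc hc2p hδ0.le hδ1 hMr hη1p hc1 hη1lt lam hlam (L := L) (e0 := e0) (T0 := T0)
    (by omega) hL1 hlamL0 he3 hLe0 hT0 (le_max_right _ _) (le_max_right _ _) (le_max_right _ _)
    (le_max_right _ _) hT hn hgain hs
  rw [add_mul]
  exact hres

end Pool.Agent.TH983
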