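import Pool.Agent.TH983.Brk

/-!
# Exponential moments of sums of the weights
-/

set_option autoImplicit false
set_option maxHeartbeats 4000000
open MeasureTheory ProbabilityTheory Filter Topology
open scoped ENNReal NNReal

namespace Pool.Agent.TH983
open Cop764

theorem exp_taylor (y : ℝ) : Real.exp y ≤ 1 + y + y ^ 2 * Real.exp |y| := by
  rcases le_or_gt |y| 1 with h | h
  · have h1 := (abs_le.1 (Real.abs_exp_sub_one_sub_id_le h)).2
    have h2 : (1 : ℝ) ≤ Real.exp |y| := Real.one_le_exp (abs_nonneg y)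
    have h3 : 0 ≤ y ^ 2 := sq_nonneg y
    nlinarith
  · rcases le_total 0 y with hy | hy
    · rw [abs_of_nonneg hy] at h ⊢
      have h1 : (1 : ℝ) ≤ y ^ 2 := by nlinarith
      have h2 := Real.exp_pos y
      nlinarith
    · rw [abs_of_nonpos hy] at h ⊢
      have h1 : Real.exp y ≤ 1 := Real.exp_le_one_iff.2 hy
      have h2 : (1 : ℝ) ≤ Real.exp (-y) := Real.one_le_exp (by linarith)
      have h3 : -y ≤ y ^ 2 := by nlinarith
      have h4 : 0 ≤ y ^ 2 := sq_nonneg y
      nlinarith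

/-- quadratic bound for the moment generating function of the disorder -/
theorem mgf_quad (D : Data) : ∃ C : ℝ, 0 ≤ C ∧ ∀ s : ℝ, |s| ≤ 1 →
    ∫ x, Real.exp (s * x) ∂D.ν ≤ Real.exp (C * s ^ 2) := by
  have hi : Integrable (fun x : ℝ => x ^ 2 * Real.exp |x|) D.ν := by
    have h1 : Integrable (fun x : ℝ => 2 * (Real.exp (2 * x) + Real.exp (-2 * x))) D.ν :=
      ((D.expm 2).add (D.expm (-2))).const_mul 2
    refine h1.mono' (by fun_prop) (Filter.Eventually.of_forall fun x => ?_)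
    rw [Real.norm_eq_abs, abs_of_nonneg (by positivity)]
    have h2 : x ^ 2 ≤ 2 * Real.exp |x| := by
      have := Real.quadratic_le_exp_of_nonneg (abs_nonneg x)
      have h3 : |x| ^ 2 = x ^ 2 := sq_abs x
      have := abs_nonneg x
      nlinarith
    have h4 : Real.exp |x| * Real.exp |x| ≤ Real.exp (2 * x) + Real.exp (-2 * x) := by
      rw [← Real.exp_add]
      rcases le_total 0 x with hx | hx
      · rw [abs_of_nonneg hx, show x + x = 2 * x by ring]
        have := Real.exp_pos (-2 * x)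
        linarith
      · rw [abs_of_nonpos hx, show -x + -x = -2 * x by ring]
        have := Real.exp_pos (2 * x)
        linarith
    have h5 := Real.exp_pos |x|
    calc x ^ 2 * Real.exp |x| ≤ (2 * Real.exp |x|) * Real.exp |x| :=
          mul_le_mul_of_nonneg_right h2 h5.le
      _ = 2 * (Real.exp |x| * Real.exp |x|) := by ring
      _ ≤ _ := by linarith
  refine ⟨∫ x, x ^ 2 * Real.exp |x| ∂D.ν, integral_nonneg fun x => by positivity, fun s hs => ?_⟩
  have hid : Integrable (fun x : ℝ => x) D.ν := (nu_memLp D).integrable one_le_two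
  have h1 : ∫ x, Real.exp (s * x) ∂D.ν ≤ ∫ x, (1 + s * x + s ^ 2 * (x ^ 2 * Real.exp |x|)) ∂D.ν := by
    apply integral_mono (D.expm s)
      (((integrable_const 1).add (hid.const_mul s)).add (hi.const_mul _))
    intro x
    show Real.exp (s * x) ≤ 1 + s * x + s ^ 2 * (x ^ 2 * Real.exp |x|)
    refine (exp_taylor (s * x)).trans ?_
    have h2 : Real.exp |s * x| ≤ Real.exp |x| := by
      apply Real.exp_le_exp.2
      rw [abs_mul]
      have := abs_nonneg x
      nlinarith
    have h3 : (s * x) ^ 2 * Real.exp |s * x| ≤ (s * x) ^ 2 * Real.exp |x| :=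
      mul_le_mul_of_nonneg_left h2 (sq_nonneg _)
    have h4 : (s * x) ^ 2 * Real.exp |x| = s ^ 2 * (x ^ 2 * Real.exp |x|) := by ring
    linarith
  have i1 : Integrable (fun x : ℝ => 1 + s * x) D.ν := (integrable_const 1).add (hid.const_mul s)
  rw [integral_add i1 (hi.const_mul _),
    integral_add (integrable_const 1) (hid.const_mul s), integral_const_mul, integral_const_mul,
    D.mean] at h1
  simp only [integral_const, probReal_univ, smul_eq_mul, mul_one, mul_zero, add_zero] at h1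
  refine h1.trans ?_
  have := Real.add_one_le_exp ((∫ x, x ^ 2 * Real.exp |x| ∂D.ν) * s ^ 2)
  linarith

/-- sum of the weights over a finite set of sites -/
noncomputable def SW (w : ℕ → ℝ) (W : Finset ℕ) : ℝ := ∑ n ∈ W, w n

theorem meas_SW (D : Data) (h : ℝ) (W : Finset ℕ) : Measurable (fun ω => SW (D.w h ω) W) := by
  unfold SW Data.w
  refine Finset.measurable_fun_sum _ fun n _ => ?_
  have h1 : Measurable (fun ω : ℕ → ℝ => ω n) := measurable_pi_apply n
  exact (h1.add_const h).const_mul _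

/-- exponential moments of sums of weights -/
theorem mgf_SW (D : Data) (h t : ℝ) (W : Finset ℕ) :
    Integrable (fun ω => Real.exp (t * SW (D.w h ω) W)) D.P ∧
    ∫ ω, Real.exp (t * SW (D.w h ω) W) ∂D.P =
      (Real.exp (-2 * D.lam * t * h) * ∫ x, Real.exp ((-2 * D.lam * t) * x) ∂D.ν) ^ W.card := by
  set X : ℕ → (ℕ → ℝ) → ℝ := fun n ω => D.w h ω n with hX
  have hXm : ∀ n, Measurable (X n) := by
    intro n
    have h1 : Measurable (fun ω : ℕ → ℝ => ω n) := measurable_pi_apply n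
    exact (h1.add_const h).const_mul _
  have hI : iIndepFun X D.P := by
    have h1 := (coord_indep D).comp (fun _ (x : ℝ) => -2 * D.lam * (x + h)) (fun _ => by fun_prop)
    exact h1
  have e1 : ∀ n, (fun ω => Real.exp (t * X n ω)) = fun ω : ℕ → ℝ =>
      Real.exp (-2 * D.lam * t * h) * Real.exp ((-2 * D.lam * t) * ω n) := by
    intro n
    funext ω
    rw [← Real.exp_add]
    congr 1
    simp only [hX, Data.w]
    ring
  have hint0 : ∀ n, Integrable (fun ω : ℕ → ℝ => Real.exp ((-2 * D.lam * t) * ω n)) D.P := by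
    intro n
    have h1 := (eval_mp D n).integrable_comp_of_integrable (D.expm (-2 * D.lam * t))
    exact h1
  have hint : ∀ n, Integrable (fun ω => Real.exp (t * X n ω)) D.P := by
    intro n
    rw [e1]
    exact (hint0 n).const_mul _
  have hmgf : ∀ n, mgf (X n) D.P t =
      Real.exp (-2 * D.lam * t * h) * ∫ x, Real.exp ((-2 * D.lam * t) * x) ∂D.ν := by
    intro n
    unfold mgf
    rw [e1, integral_const_mul]
    congr 1
    rw [← (eval_mp D n).map_eq, integral_map (measurable_pi_apply n).aemeasurable (by fun_prop)]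
  have e2 : (fun ω => Real.exp (t * SW (D.w h ω) W)) = fun ω => Real.exp (t * (∑ n ∈ W, X n) ω) := by
    funext ω
    simp only [SW, Finset.sum_apply, hX]
  rw [e2]
  refine ⟨hI.integrable_exp_mul_sum hXm fun n _ => hint n, ?_⟩
  have h2 := hI.mgf_sum hXm W (t := t)
  unfold mgf at h2
  rw [h2]
  have : ∀ n ∈ W, ∫ ω, Real.exp (t * X n ω) ∂D.P =
      Real.exp (-2 * D.lam * t * h) * ∫ x, Real.exp ((-2 * D.lam * t) * x) ∂D.ν := fun n _ => hmgf n
  rw [Finset.prod_congr rfl this, Finset.prod_const]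

/-- uniform bound in the weak coupling window -/
theorem mgf_bound (D : Data) {κ : ℝ} (hκ : 0 ≤ κ) : ∃ C : ℝ, 0 ≤ C ∧
    ∀ (lam : ℝ) (hlam : 0 < lam), lam ≤ 1 / 8 → ∀ t : ℝ, |t| ≤ 4 → ∀ W : Finset ℕ,
      ∫ ω, Real.exp (t * SW ((Dat D lam hlam).w (κ * lam) ω) W) ∂D.P ≤
        Real.exp (C * |t| * (lam ^ 2 * W.card)) := by
  obtain ⟨C, hC0, hC⟩ := mgf_quad D
  refine ⟨2 * κ + 16 * C, by positivity, fun lam hlam hl t ht W => ?_⟩
  have h1 := (mgf_SW (Dat D lam hlam) (κ * lam) t W).2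
  have h1' : ∫ ω, Real.exp (t * SW ((Dat D lam hlam).w (κ * lam) ω) W) ∂D.P =
      (Real.exp (-2 * lam * t * (κ * lam)) * ∫ x, Real.exp ((-2 * lam * t) * x) ∂D.ν) ^ W.card := h1
  rw [h1']
  have hs : |-2 * lam * t| ≤ 1 := by
    rw [abs_mul, abs_mul, abs_of_pos hlam, abs_neg, abs_two]
    have := abs_nonneg t
    nlinarith
  have h2 := hC _ hs
  have h3 : Real.exp (-2 * lam * t * (κ * lam)) * ∫ x, Real.exp ((-2 * lam * t) * x) ∂D.ν ≤
      Real.exp ((2 * κ + 16 * C) * |t| * lam ^ 2) := by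
    calc _ ≤ Real.exp (-2 * lam * t * (κ * lam)) * Real.exp (C * (-2 * lam * t) ^ 2) :=
          mul_le_mul_of_nonneg_left h2 (Real.exp_pos _).le
      _ = Real.exp (-2 * lam * t * (κ * lam) + C * (-2 * lam * t) ^ 2) := (Real.exp_add _ _).symm
      _ ≤ _ := by
          apply Real.exp_le_exp.2
          have e1 : -t ≤ |t| := neg_le_abs t
          have e2 : t ^ 2 ≤ 4 * |t| := by
            rw [← sq_abs]
            have := abs_nonneg t
            nlinarith
          have e3 : 0 ≤ lam ^ 2 := sq_nonneg _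
          have e4 : κ * lam ^ 2 * (-t) ≤ κ * lam ^ 2 * |t| :=
            mul_le_mul_of_nonneg_left e1 (by positivity)
          have e5 : C * lam ^ 2 * t ^ 2 ≤ C * lam ^ 2 * (4 * |t|) :=
            mul_le_mul_of_nonneg_left e2 (by positivity)
          nlinarith
  have h4 : 0 ≤ Real.exp (-2 * lam * t * (κ * lam)) * ∫ x, Real.exp ((-2 * lam * t) * x) ∂D.ν :=
    mul_nonneg (Real.exp_pos _).le (integral_nonneg fun x => (Real.exp_pos _).le)
  calc _ ≤ (Real.exp ((2 * κ + 16 * C) * |t| * lam ^ 2)) ^ W.card :=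
        pow_le_pow_left₀ h4 h3 _
    _ = Real.exp ((2 * κ + 16 * C) * |t| * (lam ^ 2 * W.card)) := by
        rw [← Real.exp_nat_mul]
        congr 1
        ring

theorem S_eq_SW (w : ℕ → ℝ) (i j : ℕ) : S w i j = SW w (Finset.Ioc i j) := rfl

/-- `|x| e^{|x|}` in terms of exponentials -/
theorem abs_exp_le {s : ℝ} (hs : 0 < s) (x : ℝ) :
    |x| * Real.exp |x| ≤ (Real.exp x + Real.exp (-x) - 2) / (2 * s) +
      s / 2 * (Real.exp (2 * x) + Real.exp (-2 * x)) := by
  have h1 : x ^ 2 ≤ Real.exp x + Real.exp (-x) - 2 := by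
    have h2 := Real.quadratic_le_exp_of_nonneg (abs_nonneg x)
    have key : ∀ y : ℝ, 0 ≤ y → y ^ 2 ≤ Real.exp y + Real.exp (-y) - 2 := by
      intro y hy
      have h3 : Real.exp y + Real.exp (-y) - 2 = (2 * Real.sinh (y / 2)) ^ 2 := by
        rw [Real.sinh_eq]
        have e1 : Real.exp y = Real.exp (y / 2) * Real.exp (y / 2) := by
          rw [← Real.exp_add]; congr 1; ring
        have e2 : Real.exp (-y) = Real.exp (-(y / 2)) * Real.exp (-(y / 2)) := by
          rw [← Real.exp_add]; congr 1; ring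
        have e3 : Real.exp (y / 2) * Real.exp (-(y / 2)) = 1 := by
          rw [← Real.exp_add]; simp
        rw [e1, e2]
        linear_combination 2 * e3
      rw [h3]
      have h4 := Real.self_le_sinh_iff.2 (show 0 ≤ y / 2 by linarith)
      nlinarith
    rcases le_total 0 x with hx | hx
    · exact key x hx
    · have := key (-x) (by linarith)
      rw [neg_neg] at this
      linarith [this, neg_sq x]
  have h2 : Real.exp |x| ^ 2 ≤ Real.exp (2 * x) + Real.exp (-2 * x) := by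
    rw [← Real.exp_nat_mul]
    push_cast
    rcases le_total 0 x with hx | hx
    · rw [abs_of_nonneg hx]
      have := Real.exp_pos (-2 * x)
      linarith
    · rw [abs_of_nonpos hx, show 2 * -x = -2 * x by ring]
      have := Real.exp_pos (2 * x)
      linarith
  have h3 : |x| * Real.exp |x| ≤ x ^ 2 / (2 * s) + s / 2 * Real.exp |x| ^ 2 := by
    have h4 : 0 ≤ (|x| - s * Real.exp |x|) ^ 2 := sq_nonneg _
    have h5 : |x| ^ 2 = x ^ 2 := sq_abs x
    rw [div_add' _ _ _ (by positivity), le_div_iff₀ (by positivity)]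
    nlinarith
  have h4 : x ^ 2 / (2 * s) ≤ (Real.exp x + Real.exp (-x) - 2) / (2 * s) :=
    div_le_div_of_nonneg_right h1 (by positivity)
  have h5 : s / 2 * Real.exp |x| ^ 2 ≤ s / 2 * (Real.exp (2 * x) + Real.exp (-2 * x)) :=
    mul_le_mul_of_nonneg_left h2 (by positivity)
  linarith

theorem abs_exp_int (D : Data) (h : ℝ) (W : Finset ℕ) :
    Integrable (fun ω => |SW (D.w h ω) W| * Real.exp |SW (D.w h ω) W|) D.P := by
  have e1 := (mgf_SW D h 1 W).1
  have e2 := (mgf_SW D h (-1) W).1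
  have e3 := (mgf_SW D h 2 W).1
  have e4 := (mgf_SW D h (-2) W).1
  have hm := meas_SW D h W
  have hdom : Integrable (fun ω => (Real.exp (1 * SW (D.w h ω) W) +
      Real.exp (-1 * SW (D.w h ω) W) - 2) / (2 * 1) + 1 / 2 * (Real.exp (2 * SW (D.w h ω) W) +
      Real.exp (-2 * SW (D.w h ω) W))) D.P :=
    (((e1.add e2).sub (integrable_const 2)).div_const _).add ((e3.add e4).const_mul _)
  refine hdom.mono' (hm.abs.mul hm.abs.exp).aestronglyMeasurable
    (Filter.Eventually.of_forall fun ω => ?_)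
  rw [Real.norm_eq_abs, abs_of_nonneg (by positivity)]
  have := abs_exp_le one_pos (SW (D.w h ω) W)
  simpa using this

/-- sums over small windows are small in the exponential sense -/
theorem window_small (D : Data) {κ : ℝ} (hκ : 0 ≤ κ) {η : ℝ} (hη : 0 < η) :
    ∃ r : ℝ, 0 < r ∧ ∀ (lam : ℝ) (hlam : 0 < lam), lam ≤ 1 / 8 → ∀ W : Finset ℕ,
      lam ^ 2 * W.card ≤ r →
      ∫ ω, |SW ((Dat D lam hlam).w (κ * lam) ω) W| *
        Real.exp |SW ((Dat D lam hlam).w (κ * lam) ω) W| ∂D.P ≤ η := by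
  obtain ⟨C, hC0, hC⟩ := mgf_bound D hκ
  -- choose s, then r
  set s : ℝ := η / (4 * Real.exp (2 * C)) with hs
  have hs0 : 0 < s := by positivity
  obtain ⟨r, hr0, hr1, hr⟩ : ∃ r : ℝ, 0 < r ∧ r ≤ 1 ∧ 2 * (Real.exp (C * r) - 1) ≤ η * s := by
    have hcont : Continuous (fun r : ℝ => 2 * (Real.exp (C * r) - 1)) := by fun_prop
    have h0 : (fun r : ℝ => 2 * (Real.exp (C * r) - 1)) 0 < η * s := by
      simp only [mul_zero, Real.exp_zero, sub_self, mul_zero]
      positivity
    have hev : ∀ᶠ r in 𝓝[>] (0 : ℝ), 2 * (Real.exp (C * r) - 1) < η * s :=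
      ((hcont.tendsto 0).eventually (gt_mem_nhds h0)).filter_mono nhdsWithin_le_nhds
    have hev2 : ∀ᶠ r in 𝓝[>] (0 : ℝ), r ≤ 1 :=
      (eventually_le_nhds (show (0 : ℝ) < 1 by norm_num)).filter_mono nhdsWithin_le_nhds
    obtain ⟨r, ⟨h1, h2⟩, h3⟩ := ((hev.and hev2).and self_mem_nhdsWithin).exists
    exact ⟨r, h3, h2, h1.le⟩
  refine ⟨r, hr0, fun lam hlam hl W hW => ?_⟩
  have hW0 : 0 ≤ lam ^ 2 * (W.card : ℝ) := by positivity
  set X : (ℕ → ℝ) → ℝ := fun ω => SW ((Dat D lam hlam).w (κ * lam) ω) W with hX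
  have b : ∀ t : ℝ, |t| ≤ 4 → ∫ ω, Real.exp (t * X ω) ∂D.P ≤ Real.exp (C * |t| * r) := by
    intro t ht
    refine (hC lam hlam hl t ht W).trans (Real.exp_le_exp.2 ?_)
    exact mul_le_mul_of_nonneg_left hW (by positivity)
  have e1 := (mgf_SW (Dat D lam hlam) (κ * lam) 1 W).1
  have e2 := (mgf_SW (Dat D lam hlam) (κ * lam) (-1) W).1
  have e3 := (mgf_SW (Dat D lam hlam) (κ * lam) 2 W).1
  have e4 := (mgf_SW (Dat D lam hlam) (κ * lam) (-2) W).1
  have b1 := b 1 (by norm_num)
  have b2 := b (-1) (by norm_num)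
  have b3 := b 2 (by norm_num)
  have b4 := b (-2) (by norm_num)
  have hmono : ∫ ω, |X ω| * Real.exp |X ω| ∂D.P ≤ ∫ ω, ((Real.exp (1 * X ω) +
      Real.exp (-1 * X ω) - 2) / (2 * s) + s / 2 * (Real.exp (2 * X ω) + Real.exp (-2 * X ω))) ∂D.P := by
    apply integral_mono (abs_exp_int (Dat D lam hlam) (κ * lam) W)
      ((((e1.add e2).sub (integrable_const 2)).div_const _).add ((e3.add e4).const_mul _))
    intro ω
    show |X ω| * Real.exp |X ω| ≤ (Real.exp (1 * X ω) +
      Real.exp (-1 * X ω) - 2) / (2 * s) + s / 2 * (Real.exp (2 * X ω) + Real.exp (-2 * X ω))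
    have := abs_exp_le hs0 (X ω)
    simpa using this
  refine hmono.trans ?_
  have e5 : ∫ ω, ((Real.exp (1 * X ω) + Real.exp (-1 * X ω) - 2) / (2 * s) +
      s / 2 * (Real.exp (2 * X ω) + Real.exp (-2 * X ω))) ∂D.P =
      (∫ ω, Real.exp (1 * X ω) ∂D.P + ∫ ω, Real.exp (-1 * X ω) ∂D.P - 2) / (2 * s) +
      s / 2 * (∫ ω, Real.exp (2 * X ω) ∂D.P + ∫ ω, Real.exp (-2 * X ω) ∂D.P) := by
    have e1' : Integrable (fun ω => Real.exp (1 * X ω)) D.P := e1
    have e2' : Integrable (fun ω => Real.exp (-1 * X ω)) D.P := e2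
    have e3' : Integrable (fun ω => Real.exp (2 * X ω)) D.P := e3
    have e4' : Integrable (fun ω => Real.exp (-2 * X ω)) D.P := e4
    have f1' : Integrable (fun ω => Real.exp (1 * X ω) + Real.exp (-1 * X ω)) D.P := e1'.add e2'
    have f2' : Integrable (fun ω => Real.exp (2 * X ω) + Real.exp (-2 * X ω)) D.P := e3'.add e4'
    have f3' : Integrable (fun ω => Real.exp (1 * X ω) + Real.exp (-1 * X ω) - 2) D.P :=
      f1'.sub (integrable_const 2)
    rw [integral_add (f3'.div_const _) (f2'.const_mul _), integral_div, integral_const_mul,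
      integral_add e3' e4', integral_sub f1' (integrable_const 2), integral_add e1' e2']
    simp
  rw [e5]
  have f1 : Real.exp (C * |1| * r) = Real.exp (C * r) := by rw [abs_one, mul_one]
  have f2 : Real.exp (C * |(-1 : ℝ)| * r) = Real.exp (C * r) := by rw [abs_neg, abs_one, mul_one]
  have f3 : Real.exp (C * |(2 : ℝ)| * r) ≤ Real.exp (2 * C) := by
    apply Real.exp_le_exp.2
    rw [abs_two]
    nlinarith
  have f4 : Real.exp (C * |(-2 : ℝ)| * r) ≤ Real.exp (2 * C) := by
    apply Real.exp_le_exp.2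
    rw [abs_neg, abs_two]
    nlinarith
  rw [f1] at b1
  rw [f2] at b2
  have g1 : (∫ ω, Real.exp (1 * X ω) ∂D.P + ∫ ω, Real.exp (-1 * X ω) ∂D.P - 2) / (2 * s) ≤ η / 2 := by
    rw [div_le_iff₀ (by positivity)]
    linarith
  have g2 : s / 2 * (∫ ω, Real.exp (2 * X ω) ∂D.P + ∫ ω, Real.exp (-2 * X ω) ∂D.P) ≤ η / 2 := by
    have h5 : ∫ ω, Real.exp (2 * X ω) ∂D.P + ∫ ω, Real.exp (-2 * X ω) ∂D.P ≤
        2 * Real.exp (2 * C) := by linarith
    calc _ ≤ s / 2 * (2 * Real.exp (2 * C)) := mul_le_mul_of_nonneg_left h5 (by positivity)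
      _ = η / 4 := by rw [hs]; field_simp
      _ ≤ _ := by linarith
  linarith

end Pool.Agent.TH983
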