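import Pool.Agent.TH983.Conv
import Pool.Agent.Helper764.Cop_indep
import Pool.Agent.Helper764.Cop_Fsub

/-!
# The moment free energy
-/

set_option autoImplicit false
set_option maxHeartbeats 4000000
open MeasureTheory ProbabilityTheory Filter Topology
open scoped ENNReal NNReal

namespace Pool.Agent.TH983
open Cop764

variable {D : Data} {c0 : ℝ} {n0 : ℕ} {h θ : ℝ}

/-- moment of `F` on `(0,N]` -/
noncomputable def fm (D : Data) (h θ : ℝ) (N : ℕ) : ℝ := ∫ ω, (F D.K (D.w h ω) 0 N) ^ θ ∂D.P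

/-- moment of `G` on `(0,N]` -/
noncomputable def gm (D : Data) (h θ : ℝ) (N : ℕ) : ℝ := ∫ ω, (G D.K (D.w h ω) 0 N) ^ θ ∂D.P

/-- moment of `Z` -/
noncomputable def zm (D : Data) (h θ : ℝ) (N : ℕ) : ℝ := ∫ ω, (Z D.κ D.lam h N ω) ^ θ ∂D.P

theorem F_half (hK : KHyp D.K D.α c0 n0) (ω : ℕ → ℝ) {a b : ℕ} (hab : a ≤ b) :
    1 / 2 ≤ F D.K (D.w h ω) a b :=
  (M_fe.fe833_half _ a b).trans (M_Fbd.J_Fbd D.K (D.w h ω) D.α c0 n0 hK a b hab).1

theorem F_congr (D : Data) (h : ℝ) {ω ω' : ℕ → ℝ} {a b : ℕ}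
    (hh : ∀ n ∈ Finset.Ioc a b, ω n = ω' n) :
    F D.K (D.w h ω) a b = F D.K (D.w h ω') a b :=
  ((M_loc.J_loc).2.2.2 D.K _ _ a b (w_congr D h hh)).2.1

theorem F_meas (D : Data) (h : ℝ) (a b : ℕ) : Measurable (fun ω => F D.K (D.w h ω) a b) :=
  (M_meas.J_meas D h a b).2.1

theorem F_stat (D : Data) (h θ : ℝ) (i j k : ℕ) :
    ∫ ω, (F D.K (D.w h ω) (i + k) (j + k)) ^ θ ∂D.P = ∫ ω, (F D.K (D.w h ω) i j) ^ θ ∂D.P := by
  rw [← M_fe.fe833_shift D k (fun ω => (F D.K (D.w h ω) i j) ^ θ) ((F_meas D h i j).pow_const θ)]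
  apply integral_congr_ae
  refine Filter.Eventually.of_forall fun ω => ?_
  show F D.K (D.w h ω) (i + k) (j + k) ^ θ = F D.K (fun n => D.w h ω (n + k)) i j ^ θ
  rw [M_loc.J_loc.2.1]

theorem Fpow_int (hK : KHyp D.K D.α c0 n0) (h0 : 0 ≤ h) (hθ : 0 ≤ θ) (hθ1 : θ ≤ 1) (a ℓ : ℕ)
    (hℓ : 1 ≤ ℓ) : Integrable (fun ω => (F D.K (D.w h ω) a (a + ℓ)) ^ θ) D.P := by
  obtain ⟨C1, _, hEF⟩ := M_EF.J_EF D
  have h1 := (hEF h h0 a ℓ hℓ).1
  refine ((integrable_const (1 : ℝ)).add h1).mono'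
    (((F_meas D h a (a + ℓ)).pow_const θ).aestronglyMeasurable) ?_
  refine Filter.Eventually.of_forall fun ω => ?_
  have hF0 : 0 ≤ F D.K (D.w h ω) a (a + ℓ) := by
    have := F_half (h := h) hK ω (show a ≤ a + ℓ by omega)
    linarith
  rw [Real.norm_eq_abs, abs_of_nonneg (Real.rpow_nonneg hF0 _)]
  show _ ≤ 1 + F D.K (D.w h ω) a (a + ℓ)
  rcases le_total (F D.K (D.w h ω) a (a + ℓ)) 1 with h2 | h2
  · have := Real.rpow_le_one hF0 h2 hθ
    linarith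
  · have := Real.rpow_le_rpow_of_exponent_le h2 hθ1
    rw [Real.rpow_one] at this
    linarith

theorem F_self (D : Data) (h : ℝ) (a : ℕ) (ω : ℕ → ℝ) (hnn : ∀ n, 0 ≤ D.K n) :
    F D.K (D.w h ω) a a = 1 := by
  unfold F
  have h1 : phi (D.w h ω) a a = 1 := by
    unfold phi S
    simp
  rw [Finset.Icc_self, Finset.sum_singleton, Finset.Icc_self, Finset.sum_singleton, h1,
    (M_G.J_G D.K (D.w h ω) hnn).1]
  norm_num

theorem Fpow_int' (hK : KHyp D.K D.α c0 n0) (h0 : 0 ≤ h) (hθ : 0 ≤ θ) (hθ1 : θ ≤ 1) (a ℓ : ℕ) :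
    Integrable (fun ω => (F D.K (D.w h ω) a (a + ℓ)) ^ θ) D.P := by
  rcases Nat.eq_zero_or_pos ℓ with h1 | h1
  · subst h1
    have : (fun ω => (F D.K (D.w h ω) a (a + 0)) ^ θ) = fun _ => (1 : ℝ) := by
      funext ω
      rw [Nat.add_zero, F_self D h a ω hK.nonneg, Real.one_rpow]
    rw [this]
    exact integrable_const _
  · exact Fpow_int hK h0 hθ hθ1 a ℓ h1

theorem fm_ge (hK : KHyp D.K D.α c0 n0) (h0 : 0 ≤ h) (hθ : 0 ≤ θ) (hθ1 : θ ≤ 1) (N : ℕ) :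
    (1 / 2 : ℝ) ^ θ ≤ fm D h θ N := by
  have h1 := Fpow_int' (D := D) hK h0 hθ hθ1 0 N
  rw [zero_add] at h1
  have h2 : ∫ _ω : ℕ → ℝ, (1 / 2 : ℝ) ^ θ ∂D.P ≤ fm D h θ N := by
    refine integral_mono (integrable_const _) h1 fun ω => ?_
    exact Real.rpow_le_rpow (by norm_num) (F_half (h := h) hK ω (Nat.zero_le N)) hθ
  simpa using h2

theorem fm_sub (hK : KHyp D.K D.α c0 n0) (h0 : 0 ≤ h) (hθ : 0 ≤ θ) (hθ1 : θ ≤ 1) (M N : ℕ) :
    fm D h θ (M + N) ≤ 6 ^ θ * (fm D h θ M * fm D h θ N) := by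
  have hi1 := Fpow_int' (D := D) hK h0 hθ hθ1 0 M
  have hi2 := Fpow_int' (D := D) hK h0 hθ hθ1 M N
  have hi3 := Fpow_int' (D := D) hK h0 hθ hθ1 0 (M + N)
  rw [zero_add] at hi1 hi3
  have hind : IndepFun (fun ω => (F D.K (D.w h ω) 0 M) ^ θ)
      (fun ω => (F D.K (D.w h ω) M (M + N)) ^ θ) (disorder D.ν) := by
    refine M_indep.J_indep D.ν (Finset.Ioc 0 M) (Finset.Ioc M (M + N))
      (Finset.Ioc_disjoint_Ioc_of_le le_rfl) _ _ ((F_meas D h 0 M).pow_const θ)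
      ((F_meas D h M (M + N)).pow_const θ) ?_ ?_
    · intro ω ω' hh
      rw [F_congr D h hh]
    · intro ω ω' hh
      rw [F_congr D h hh]
  have h1 := hind.integral_fun_mul_eq_mul_integral
    ((F_meas D h 0 M).pow_const θ).aestronglyMeasurable
    ((F_meas D h M (M + N)).pow_const θ).aestronglyMeasurable
  have h2 : ∫ ω, (F D.K (D.w h ω) M (M + N)) ^ θ ∂D.P = fm D h θ N := by
    have := F_stat D h θ 0 N M
    rw [zero_add, Nat.add_comm N M] at this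
    exact this
  have hprod : Integrable (fun ω => (F D.K (D.w h ω) 0 M) ^ θ * (F D.K (D.w h ω) M (M + N)) ^ θ)
      D.P := hind.integrable_mul hi1 hi2
  have h3 : fm D h θ (M + N) ≤ ∫ ω, 6 ^ θ * ((F D.K (D.w h ω) 0 M) ^ θ *
      (F D.K (D.w h ω) M (M + N)) ^ θ) ∂D.P := by
    refine integral_mono hi3 (hprod.const_mul _) fun ω => ?_
    have hF1 := F_half (h := h) hK ω (Nat.zero_le M)
    have hF2 := F_half (h := h) hK ω (show M ≤ M + N by omega)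
    have hF3 := F_half (h := h) hK ω (Nat.zero_le (M + N))
    show (F D.K (D.w h ω) 0 (M + N)) ^ θ ≤ 6 ^ θ * ((F D.K (D.w h ω) 0 M) ^ θ *
      (F D.K (D.w h ω) M (M + N)) ^ θ)
    rw [← Real.mul_rpow (by linarith) (by linarith), ← Real.mul_rpow (by norm_num)
      (mul_nonneg (by linarith) (by linarith))]
    exact Real.rpow_le_rpow (by linarith)
      (M_Fsub.J_Fsub D.K (D.w h ω) D.α c0 n0 hK 0 M (M + N) (Nat.zero_le _) (by omega)) hθ
  rw [integral_const_mul] at h3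
  have h4 : ∫ ω, (F D.K (D.w h ω) 0 M) ^ θ * (F D.K (D.w h ω) M (M + N)) ^ θ ∂D.P =
      fm D h θ M * fm D h θ N := by
    rw [← h2]
    exact h1
  rwa [h4] at h3

theorem fm_pos (hK : KHyp D.K D.α c0 n0) (h0 : 0 ≤ h) (hθ : 0 ≤ θ) (hθ1 : θ ≤ 1) (N : ℕ) :
    0 < fm D h θ N :=
  lt_of_lt_of_le (Real.rpow_pos_of_pos (by norm_num) _) (fm_ge hK h0 hθ hθ1 N)

/-- the exponential rate of the moments of `F` -/
theorem fm_lim (hK : KHyp D.K D.α c0 n0) (h0 : 0 ≤ h) (hθ : 0 ≤ θ) (hθ1 : θ ≤ 1) :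
    ∃ ψ : ℝ, 0 ≤ ψ ∧ Tendsto (fun N : ℕ => Real.log (fm D h θ N) / N) atTop (𝓝 ψ) := by
  obtain ⟨u, hu⟩ : ∃ u : ℕ → ℝ, ∀ N, u N = Real.log (6 ^ θ * fm D h θ N) := ⟨_, fun _ => rfl⟩
  have h6 : (0 : ℝ) < 6 ^ θ := Real.rpow_pos_of_pos (by norm_num) _
  have hsub : Subadditive u := by
    intro M N
    rw [hu, hu, hu, ← Real.log_mul (mul_pos h6 (fm_pos hK h0 hθ hθ1 M)).ne'
      (mul_pos h6 (fm_pos hK h0 hθ hθ1 N)).ne']
    apply Real.log_le_log (mul_pos h6 (fm_pos hK h0 hθ hθ1 _))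
    have := mul_le_mul_of_nonneg_left (fm_sub hK h0 hθ hθ1 M N) h6.le
    linarith [this]
  have hnn : ∀ N, 0 ≤ u N := by
    intro N
    rw [hu]
    apply Real.log_nonneg
    have h1 := mul_le_mul_of_nonneg_left (fm_ge hK h0 hθ hθ1 N) h6.le
    rw [← Real.mul_rpow (by norm_num) (by norm_num)] at h1
    refine le_trans ?_ h1
    exact Real.one_le_rpow (by norm_num) hθ
  have hbdd : BddBelow (Set.range fun n => u n / n) := by
    refine ⟨0, ?_⟩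
    rintro _ ⟨n, rfl⟩
    exact div_nonneg (hnn n) (Nat.cast_nonneg n)
  have hlim := hsub.tendsto_lim hbdd
  refine ⟨hsub.lim, ge_of_tendsto' hlim fun n => div_nonneg (hnn n) (Nat.cast_nonneg n), ?_⟩
  have h2 : Tendsto (fun N : ℕ => u N / N - Real.log (6 ^ θ) / N) atTop (𝓝 (hsub.lim - 0)) :=
    hlim.sub (tendsto_const_div_atTop_nhds_zero_nat _)
  rw [sub_zero] at h2
  refine h2.congr fun N => ?_
  rw [hu, Real.log_mul h6.ne' (fm_pos hK h0 hθ hθ1 N).ne']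
  ring

/-- polynomial factor -/
noncomputable def Qp (α c0 : ℝ) (n0 N : ℕ) : ℝ :=
  c0⁻¹ ^ 2 * ((N : ℝ) + 1) ^ 2 * ((N : ℝ) + n0) ^ (2 * (1 + α))

theorem Qp_pos (hK : KHyp D.K D.α c0 n0) (N : ℕ) : 0 < Qp D.α c0 n0 N := by
  have hn0 := hK.n0_pos
  have hc0 := hK.c0_pos
  have hn0' : (0 : ℝ) < n0 := by exact_mod_cast hn0
  have : (0 : ℝ) < (N : ℝ) + n0 := by positivity
  unfold Qp
  have := Real.rpow_pos_of_pos this (2 * (1 + D.α))
  positivity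

/-- moment of the boundary factor -/
noncomputable def am (D : Data) (h θ : ℝ) (n0 : ℕ) : ℝ :=
  ∫ ω, Real.exp (-θ * |S (D.w h ω) 0 n0|) ∂D.P

theorem expS_int (D : Data) (h : ℝ) {θ : ℝ} (hθ : 0 ≤ θ) (a b : ℕ) :
    Integrable (fun ω => Real.exp (-θ * |S (D.w h ω) a b|)) D.P := by
  refine Integrable.of_bound (C := 1) ?_ ?_
  · have := (M_meas.J_meas D h a b).2.2.abs.const_mul (-θ)
    exact (Real.measurable_exp.comp this).aestronglyMeasurable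
  · refine Filter.Eventually.of_forall fun ω => ?_
    rw [Real.norm_eq_abs, abs_of_pos (Real.exp_pos _), Real.exp_le_one_iff]
    have := mul_nonneg hθ (abs_nonneg (S (D.w h ω) a b))
    linarith

theorem expS_stat (D : Data) (h θ : ℝ) (i j k : ℕ) :
    ∫ ω, Real.exp (-θ * |S (D.w h ω) (i + k) (j + k)|) ∂D.P =
      ∫ ω, Real.exp (-θ * |S (D.w h ω) i j|) ∂D.P := by
  have hm : Measurable (fun ω => Real.exp (-θ * |S (D.w h ω) i j|)) :=
    Real.measurable_exp.comp ((M_meas.J_meas D h i j).2.2.abs.const_mul (-θ))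
  rw [← M_fe.fe833_shift D k (fun ω => Real.exp (-θ * |S (D.w h ω) i j|)) hm]
  apply integral_congr_ae
  refine Filter.Eventually.of_forall fun ω => ?_
  show Real.exp (-θ * |S (D.w h ω) (i + k) (j + k)|) =
    Real.exp (-θ * |S (fun n => D.w h ω (n + k)) i j|)
  rw [M_loc.J_loc.2.2.1]

theorem am_pos (D : Data) (h : ℝ) {θ : ℝ} (hθ : 0 ≤ θ) (n0 : ℕ) : 0 < am D h θ n0 := by
  unfold am
  rw [integral_pos_iff_support_of_nonneg (fun ω => (Real.exp_pos _).le) (expS_int D h hθ 0 n0)]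
  have : Function.support (fun ω : ℕ → ℝ => Real.exp (-θ * |S (D.w h ω) 0 n0|)) = Set.univ := by
    ext ω
    simp
  rw [this]
  simp

/-- comparison of moments of `F` and of `G` -/
theorem gm_ge (hK : KHyp D.K D.α c0 n0) (h0 : 0 ≤ h) (hθ : 0 ≤ θ) (hθ1 : θ ≤ 1) (N : ℕ) :
    am D h θ n0 ^ 2 * fm D h θ N ≤ Qp D.α c0 n0 N ^ θ * gm D h θ (N + 2 * n0) := by
  have hn0 := hK.n0_pos
  have hQ := Qp_pos hK N
  have hi2 := Fpow_int' (D := D) hK h0 hθ hθ1 n0 N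
  have hGi := Gpow_int hK h0 hθ hθ1 (show 1 ≤ N + 2 * n0 by omega)
  have e0 : n0 + N = N + n0 := Nat.add_comm _ _
  rw [e0] at hi2
  have hmS : ∀ a b, Measurable (fun ω => Real.exp (-θ * |S (D.w h ω) a b|)) := fun a b =>
    Real.measurable_exp.comp ((M_meas.J_meas D h a b).2.2.abs.const_mul (-θ))
  have hmF : Measurable (fun ω => F D.K (D.w h ω) n0 (N + n0) ^ θ) :=
    (F_meas D h n0 (N + n0)).pow_const θ
  have hlS : ∀ a b, ∀ ω ω' : ℕ → ℝ, (∀ n ∈ Finset.Ioc a b, ω n = ω' n) →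
      Real.exp (-θ * |S (D.w h ω) a b|) = Real.exp (-θ * |S (D.w h ω') a b|) := by
    intro a b ω ω' hh
    rw [S_congr D h hh le_rfl le_rfl]
  -- independence
  have i1 : IndepFun (fun ω => Real.exp (-θ * |S (D.w h ω) 0 n0|))
      (fun ω => F D.K (D.w h ω) n0 (N + n0) ^ θ) (disorder D.ν) := by
    refine M_indep.J_indep D.ν (Finset.Ioc 0 n0) (Finset.Ioc n0 (N + n0))
      (Finset.Ioc_disjoint_Ioc_of_le le_rfl) _ _ (hmS 0 n0) hmF (hlS 0 n0) ?_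
    intro ω ω' hh
    rw [F_congr D h hh]
  have i2 : IndepFun (fun ω => Real.exp (-θ * |S (D.w h ω) 0 n0|) *
      F D.K (D.w h ω) n0 (N + n0) ^ θ)
      (fun ω => Real.exp (-θ * |S (D.w h ω) (N + n0) (N + 2 * n0)|)) (disorder D.ν) := by
    refine M_indep.J_indep D.ν (Finset.Ioc 0 (N + n0)) (Finset.Ioc (N + n0) (N + 2 * n0))
      (Finset.Ioc_disjoint_Ioc_of_le le_rfl) _ _ ((hmS 0 n0).mul hmF) (hmS _ _) ?_ (hlS _ _)
    intro ω ω' hh
    rw [hlS 0 n0 ω ω' (fun n hn => hh n (Finset.Ioc_subset_Ioc_right (by omega) hn)),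
      F_congr D h (fun n hn => hh n (Finset.Ioc_subset_Ioc_left (by omega) hn))]
  have j1 := i1.integral_fun_mul_eq_mul_integral (hmS 0 n0).aestronglyMeasurable
    hmF.aestronglyMeasurable
  have j2 := i2.integral_fun_mul_eq_mul_integral ((hmS 0 n0).mul hmF).aestronglyMeasurable
    (hmS _ _).aestronglyMeasurable
  have k1 : Integrable (fun ω => Real.exp (-θ * |S (D.w h ω) 0 n0|) *
      F D.K (D.w h ω) n0 (N + n0) ^ θ) (disorder D.ν) :=
    i1.integrable_mul (expS_int D h hθ 0 n0) hi2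
  have k2 : Integrable (fun ω => Real.exp (-θ * |S (D.w h ω) 0 n0|) *
      F D.K (D.w h ω) n0 (N + n0) ^ θ * Real.exp (-θ * |S (D.w h ω) (N + n0) (N + 2 * n0)|))
      (disorder D.ν) :=
    i2.integrable_mul k1 (expS_int D h hθ (N + n0) (N + 2 * n0))
  have e1 : ∫ ω, Real.exp (-θ * |S (D.w h ω) (N + n0) (N + 2 * n0)|) ∂D.P = am D h θ n0 := by
    have := expS_stat D h θ 0 n0 (N + n0)
    rw [zero_add, show n0 + (N + n0) = N + 2 * n0 by ring] at this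
    exact this
  have e2 : ∫ ω, F D.K (D.w h ω) n0 (N + n0) ^ θ ∂D.P = fm D h θ N := by
    have := F_stat D h θ 0 N n0
    rw [zero_add] at this
    exact this
  have e3 : ∫ ω, Real.exp (-θ * |S (D.w h ω) 0 n0|) * F D.K (D.w h ω) n0 (N + n0) ^ θ *
      Real.exp (-θ * |S (D.w h ω) (N + n0) (N + 2 * n0)|) ∂(disorder D.ν) =
      am D h θ n0 ^ 2 * fm D h θ N := by
    rw [j2, j1]
    change am D h θ n0 * (∫ ω, F D.K (D.w h ω) n0 (N + n0) ^ θ ∂D.P) *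
      (∫ ω, Real.exp (-θ * |S (D.w h ω) (N + n0) (N + 2 * n0)|) ∂D.P) = _
    rw [e1, e2]
    ring
  rw [← e3]
  have e4 : Qp D.α c0 n0 N ^ θ * gm D h θ (N + 2 * n0) =
      ∫ ω, Qp D.α c0 n0 N ^ θ * G D.K (D.w h ω) 0 (N + 2 * n0) ^ θ ∂(disorder D.ν) := by
    rw [integral_const_mul]
    rfl
  rw [e4]
  refine integral_mono k2 (hGi.const_mul _) fun ω => ?_
  show Real.exp (-θ * |S (D.w h ω) 0 n0|) * F D.K (D.w h ω) n0 (N + n0) ^ θ *
      Real.exp (-θ * |S (D.w h ω) (N + n0) (N + 2 * n0)|) ≤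
      Qp D.α c0 n0 N ^ θ * G D.K (D.w h ω) 0 (N + 2 * n0) ^ θ
  have h1 := M_FG.J_FG D.K (D.w h ω) D.α c0 n0 hK n0 0 N le_rfl (Nat.zero_le _)
  simp only [Nat.cast_zero, sub_zero, zero_add] at h1
  have hG0 := (M_G.J_G D.K (D.w h ω) hK.nonneg).2.1 0 (N + 2 * n0)
  have hF0 : 0 ≤ F D.K (D.w h ω) n0 (N + n0) := by
    have := F_half (h := h) hK ω (show n0 ≤ N + n0 by omega)
    linarith
  obtain ⟨E, hE⟩ : ∃ E : ℝ, E = |S (D.w h ω) 0 n0| + |S (D.w h ω) (N + n0) (N + 2 * n0)| :=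
    ⟨_, rfl⟩
  have h2 : F D.K (D.w h ω) n0 (N + n0) ^ θ ≤
      (Qp D.α c0 n0 N * Real.exp E * G D.K (D.w h ω) 0 (N + 2 * n0)) ^ θ := by
    rw [hE]
    exact Real.rpow_le_rpow hF0 h1 hθ
  rw [Real.mul_rpow (by positivity) hG0, Real.mul_rpow hQ.le (Real.exp_pos _).le,
    ← Real.exp_mul] at h2
  have h3 := mul_le_mul_of_nonneg_left h2 (Real.exp_pos (-θ * E)).le
  have e5 : Real.exp (-θ * E) * (Qp D.α c0 n0 N ^ θ * Real.exp (E * θ) *
      G D.K (D.w h ω) 0 (N + 2 * n0) ^ θ) =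
      Qp D.α c0 n0 N ^ θ * G D.K (D.w h ω) 0 (N + 2 * n0) ^ θ := by
    have : Real.exp (-θ * E) * Real.exp (E * θ) = 1 := by
      rw [← Real.exp_add]
      ring_nf
      exact Real.exp_zero
    calc _ = (Real.exp (-θ * E) * Real.exp (E * θ)) * (Qp D.α c0 n0 N ^ θ *
          G D.K (D.w h ω) 0 (N + 2 * n0) ^ θ) := by ring
      _ = _ := by rw [this, one_mul]
  rw [e5] at h3
  refine le_trans (le_of_eq ?_) h3
  rw [hE, mul_add, Real.exp_add]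
  ring

end Pool.Agent.TH983
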