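import Pool.Agent.TH983.Mom

/-!
# Moments of small order have the quenched critical point
-/

set_option autoImplicit false
set_option maxHeartbeats 4000000
open MeasureTheory ProbabilityTheory Filter Topology
open scoped ENNReal NNReal

namespace Pool.Agent.TH983
open Cop764

variable {D : Data} {c0 : ℝ} {n0 : ℕ} {h θ : ℝ}

theorem int_affine (D : Data) {X : (ℕ → ℝ) → ℝ} (hX : Integrable X D.P) (a b m : ℝ) :
    Integrable (fun ω => a + b * (X ω - m)) D.P ∧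
    ∫ ω, (a + b * (X ω - m)) ∂D.P = a + b * ((∫ ω, X ω ∂D.P) - m) := by
  have h1 : Integrable (fun ω => X ω - m) D.P := hX.sub (integrable_const m)
  have h2 : Integrable (fun ω => b * (X ω - m)) D.P := h1.const_mul b
  refine ⟨(integrable_const a).add h2, ?_⟩
  rw [integral_add (integrable_const a) h2, integral_const_mul, integral_sub hX (integrable_const m)]
  simp

theorem Zpow_int (hK : KHyp D.K D.α c0 n0) (h0 : 0 ≤ h) (hθ : 0 ≤ θ) (hθ1 : θ ≤ 1) (N : ℕ) :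
    Integrable (fun ω => (Z D.κ D.lam h N ω) ^ θ) D.P := by
  have h1 := Fpow_int' (D := D) hK h0 hθ hθ1 0 N
  rw [zero_add] at h1
  refine h1.mono' (((M_Zmeas.J_Zmeas D.κ D.lam h N).pow_const θ).aestronglyMeasurable) ?_
  refine Filter.Eventually.of_forall fun ω => ?_
  have hG0 := (M_G.J_G D.K (D.w h ω) hK.nonneg).2.1 0 N
  have hZ := M_Z.J_Z D h ω N
  have hZ0 : 0 ≤ Z D.κ D.lam h N ω := hG0.trans hZ.1
  rw [Real.norm_eq_abs, abs_of_nonneg (Real.rpow_nonneg hZ0 _)]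
  exact Real.rpow_le_rpow hZ0 hZ.2 hθ

theorem zm_le_fm (hK : KHyp D.K D.α c0 n0) (h0 : 0 ≤ h) (hθ : 0 ≤ θ) (hθ1 : θ ≤ 1) (N : ℕ) :
    zm D h θ N ≤ fm D h θ N := by
  have h1 := Fpow_int' (D := D) hK h0 hθ hθ1 0 N
  rw [zero_add] at h1
  refine integral_mono (Zpow_int hK h0 hθ hθ1 N) h1 fun ω => ?_
  have hG0 := (M_G.J_G D.K (D.w h ω) hK.nonneg).2.1 0 N
  have hZ := M_Z.J_Z D h ω N
  exact Real.rpow_le_rpow (hG0.trans hZ.1) hZ.2 hθ

theorem gm_le_zm (hK : KHyp D.K D.α c0 n0) (h0 : 0 ≤ h) (hθ : 0 ≤ θ) (hθ1 : θ ≤ 1) {N : ℕ}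
    (hN : 1 ≤ N) : gm D h θ N ≤ zm D h θ N := by
  refine integral_mono (Gpow_int hK h0 hθ hθ1 hN) (Zpow_int hK h0 hθ hθ1 N) fun ω => ?_
  have hG0 := (M_G.J_G D.K (D.w h ω) hK.nonneg).2.1 0 N
  exact Real.rpow_le_rpow hG0 (M_Z.J_Z D h ω N).1 hθ

theorem log_shift (c : ℝ) : Tendsto (fun N : ℕ => Real.log ((N : ℝ) + c) / N) atTop (𝓝 0) := by
  have h1 := Real.tendsto_pow_log_div_mul_add_atTop 1 (-c) 1 one_ne_zero
  have h2 : Tendsto (fun N : ℕ => (N : ℝ) + c) atTop atTop :=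
    tendsto_atTop_add_const_right _ _ tendsto_natCast_atTop_atTop
  refine (h1.comp h2).congr fun N => ?_
  simp

theorem Qp_log (hK : KHyp D.K D.α c0 n0) :
    Tendsto (fun N : ℕ => Real.log (Qp D.α c0 n0 N) / N) atTop (𝓝 0) := by
  have hn0 := hK.n0_pos
  have hc0 := hK.c0_pos
  have hn0' : (0 : ℝ) < n0 := by exact_mod_cast hn0
  have h1 := ((tendsto_const_div_atTop_nhds_zero_nat (2 * Real.log c0⁻¹)).add
    ((log_shift 1).const_mul 2)).add ((log_shift n0).const_mul (2 * (1 + D.α)))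
  simp only [mul_zero, add_zero] at h1
  refine h1.congr fun N => ?_
  have h2 : (0 : ℝ) < (N : ℝ) + n0 := by positivity
  have h3 : (0 : ℝ) < (N : ℝ) + 1 := by positivity
  unfold Qp
  rw [Real.log_mul (by positivity) (Real.rpow_pos_of_pos h2 _).ne', Real.log_mul (by positivity)
    (by positivity), Real.log_rpow h2, Real.log_pow, Real.log_pow]
  push_cast
  ring

/-- lower bound for the log moments of `G` -/
theorem gm_low (hK : KHyp D.K D.α c0 n0) (h0 : 0 ≤ h) (hθ : 0 ≤ θ) (hθ1 : θ ≤ 1) (N : ℕ) :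
    0 < gm D h θ (N + 2 * n0) ∧
    2 * Real.log (am D h θ n0) - θ * Real.log (Qp D.α c0 n0 N) + Real.log (fm D h θ N) ≤
      Real.log (gm D h θ (N + 2 * n0)) := by
  have h1 := gm_ge hK h0 hθ hθ1 N
  have ha := am_pos D h hθ n0
  have hQ := Qp_pos hK N
  have hf := fm_pos hK h0 hθ hθ1 N
  have hQθ : 0 < Qp D.α c0 n0 N ^ θ := Real.rpow_pos_of_pos hQ _
  have hg : 0 < gm D h θ (N + 2 * n0) := by
    by_contra hc
    push Not at hc
    have h2 : Qp D.α c0 n0 N ^ θ * gm D h θ (N + 2 * n0) ≤ 0 :=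
      mul_nonpos_of_nonneg_of_nonpos hQθ.le hc
    have h3 : 0 < am D h θ n0 ^ 2 * fm D h θ N := by positivity
    linarith
  refine ⟨hg, ?_⟩
  have h2 := Real.log_le_log (by positivity) h1
  rw [Real.log_mul (by positivity) hf.ne', Real.log_mul hQθ.ne' hg.ne', Real.log_rpow hQ,
    Real.log_pow] at h2
  push_cast at h2
  linarith

theorem low_lim (hK : KHyp D.K D.α c0 n0) {ψ : ℝ}
    (hψ : Tendsto (fun N : ℕ => Real.log (fm D h θ N) / N) atTop (𝓝 ψ)) :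
    Tendsto (fun N : ℕ => (2 * Real.log (am D h θ n0) - θ * Real.log (Qp D.α c0 n0 N) +
      Real.log (fm D h θ N)) / ((N + 2 * n0 : ℕ) : ℝ)) atTop (𝓝 ψ) := by
  have h1 := ((tendsto_const_div_atTop_nhds_zero_nat (2 * Real.log (am D h θ n0))).sub
    ((Qp_log hK).const_mul θ)).add hψ
  simp only [mul_zero, sub_zero, zero_add] at h1
  have h2 := tendsto_natCast_div_add_atTop (𝕜 := ℝ) (2 * n0 : ℝ)
  have h3 := h1.mul h2
  rw [mul_one] at h3
  refine h3.congr' ?_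
  filter_upwards [eventually_ge_atTop 1] with N hN
  have hN0 : (0 : ℝ) < N := by exact_mod_cast hN
  push_cast
  have : (0 : ℝ) < (N : ℝ) + 2 * n0 := by positivity
  field_simp

theorem jensen_Z (hK : KHyp D.K D.α c0 n0) (h0 : 0 ≤ h) (hθ : 0 ≤ θ) (hθ1 : θ ≤ 1) {N : ℕ}
    (hN : n0 ≤ N) : 0 < zm D h θ N ∧
    θ * ∫ ω, Real.log (Z D.κ D.lam h N ω) ∂D.P ≤ Real.log (zm D h θ N) := by
  have hn0 := hK.n0_pos
  obtain ⟨m, hm⟩ : ∃ m : ℝ, m = ∫ ω, Real.log (Z D.κ D.lam h N ω) ∂D.P := ⟨_, rfl⟩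
  have hint := (M_int.J_int D c0 n0 hK h h0).2.2 N hN
  have h1 : ∫ ω, Real.exp (θ * m) * (1 + θ * (Real.log (Z D.κ D.lam h N ω) - m)) ∂D.P ≤
      zm D h θ N := by
    refine integral_mono ((int_affine D hint 1 θ m).1.const_mul _) (Zpow_int hK h0 hθ hθ1 N)
      fun ω => ?_
    have hZ : 0 < Z D.κ D.lam h N ω :=
      lt_of_lt_of_le (G_pos0 (h := h) hK hN ω) (M_Z.J_Z D h ω N).1
    have h2 := Real.add_one_le_exp (θ * (Real.log (Z D.κ D.lam h N ω) - m))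
    have h3 := mul_le_mul_of_nonneg_left h2 (Real.exp_pos (θ * m)).le
    rw [← Real.exp_add] at h3
    show Real.exp (θ * m) * (1 + θ * (Real.log (Z D.κ D.lam h N ω) - m)) ≤
      (Z D.κ D.lam h N ω) ^ θ
    rw [Real.rpow_def_of_pos hZ]
    have e : θ * m + θ * (Real.log (Z D.κ D.lam h N ω) - m) =
        Real.log (Z D.κ D.lam h N ω) * θ := by ring
    rw [e] at h3
    linarith
  have h2 : ∫ ω, Real.exp (θ * m) * (1 + θ * (Real.log (Z D.κ D.lam h N ω) - m)) ∂D.P =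
      Real.exp (θ * m) := by
    rw [integral_const_mul, (int_affine D hint 1 θ m).2, ← hm]
    simp
  rw [h2] at h1
  refine ⟨lt_of_lt_of_le (Real.exp_pos _) h1, ?_⟩
  rw [← hm]
  have := Real.log_le_log (Real.exp_pos _) h1
  rwa [Real.log_exp] at this

/-- larger order from smaller order -/
theorem mom_up (hK : KHyp D.K D.α c0 n0) (h0 : 0 ≤ h) (hθ : 0 < θ) {θ' : ℝ} (hθθ : θ ≤ θ')
    (hθ1 : θ' ≤ 1) {N : ℕ} (hN : 1 ≤ N) (hg : 1 < gm D h θ N) : 1 < gm D h θ' N := by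
  have hp : 1 ≤ θ' / θ := by rwa [one_le_div hθ]
  have i1 := Gpow_int hK h0 hθ.le (hθθ.trans hθ1) hN
  have i2 := Gpow_int hK h0 (hθ.le.trans hθθ) hθ1 hN
  have h1 : ∫ ω, (1 + θ' / θ * ((G D.K (D.w h ω) 0 N) ^ θ - 1)) ∂D.P ≤ gm D h θ' N := by
    refine integral_mono (int_affine D i1 1 (θ' / θ) 1).1 i2 fun ω => ?_
    have hG0 := (M_G.J_G D.K (D.w h ω) hK.nonneg).2.1 0 N
    have hx : 0 ≤ (G D.K (D.w h ω) 0 N) ^ θ := Real.rpow_nonneg hG0 _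
    have h2 := one_add_mul_self_le_rpow_one_add (s := (G D.K (D.w h ω) 0 N) ^ θ - 1)
      (by linarith) hp
    rw [add_sub_cancel, ← Real.rpow_mul hG0, mul_div_cancel₀ _ hθ.ne'] at h2
    exact h2
  have h3 : ∫ ω, (1 + θ' / θ * ((G D.K (D.w h ω) 0 N) ^ θ - 1)) ∂D.P =
      1 + θ' / θ * (gm D h θ N - 1) := (int_affine D i1 1 (θ' / θ) 1).2
  rw [h3] at h1
  have : 0 < θ' / θ * (gm D h θ N - 1) := mul_pos (by linarith) (by linarith)
  linarith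

/-- **moments of order at most `1/(1+α)` have the quenched critical point** -/
theorem mom_main (D : Data) {h θ : ℝ} (h0 : 0 ≤ h) (hθ : 0 < θ) (hθ1 : θ ≤ (1 + D.α)⁻¹) :
    ∃ ψ : ℝ, Tendsto (fun N : ℕ => (N : ℝ)⁻¹ * Real.log (zm D h θ N)) atTop (𝓝 ψ) ∧
      θ * D.f h ≤ ψ ∧ 0 ≤ ψ ∧ (0 < ψ ↔ 0 < D.f h) := by
  obtain ⟨c0, n0, hK⟩ := M_K.J_K D
  have hα := D.hα
  have hn0 := hK.n0_pos
  have hle1 : (1 + D.α)⁻¹ ≤ 1 := inv_le_one_of_one_le₀ (by linarith)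
  have hθ2 : θ ≤ 1 := hθ1.trans hle1
  obtain ⟨ψ, hψ0, hψ⟩ := fm_lim hK h0 hθ.le hθ2
  have hlow := low_lim (h := h) (θ := θ) hK hψ
  have hup : Tendsto (fun N : ℕ => Real.log (fm D h θ (N + 2 * n0)) / ((N + 2 * n0 : ℕ) : ℝ)) atTop
      (𝓝 ψ) := (tendsto_add_atTop_iff_nat (2 * n0)).2 hψ
  have hz : Tendsto (fun N : ℕ => Real.log (zm D h θ (N + 2 * n0)) / ((N + 2 * n0 : ℕ) : ℝ)) atTop
      (𝓝 ψ) := by
    refine tendsto_of_tendsto_of_tendsto_of_le_of_le hlow hup ?_ ?_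
    · intro N
      show _ ≤ Real.log (zm D h θ (N + 2 * n0)) / ((N + 2 * n0 : ℕ) : ℝ)
      obtain ⟨hg, h1⟩ := gm_low hK h0 hθ.le hθ2 N
      refine div_le_div_of_nonneg_right ?_ (Nat.cast_nonneg _)
      exact h1.trans (Real.log_le_log hg (gm_le_zm hK h0 hθ.le hθ2 (by omega)))
    · intro N
      show Real.log (zm D h θ (N + 2 * n0)) / ((N + 2 * n0 : ℕ) : ℝ) ≤ _
      refine div_le_div_of_nonneg_right ?_ (Nat.cast_nonneg _)
      exact Real.log_le_log (jensen_Z hK h0 hθ.le hθ2 (by omega)).1 (zm_le_fm hK h0 hθ.le hθ2 _)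
  have hz' : Tendsto (fun N : ℕ => Real.log (zm D h θ N) / N) atTop (𝓝 ψ) :=
    (tendsto_add_atTop_iff_nat (f := fun N : ℕ => Real.log (zm D h θ N) / N) (2 * n0)).1 hz
  have hz'' : Tendsto (fun N : ℕ => (N : ℝ)⁻¹ * Real.log (zm D h θ N)) atTop (𝓝 ψ) :=
    hz'.congr fun N => by rw [div_eq_inv_mul]
  have hfψ : θ * D.f h ≤ ψ := by
    have h1 := ((M_fe.J_fe D h h0).1).const_mul θ
    refine le_of_tendsto_of_tendsto h1 hz'' ?_
    filter_upwards [eventually_ge_atTop n0] with N hN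
    have h2 := (jensen_Z hK h0 hθ.le hθ2 hN).2
    unfold feN
    have h3 := mul_le_mul_of_nonneg_left h2 (show (0 : ℝ) ≤ (N : ℝ)⁻¹ by positivity)
    calc θ * ((N : ℝ)⁻¹ * ∫ ω, Real.log (Z D.κ D.lam h N ω) ∂(disorder D.ν)) =
        (N : ℝ)⁻¹ * (θ * ∫ ω, Real.log (Z D.κ D.lam h N ω) ∂D.P) := by
          unfold Data.P
          ring
      _ ≤ _ := h3
  refine ⟨ψ, hz'', hfψ, hψ0, ?_, ?_⟩
  · intro hψp
    have h1 : ∀ᶠ N : ℕ in atTop, 0 < (2 * Real.log (am D h θ n0) -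
        θ * Real.log (Qp D.α c0 n0 N) + Real.log (fm D h θ N)) / ((N + 2 * n0 : ℕ) : ℝ) :=
      hlow.eventually (lt_mem_nhds hψp)
    obtain ⟨N, hN⟩ := h1.exists
    obtain ⟨hg, h2⟩ := gm_low hK h0 hθ.le hθ2 N
    have hpos : (0 : ℝ) < ((N + 2 * n0 : ℕ) : ℝ) := by exact_mod_cast (show 0 < N + 2 * n0 by omega)
    have h3 : 0 < 2 * Real.log (am D h θ n0) - θ * Real.log (Qp D.α c0 n0 N) +
        Real.log (fm D h θ N) := by
      rcases div_pos_iff.1 hN with h | h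
      · exact h.1
      · linarith [h.2]
    have h4 : 1 < gm D h θ (N + 2 * n0) := by
      rw [← Real.log_pos_iff hg.le]
      linarith
    have h5 := mom_up hK h0 hθ hθ1 hle1 (show 1 ≤ N + 2 * n0 by omega) h4
    exact frac_crit hK h0 (show 1 ≤ N + 2 * n0 by omega) h5
  · intro hf
    exact lt_of_lt_of_le (mul_pos hθ hf) hfψ

/-- exact finite volume criterion for every order at most `1/(1+α)` -/
theorem frac_iff' (D : Data) {h θ : ℝ} (h0 : 0 ≤ h) (hθ : 0 < θ) (hθ1 : θ ≤ (1 + D.α)⁻¹) :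
    0 < D.f h ↔ ∃ N : ℕ, 1 ≤ N ∧ 1 < ∫ ω, (G D.K (D.w h ω) 0 N) ^ θ ∂D.P := by
  obtain ⟨c0, n0, hK⟩ := M_K.J_K D
  have hα := D.hα
  have hle1 : (1 + D.α)⁻¹ ≤ 1 := inv_le_one_of_one_le₀ (by linarith)
  constructor
  · intro hf
    exact frac_conv hK h0 hf hθ (hθ1.trans hle1)
  · rintro ⟨N, hN, hE⟩
    exact frac_crit hK h0 hN (mom_up hK h0 hθ hθ1 hle1 hN hE)

end Pool.Agent.TH983
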