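import Pool.Agent.TH983.Renewal
import Pool.Agent.Helper764.Cop_meas
import Pool.Agent.Helper764.Cop_indep
import Pool.Agent.Helper764.Cop_stat
import Pool.Agent.Helper764.Cop_Fbd
import Pool.Agent.Helper764.Cop_K

/-!
# Moment bounds for block sums of the disorder
-/

set_option autoImplicit false
set_option maxHeartbeats 4000000
open MeasureTheory ProbabilityTheory Filter Topology
open scoped ENNReal NNReal

namespace Pool.Agent.TH983
open Cop764

theorem eval_mp (D : Data) (n : ℕ) : MeasurePreserving (fun ω : ℕ → ℝ => ω n) D.P D.ν := by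
  have := measurePreserving_eval_infinitePi (fun _ : ℕ => D.ν) n
  unfold Data.P disorder
  exact this

theorem nu_memLp (D : Data) : MemLp (fun x : ℝ => x) 2 D.ν := by
  have h2 : Integrable (fun x : ℝ => x ^ 2) D.ν := by
    by_contra h
    have := integral_undef h
    rw [D.var] at this
    exact one_ne_zero this
  exact (memLp_two_iff_integrable_sq measurable_id'.aestronglyMeasurable).2 h2

theorem coord_memLp (D : Data) (n : ℕ) : MemLp (fun ω : ℕ → ℝ => ω n) 2 D.P :=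
  (nu_memLp D).comp_measurePreserving (eval_mp D n)

theorem coord_integral (D : Data) (n : ℕ) : ∫ ω, ω n ∂D.P = 0 := by
  rw [← D.mean, ← (eval_mp D n).map_eq,
    integral_map (measurable_pi_apply n).aemeasurable (by fun_prop)]

theorem coord_sq (D : Data) (n : ℕ) : ∫ ω, (ω n) ^ 2 ∂D.P = 1 := by
  rw [← D.var, ← (eval_mp D n).map_eq,
    integral_map (measurable_pi_apply n).aemeasurable (by fun_prop)]

theorem coord_indep (D : Data) : iIndepFun (fun (i : ℕ) (ω : ℕ → ℝ) => ω i) D.P := by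
  unfold Data.P disorder
  exact iIndepFun_infinitePi (X := fun _ (x : ℝ) => x) (fun _ => measurable_id)

theorem sum_memLp (D : Data) (s : Finset ℕ) : MemLp (fun ω : ℕ → ℝ => ∑ n ∈ s, ω n) 2 D.P :=
  memLp_finsetSum s fun n _ => coord_memLp D n

theorem sum_sq (D : Data) (s : Finset ℕ) : ∫ ω, (∑ n ∈ s, ω n) ^ 2 ∂D.P = s.card := by
  have h0 : ∫ ω, (∑ n ∈ s, ω n) ∂D.P = 0 := by
    rw [integral_finsetSum _ fun n _ => (coord_memLp D n).integrable one_le_two]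
    exact Finset.sum_eq_zero fun n _ => coord_integral D n
  have h1 : variance (∑ n ∈ s, fun ω : ℕ → ℝ => ω n) D.P = s.card := by
    rw [IndepFun.variance_sum (fun n _ => coord_memLp D n)
      (fun i _ j _ hij => (coord_indep D).indepFun hij)]
    have : ∀ n ∈ s, variance (fun ω : ℕ → ℝ => ω n) D.P = 1 := by
      intro n _
      rw [variance_of_integral_eq_zero (measurable_pi_apply n).aemeasurable (coord_integral D n)]
      exact coord_sq D n
    rw [Finset.sum_congr rfl this]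
    simp
  have h2 : (∑ n ∈ s, fun ω : ℕ → ℝ => ω n) = fun ω : ℕ → ℝ => ∑ n ∈ s, ω n := by
    funext ω
    simp
  rw [h2, variance_of_integral_eq_zero (sum_memLp D s).aemeasurable h0] at h1
  exact h1

theorem S_w (D : Data) (h : ℝ) (ω : ℕ → ℝ) (i j : ℕ) :
    S (D.w h ω) i j = -2 * D.lam * ∑ n ∈ Finset.Ioc i j, ω n - 2 * D.lam * h * ((j - i : ℕ) : ℝ) := by
  unfold S Data.w
  rw [← Finset.mul_sum, Finset.sum_add_distrib]
  simp only [Finset.sum_const, Nat.card_Ioc, nsmul_eq_mul]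
  ring

theorem S_memLp (D : Data) (h : ℝ) (i j : ℕ) : MemLp (fun ω => S (D.w h ω) i j) 2 D.P := by
  simp only [S_w]
  exact ((sum_memLp D _).const_mul _).sub (memLp_const _)

theorem S_integrable (D : Data) (h : ℝ) (i j : ℕ) : Integrable (fun ω => S (D.w h ω) i j) D.P :=
  (S_memLp D h i j).integrable one_le_two

theorem S_sq (D : Data) (h : ℝ) (i j : ℕ) : ∫ ω, (S (D.w h ω) i j) ^ 2 ∂D.P =
    4 * D.lam ^ 2 * ((j - i : ℕ) : ℝ) + 4 * D.lam ^ 2 * h ^ 2 * ((j - i : ℕ) : ℝ) ^ 2 := by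
  have h0 : ∫ ω, (∑ n ∈ Finset.Ioc i j, ω n) ∂D.P = 0 := by
    rw [integral_finsetSum _ fun n _ => (coord_memLp D n).integrable one_le_two]
    exact Finset.sum_eq_zero fun n _ => coord_integral D n
  have h1 := sum_sq D (Finset.Ioc i j)
  rw [Nat.card_Ioc] at h1
  have hi : Integrable (fun ω : ℕ → ℝ => ∑ n ∈ Finset.Ioc i j, ω n) D.P :=
    (sum_memLp D _).integrable one_le_two
  have hi2 : Integrable (fun ω : ℕ → ℝ => (∑ n ∈ Finset.Ioc i j, ω n) ^ 2) D.P :=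
    (sum_memLp D _).integrable_sq
  have e : ∀ ω, (S (D.w h ω) i j) ^ 2 = 4 * D.lam ^ 2 * (∑ n ∈ Finset.Ioc i j, ω n) ^ 2 +
      8 * D.lam ^ 2 * h * ((j - i : ℕ) : ℝ) * (∑ n ∈ Finset.Ioc i j, ω n) +
      4 * D.lam ^ 2 * h ^ 2 * ((j - i : ℕ) : ℝ) ^ 2 := by
    intro ω
    rw [S_w]
    ring
  simp only [e]
  have f1 := hi2.const_mul (4 * D.lam ^ 2)
  have f2 := hi.const_mul (8 * D.lam ^ 2 * h * ((j - i : ℕ) : ℝ))
  have f3 : Integrable (fun ω : ℕ → ℝ => 4 * D.lam ^ 2 * (∑ n ∈ Finset.Ioc i j, ω n) ^ 2 +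
      8 * D.lam ^ 2 * h * ((j - i : ℕ) : ℝ) * (∑ n ∈ Finset.Ioc i j, ω n)) D.P := f1.add f2
  rw [integral_add f3 (integrable_const _),
    integral_add f1 f2, integral_const_mul, integral_const_mul, h0, h1]
  simp

/-- block sums of length at most `L` with `λ² L ≤ 1` and `0 ≤ h ≤ λ` have bounded first moment -/
theorem S_abs (D : Data) {h : ℝ} (hh : 0 ≤ h) (hh1 : h ≤ D.lam) {L : ℕ} (hL : D.lam ^ 2 * L ≤ 1)
    {i j : ℕ} (hij : j - i ≤ L) : ∫ ω, |S (D.w h ω) i j| ∂D.P ≤ 3 := by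
  have hlam := D.hlam
  have h1 : ∫ ω, |S (D.w h ω) i j| ∂D.P ≤ ∫ ω, ((S (D.w h ω) i j) ^ 2 + 9) / 6 ∂D.P := by
    apply integral_mono (S_integrable D h i j).abs
    · exact ((S_memLp D h i j).integrable_sq.add (integrable_const _)).div_const _
    · intro ω
      show |S (D.w h ω) i j| ≤ ((S (D.w h ω) i j) ^ 2 + 9) / 6
      nlinarith [sq_nonneg (|S (D.w h ω) i j| - 3), sq_abs (S (D.w h ω) i j)]
  refine h1.trans ?_
  rw [integral_div, integral_add (S_memLp D h i j).integrable_sq (integrable_const _), S_sq]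
  have h2 : ((j - i : ℕ) : ℝ) ≤ L := by exact_mod_cast hij
  have h3 : (0 : ℝ) ≤ ((j - i : ℕ) : ℝ) := Nat.cast_nonneg _
  have h4 : D.lam ^ 2 * ((j - i : ℕ) : ℝ) ≤ 1 :=
    (mul_le_mul_of_nonneg_left h2 (by positivity)).trans hL
  have h5 : h ^ 2 ≤ D.lam ^ 2 := by nlinarith
  have h6 : D.lam ^ 2 * h ^ 2 * ((j - i : ℕ) : ℝ) ^ 2 ≤ 1 := by
    calc D.lam ^ 2 * h ^ 2 * ((j - i : ℕ) : ℝ) ^ 2
        ≤ D.lam ^ 2 * D.lam ^ 2 * ((j - i : ℕ) : ℝ) ^ 2 := by gcongr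
      _ = (D.lam ^ 2 * ((j - i : ℕ) : ℝ)) ^ 2 := by ring
      _ ≤ 1 := by
        apply pow_le_one₀ (by positivity) h4
  simp only [integral_const, probReal_univ, smul_eq_mul]
  linarith

/-- Jensen's inequality for the exponential with weights of total mass `W` -/
theorem jensen_exp {ι : Type*} (s : Finset ι) (p x : ι → ℝ) (hp : ∀ i ∈ s, 0 ≤ p i)
    {W : ℝ} (hW : ∑ i ∈ s, p i = W) (hW0 : 0 < W) :
    W * Real.exp (W⁻¹ * ∑ i ∈ s, p i * x i) ≤ ∑ i ∈ s, p i * Real.exp (x i) := by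
  have h := convexOn_exp.map_sum_le (t := s) (w := fun i => p i / W) (p := x)
    (fun i hi => div_nonneg (hp i hi) hW0.le)
    (by rw [← Finset.sum_div, hW, div_self hW0.ne']) (fun i _ => Set.mem_univ _)
  simp only [smul_eq_mul] at h
  have e1 : ∑ i ∈ s, p i / W * x i = W⁻¹ * ∑ i ∈ s, p i * x i := by
    rw [Finset.mul_sum]
    exact Finset.sum_congr rfl fun i _ => by rw [div_eq_mul_inv]; ring
  have e2 : ∑ i ∈ s, p i / W * Real.exp (x i) = W⁻¹ * ∑ i ∈ s, p i * Real.exp (x i) := by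
    rw [Finset.mul_sum]
    exact Finset.sum_congr rfl fun i _ => by rw [div_eq_mul_inv]; ring
  rw [e1, e2] at h
  calc W * Real.exp (W⁻¹ * ∑ i ∈ s, p i * x i)
      ≤ W * (W⁻¹ * ∑ i ∈ s, p i * Real.exp (x i)) := mul_le_mul_of_nonneg_left h hW0.le
    _ = _ := by rw [← mul_assoc, mul_inv_cancel₀ hW0.ne', one_mul]

theorem avg_abs {ι : Type*} (D : Data) (s : Finset ι) (p : ι → ℝ) (x : ι → (ℕ → ℝ) → ℝ)
    (hp : ∀ i ∈ s, 0 ≤ p i) {W A : ℝ} (hW : ∑ i ∈ s, p i = W) (hW0 : 0 < W)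
    (hx : ∀ i ∈ s, Integrable (x i) D.P) (hA : ∀ i ∈ s, ∫ ω, |x i ω| ∂D.P ≤ A) :
    Integrable (fun ω => W⁻¹ * ∑ i ∈ s, p i * x i ω) D.P ∧
    ∫ ω, |W⁻¹ * ∑ i ∈ s, p i * x i ω| ∂D.P ≤ A := by
  have hint : Integrable (fun ω => W⁻¹ * ∑ i ∈ s, p i * x i ω) D.P :=
    (integrable_finsetSum _ fun i hi => (hx i hi).const_mul _).const_mul _
  refine ⟨hint, ?_⟩
  have h1 : ∫ ω, |W⁻¹ * ∑ i ∈ s, p i * x i ω| ∂D.P ≤
      ∫ ω, W⁻¹ * ∑ i ∈ s, p i * |x i ω| ∂D.P := by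
    apply integral_mono hint.abs
    · exact (integrable_finsetSum _ fun i hi => (hx i hi).abs.const_mul _).const_mul _
    · intro ω
      show |W⁻¹ * ∑ i ∈ s, p i * x i ω| ≤ W⁻¹ * ∑ i ∈ s, p i * |x i ω|
      rw [abs_mul, abs_of_pos (inv_pos.2 hW0)]
      apply mul_le_mul_of_nonneg_left _ (inv_pos.2 hW0).le
      refine (Finset.abs_sum_le_sum_abs _ _).trans (Finset.sum_le_sum fun i hi => ?_)
      rw [abs_mul, abs_of_nonneg (hp i hi)]
  refine h1.trans ?_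
  rw [integral_const_mul, integral_finsetSum _ fun i hi => (hx i hi).abs.const_mul _]
  have h2 : ∑ i ∈ s, ∫ ω, p i * |x i ω| ∂D.P ≤ ∑ i ∈ s, p i * A := by
    refine Finset.sum_le_sum fun i hi => ?_
    rw [integral_const_mul]
    exact mul_le_mul_of_nonneg_left (hA i hi) (hp i hi)
  rw [← Finset.sum_mul, hW] at h2
  calc _ ≤ W⁻¹ * (W * A) := mul_le_mul_of_nonneg_left h2 (inv_pos.2 hW0).le
    _ = A := by rw [← mul_assoc, inv_mul_cancel₀ hW0.ne', one_mul]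

end Pool.Agent.TH983
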