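import Pool.Agent.TH983.Frac1

/-!
# The functional `‖X‖ = (E X^{1/β})^β` and its superadditivity
-/

set_option autoImplicit false
set_option maxHeartbeats 4000000
open MeasureTheory ProbabilityTheory Filter Topology
open scoped ENNReal NNReal

namespace Pool.Agent.TH983
open Cop764

section general

variable {Ω : Type*} [MeasurableSpace Ω]

/-- `(E X^{1/β})^β` -/
noncomputable def nm (P : Measure Ω) (β : ℝ) (X : Ω → ℝ) : ℝ := (∫ ω, X ω ^ β⁻¹ ∂P) ^ β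

/-- admissible random variables -/
structure Adm (P : Measure Ω) (β : ℝ) (X : Ω → ℝ) : Prop where
  meas : Measurable X
  nn : ∀ ω, 0 ≤ X ω
  int : Integrable (fun ω => X ω ^ β⁻¹) P

variable {P : Measure Ω} {β : ℝ} {X Y : Ω → ℝ}

theorem int_nonneg (hX : ∀ ω, 0 ≤ X ω) : 0 ≤ ∫ ω, X ω ^ β⁻¹ ∂P :=
  integral_nonneg fun ω => Real.rpow_nonneg (hX ω) _

theorem nm_nonneg (hX : ∀ ω, 0 ≤ X ω) : 0 ≤ nm P β X := Real.rpow_nonneg (int_nonneg hX) _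

theorem nm_rpow (hβ : 0 < β) (hX : ∀ ω, 0 ≤ X ω) : (nm P β X) ^ β⁻¹ = ∫ ω, X ω ^ β⁻¹ ∂P := by
  unfold nm
  rw [← Real.rpow_mul (int_nonneg hX), mul_inv_cancel₀ hβ.ne', Real.rpow_one]

theorem nm_mono (hβ : 0 < β) (hX : Adm P β X) (hY : Adm P β Y) (h : ∀ ω, X ω ≤ Y ω) :
    nm P β X ≤ nm P β Y := by
  unfold nm
  apply Real.rpow_le_rpow (int_nonneg hX.nn) _ hβ.le
  exact integral_mono hX.int hY.int fun ω => Real.rpow_le_rpow (hX.nn ω) (h ω) (by positivity)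

theorem Adm.smul (hβ : 0 < β) (hX : Adm P β X) {c : ℝ} (hc : 0 ≤ c) :
    Adm P β (fun ω => c * X ω) := by
  refine ⟨hX.meas.const_mul c, fun ω => mul_nonneg hc (hX.nn ω), ?_⟩
  have : (fun ω => (c * X ω) ^ β⁻¹) = fun ω => c ^ β⁻¹ * X ω ^ β⁻¹ := by
    funext ω
    rw [Real.mul_rpow hc (hX.nn ω)]
  rw [this]
  exact hX.int.const_mul _

theorem nm_smul (hβ : 0 < β) (hX : ∀ ω, 0 ≤ X ω) {c : ℝ} (hc : 0 ≤ c) :
    nm P β (fun ω => c * X ω) = c * nm P β X := by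
  unfold nm
  have : (fun ω => (c * X ω) ^ β⁻¹) = fun ω => c ^ β⁻¹ * X ω ^ β⁻¹ := by
    funext ω
    rw [Real.mul_rpow hc (hX ω)]
  rw [this, integral_const_mul, Real.mul_rpow (Real.rpow_nonneg hc _) (int_nonneg hX),
    ← Real.rpow_mul hc, inv_mul_cancel₀ hβ.ne', Real.rpow_one]

theorem add_rpow_le {a b θ : ℝ} (ha : 0 ≤ a) (hb : 0 ≤ b) (hθ : 0 ≤ θ) :
    (a + b) ^ θ ≤ 2 ^ θ * (a ^ θ + b ^ θ) := by
  have h1 : a + b ≤ 2 * max a b := by
    have := le_max_left a b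
    have := le_max_right a b
    linarith
  calc (a + b) ^ θ ≤ (2 * max a b) ^ θ := Real.rpow_le_rpow (by positivity) h1 hθ
    _ = 2 ^ θ * (max a b) ^ θ := Real.mul_rpow (by norm_num) (le_max_of_le_left ha)
    _ ≤ _ := by
      apply mul_le_mul_of_nonneg_left _ (by positivity)
      have h2 := Real.rpow_nonneg ha θ
      have h3 := Real.rpow_nonneg hb θ
      rcases le_total a b with h | h
      · rw [max_eq_right h]; linarith
      · rw [max_eq_left h]; linarith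

theorem Adm.add (hβ : 0 < β) (hX : Adm P β X) (hY : Adm P β Y) :
    Adm P β (fun ω => X ω + Y ω) := by
  refine ⟨hX.meas.add hY.meas, fun ω => add_nonneg (hX.nn ω) (hY.nn ω), ?_⟩
  have h1 : Integrable (fun ω => 2 ^ β⁻¹ * (X ω ^ β⁻¹ + Y ω ^ β⁻¹)) P :=
    (hX.int.add hY.int).const_mul _
  refine h1.mono' ((hX.meas.add hY.meas).pow_const _).aestronglyMeasurable
    (Filter.Eventually.of_forall fun ω => ?_)
  rw [Real.norm_eq_abs, abs_of_nonneg (Real.rpow_nonneg (add_nonneg (hX.nn ω) (hY.nn ω)) _)]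
  exact add_rpow_le (hX.nn ω) (hY.nn ω) (by positivity)

theorem Adm.zero (hβ : 0 < β) : Adm P β (fun _ => 0) := by
  refine ⟨measurable_const, fun _ => le_rfl, ?_⟩
  have : (fun _ : Ω => (0 : ℝ) ^ β⁻¹) = fun _ => 0 := by
    funext _
    exact Real.zero_rpow (by positivity)
  rw [this]
  exact integrable_zero _ _ _

theorem Adm.sum (hβ : 0 < β) {ι : Type*} (s : Finset ι) (Z : ι → Ω → ℝ)
    (hZ : ∀ i ∈ s, Adm P β (Z i)) : Adm P β (fun ω => ∑ i ∈ s, Z i ω) := by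
  classical
  induction s using Finset.induction_on with
  | empty => simpa using Adm.zero (P := P) hβ
  | insert i s hi ih =>
    simp only [Finset.sum_insert hi]
    exact (hZ i (Finset.mem_insert_self _ _)).add hβ
      (ih fun j hj => hZ j (Finset.mem_insert_of_mem hj))

/-- superadditivity -/
theorem nm_add (hβ : 1 < β) (hX : Adm P β X) (hY : Adm P β Y) :
    nm P β X + nm P β Y ≤ nm P β (fun ω => X ω + Y ω) := by
  have hβ0 : 0 < β := by linarith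
  have hXY := hX.add hβ0 hY
  set a := nm P β X with ha
  set b := nm P β Y with hb
  have ha0 : 0 ≤ a := nm_nonneg hX.nn
  have hb0 : 0 ≤ b := nm_nonneg hY.nn
  rcases ha0.eq_or_lt with h1 | h1
  · rw [← h1, zero_add]
    exact nm_mono hβ0 hY hXY fun ω => by have := hX.nn ω; linarith
  rcases hb0.eq_or_lt with h2 | h2
  · rw [← h2, add_zero]
    exact nm_mono hβ0 hX hXY fun ω => by have := hY.nn ω; linarith
  set θ := β⁻¹ with hθ
  have hθ0 : 0 < θ := by positivity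
  have hθ1 : θ ≤ 1 := by rw [hθ]; exact inv_le_one_of_one_le₀ hβ.le
  set c := a + b with hc
  have hc0 : 0 < c := by positivity
  have hXa : ∫ ω, X ω ^ θ ∂P = a ^ θ := (nm_rpow hβ0 hX.nn).symm
  have hYb : ∫ ω, Y ω ^ θ ∂P = b ^ θ := (nm_rpow hβ0 hY.nn).symm
  have hpt : ∀ ω, c ^ θ * (a / c * (a⁻¹ ^ θ * X ω ^ θ) + b / c * (b⁻¹ ^ θ * Y ω ^ θ)) ≤
      (X ω + Y ω) ^ θ := by
    intro ω
    have hconc := (Real.concaveOn_rpow hθ0.le hθ1).2
      (Set.mem_Ici.2 (mul_nonneg (inv_nonneg.2 ha0) (hX.nn ω)))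
      (Set.mem_Ici.2 (mul_nonneg (inv_nonneg.2 hb0) (hY.nn ω)))
      (show 0 ≤ a / c by positivity) (show 0 ≤ b / c by positivity)
      (by rw [← add_div, div_self hc0.ne'])
    simp only [smul_eq_mul] at hconc
    rw [Real.mul_rpow (inv_nonneg.2 ha0) (hX.nn ω), Real.mul_rpow (inv_nonneg.2 hb0) (hY.nn ω)]
      at hconc
    have e1 : X ω + Y ω = c * (a / c * (a⁻¹ * X ω) + b / c * (b⁻¹ * Y ω)) := by
      field_simp
    have e2 : 0 ≤ a / c * (a⁻¹ * X ω) + b / c * (b⁻¹ * Y ω) := by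
      have := hX.nn ω
      have := hY.nn ω
      positivity
    rw [e1, Real.mul_rpow hc0.le e2]
    exact mul_le_mul_of_nonneg_left hconc (Real.rpow_nonneg hc0.le _)
  have hint : Integrable (fun ω => c ^ θ * (a / c * (a⁻¹ ^ θ * X ω ^ θ) +
      b / c * (b⁻¹ ^ θ * Y ω ^ θ))) P :=
    (((hX.int.const_mul _).const_mul _).add ((hY.int.const_mul _).const_mul _)).const_mul _
  have h3 := integral_mono hint hXY.int hpt
  rw [integral_const_mul, integral_add ((hX.int.const_mul _).const_mul _)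
    ((hY.int.const_mul _).const_mul _), integral_const_mul, integral_const_mul,
    integral_const_mul, integral_const_mul] at h3
  have e3 : a⁻¹ ^ θ * ∫ ω, X ω ^ θ ∂P = 1 := by
    rw [hXa, ← Real.mul_rpow (inv_nonneg.2 ha0) ha0, inv_mul_cancel₀ h1.ne', Real.one_rpow]
  have e4 : b⁻¹ ^ θ * ∫ ω, Y ω ^ θ ∂P = 1 := by
    rw [hYb, ← Real.mul_rpow (inv_nonneg.2 hb0) hb0, inv_mul_cancel₀ h2.ne', Real.one_rpow]
  rw [e3, e4, mul_one, mul_one, ← add_div, div_self hc0.ne', mul_one] at h3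
  calc c = (c ^ θ) ^ β := by
        rw [← Real.rpow_mul hc0.le, hθ, inv_mul_cancel₀ hβ0.ne', Real.rpow_one]
    _ ≤ _ := Real.rpow_le_rpow (Real.rpow_nonneg hc0.le _) h3 hβ0.le

theorem nm_zero (hβ : 0 < β) : nm P β (fun _ => (0 : ℝ)) = 0 := by
  unfold nm
  have : (fun _ : Ω => (0 : ℝ) ^ β⁻¹) = fun _ => 0 := by
    funext _
    exact Real.zero_rpow (by positivity)
  rw [this, integral_zero, Real.zero_rpow hβ.ne']

theorem nm_sum (hβ : 1 < β) {ι : Type*} (s : Finset ι) (Z : ι → Ω → ℝ)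
    (hZ : ∀ i ∈ s, Adm P β (Z i)) : ∑ i ∈ s, nm P β (Z i) ≤ nm P β (fun ω => ∑ i ∈ s, Z i ω) := by
  classical
  have hβ0 : 0 < β := by linarith
  induction s using Finset.induction_on with
  | empty => simp [nm_zero hβ0]
  | insert i s hi ih =>
    simp only [Finset.sum_insert hi]
    have h1 := ih fun j hj => hZ j (Finset.mem_insert_of_mem hj)
    have h2 := nm_add hβ (hZ i (Finset.mem_insert_self _ _))
      (Adm.sum hβ0 s Z fun j hj => hZ j (Finset.mem_insert_of_mem hj))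
    linarith

/-- product of independent factors -/
theorem nm_mul (hX : ∀ ω, 0 ≤ X ω) (hY : ∀ ω, 0 ≤ Y ω)
    (hind : ∫ ω, X ω ^ β⁻¹ * Y ω ^ β⁻¹ ∂P = (∫ ω, X ω ^ β⁻¹ ∂P) * ∫ ω, Y ω ^ β⁻¹ ∂P) :
    nm P β (fun ω => X ω * Y ω) = nm P β X * nm P β Y := by
  unfold nm
  have : (fun ω => (X ω * Y ω) ^ β⁻¹) = fun ω => X ω ^ β⁻¹ * Y ω ^ β⁻¹ := by
    funext ω
    rw [Real.mul_rpow (hX ω) (hY ω)]
  rw [this, hind, Real.mul_rpow (int_nonneg hX) (int_nonneg hY)]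

/-- weighting by a test function -/
theorem adm_chi (hβ : 0 < β) (hX : Adm P β X) {χ : Ω → ℝ} (hχm : Measurable χ)
    (hχ0 : ∀ ω, 0 ≤ χ ω) (hχ1 : ∀ ω, χ ω ≤ 1) : Adm P β (fun ω => X ω * χ ω ^ β) := by
  have hm : Measurable (fun ω => X ω * χ ω ^ β) := hX.meas.mul (hχm.pow_const β)
  refine ⟨hm, fun ω => mul_nonneg (hX.nn ω) (Real.rpow_nonneg (hχ0 ω) _), ?_⟩
  refine hX.int.mono' (hm.pow_const _).aestronglyMeasurable (Filter.Eventually.of_forall fun ω => ?_)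
  have h0 : 0 ≤ X ω * χ ω ^ β := mul_nonneg (hX.nn ω) (Real.rpow_nonneg (hχ0 ω) _)
  rw [Real.norm_eq_abs, abs_of_nonneg (Real.rpow_nonneg h0 _)]
  apply Real.rpow_le_rpow h0 _ (by positivity)
  calc X ω * χ ω ^ β ≤ X ω * 1 := by
        apply mul_le_mul_of_nonneg_left _ (hX.nn ω)
        exact Real.rpow_le_one (hχ0 ω) (hχ1 ω) hβ.le
    _ = _ := mul_one _

theorem chi_rpow (hβ : 0 < β) {x c : ℝ} (hx : 0 ≤ x) (hc : 0 ≤ c) :
    (x * c ^ β) ^ β⁻¹ = x ^ β⁻¹ * c := by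
  rw [Real.mul_rpow hx (Real.rpow_nonneg hc _), ← Real.rpow_mul hc, mul_inv_cancel₀ hβ.ne',
    Real.rpow_one]

/-- quantitative superadditivity: a test function that sees the difference -/
theorem split_gain (hβ : 1 < β) {ι : Type*} (s : Finset ι) (Z : ι → Ω → ℝ)
    (hX : Adm P β X) (hZ : ∀ i ∈ s, Adm P β (Z i)) {χ : Ω → ℝ} (hχm : Measurable χ)
    (hχ0 : ∀ ω, 0 ≤ χ ω) (hχ1 : ∀ ω, χ ω ≤ 1) {p1 p2 q1 q2 c x y : ℝ}
    (hx : x = nm P β X) (hy : y = ∑ i ∈ s, nm P β (Z i)) (hx0 : 0 < x) (hy0 : 0 < y)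
    (hp1 : 0 ≤ p1) (hp2 : 0 ≤ p2) (hq1 : 0 ≤ q1) (hq2 : 0 ≤ q2) (hc : 0 ≤ c)
    (h1 : p1 * ∫ ω, X ω ^ β⁻¹ ∂P ≤ ∫ ω, X ω ^ β⁻¹ * χ ω ∂P)
    (h2 : p2 * ∫ ω, X ω ^ β⁻¹ ∂P ≤ ∫ ω, X ω ^ β⁻¹ * (1 - χ ω) ∂P)
    (h3 : ∀ i ∈ s, q1 * ∫ ω, Z i ω ^ β⁻¹ ∂P ≤ ∫ ω, Z i ω ^ β⁻¹ * χ ω ∂P)
    (h4 : ∀ i ∈ s, q2 * ∫ ω, Z i ω ^ β⁻¹ ∂P ≤ ∫ ω, Z i ω ^ β⁻¹ * (1 - χ ω) ∂P)
    (hnum : (2 + c) ^ β⁻¹ ≤ (p1 ^ β + q1 ^ β) ^ β⁻¹ + (p2 ^ β + q2 ^ β) ^ β⁻¹) :
    x + y + c * min x y ≤ nm P β (fun ω => X ω + ∑ i ∈ s, Z i ω) := by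
  have hβ0 : 0 < β := by linarith
  have hθ0 : 0 < β⁻¹ := by positivity
  set m := min x y with hm
  have hm0 : 0 < m := lt_min hx0 hy0
  have hmx : m ≤ x := min_le_left _ _
  have hmy : m ≤ y := min_le_right _ _
  have hS := Adm.sum hβ0 s Z hZ
  have hSn : y ≤ nm P β (fun ω => ∑ i ∈ s, Z i ω) := by rw [hy]; exact nm_sum hβ s Z hZ
  -- the common part
  set W : Ω → ℝ := fun ω => m / x * X ω + m / y * ∑ i ∈ s, Z i ω with hW
  have hXs : Adm P β (fun ω => m / x * X ω) := hX.smul hβ0 (by positivity)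
  have hSs : Adm P β (fun ω => m / y * ∑ i ∈ s, Z i ω) := hS.smul hβ0 (by positivity)
  have hWa : Adm P β W := hXs.add hβ0 hSs
  -- lower bound for each test function
  have part : ∀ (ξ : Ω → ℝ), Measurable ξ → (∀ ω, 0 ≤ ξ ω) → (∀ ω, ξ ω ≤ 1) → ∀ p q : ℝ, 0 ≤ p →
      0 ≤ q → (p * ∫ ω, X ω ^ β⁻¹ ∂P ≤ ∫ ω, X ω ^ β⁻¹ * ξ ω ∂P) →
      (∀ i ∈ s, q * ∫ ω, Z i ω ^ β⁻¹ ∂P ≤ ∫ ω, Z i ω ^ β⁻¹ * ξ ω ∂P) →
      m ^ β⁻¹ * (p ^ β + q ^ β) ^ β⁻¹ ≤ ∫ ω, W ω ^ β⁻¹ * ξ ω ∂P := by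
    intro ξ hξm hξ0 hξ1 p q hp hq hpX hqZ
    have e1 : ∫ ω, W ω ^ β⁻¹ * ξ ω ∂P = (nm P β (fun ω => W ω * ξ ω ^ β)) ^ β⁻¹ := by
      rw [nm_rpow hβ0 fun ω => mul_nonneg (hWa.nn ω) (Real.rpow_nonneg (hξ0 ω) _)]
      refine integral_congr_ae (Filter.Eventually.of_forall fun ω => ?_)
      exact (chi_rpow hβ0 (hWa.nn ω) (hξ0 ω)).symm
    rw [e1, ← Real.mul_rpow hm0.le (by positivity)]
    apply Real.rpow_le_rpow (by positivity) _ hθ0.le
    have e2 : (fun ω => W ω * ξ ω ^ β) = fun ω => m / x * (X ω * ξ ω ^ β) +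
        ∑ i ∈ s, m / y * (Z i ω * ξ ω ^ β) := by
      funext ω
      simp only [hW]
      rw [add_mul, ← Finset.mul_sum, ← Finset.sum_mul]
      ring
    rw [e2]
    have aX : Adm P β (fun ω => m / x * (X ω * ξ ω ^ β)) :=
      (adm_chi hβ0 hX hξm hξ0 hξ1).smul hβ0 (by positivity)
    have aZ : ∀ i ∈ s, Adm P β (fun ω => m / y * (Z i ω * ξ ω ^ β)) := fun i hi =>
      (adm_chi hβ0 (hZ i hi) hξm hξ0 hξ1).smul hβ0 (by positivity)
    refine le_trans ?_ (nm_add hβ aX (Adm.sum hβ0 s _ aZ))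
    have f1 : m * p ^ β ≤ nm P β (fun ω => m / x * (X ω * ξ ω ^ β)) := by
      rw [nm_smul hβ0 (fun ω => mul_nonneg (hX.nn ω) (Real.rpow_nonneg (hξ0 ω) _))
        (by positivity)]
      have g1 : p ^ β * x ≤ nm P β (fun ω => X ω * ξ ω ^ β) := by
        unfold nm
        have g2 : (fun ω => (X ω * ξ ω ^ β) ^ β⁻¹) = fun ω => X ω ^ β⁻¹ * ξ ω := by
          funext ω; exact chi_rpow hβ0 (hX.nn ω) (hξ0 ω)
        rw [g2, hx]
        unfold nm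
        rw [← Real.mul_rpow hp (int_nonneg hX.nn)]
        exact Real.rpow_le_rpow (mul_nonneg hp (int_nonneg hX.nn)) hpX hβ0.le
      calc m * p ^ β = m / x * (p ^ β * x) := by field_simp
        _ ≤ _ := mul_le_mul_of_nonneg_left g1 (by positivity)
    have f2 : m * q ^ β ≤ nm P β (fun ω => ∑ i ∈ s, m / y * (Z i ω * ξ ω ^ β)) := by
      refine le_trans ?_ (nm_sum hβ s _ aZ)
      have g1 : ∀ i ∈ s, m / y * (q ^ β * nm P β (Z i)) ≤
          nm P β (fun ω => m / y * (Z i ω * ξ ω ^ β)) := by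
        intro i hi
        rw [nm_smul hβ0 (fun ω => mul_nonneg ((hZ i hi).nn ω) (Real.rpow_nonneg (hξ0 ω) _))
          (by positivity)]
        apply mul_le_mul_of_nonneg_left _ (by positivity)
        unfold nm
        have g2 : (fun ω => (Z i ω * ξ ω ^ β) ^ β⁻¹) = fun ω => Z i ω ^ β⁻¹ * ξ ω := by
          funext ω; exact chi_rpow hβ0 ((hZ i hi).nn ω) (hξ0 ω)
        rw [g2, ← Real.mul_rpow hq (int_nonneg (hZ i hi).nn)]
        exact Real.rpow_le_rpow (mul_nonneg hq (int_nonneg (hZ i hi).nn)) (hqZ i hi) hβ0.le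
      refine le_trans (le_of_eq ?_) (Finset.sum_le_sum g1)
      rw [← Finset.mul_sum, ← Finset.mul_sum, ← hy]
      field_simp
    calc m * (p ^ β + q ^ β) = m * p ^ β + m * q ^ β := by ring
      _ ≤ _ := add_le_add f1 f2
  have pA := part χ hχm hχ0 hχ1 p1 q1 hp1 hq1 h1 h3
  have pB := part (fun ω => 1 - χ ω) (hχm.const_sub 1) (fun ω => by have := hχ1 ω; linarith)
    (fun ω => by have := hχ0 ω; linarith) p2 q2 hp2 hq2 h2 h4
  have hint : ∀ (ξ : Ω → ℝ), Measurable ξ → (∀ ω, 0 ≤ ξ ω) → (∀ ω, ξ ω ≤ 1) →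
      Integrable (fun ω => W ω ^ β⁻¹ * ξ ω) P := by
    intro ξ hξm hξ0 hξ1
    refine hWa.int.mono' ((hWa.meas.pow_const _).mul hξm).aestronglyMeasurable
      (Filter.Eventually.of_forall fun ω => ?_)
    have h0 := Real.rpow_nonneg (hWa.nn ω) β⁻¹
    rw [Real.norm_eq_abs, abs_of_nonneg (mul_nonneg h0 (hξ0 ω))]
    have := hξ1 ω
    nlinarith
  have hWsum : ∫ ω, W ω ^ β⁻¹ ∂P = ∫ ω, W ω ^ β⁻¹ * χ ω ∂P + ∫ ω, W ω ^ β⁻¹ * (1 - χ ω) ∂P := by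
    rw [← integral_add (hint χ hχm hχ0 hχ1) (hint _ (hχm.const_sub 1)
      (fun ω => by have := hχ1 ω; linarith) (fun ω => by have := hχ0 ω; linarith))]
    refine integral_congr_ae (Filter.Eventually.of_forall fun ω => ?_)
    show W ω ^ β⁻¹ = W ω ^ β⁻¹ * χ ω + W ω ^ β⁻¹ * (1 - χ ω)
    ring
  have hWn : m * (2 + c) ≤ nm P β W := by
    have f1 : (m * (2 + c)) ^ β⁻¹ ≤ ∫ ω, W ω ^ β⁻¹ ∂P := by
      rw [hWsum, Real.mul_rpow hm0.le (by positivity)]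
      have f2 := mul_le_mul_of_nonneg_left hnum (Real.rpow_nonneg hm0.le β⁻¹)
      linarith
    calc m * (2 + c) = ((m * (2 + c)) ^ β⁻¹) ^ β := by
          rw [← Real.rpow_mul (by positivity), inv_mul_cancel₀ hβ0.ne', Real.rpow_one]
      _ ≤ _ := Real.rpow_le_rpow (by positivity) f1 hβ0.le
  -- the remaining parts
  have r1 : Adm P β (fun ω => (x - m) / x * X ω) :=
    hX.smul hβ0 (div_nonneg (by linarith) hx0.le)
  have r2 : Adm P β (fun ω => (y - m) / y * ∑ i ∈ s, Z i ω) :=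
    hS.smul hβ0 (div_nonneg (by linarith) hy0.le)
  have e3 : (fun ω => X ω + ∑ i ∈ s, Z i ω) = fun ω => ((x - m) / x * X ω +
      (y - m) / y * ∑ i ∈ s, Z i ω) + W ω := by
    funext ω
    simp only [hW]
    have g1 : (x - m) / x + m / x = 1 := by field_simp; ring
    have g2 : (y - m) / y + m / y = 1 := by field_simp; ring
    linear_combination (-(X ω)) * g1 + (-(∑ i ∈ s, Z i ω)) * g2
  rw [e3]
  have k1 := nm_add hβ (r1.add hβ0 r2) hWa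
  have k2 := nm_add hβ r1 r2
  have k3 : nm P β (fun ω => (x - m) / x * X ω) = x - m := by
    rw [nm_smul hβ0 hX.nn (div_nonneg (by linarith) hx0.le), ← hx]
    field_simp
  have k4 : y - m ≤ nm P β (fun ω => (y - m) / y * ∑ i ∈ s, Z i ω) := by
    rw [nm_smul hβ0 hS.nn (div_nonneg (by linarith) hy0.le)]
    calc y - m = (y - m) / y * y := by field_simp
      _ ≤ _ := mul_le_mul_of_nonneg_left hSn (div_nonneg (by linarith) hy0.le)
  linarith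

end general

/-- numeric fact: strict power mean inequality -/
theorem pow_mean {β p q : ℝ} (hβ : 1 < β) (hp : 0 ≤ p) (hq : 0 ≤ q) (hpq : p ≠ q) :
    2 ^ β⁻¹ * ((p + q) / 2) < (p ^ β + q ^ β) ^ β⁻¹ := by
  have hβ0 : 0 < β := by linarith
  have h1 := (strictConvexOn_rpow hβ).2 (Set.mem_Ici.2 hp) (Set.mem_Ici.2 hq) hpq
    (show (0 : ℝ) < 1 / 2 by norm_num) (show (0 : ℝ) < 1 / 2 by norm_num) (by norm_num)
  simp only [smul_eq_mul] at h1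
  have h2 : 1 / 2 * p + 1 / 2 * q = (p + q) / 2 := by ring
  rw [h2] at h1
  have h3 : 2 * ((p + q) / 2) ^ β < p ^ β + q ^ β := by linarith
  have h4 : (2 * ((p + q) / 2) ^ β) ^ β⁻¹ < (p ^ β + q ^ β) ^ β⁻¹ :=
    Real.rpow_lt_rpow (by positivity) h3 (by positivity)
  rwa [Real.mul_rpow (by norm_num) (by positivity), ← Real.rpow_mul (by positivity),
    mul_inv_cancel₀ hβ0.ne', Real.rpow_one] at h4

/-- the numerical gain: room around distinct `p0`, `q0` -/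
theorem num_gain {β p0 q0 : ℝ} (hβ : 1 < β) (hp : 0 ≤ p0) (hp1 : p0 ≤ 1) (hq : 0 ≤ q0)
    (hq1 : q0 ≤ 1) (hpq : p0 ≠ q0) : ∃ η c : ℝ, 0 < η ∧ 0 < c ∧
    ∀ p1 p2 q1 q2 : ℝ, 0 ≤ p1 → 0 ≤ p2 → 0 ≤ q1 → 0 ≤ q2 → p0 - η ≤ p1 → 1 - p0 - η ≤ p2 →
      q0 - η ≤ q1 → 1 - q0 - η ≤ q2 →
      (2 + c) ^ β⁻¹ ≤ (p1 ^ β + q1 ^ β) ^ β⁻¹ + (p2 ^ β + q2 ^ β) ^ β⁻¹ := by
  have hβ0 : 0 < β := by linarith
  have hθ0 : 0 < β⁻¹ := by positivity
  set Φ : ℝ → ℝ := fun η => ((max (p0 - η) 0) ^ β + (max (q0 - η) 0) ^ β) ^ β⁻¹ +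
    ((max (1 - p0 - η) 0) ^ β + (max (1 - q0 - η) 0) ^ β) ^ β⁻¹ with hΦ
  have hcont : Continuous Φ := by
    have c1 : ∀ r : ℝ, Continuous (fun η : ℝ => (max (r - η) 0) ^ β) := fun r =>
      ((continuous_const.sub continuous_id).max continuous_const).rpow_const
        (fun _ => Or.inr hβ0.le)
    exact (((c1 _).add (c1 _)).rpow_const fun _ => Or.inr hθ0.le).add
      (((c1 _).add (c1 _)).rpow_const fun _ => Or.inr hθ0.le)
  have h0 : 2 ^ β⁻¹ < Φ 0 := by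
    simp only [hΦ, sub_zero]
    rw [max_eq_left hp, max_eq_left hq, max_eq_left (by linarith), max_eq_left (by linarith)]
    have h1 := pow_mean hβ hp hq hpq
    have h2 := pow_mean hβ (show 0 ≤ 1 - p0 by linarith) (show 0 ≤ 1 - q0 by linarith)
      (fun hc => hpq (by linarith))
    calc (2 : ℝ) ^ β⁻¹ = 2 ^ β⁻¹ * ((p0 + q0) / 2) + 2 ^ β⁻¹ * ((1 - p0 + (1 - q0)) / 2) := by ring
      _ < _ := add_lt_add h1 h2
  -- choose the room
  obtain ⟨t, ht1, ht2⟩ := exists_between h0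
  have hev : ∀ᶠ η in 𝓝[>] (0 : ℝ), t < Φ η :=
    (hcont.tendsto 0).eventually (lt_mem_nhds ht2) |>.filter_mono nhdsWithin_le_nhds
  obtain ⟨η, hη, hη0⟩ := (hev.and self_mem_nhdsWithin).exists
  have ht0 : 0 < t := lt_trans (by positivity) ht1
  refine ⟨η, t ^ β - 2, hη0, ?_, ?_⟩
  · have : (2 : ℝ) = (2 ^ β⁻¹) ^ β := by
      rw [← Real.rpow_mul (by norm_num), inv_mul_cancel₀ hβ0.ne', Real.rpow_one]
    have h1 : (2 : ℝ) < t ^ β := by
      conv_lhs => rw [this]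
      exact Real.rpow_lt_rpow (by positivity) ht1 hβ0
    linarith
  · intro p1 p2 q1 q2 a1 a2 a3 a4 b1 b2 b3 b4
    have e1 : (2 + (t ^ β - 2)) ^ β⁻¹ = t := by
      rw [show 2 + (t ^ β - 2) = t ^ β by ring, ← Real.rpow_mul ht0.le, mul_inv_cancel₀ hβ0.ne',
        Real.rpow_one]
    rw [e1]
    refine hη.le.trans ?_
    simp only [hΦ]
    have m1 : ∀ {r s : ℝ}, 0 ≤ s → r ≤ s → (max r 0) ^ β ≤ s ^ β := fun {r s} hs hrs =>
      Real.rpow_le_rpow (le_max_right _ _) (max_le hrs hs) hβ0.le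
    apply add_le_add
    · exact Real.rpow_le_rpow (by positivity) (add_le_add (m1 a1 b1) (m1 a3 b3)) hθ0.le
    · exact Real.rpow_le_rpow (by positivity) (add_le_add (m1 a2 b2) (m1 a4 b4)) hθ0.le

end Pool.Agent.TH983
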