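import Pool.Agent.TH983.Crit

/-!
# Scalar bounds in the weak coupling window
-/

set_option autoImplicit false
set_option maxHeartbeats 4000000
open MeasureTheory ProbabilityTheory Filter Topology
open scoped ENNReal NNReal

namespace Pool.Agent.TH983
open Cop764

theorem aN_lower (D : Data) {κ β : ℝ} (hβ : 1 < β) (lam : ℝ) (hlam : 0 < lam) {c0 : ℝ}
    {n0 : ℕ} (hK : KHyp D.K D.α c0 n0) (hκ : 0 ≤ κ) (n : ℕ) :
    Real.exp (-(κ * (lam ^ 2 * n))) ≤ aN (Dat D lam hlam) (κ * lam) β n := by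
  have hβ0 : 0 < β := by linarith
  set D' := Dat D lam hlam with hD'
  have hm := mgf_SW D' (κ * lam) (β⁻¹ / 2) (Finset.Ioc 0 n)
  rw [Nat.card_Ioc, Nat.sub_zero] at hm
  have h1 : (1 : ℝ) ≤ ∫ x, Real.exp ((-2 * D'.lam * (β⁻¹ / 2)) * x) ∂D'.ν := by
    have hid : Integrable (fun x : ℝ => x) D'.ν := (nu_memLp D').integrable one_le_two
    have h2 : ∫ x, (1 + (-2 * D'.lam * (β⁻¹ / 2)) * x) ∂D'.ν ≤
        ∫ x, Real.exp ((-2 * D'.lam * (β⁻¹ / 2)) * x) ∂D'.ν := by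
      apply integral_mono ((integrable_const 1).add (hid.const_mul _)) (D'.expm _)
      intro x
      show 1 + (-2 * D'.lam * (β⁻¹ / 2)) * x ≤ Real.exp ((-2 * D'.lam * (β⁻¹ / 2)) * x)
      have := Real.add_one_le_exp ((-2 * D'.lam * (β⁻¹ / 2)) * x)
      linarith
    rw [integral_add (integrable_const 1) (hid.const_mul _), integral_const_mul, D'.mean] at h2
    simpa using h2
  have h3 : Real.exp (-(β⁻¹ * κ * (lam ^ 2 * n))) ≤
      ∫ ω, Real.exp (β⁻¹ / 2 * SW (D'.w (κ * lam) ω) (Finset.Ioc 0 n)) ∂D'.P := by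
    rw [hm.2]
    have h4 : Real.exp (-2 * D'.lam * (β⁻¹ / 2) * (κ * lam)) ^ n ≤
        (Real.exp (-2 * D'.lam * (β⁻¹ / 2) * (κ * lam)) *
          ∫ x, Real.exp ((-2 * D'.lam * (β⁻¹ / 2)) * x) ∂D'.ν) ^ n := by
      apply pow_le_pow_left₀ (Real.exp_pos _).le
      exact le_mul_of_one_le_right (Real.exp_pos _).le h1
    refine le_trans (le_of_eq ?_) h4
    rw [← Real.exp_nat_mul]
    congr 1
    have : D'.lam = lam := rfl
    rw [this]
    ring
  have hphi := adm_phi (D := D') (h := κ * lam) (β := β) hK (by positivity) hβ.le (Nat.zero_le n)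
  have h5 : Real.exp (-(β⁻¹ * κ * (lam ^ 2 * n))) ≤
      ∫ ω, phi (D'.w (κ * lam) ω) 0 n ^ β⁻¹ ∂D'.P := by
    refine h3.trans (integral_mono hm.1 hphi.int fun ω => ?_)
    show Real.exp (β⁻¹ / 2 * SW (D'.w (κ * lam) ω) (Finset.Ioc 0 n)) ≤
      phi (D'.w (κ * lam) ω) 0 n ^ β⁻¹
    have e1 : SW (D'.w (κ * lam) ω) (Finset.Ioc 0 n) = S (D'.w (κ * lam) ω) 0 n := rfl
    rw [e1]
    set s := S (D'.w (κ * lam) ω) 0 n with hs
    have e2 : Real.exp (s / 2) ≤ phi (D'.w (κ * lam) ω) 0 n := by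
      unfold phi
      rw [← hs]
      have e3 : Real.exp s = Real.exp (s / 2) * Real.exp (s / 2) := by
        rw [← Real.exp_add]; congr 1; ring
      rw [e3]
      nlinarith [sq_nonneg (Real.exp (s / 2) - 1)]
    have e4 := Real.rpow_le_rpow (Real.exp_pos _).le e2 (show 0 ≤ β⁻¹ by positivity)
    rw [← Real.exp_mul] at e4
    refine le_trans (le_of_eq ?_) e4
    congr 1
    ring
  unfold aN nm
  have h6 := Real.rpow_le_rpow (Real.exp_pos _).le h5 hβ0.le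
  rw [← Real.exp_mul] at h6
  refine le_trans (le_of_eq ?_) h6
  congr 1
  field_simp

/-- the norm is at most the mean -/
theorem nm_le_mean {Ω : Type*} [MeasurableSpace Ω] {P : Measure Ω} [IsProbabilityMeasure P]
    {β : ℝ} (hβ : 1 < β) {X : Ω → ℝ} (hX : ∀ ω, 0 < X ω) (hi : Integrable X P)
    (hiθ : Integrable (fun ω => X ω ^ β⁻¹) P) : nm P β X ≤ ∫ ω, X ω ∂P := by
  have hβ0 : 0 < β := by linarith
  set c := ∫ ω, X ω ∂P with hc
  have hc0 : 0 < c := by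
    rw [hc, integral_pos_iff_support_of_nonneg (fun x => (hX x).le) hi]
    have : Function.support X = Set.univ := by
      ext x; simp [(hX x).ne']
    rw [this, measure_univ]
    exact one_pos
  have hθ0 : 0 ≤ β⁻¹ := by positivity
  have hθ1 : β⁻¹ ≤ 1 := inv_le_one_of_one_le₀ hβ.le
  have h1 : ∫ ω, (X ω ^ β⁻¹) / c ^ β⁻¹ ∂P ≤ ∫ ω, (1 + β⁻¹ * (X ω / c - 1)) ∂P := by
    have i2 : Integrable (fun ω => 1 + β⁻¹ * (X ω / c - 1)) P :=
      (integrable_const 1).add (((hi.div_const c).sub (integrable_const 1)).const_mul _)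
    refine integral_mono (hiθ.div_const _) i2 fun ω => ?_
    show (X ω ^ β⁻¹) / c ^ β⁻¹ ≤ 1 + β⁻¹ * (X ω / c - 1)
    rw [← Real.div_rpow (hX ω).le hc0.le]
    have h2 := rpow_one_add_le_one_add_mul_self (s := X ω / c - 1) (p := β⁻¹)
      (by have : 0 < X ω / c := div_pos (hX ω) hc0
          linarith) hθ0 hθ1
    rwa [add_sub_cancel] at h2
  have i3 : Integrable (fun ω => X ω / c - 1) P := (hi.div_const c).sub (integrable_const 1)
  rw [integral_add (integrable_const 1) (i3.const_mul _), integral_const_mul,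
    integral_sub (hi.div_const c) (integrable_const 1), integral_div, integral_div, ← hc,
    div_self hc0.ne'] at h1
  simp only [integral_const, probReal_univ, smul_eq_mul, one_mul, sub_self, mul_zero,
    add_zero] at h1
  rw [div_le_one (Real.rpow_pos_of_pos hc0 _)] at h1
  unfold nm
  have h2 : 0 ≤ ∫ ω, X ω ^ β⁻¹ ∂P := integral_nonneg fun ω => Real.rpow_nonneg (hX ω).le _
  calc (∫ ω, X ω ^ β⁻¹ ∂P) ^ β ≤ (c ^ β⁻¹) ^ β := Real.rpow_le_rpow h2 h1 hβ0.le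
    _ = c := by rw [← Real.rpow_mul hc0.le, inv_mul_cancel₀ hβ0.ne', Real.rpow_one]

theorem aN_upper (D : Data) {κ β : ℝ} (hκ : 0 ≤ κ) (hβ : 1 < β) {c0 : ℝ}
    {n0 : ℕ} (hK : KHyp D.K D.α c0 n0) : ∃ C : ℝ, 0 ≤ C ∧
    ∀ (lam : ℝ) (hlam : 0 < lam), lam ≤ 1 / 8 → ∀ n : ℕ,
      aN (Dat D lam hlam) (κ * lam) β n ≤ Real.exp (C * (lam ^ 2 * n)) := by
  obtain ⟨C, hC0, hC⟩ := mgf_bound D hκ
  refine ⟨C, hC0, fun lam hlam hl n => ?_⟩
  set D' := Dat D lam hlam with hD'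
  have h1 := hC lam hlam hl 1 (by norm_num) (Finset.Ioc 0 n)
  rw [Nat.card_Ioc, Nat.sub_zero, abs_one, mul_one] at h1
  have hi := phi_integrable (D := D') (h := κ * lam) hK (by positivity) (Nat.zero_le n)
  have hphi := adm_phi (D := D') (h := κ * lam) (β := β) hK (by positivity) hβ.le (Nat.zero_le n)
  have h2 := nm_le_mean hβ (fun ω => phi_pos (D'.w (κ * lam) ω) 0 n) hi hphi.int
  refine h2.trans ?_
  have hSi := (mgf_SW D' (κ * lam) 1 (Finset.Ioc 0 n)).1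
  have e1 : ∀ ω, phi (D'.w (κ * lam) ω) 0 n =
      (1 + Real.exp (1 * SW (D'.w (κ * lam) ω) (Finset.Ioc 0 n))) / 2 := by
    intro ω
    rw [one_mul]
    rfl
  have h3 : ∫ ω, phi (D'.w (κ * lam) ω) 0 n ∂D'.P =
      (1 + ∫ ω, Real.exp (1 * SW (D'.w (κ * lam) ω) (Finset.Ioc 0 n)) ∂D'.P) / 2 := by
    simp only [e1]
    rw [integral_div, integral_add (integrable_const 1) hSi]
    simp
  rw [h3]
  have h4 : (1 : ℝ) ≤ Real.exp (C * (lam ^ 2 * n)) := Real.one_le_exp (by positivity)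
  have h5 : ∫ ω, Real.exp (1 * SW (D'.w (κ * lam) ω) (Finset.Ioc 0 n)) ∂D'.P ≤
      Real.exp (C * (lam ^ 2 * n)) := h1
  linarith

/-- upper bound and tail bound for the gap law -/
theorem K_facts (D : Data) : ∃ C : ℝ, 0 < C ∧ (∀ n : ℕ, 1 ≤ n → D.K n ≤ C * (n : ℝ) ^ (-(1 + D.α))) ∧
    (∀ B : ℕ, 1 ≤ B → 1 - C * (B : ℝ) ^ (-D.α) ≤ ∑ n ∈ Finset.Ioc 0 B, D.K n) ∧
    HasSum D.K 1 ∧ D.K 0 = 0 := by
  have hα := D.hα
  have hKn : ∀ n, 0 ≤ D.K n := fun n => ENNReal.toReal_nonneg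
  have hK0 : D.K 0 = 0 := by simp [Data.K, D.κ0]
  have hsum : HasSum D.K 1 := by
    have h1 : Summable (fun n => (D.κ n).toReal) :=
      ENNReal.summable_toReal (by rw [D.κ.tsum_coe]; exact ENNReal.one_ne_top)
    have h2 : ∑' n, (D.κ n).toReal = 1 := by
      rw [← ENNReal.tsum_toReal_eq (fun n => D.κ.apply_ne_top n), D.κ.tsum_coe]
      simp
    have := h1.hasSum
    rw [h2] at this
    exact this
  obtain ⟨C, hC⟩ : ∃ C : ℝ, ∀ n : ℕ, 1 ≤ n → D.K n ≤ C * (n : ℝ) ^ (-(1 + D.α)) := by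
    obtain ⟨C, hC⟩ := (D.htail.bddAbove_range)
    refine ⟨C, fun n hn => ?_⟩
    have h1 : (n : ℝ) ^ (1 + D.α) * (D.κ n).toReal ≤ C := hC (Set.mem_range_self n)
    have hn0 : (0 : ℝ) < n := by exact_mod_cast hn
    have hx : (0 : ℝ) < (n : ℝ) ^ (1 + D.α) := Real.rpow_pos_of_pos hn0 _
    rw [Real.rpow_neg hn0.le, ← div_eq_mul_inv, le_div_iff₀ hx]
    show (D.κ n).toReal * _ ≤ C
    linarith
  have hC0 : 0 ≤ C := by
    have h1 := hC 1 le_rfl
    have h2 := hKn 1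
    simp at h1
    linarith
  refine ⟨max (C * D.α⁻¹) C + 1, by positivity, ?_, ?_, hsum, hK0⟩
  · intro n hn
    refine (hC n hn).trans ?_
    apply mul_le_mul_of_nonneg_right _ (Real.rpow_nonneg (Nat.cast_nonneg _) _)
    linarith [le_max_right (C * D.α⁻¹) C]
  · intro n hn
    have hn0 : (0 : ℝ) ≤ (n : ℝ) ^ (-D.α) := Real.rpow_nonneg (Nat.cast_nonneg _) _
    have hpart : ∀ n : ℕ, ∑ k ∈ Finset.Ioc 0 n, D.K k = ∑ k ∈ Finset.range (n + 1), D.K k := by
      intro n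
      rw [Finset.range_eq_Ico, Finset.sum_eq_sum_Ico_succ_bot (by omega), hK0, zero_add]
      apply Finset.sum_congr _ fun _ _ => rfl
      ext k
      simp only [Finset.mem_Ioc, Finset.mem_Ico]
      omega
    have hlim : Tendsto (fun m : ℕ => ∑ k ∈ Finset.range (m + 1), D.K k -
        ∑ k ∈ Finset.range (n + 1), D.K k) atTop (𝓝 (1 - ∑ k ∈ Finset.range (n + 1), D.K k)) :=
      ((tendsto_add_atTop_iff_nat 1).2 hsum.tendsto_sum_nat).sub_const _
    have hle : 1 - ∑ k ∈ Finset.range (n + 1), D.K k ≤ C * D.α⁻¹ * (n : ℝ) ^ (-D.α) := by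
      refine le_of_tendsto hlim ?_
      filter_upwards [eventually_ge_atTop n] with m hm
      have h1 : ∑ k ∈ Finset.range (m + 1), D.K k - ∑ k ∈ Finset.range (n + 1), D.K k =
          ∑ k ∈ Finset.Ioc n m, D.K k := by
        rw [← hpart, ← hpart, sub_eq_iff_eq_add,
          ← Finset.Ioc_union_Ioc_eq_Ioc (Nat.zero_le n) hm,
          Finset.sum_union (Finset.Ioc_disjoint_Ioc_of_le le_rfl), add_comm]
      rw [h1]
      have h2 : ∑ k ∈ Finset.Ioc n m, D.K k ≤ ∑ k ∈ Finset.Ioc n m, C * (k : ℝ) ^ (-(1 + D.α)) := by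
        refine Finset.sum_le_sum fun k hk => ?_
        rw [Finset.mem_Ioc] at hk
        exact hC k (by omega)
      rw [← Finset.mul_sum] at h2
      have h3 := sum_tail1 hα n hn m hm
      have h4 : 0 ≤ (m : ℝ) ^ (-D.α) := Real.rpow_nonneg (Nat.cast_nonneg _) _
      calc _ ≤ C * ∑ k ∈ Finset.Ioc n m, (k : ℝ) ^ (-(1 + D.α)) := h2
        _ ≤ C * (D.α⁻¹ * ((n : ℝ) ^ (-D.α) - (m : ℝ) ^ (-D.α))) := mul_le_mul_of_nonneg_left h3 hC0
        _ ≤ C * (D.α⁻¹ * ((n : ℝ) ^ (-D.α))) := by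
            apply mul_le_mul_of_nonneg_left _ hC0
            apply mul_le_mul_of_nonneg_left _ (inv_nonneg.2 hα.le)
            linarith
        _ = _ := by ring
    rw [hpart]
    have h5 : C * D.α⁻¹ * (n : ℝ) ^ (-D.α) ≤ (max (C * D.α⁻¹) C + 1) * (n : ℝ) ^ (-D.α) := by
      apply mul_le_mul_of_nonneg_right _ hn0
      linarith [le_max_left (C * D.α⁻¹) C]
    linarith

/-- lower bound on the renewal mass, for `α < 1` -/
theorem U_lower (D : Data) (hα1 : D.α < 1) : ∃ c : ℝ, 0 < c ∧ ∀ R : ℕ, 1 ≤ R →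
    c * (R : ℝ) ^ D.α ≤ U D.K R := by
  obtain ⟨C, _, hC, _, hs, hK0⟩ := K_facts D
  exact U_ge (fun n => ENNReal.toReal_nonneg) hK0 hs D.hα hα1 hC

theorem uS_lower (D : Data) {κ β : ℝ} (hβ : 1 < β) (lam : ℝ) (hlam : 0 < lam) {c0 : ℝ}
    {n0 : ℕ} (hK : KHyp D.K D.α c0 n0) (hκ : 0 ≤ κ) {cut R : ℕ} (hR : R < cut) :
    Real.exp (-(κ * (lam ^ 2 * R))) * U D.K R ≤
      ∑ a ∈ Finset.range (R + 1), uS (Dat D lam hlam) (κ * lam) β cut a := by
  unfold U
  rw [Finset.mul_sum]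
  refine Finset.sum_le_sum fun a ha => ?_
  rw [Finset.mem_range] at ha
  set y := Real.exp (-(κ * lam ^ 2)) with hy
  have hypow : ∀ k : ℕ, y ^ k = Real.exp (-(κ * (lam ^ 2 * k))) := by
    intro k
    rw [hy, ← Real.exp_nat_mul]
    congr 1
    ring
  have h1 := u_comp (r := fun k => KS D.K cut k * aN (Dat D lam hlam) (κ * lam) β k)
    (r' := D.K) (y := y) (Real.exp_pos _).le hK.nonneg (N := R) (by
      intro k hk1 hk2
      show y ^ k * D.K k ≤ KS D.K cut k * aN (Dat D lam hlam) (κ * lam) β k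
      have e1 : KS D.K cut k = D.K k := by unfold KS; rw [if_pos (by omega)]
      rw [e1, hypow, mul_comm]
      exact mul_le_mul_of_nonneg_left (aN_lower D hβ lam hlam hK hκ k) (hK.nonneg k)) a (by omega)
  rw [hypow] at h1
  refine le_trans ?_ h1
  apply mul_le_mul_of_nonneg_right _ (u_nonneg hK.nonneg a)
  apply Real.exp_le_exp.2
  have h2 : (a : ℝ) ≤ R := Nat.cast_le.2 (by omega)
  have h3 : κ * (lam ^ 2 * a) ≤ κ * (lam ^ 2 * R) := by
    apply mul_le_mul_of_nonneg_left _ hκ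
    exact mul_le_mul_of_nonneg_left h2 (sq_nonneg _)
  linarith

theorem Pr_sum_ge {f : ℕ → ℝ} (hf : ∀ n, 0 ≤ f n) {e0 e1 L : ℕ} (h : 2 * e1 ≤ e0) :
    ((e1 + 1 : ℕ) : ℝ) * ∑ j ∈ Finset.range (e1 + 1), f j ≤ ∑ p ∈ Pr e0 L, f (p.2 - p.1) := by
  classical
  set S0 := Finset.range (e1 + 1) ×ˢ Finset.range (e1 + 1) with hS0
  set g : ℕ × ℕ → ℕ × ℕ := fun q => (e0 + L + q.1, e0 + L + q.1 + q.2) with hg
  have hinj : Set.InjOn g S0 := by
    intro a _ b _ hab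
    simp only [hg, Prod.mk.injEq] at hab
    ext
    · omega
    · omega
  have hsub : S0.image g ⊆ Pr e0 L := by
    intro p hp
    rw [Finset.mem_image] at hp
    obtain ⟨q, hq, rfl⟩ := hp
    simp only [hS0, Finset.mem_product, Finset.mem_range] at hq
    unfold Pr
    simp only [hg, Finset.mem_filter, Finset.mem_product, Finset.mem_Icc]
    omega
  have h1 : ∑ p ∈ S0.image g, f (p.2 - p.1) ≤ ∑ p ∈ Pr e0 L, f (p.2 - p.1) :=
    Finset.sum_le_sum_of_subset_of_nonneg hsub fun p _ _ => hf _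
  refine le_trans (le_of_eq ?_) h1
  rw [Finset.sum_image hinj]
  have h2 : ∀ q ∈ S0, f ((g q).2 - (g q).1) = f q.2 := by
    intro q _
    simp only [hg]
    congr 1
    omega
  rw [Finset.sum_congr rfl h2, hS0, Finset.sum_product]
  simp only [Finset.sum_const, Finset.card_range, nsmul_eq_mul]

end Pool.Agent.TH983
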