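import Mathlib

/-!
# The second moment inequality for a finite family of events
-/

set_option autoImplicit false
set_option maxHeartbeats 4000000
open MeasureTheory ProbabilityTheory Filter Topology
open scoped ENNReal NNReal

namespace Pool.Agent.TH983

theorem second_moment {Ω ι : Type*} [MeasurableSpace Ω] (P : Measure Ω) [IsProbabilityMeasure P]
    (s : Finset ι) (A : ι → Set Ω) (hA : ∀ i ∈ s, MeasurableSet (A i)) :
    (∑ i ∈ s, P.real (A i)) ^ 2 ≤
      P.real (⋃ i ∈ s, A i) * ∑ i ∈ s, ∑ j ∈ s, P.real (A i ∩ A j) := by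
  classical
  set f : Ω → ℝ := fun ω => ∑ i ∈ s, (A i).indicator (fun _ => (1 : ℝ)) ω with hf
  set Un : Set Ω := ⋃ i ∈ s, A i with hUn
  have hUnm : MeasurableSet Un := Finset.measurableSet_biUnion s hA
  have hint : ∀ i ∈ s, Integrable ((A i).indicator (fun _ => (1 : ℝ))) P := fun i hi =>
    (integrable_const 1).indicator (hA i hi)
  have hfi : Integrable f P := integrable_finsetSum _ hint
  have h1 : ∫ ω, f ω ∂P = ∑ i ∈ s, P.real (A i) := by
    rw [integral_finsetSum _ hint]
    refine Finset.sum_congr rfl fun i hi => ?_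
    rw [integral_indicator_const _ (hA i hi)]
    simp
  have hsq : ∀ ω, f ω ^ 2 = ∑ i ∈ s, ∑ j ∈ s, (A i ∩ A j).indicator (fun _ => (1 : ℝ)) ω := by
    intro ω
    rw [sq, hf]
    simp only
    rw [Finset.sum_mul_sum]
    refine Finset.sum_congr rfl fun i _ => Finset.sum_congr rfl fun j _ => ?_
    by_cases h1 : ω ∈ A i <;> by_cases h2 : ω ∈ A j <;> simp [h1, h2]
  have hint2 : ∀ i ∈ s, ∀ j ∈ s, Integrable ((A i ∩ A j).indicator (fun _ => (1 : ℝ))) P :=
    fun i hi j hj => (integrable_const 1).indicator ((hA i hi).inter (hA j hj))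
  have hf2i : Integrable (fun ω => f ω ^ 2) P := by
    simp only [hsq]
    exact integrable_finsetSum _ fun i hi => integrable_finsetSum _ fun j hj => hint2 i hi j hj
  have h2 : ∫ ω, f ω ^ 2 ∂P = ∑ i ∈ s, ∑ j ∈ s, P.real (A i ∩ A j) := by
    simp only [hsq]
    rw [integral_finsetSum _ fun i hi => integrable_finsetSum _ fun j hj => hint2 i hi j hj]
    refine Finset.sum_congr rfl fun i hi => ?_
    rw [integral_finsetSum _ fun j hj => hint2 i hi j hj]
    refine Finset.sum_congr rfl fun j hj => ?_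
    rw [integral_indicator_const _ ((hA i hi).inter (hA j hj))]
    simp
  have hf0 : ∀ ω, ω ∉ Un → f ω = 0 := by
    intro ω hω
    rw [hf]
    refine Finset.sum_eq_zero fun i hi => ?_
    rw [Set.indicator_of_notMem]
    intro hmem
    exact hω (Set.mem_biUnion hi hmem)
  set p := P.real Un with hp
  set v := ∑ i ∈ s, P.real (A i) with hv
  have hquad : ∀ t : ℝ, 0 ≤ ∫ ω, f ω ^ 2 ∂P - 2 * t * v + t ^ 2 * p := by
    intro t
    have e : ∀ ω, (f ω - t * Un.indicator (fun _ => (1 : ℝ)) ω) ^ 2 =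
        f ω ^ 2 - 2 * t * f ω + t ^ 2 * Un.indicator (fun _ => (1 : ℝ)) ω := by
      intro ω
      by_cases hω : ω ∈ Un
      · rw [Set.indicator_of_mem hω]; ring
      · rw [Set.indicator_of_notMem hω, hf0 ω hω]; ring
    have h3 : 0 ≤ ∫ ω, (f ω - t * Un.indicator (fun _ => (1 : ℝ)) ω) ^ 2 ∂P :=
      integral_nonneg fun ω => sq_nonneg _
    simp only [e] at h3
    have iU : Integrable (fun ω => Un.indicator (fun _ => (1 : ℝ)) ω) P :=
      (integrable_const 1).indicator hUnm
    have i1 : Integrable (fun ω => f ω ^ 2 - 2 * t * f ω) P := hf2i.sub (hfi.const_mul _)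
    rw [integral_add i1 (iU.const_mul _), integral_sub hf2i (hfi.const_mul _),
      integral_const_mul, integral_const_mul, h1, integral_indicator_const _ hUnm] at h3
    simpa using h3
  rw [← h2]
  rcases eq_or_lt_of_le (measureReal_nonneg (μ := P) (s := Un)) with h0 | h0
  · have hv0 : v = 0 := by
      rw [hv]
      refine Finset.sum_eq_zero fun i hi => le_antisymm ?_ measureReal_nonneg
      rw [h0]
      exact measureReal_mono (Set.subset_biUnion_of_mem (u := fun i => A i) hi)
        (measure_ne_top _ _)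
    rw [hv0, hp, ← h0]
    simp
  · have h4 := hquad (v / p)
    have hp0 : 0 < p := h0
    have e2 : ∫ ω, f ω ^ 2 ∂P - 2 * (v / p) * v + (v / p) ^ 2 * p = ∫ ω, f ω ^ 2 ∂P - v ^ 2 / p := by
      field_simp
      ring
    rw [e2] at h4
    have h5 : v ^ 2 / p ≤ ∫ ω, f ω ^ 2 ∂P := by linarith
    rw [div_le_iff₀ hp0] at h5
    linarith

end Pool.Agent.TH983
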