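import Pool.Agent.TH983.Clt2

/-!
# Strict difference of the two tilted means, and moment bounds on product laws
-/

set_option autoImplicit false
set_option maxHeartbeats 4000000
open MeasureTheory ProbabilityTheory Filter Topology
open scoped ENNReal NNReal

namespace Pool.Agent.TH983
open Cop764

/-- half of one plus the exponential -/
noncomputable def ph (s : ℝ) : ℝ := (1 + Real.exp s) / 2

/-- test function of two variables -/
noncomputable def ch2 (x : ℝ × ℝ) : ℝ :=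
  (1 + Real.exp (x.1 + x.2)) / ((1 + Real.exp x.1) * (1 + Real.exp x.2))

/-- weight of the single excursion -/
noncomputable def V2 (θ : ℝ) (x : ℝ × ℝ) : ℝ := ph (x.1 + x.2) ^ θ

/-- weight of the double excursion -/
noncomputable def W2 (θ : ℝ) (x : ℝ × ℝ) : ℝ := ph x.1 ^ θ * ph x.2 ^ θ

theorem ph_pos (s : ℝ) : 0 < ph s := by unfold ph; positivity

theorem ph_cont : Continuous ph := by unfold ph; fun_prop

theorem ch2_pos (x : ℝ × ℝ) : 0 < ch2 x := by unfold ch2; positivity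

theorem ch2_le (x : ℝ × ℝ) : ch2 x ≤ 1 := by
  unfold ch2
  rw [div_le_one (by positivity), Real.exp_add]
  have h1 := Real.exp_pos x.1
  have h2 := Real.exp_pos x.2
  nlinarith

theorem ch2_cont : Continuous ch2 := by
  unfold ch2
  refine Continuous.div (by fun_prop) (by fun_prop) fun x => ?_
  positivity

theorem V2_pos (θ : ℝ) (x : ℝ × ℝ) : 0 < V2 θ x := Real.rpow_pos_of_pos (ph_pos _) _

theorem W2_pos (θ : ℝ) (x : ℝ × ℝ) : 0 < W2 θ x :=
  mul_pos (Real.rpow_pos_of_pos (ph_pos _) _) (Real.rpow_pos_of_pos (ph_pos _) _)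

theorem V2_cont (θ : ℝ) : Continuous (V2 θ) := by
  unfold V2
  exact (ph_cont.comp (continuous_fst.add continuous_snd)).rpow_const
    fun x => Or.inl (ph_pos _).ne'

theorem W2_cont (θ : ℝ) : Continuous (W2 θ) := by
  unfold W2
  exact ((ph_cont.comp continuous_fst).rpow_const fun x => Or.inl (ph_pos _).ne').mul
    ((ph_cont.comp continuous_snd).rpow_const fun x => Or.inl (ph_pos _).ne')

theorem V2_eq (θ : ℝ) (x : ℝ × ℝ) : V2 θ x = W2 θ x * (2 * ch2 x) ^ θ := by
  unfold V2 W2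
  have h1 : ph (x.1 + x.2) = ph x.1 * ph x.2 * (2 * ch2 x) := by
    unfold ph ch2
    field_simp
  have h2 := ch2_pos x
  rw [h1, Real.mul_rpow (mul_nonneg (ph_pos _).le (ph_pos _).le) (by positivity),
    Real.mul_rpow (ph_pos _).le (ph_pos _).le]

/-- the two tilted means differ -/
theorem gauss_strict {θ : ℝ} (hθ : 0 < θ) (m : Measure (ℝ × ℝ)) [IsProbabilityMeasure m]
    (habs : (volume : Measure (ℝ × ℝ)) ≪ m) (hV : Integrable (V2 θ) m) (hW : Integrable (W2 θ) m) :
    (∫ x, V2 θ x * ch2 x ∂m) / (∫ x, V2 θ x ∂m) ≠ (∫ x, W2 θ x * ch2 x ∂m) / (∫ x, W2 θ x ∂m) := by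
  intro heq
  have hpos : ∀ f : ℝ × ℝ → ℝ, (∀ x, 0 < f x) → Integrable f m → 0 < ∫ x, f x ∂m := by
    intro f hf hi
    rw [integral_pos_iff_support_of_nonneg (fun x => (hf x).le) hi]
    have : Function.support f = Set.univ := by
      ext x; simp [(hf x).ne']
    rw [this, measure_univ]
    exact one_pos
  have hV0 := hpos _ (V2_pos θ) hV
  have hW0 := hpos _ (W2_pos θ) hW
  have hbd : ∀ f : ℝ × ℝ → ℝ, Integrable f m → Integrable (fun x => f x * ch2 x) m := by
    intro f hf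
    refine hf.mul_bdd (c := 1) ch2_cont.measurable.aestronglyMeasurable
      (Filter.Eventually.of_forall fun x => ?_)
    rw [Real.norm_eq_abs, abs_of_pos (ch2_pos x)]
    exact ch2_le x
  have hVc := hbd _ hV
  have hWc := hbd _ hW
  set q : ℝ := (∫ x, W2 θ x * ch2 x ∂m) / (∫ x, W2 θ x ∂m) with hq
  have hq0 : 0 < q := div_pos (hpos _ (fun x => mul_pos (W2_pos θ x) (ch2_pos x)) hWc) hW0
  have e1 : ∫ x, V2 θ x * ch2 x ∂m = q * ∫ x, V2 θ x ∂m := by
    rw [← heq, div_mul_cancel₀ _ hV0.ne']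
  have e2 : ∫ x, W2 θ x * ch2 x ∂m = q * ∫ x, W2 θ x ∂m := by
    rw [hq, div_mul_cancel₀ _ hW0.ne']
  set g : ℝ × ℝ → ℝ := fun x => (V2 θ x * ch2 x - q * V2 θ x) -
    (2 * q) ^ θ * (W2 θ x * ch2 x - q * W2 θ x) with hg
  have hgint : ∫ x, g x ∂m = 0 := by
    rw [hg]
    have i1 : Integrable (fun x => V2 θ x * ch2 x - q * V2 θ x) m := hVc.sub (hV.const_mul q)
    have i2 : Integrable (fun x => W2 θ x * ch2 x - q * W2 θ x) m := hWc.sub (hW.const_mul q)
    rw [integral_sub i1 (i2.const_mul _), integral_const_mul, integral_sub hVc (hV.const_mul q),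
      integral_sub hWc (hW.const_mul q), integral_const_mul, integral_const_mul, e1, e2]
    ring
  have hgi : Integrable g m :=
    (hVc.sub (hV.const_mul q)).sub ((hWc.sub (hW.const_mul q)).const_mul _)
  have hgeq : ∀ x, g x = W2 θ x * (((2 * ch2 x) ^ θ - (2 * q) ^ θ) * (ch2 x - q)) := by
    intro x
    simp only [hg]
    rw [V2_eq]
    ring
  have hgnn : ∀ x, 0 ≤ ((2 * ch2 x) ^ θ - (2 * q) ^ θ) * (ch2 x - q) := by
    intro x
    have hc := ch2_pos x
    rcases le_total (ch2 x) q with h | h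
    · have h1 : (2 * ch2 x) ^ θ ≤ (2 * q) ^ θ :=
        Real.rpow_le_rpow (by positivity) (by linarith) hθ.le
      exact mul_nonneg_of_nonpos_of_nonpos (by linarith) (by linarith)
    · have h1 : (2 * q) ^ θ ≤ (2 * ch2 x) ^ θ :=
        Real.rpow_le_rpow (by positivity) (by linarith) hθ.le
      exact mul_nonneg (by linarith) (by linarith)
  have hg0 : ∀ x, 0 ≤ g x := fun x => by
    rw [hgeq]; exact mul_nonneg (W2_pos θ x).le (hgnn x)
  have hae : g =ᵐ[m] 0 := (integral_eq_zero_iff_of_nonneg hg0 hgi).1 hgint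
  have hae2 : (fun x => ch2 x) =ᵐ[m] fun _ => q := by
    filter_upwards [hae] with x hx
    rw [hgeq] at hx
    have h1 : ((2 * ch2 x) ^ θ - (2 * q) ^ θ) * (ch2 x - q) = 0 := by
      rcases mul_eq_zero.1 hx with h | h
      · exact absurd h (W2_pos θ x).ne'
      · exact h
    have hc := ch2_pos x
    rcases mul_eq_zero.1 h1 with h | h
    · by_contra hne
      rcases lt_or_gt_of_ne hne with h2 | h2
      · have := Real.rpow_lt_rpow (show 0 ≤ 2 * ch2 x by positivity)
          (show 2 * ch2 x < 2 * q by linarith) hθ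
        linarith
      · have := Real.rpow_lt_rpow (show 0 ≤ 2 * q by positivity)
          (show 2 * q < 2 * ch2 x by linarith) hθ
        linarith
    · linarith
  have hae3 : (fun x => ch2 x) =ᵐ[(volume : Measure (ℝ × ℝ))] fun _ => q := habs.ae_le hae2
  have hall : (fun x => ch2 x) = fun _ => q :=
    (Continuous.ae_eq_iff_eq (volume : Measure (ℝ × ℝ)) ch2_cont continuous_const).1 hae3
  have h1 : ch2 (0, 0) = q := congrFun hall (0, 0)
  have h2 : ch2 (1, 1) = q := congrFun hall (1, 1)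
  rw [← h1] at h2
  unfold ch2 at h2
  simp only [add_zero, Real.exp_zero] at h2
  have h3 : Real.exp (1 + 1) = Real.exp 1 * Real.exp 1 := Real.exp_add 1 1
  rw [h3] at h2
  have h4 : (1 : ℝ) < Real.exp 1 := by
    have := Real.add_one_lt_exp (show (1 : ℝ) ≠ 0 by norm_num)
    linarith
  have h5 : (0 : ℝ) < (1 + Real.exp 1) * (1 + Real.exp 1) := by positivity
  rw [div_eq_div_iff h5.ne' (by norm_num)] at h2
  nlinarith

theorem ph_sq_le (s : ℝ) : ph s ^ 2 ≤ 1 + Real.exp (2 * s) := by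
  unfold ph
  have : Real.exp (2 * s) = Real.exp s * Real.exp s := by rw [← Real.exp_add]; congr 1; ring
  rw [this]
  nlinarith [sq_nonneg (Real.exp s - 1), Real.exp_pos s, sq_nonneg (Real.exp s)]

theorem rpow_sq_le {x θ : ℝ} (hx : 0 < x) (hθ0 : 0 ≤ θ) (hθ1 : θ ≤ 1) :
    (x ^ θ) ^ 2 ≤ 1 + x ^ 2 := by
  rcases le_total x 1 with h | h
  · have h1 : x ^ θ ≤ 1 := Real.rpow_le_one hx.le h hθ0
    have h2 : 0 ≤ x ^ θ := Real.rpow_nonneg hx.le _
    nlinarith [sq_nonneg x]
  · have h1 : x ^ θ ≤ x := by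
      have := Real.rpow_le_rpow_of_exponent_le h hθ1
      rwa [Real.rpow_one] at this
    have h2 : 0 ≤ x ^ θ := Real.rpow_nonneg hx.le _
    nlinarith [sq_nonneg x]

theorem V2_sq {θ : ℝ} (hθ0 : 0 ≤ θ) (hθ1 : θ ≤ 1) (x : ℝ × ℝ) :
    V2 θ x ^ 2 ≤ (2 + Real.exp (2 * x.1)) * (2 + Real.exp (2 * x.2)) := by
  unfold V2
  refine (rpow_sq_le (ph_pos _) hθ0 hθ1).trans ?_
  have h1 := ph_sq_le (x.1 + x.2)
  have h2 : Real.exp (2 * (x.1 + x.2)) = Real.exp (2 * x.1) * Real.exp (2 * x.2) := by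
    rw [← Real.exp_add]; congr 1; ring
  rw [h2] at h1
  have h3 := Real.exp_pos (2 * x.1)
  have h4 := Real.exp_pos (2 * x.2)
  nlinarith

theorem W2_sq {θ : ℝ} (hθ0 : 0 ≤ θ) (hθ1 : θ ≤ 1) (x : ℝ × ℝ) :
    W2 θ x ^ 2 ≤ (2 + Real.exp (2 * x.1)) * (2 + Real.exp (2 * x.2)) := by
  unfold W2
  rw [mul_pow]
  have h1 := rpow_sq_le (ph_pos x.1) hθ0 hθ1
  have h2 := rpow_sq_le (ph_pos x.2) hθ0 hθ1
  have h3 := ph_sq_le x.1
  have h4 := ph_sq_le x.2
  exact mul_le_mul (by linarith) (by linarith) (sq_nonneg _) (by positivity)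

/-- second moment under a product law -/
theorem prod_sq (m1 m2 : Measure ℝ) [IsProbabilityMeasure m1] [IsProbabilityMeasure m2] {B : ℝ}
    (h1 : Integrable (fun s => Real.exp (2 * s)) m1) (h2 : Integrable (fun s => Real.exp (2 * s)) m2)
    (b1 : ∫ s, Real.exp (2 * s) ∂m1 ≤ B) (b2 : ∫ s, Real.exp (2 * s) ∂m2 ≤ B)
    {F : ℝ × ℝ → ℝ} (hF : Continuous F)
    (hle : ∀ x, F x ^ 2 ≤ (2 + Real.exp (2 * x.1)) * (2 + Real.exp (2 * x.2))) :
    Integrable (fun x => F x ^ 2) (m1.prod m2) ∧ ∫ x, F x ^ 2 ∂(m1.prod m2) ≤ (2 + B) ^ 2 := by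
  have i1 : Integrable (fun s => 2 + Real.exp (2 * s)) m1 := (integrable_const 2).add h1
  have i2 : Integrable (fun s => 2 + Real.exp (2 * s)) m2 := (integrable_const 2).add h2
  have i3 : Integrable (fun x : ℝ × ℝ => (2 + Real.exp (2 * x.1)) * (2 + Real.exp (2 * x.2)))
      (m1.prod m2) := i1.mul_prod i2
  have i4 : Integrable (fun x => F x ^ 2) (m1.prod m2) := by
    refine i3.mono' (hF.pow 2).measurable.aestronglyMeasurable (Filter.Eventually.of_forall
      fun x => ?_)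
    rw [Real.norm_eq_abs, abs_of_nonneg (sq_nonneg _)]
    exact hle x
  refine ⟨i4, (integral_mono i4 i3 hle).trans ?_⟩
  rw [integral_prod_mul (fun s => 2 + Real.exp (2 * s)) (fun s => 2 + Real.exp (2 * s))]
  have e1 : ∫ s, (2 + Real.exp (2 * s)) ∂m1 ≤ 2 + B := by
    rw [integral_add (integrable_const 2) h1]
    simp only [integral_const, probReal_univ, smul_eq_mul, one_mul]
    linarith
  have e2 : ∫ s, (2 + Real.exp (2 * s)) ∂m2 ≤ 2 + B := by
    rw [integral_add (integrable_const 2) h2]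
    simp only [integral_const, probReal_univ, smul_eq_mul, one_mul]
    linarith
  have e3 : 0 ≤ ∫ s, (2 + Real.exp (2 * s)) ∂m1 := integral_nonneg fun s => by positivity
  have e4 : 0 ≤ ∫ s, (2 + Real.exp (2 * s)) ∂m2 := integral_nonneg fun s => by positivity
  rw [sq]
  exact mul_le_mul e1 e2 e4 (e3.trans e1)

end Pool.Agent.TH983
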