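import Pool.Agent.TH983.Gau

/-!
# The sum criterion from the integral criterion
-/

set_option autoImplicit false
set_option maxHeartbeats 4000000
open MeasureTheory ProbabilityTheory Filter Topology
open scoped ENNReal NNReal

namespace Pool.Agent.TH983
open Cop764

/-- value of the norm in terms of the law of the stretch -/
noncomputable def AL (D : Data) (κ β lam : ℝ) (n : ℕ) : ℝ :=
  (∫ s, ph s ^ β⁻¹ ∂(muS D.ν κ lam n : Measure ℝ)) ^ β

theorem aN_eq_AL (D : Data) (κ β lam : ℝ) (hlam : 0 < lam) (n : ℕ) :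
    aN (Dat D lam hlam) (κ * lam) β n = AL D κ β lam n := by
  unfold aN nm AL
  congr 1
  unfold muS
  show _ = ∫ s, ph s ^ β⁻¹ ∂((disorder D.ν).map _)
  rw [integral_map (meas_Swt _ _ _ _).aemeasurable (ph_rpow_meas _).aestronglyMeasurable]
  rfl

theorem AL_lim (D : Data) {κ β : ℝ} (hκ : 0 ≤ κ) (hβ : 1 < β) {N : ℝ → ℕ} {y : ℝ} (hy : 0 < y)
    (hN : Tendsto (fun lam : ℝ => lam ^ 2 * (N lam : ℝ)) (𝓝[>] 0) (𝓝 y)) :
    Tendsto (fun lam => AL D κ β lam (N lam)) (𝓝[>] 0) (𝓝 (aP κ β y)) := by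
  have hθ0 : 0 < β⁻¹ := by positivity
  have hθ1 : β⁻¹ ≤ 1 := inv_le_one_of_one_le₀ hβ.le
  obtain ⟨C, hC0, hC⟩ := muS_exp D hκ
  have hcont : Continuous (fun s => ph s ^ β⁻¹) :=
    ph_cont.rpow_const fun x => Or.inl (ph_pos x).ne'
  have hsq : ∀ s, (ph s ^ β⁻¹) ^ 2 ≤ 2 + Real.exp (2 * s) := by
    intro s
    have h1 := rpow_sq_le (ph_pos s) hθ0.le hθ1
    have h2 := ph_sq_le s
    linarith
  have hmain : Tendsto (fun lam => ∫ s, ph s ^ β⁻¹ ∂(muS D.ν κ lam (N lam) : Measure ℝ))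
      (𝓝[>] 0) (𝓝 (∫ s, ph s ^ β⁻¹ ∂(gamY κ y : Measure ℝ))) := by
    refine conv_int (C := 2 + Real.exp (C * (y + 1))) (clt_gen D.ν D.mean D.var κ hy hN) hcont
      (fun s => Real.rpow_nonneg (ph_pos s).le _) ?_ ?_
    · have hev : ∀ᶠ lam in 𝓝[>] (0 : ℝ), lam ≤ 1 / 8 :=
        (eventually_le_nhds (show (0 : ℝ) < 1 / 8 by norm_num)).filter_mono nhdsWithin_le_nhds
      filter_upwards [self_mem_nhdsWithin, hev, hN.eventually (gt_mem_nhds (show y < y + 1 by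
        linarith))] with lam hlam hl hNy
      have g := hC lam hlam hl (N lam)
      have i1 : Integrable (fun s => 2 + Real.exp (2 * s)) (muS D.ν κ lam (N lam) : Measure ℝ) :=
        (integrable_const 2).add g.1
      have i2 : Integrable (fun s => (ph s ^ β⁻¹) ^ 2) (muS D.ν κ lam (N lam) : Measure ℝ) := by
        refine i1.mono' (hcont.pow 2).measurable.aestronglyMeasurable
          (Filter.Eventually.of_forall fun s => ?_)
        rw [Real.norm_eq_abs, abs_of_nonneg (sq_nonneg _)]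
        exact hsq s
      refine ⟨i2, (integral_mono i2 i1 hsq).trans ?_⟩
      rw [integral_add (integrable_const 2) g.1]
      simp only [integral_const, probReal_univ, smul_eq_mul, one_mul]
      have h3 : Real.exp (C * (lam ^ 2 * (N lam : ℝ))) ≤ Real.exp (C * (y + 1)) :=
        Real.exp_le_exp.2 (mul_le_mul_of_nonneg_left hNy.le hC0)
      linarith [g.2]
    · have i1 : Integrable (fun s => 2 + Real.exp (2 * s)) (gamY κ y : Measure ℝ) :=
        (integrable_const 2).add (gamY_exp κ y)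
      refine i1.mono' (hcont.pow 2).measurable.aestronglyMeasurable
        (Filter.Eventually.of_forall fun s => ?_)
      rw [Real.norm_eq_abs, abs_of_nonneg (sq_nonneg _)]
      exact hsq s
  rw [aG_eq κ β⁻¹ hy.le] at hmain
  unfold AL aP
  exact hmain.rpow_const (Or.inl (aG_pos κ _ hθ0.le hy.le).ne')

/-- integral of a step function -/
theorem step_unit (F : ℕ → ℝ) (N : ℕ) :
    IntervalIntegrable (fun z : ℝ => F ⌈z⌉₊) volume 0 N ∧
    ∫ z in (0 : ℝ)..N, F ⌈z⌉₊ = ∑ n ∈ Finset.Ioc 0 N, F n := by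
  induction N with
  | zero => simp
  | succ N ih =>
    have hle : (N : ℝ) ≤ ((N + 1 : ℕ) : ℝ) := by push_cast; linarith
    have heq : Set.EqOn (fun _ : ℝ => F (N + 1)) (fun z : ℝ => F ⌈z⌉₊)
        (Set.Ioc (N : ℝ) ((N + 1 : ℕ) : ℝ)) := by
      intro z hz
      have : ⌈z⌉₊ = N + 1 := by
        rw [Nat.ceil_eq_iff (by omega)]
        refine ⟨?_, hz.2⟩
        have := hz.1
        simpa using this
      simp only [this]
    have hi : IntervalIntegrable (fun z : ℝ => F ⌈z⌉₊) volume N ((N + 1 : ℕ) : ℝ) := by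
      rw [intervalIntegrable_iff_integrableOn_Ioc_of_le hle]
      refine IntegrableOn.congr_fun ?_ heq measurableSet_Ioc
      exact integrableOn_const (by rw [Real.volume_Ioc]; exact ENNReal.ofReal_ne_top)
    have hv : ∫ z in (N : ℝ)..((N + 1 : ℕ) : ℝ), F ⌈z⌉₊ = F (N + 1) := by
      rw [intervalIntegral.integral_of_le hle, ← setIntegral_congr_fun measurableSet_Ioc heq]
      simp
    refine ⟨ih.1.trans hi, ?_⟩
    rw [← intervalIntegral.integral_add_adjacent_intervals ih.1 hi, ih.2, hv,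
      ← Finset.insert_Ioc_right_eq_Ioc_add_one (by omega : 0 ≤ N), Finset.sum_insert (by simp),
      add_comm]

theorem step_int (F : ℕ → ℝ) {L : ℕ} (hL : 1 ≤ L) (T0 : ℕ) :
    ∫ y in Set.Ioc (0 : ℝ) T0, F ⌈y * (L : ℝ)⌉₊ = (∑ n ∈ Finset.Ioc 0 (T0 * L), F n) / L := by
  have hL0 : (0 : ℝ) < L := by exact_mod_cast hL
  rw [← intervalIntegral.integral_of_le (Nat.cast_nonneg T0)]
  have h := intervalIntegral.integral_comp_mul_right (a := 0) (b := (T0 : ℝ))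
    (fun z : ℝ => F ⌈z⌉₊) hL0.ne'
  rw [h, zero_mul]
  have h2 := (step_unit F (T0 * L)).2
  push_cast at h2
  rw [h2, smul_eq_mul, inv_mul_eq_div]

/-- the index attached to a point -/
theorem idx_lim {y : ℝ} (hy : 0 < y) :
    Tendsto (fun lam : ℝ => lam ^ 2 * ((⌈y * (Lb lam : ℝ)⌉₊ : ℕ) : ℝ)) (𝓝[>] 0) (𝓝 y) := by
  have h1 : Tendsto (fun lam : ℝ => y * (lam ^ 2 * (Lb lam : ℝ))) (𝓝[>] 0) (𝓝 y) := by
    have := Lb_lim.const_mul y
    rwa [mul_one] at this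
  have h2 : Tendsto (fun lam : ℝ => y * (lam ^ 2 * (Lb lam : ℝ)) + lam ^ 2) (𝓝[>] 0) (𝓝 y) := by
    have h3 : Tendsto (fun lam : ℝ => lam ^ 2) (𝓝[>] 0) (𝓝 0) := by
      have : Tendsto (fun lam : ℝ => lam ^ 2) (𝓝 0) (𝓝 (0 ^ 2)) := (continuous_pow 2).tendsto 0
      rw [zero_pow two_ne_zero] at this
      exact this.mono_left nhdsWithin_le_nhds
    have := h1.add h3
    rwa [add_zero] at this
  refine tendsto_of_tendsto_of_tendsto_of_le_of_le h1 h2 ?_ ?_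
  · intro lam
    show y * (lam ^ 2 * (Lb lam : ℝ)) ≤ lam ^ 2 * _
    have := Nat.le_ceil (y * (Lb lam : ℝ))
    have h3 := mul_le_mul_of_nonneg_left this (sq_nonneg lam)
    linarith
  · intro lam
    show lam ^ 2 * _ ≤ y * (lam ^ 2 * (Lb lam : ℝ)) + lam ^ 2
    have h0 : 0 ≤ y * (Lb lam : ℝ) := by positivity
    have := (Nat.ceil_lt_add_one h0).le
    have h3 := mul_le_mul_of_nonneg_left this (sq_nonneg lam)
    linarith

theorem ratio_lim {y : ℝ} (hy : 0 < y) :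
    Tendsto (fun lam : ℝ => (Lb lam : ℝ) / ((⌈y * (Lb lam : ℝ)⌉₊ : ℕ) : ℝ)) (𝓝[>] 0) (𝓝 y⁻¹) := by
  have h1 := Lb_lim.div (idx_lim hy) hy.ne'
  rw [one_div] at h1
  refine h1.congr' ?_
  filter_upwards [self_mem_nhdsWithin] with lam hlam
  have : (lam : ℝ) ^ 2 ≠ 0 := (pow_pos (Set.mem_Ioi.1 hlam) 2).ne'
  show lam ^ 2 * (Lb lam : ℝ) / (lam ^ 2 * _) = _
  rw [mul_div_mul_left _ _ this]

theorem idx_atTop {y : ℝ} (hy : 0 < y) :
    Tendsto (fun lam : ℝ => ⌈y * (Lb lam : ℝ)⌉₊) (𝓝[>] 0) atTop := scale_atTop hy (idx_lim hy)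

/-- scaled summand -/
noncomputable def fS (D : Data) (κ δ lam y : ℝ) : ℝ :=
  (Lb lam : ℝ) ^ (1 + D.α) * (D.K ⌈y * (Lb lam : ℝ)⌉₊ *
    (Real.exp (-(2 * δ * lam ^ 2)) ^ ⌈y * (Lb lam : ℝ)⌉₊ *
      AL D κ (1 + D.α) lam ⌈y * (Lb lam : ℝ)⌉₊ - 1))

theorem fS_meas (D : Data) (κ δ lam : ℝ) : Measurable (fS D κ δ lam) := by
  have h : Measurable (fun n : ℕ => (Lb lam : ℝ) ^ (1 + D.α) * (D.K n *
    (Real.exp (-(2 * δ * lam ^ 2)) ^ n * AL D κ (1 + D.α) lam n - 1))) := measurable_of_countable _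
  have h2 : Measurable (fun y : ℝ => ⌈y * (Lb lam : ℝ)⌉₊) :=
    Nat.measurable_ceil.comp (measurable_id.mul_const _)
  exact h.comp h2

theorem fS_lim (D : Data) {κ : ℝ} (hκ : 0 ≤ κ) (δ : ℝ) {y : ℝ} (hy : 0 < y) :
    Tendsto (fun lam => fS D κ δ lam y) (𝓝[>] 0)
      (𝓝 (D.cK * (y ^ (-(1 + D.α)) * (Real.exp (-(2 * δ * y)) * aP κ (1 + D.α) y - 1)))) := by
  have hα := D.hα
  have h1 := AL_lim D hκ (show 1 < 1 + D.α by linarith) hy (idx_lim hy)
  have h2 : Tendsto (fun lam : ℝ => Real.exp (-(2 * δ * lam ^ 2)) ^ ⌈y * (Lb lam : ℝ)⌉₊)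
      (𝓝[>] 0) (𝓝 (Real.exp (-(2 * δ * y)))) := by
    have h3 := (idx_lim hy).const_mul (-(2 * δ))
    have h4 := (Real.continuous_exp.tendsto _).comp h3
    have e1 : -(2 * δ) * y = -(2 * δ * y) := by ring
    rw [e1] at h4
    refine h4.congr fun lam => ?_
    show Real.exp (-(2 * δ) * (lam ^ 2 * _)) = _
    rw [← Real.exp_nat_mul]
    congr 1
    ring
  have h3 : Tendsto (fun lam : ℝ => (Lb lam : ℝ) ^ (1 + D.α) * D.K ⌈y * (Lb lam : ℝ)⌉₊)
      (𝓝[>] 0) (𝓝 (D.cK * y ^ (-(1 + D.α)))) := by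
    have g1 : Tendsto (fun lam : ℝ => ((Lb lam : ℝ) / ((⌈y * (Lb lam : ℝ)⌉₊ : ℕ) : ℝ)) ^ (1 + D.α))
        (𝓝[>] 0) (𝓝 (y⁻¹ ^ (1 + D.α))) :=
      (ratio_lim hy).rpow_const (Or.inl (by positivity))
    have g2 := D.htail.comp (idx_atTop hy)
    have g3 := g1.mul g2
    have e1 : y⁻¹ ^ (1 + D.α) * D.cK = D.cK * y ^ (-(1 + D.α)) := by
      rw [Real.inv_rpow hy.le, Real.rpow_neg hy.le, mul_comm]
    rw [e1] at g3
    refine g3.congr' ?_
    filter_upwards [(idx_atTop hy).eventually_ge_atTop 1] with lam hn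
    have hn0 : (0 : ℝ) < ((⌈y * (Lb lam : ℝ)⌉₊ : ℕ) : ℝ) := by exact_mod_cast hn
    show ((Lb lam : ℝ) / ((⌈y * (Lb lam : ℝ)⌉₊ : ℕ) : ℝ)) ^ (1 + D.α) *
      (((⌈y * (Lb lam : ℝ)⌉₊ : ℕ) : ℝ) ^ (1 + D.α) * (D.κ ⌈y * (Lb lam : ℝ)⌉₊).toReal) = _
    rw [Real.div_rpow (Nat.cast_nonneg _) hn0.le]
    have : ((⌈y * (Lb lam : ℝ)⌉₊ : ℕ) : ℝ) ^ (1 + D.α) ≠ 0 :=
      (Real.rpow_pos_of_pos hn0 _).ne'
    unfold Data.K
    field_simp
  have h4 := h3.mul ((h2.mul h1).sub_const 1)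
  refine (h4.congr fun lam => ?_).trans (le_of_eq ?_)
  · unfold fS; ring
  · congr 1; ring

theorem fS_bound (D : Data) {κ : ℝ} (hκ : 0 ≤ κ) {c0 : ℝ} {n0 : ℕ} (hK : KHyp D.K D.α c0 n0)
    {δ : ℝ} (hδ0 : 0 ≤ δ) (hδ1 : δ ≤ 1) (T0 : ℕ) : ∃ C : ℝ, 0 ≤ C ∧
    ∀ᶠ lam in 𝓝[>] (0 : ℝ), ∀ y : ℝ, 0 < y → y ≤ T0 → |fS D κ δ lam y| ≤ C * y ^ (-D.α) := by
  have hα := D.hα
  have hβ : 1 < 1 + D.α := by linarith
  obtain ⟨CK, hCK0, hCK, _⟩ := K_facts D
  obtain ⟨Ca, hCa0, hCa⟩ := aN_upper D hκ hβ hK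
  set C2 : ℝ := (κ + 2) + Ca * Real.exp (Ca * T0) with hC2
  have hC20 : 0 ≤ C2 := by positivity
  refine ⟨CK * C2, by positivity, ?_⟩
  have hev : ∀ᶠ lam in 𝓝[>] (0 : ℝ), lam ≤ 1 / 8 :=
    (eventually_le_nhds (show (0 : ℝ) < 1 / 8 by norm_num)).filter_mono nhdsWithin_le_nhds
  filter_upwards [self_mem_nhdsWithin, hev, Lb_large 1] with lam hlam hl hL1 y hy hyT
  have hlam0 : (0 : ℝ) < lam := hlam
  obtain ⟨L, hLd⟩ : ∃ L : ℕ, L = Lb lam := ⟨_, rfl⟩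
  obtain ⟨n, hnd⟩ : ∃ n : ℕ, n = ⌈y * (L : ℝ)⌉₊ := ⟨_, rfl⟩
  have hlamL : lam ^ 2 * (L : ℝ) ≤ 1 := by rw [hLd]; exact Lb_le hlam0
  have hfS : fS D κ δ lam y = (L : ℝ) ^ (1 + D.α) * (D.K n *
      (Real.exp (-(2 * δ * lam ^ 2)) ^ n * AL D κ (1 + D.α) lam n - 1)) := by
    rw [hnd, hLd]; rfl
  rw [← hLd] at hL1
  have hLr : (0 : ℝ) < L := by exact_mod_cast hL1
  have hyL : y * (L : ℝ) ≤ n := by rw [hnd]; exact Nat.le_ceil _
  have hn1 : 1 ≤ n := by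
    have : (0 : ℝ) < n := lt_of_lt_of_le (by positivity) hyL
    exact_mod_cast this
  have hnr : (0 : ℝ) < n := by exact_mod_cast hn1
  have hnT : (n : ℝ) ≤ T0 * L := by
    have h1 : n ≤ T0 * L := by
      rw [hnd, Nat.ceil_le]
      push_cast
      exact mul_le_mul_of_nonneg_right hyT hLr.le
    exact_mod_cast h1
  have hlamn : lam ^ 2 * (n : ℝ) ≤ T0 := by
    calc lam ^ 2 * (n : ℝ) ≤ lam ^ 2 * (T0 * L) := mul_le_mul_of_nonneg_left hnT (sq_nonneg _)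
      _ = T0 * (lam ^ 2 * L) := by ring
      _ ≤ T0 * 1 := mul_le_mul_of_nonneg_left hlamL (Nat.cast_nonneg _)
      _ = T0 := mul_one _
  have hlamn0 : 0 ≤ lam ^ 2 * (n : ℝ) := by positivity
  have hX : |Real.exp (-(2 * δ * lam ^ 2)) ^ n * AL D κ (1 + D.α) lam n - 1| ≤
      C2 * (lam ^ 2 * n) := by
    have e1 : Real.exp (-(2 * δ * lam ^ 2)) ^ n = Real.exp (-(2 * δ * (lam ^ 2 * n))) := by
      rw [← Real.exp_nat_mul]; congr 1; ring
    rw [e1, ← aN_eq_AL D κ (1 + D.α) lam hlam0 n]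
    have e2 := aN_lower D hβ lam hlam0 hK hκ n
    have e3 := hCa lam hlam0 hl n
    have e4 : Real.exp (-(2 * δ * (lam ^ 2 * n))) ≤ 1 := by
      apply Real.exp_le_one_iff.2
      have : 0 ≤ 2 * δ * (lam ^ 2 * n) := by positivity
      linarith
    have e5 : 0 ≤ aN (Dat D lam hlam0) (κ * lam) (1 + D.α) n := aN_nonneg n
    have hκn : 0 ≤ κ * (lam ^ 2 * n) := by positivity
    have e10 : 0 ≤ Ca * Real.exp (Ca * T0) * (lam ^ 2 * n) := by positivity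
    have hC2e : C2 * (lam ^ 2 * (n : ℝ)) = κ * (lam ^ 2 * n) + 2 * (lam ^ 2 * n) +
        Ca * Real.exp (Ca * T0) * (lam ^ 2 * n) := by rw [hC2]; ring
    rw [abs_le]
    constructor
    · have e6 : Real.exp (-((κ + 2 * δ) * (lam ^ 2 * n))) ≤
          Real.exp (-(2 * δ * (lam ^ 2 * n))) * aN (Dat D lam hlam0) (κ * lam) (1 + D.α) n := by
        have e7 : Real.exp (-((κ + 2 * δ) * (lam ^ 2 * n))) =
            Real.exp (-(2 * δ * (lam ^ 2 * n))) * Real.exp (-(κ * (lam ^ 2 * n))) := by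
          rw [← Real.exp_add]; congr 1; ring
        rw [e7]
        exact mul_le_mul_of_nonneg_left e2 (Real.exp_pos _).le
      have e8 := Real.add_one_le_exp (-((κ + 2 * δ) * (lam ^ 2 * n)))
      have e9 : 2 * δ * (lam ^ 2 * n) ≤ 2 * (lam ^ 2 * n) := by nlinarith
      have e11 : (κ + 2 * δ) * (lam ^ 2 * (n : ℝ)) = κ * (lam ^ 2 * n) + 2 * δ * (lam ^ 2 * n) := by
        ring
      linarith
    · have e6 : Real.exp (-(2 * δ * (lam ^ 2 * n))) * aN (Dat D lam hlam0) (κ * lam) (1 + D.α) n ≤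
          Real.exp (Ca * (lam ^ 2 * n)) := by
        calc _ ≤ 1 * aN (Dat D lam hlam0) (κ * lam) (1 + D.α) n :=
              mul_le_mul_of_nonneg_right e4 e5
          _ ≤ _ := by rw [one_mul]; exact e3
      have e7 := exp_sub_le (Ca * (lam ^ 2 * n))
      have e8 : Real.exp (Ca * (lam ^ 2 * n)) ≤ Real.exp (Ca * T0) :=
        Real.exp_le_exp.2 (mul_le_mul_of_nonneg_left hlamn hCa0)
      have e9 : Ca * (lam ^ 2 * n) * Real.exp (Ca * (lam ^ 2 * n)) ≤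
          Ca * (lam ^ 2 * n) * Real.exp (Ca * T0) :=
        mul_le_mul_of_nonneg_left e8 (by positivity)
      have e11 : Ca * (lam ^ 2 * (n : ℝ)) * Real.exp (Ca * T0) =
          Ca * Real.exp (Ca * T0) * (lam ^ 2 * n) := by ring
      have e12 : 0 ≤ 2 * (lam ^ 2 * (n : ℝ)) := by positivity
      linarith
  rw [hfS, abs_mul, abs_mul, abs_of_nonneg (Real.rpow_nonneg hLr.le _),
    abs_of_nonneg (hK.nonneg n)]
  have hKn := hCK n hn1
  calc (L : ℝ) ^ (1 + D.α) * (D.K n *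
        |Real.exp (-(2 * δ * lam ^ 2)) ^ n * AL D κ (1 + D.α) lam n - 1|)
      ≤ (L : ℝ) ^ (1 + D.α) * ((CK * (n : ℝ) ^ (-(1 + D.α))) * (C2 * (lam ^ 2 * n))) := by
        apply mul_le_mul_of_nonneg_left _ (Real.rpow_nonneg hLr.le _)
        exact mul_le_mul hKn hX (abs_nonneg _) (by positivity)
    _ = CK * C2 * ((L : ℝ) / n) ^ D.α * (lam ^ 2 * L) := by
        rw [Real.div_rpow hLr.le hnr.le, Real.rpow_add hLr, Real.rpow_one, Real.rpow_neg hnr.le,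
          Real.rpow_add hnr, Real.rpow_one]
        have : (n : ℝ) ^ D.α ≠ 0 := (Real.rpow_pos_of_pos hnr _).ne'
        field_simp
    _ ≤ CK * C2 * ((L : ℝ) / n) ^ D.α * 1 := by
        apply mul_le_mul_of_nonneg_left hlamL
        have := Real.rpow_nonneg (show 0 ≤ (L : ℝ) / n by positivity) D.α
        positivity
    _ ≤ CK * C2 * y ^ (-D.α) := by
        rw [mul_one]
        apply mul_le_mul_of_nonneg_left _ (by positivity)
        rw [Real.rpow_neg hy.le, ← Real.inv_rpow hy.le]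
        apply Real.rpow_le_rpow (by positivity) _ hα.le
        rw [div_le_iff₀ hnr, inv_mul_eq_div, le_div_iff₀ hy]
        linarith

end Pool.Agent.TH983
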