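import Pool.Agent.TH983.SumC

/-!
# The sum criterion from the integral criterion: conclusion
-/

set_option autoImplicit false
set_option maxHeartbeats 4000000
open MeasureTheory ProbabilityTheory Filter Topology
open scoped ENNReal NNReal

namespace Pool.Agent.TH983
open Cop764

/-- tilted integrand -/
noncomputable def Jd (α κ δ y : ℝ) : ℝ :=
  y ^ (-(1 + α)) * (Real.exp (-(2 * δ * y)) * aP κ (1 + α) y - 1)

theorem Jd_meas (α κ δ : ℝ) : Measurable (Jd α κ δ) := by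
  unfold Jd
  have h1 : Measurable (fun y : ℝ => Real.exp (-(2 * δ * y))) := by fun_prop
  exact (measurable_id.pow_const _).mul ((h1.mul (aP_meas κ (1 + α))).sub_const 1)

theorem Jd_ge {α κ δ y : ℝ} (hα : 0 < α) (hκ : (1 + α)⁻¹ ≤ κ) (hδ : 0 ≤ δ) (hy : 0 < y) :
    Jf α κ y - 2 ^ (1 + α) * (2 * δ) * y ^ (-α) ≤ Jd α κ δ y ∧ Jd α κ δ y ≤ Jf α κ y := by
  have hβ : 1 < 1 + α := by linarith
  have h1 := aP_nonneg (κ := κ) hβ hy.le
  have h2 := aP_le hβ hκ hy.le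
  have h3 : Real.exp (-(2 * δ * y)) ≤ 1 := by
    apply Real.exp_le_one_iff.2
    have : 0 ≤ 2 * δ * y := by positivity
    linarith
  have h4 : 1 - 2 * δ * y ≤ Real.exp (-(2 * δ * y)) := Real.one_sub_le_exp_neg _
  have h5 : 0 < y ^ (-(1 + α)) := Real.rpow_pos_of_pos hy _
  have h6 : y ^ (-α) = y ^ (-(1 + α)) * y := by
    rw [← Real.rpow_add_one hy.ne']; congr 1; ring
  unfold Jd Jf
  rw [h6]
  constructor
  · have h7 : aP κ (1 + α) y * (1 - Real.exp (-(2 * δ * y))) ≤ 2 ^ (1 + α) * (2 * δ * y) :=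
      mul_le_mul h2 (by linarith) (by linarith) (Real.rpow_nonneg zero_le_two _)
    have h8 := mul_le_mul_of_nonneg_left h7 h5.le
    nlinarith
  · apply mul_le_mul_of_nonneg_left _ h5.le
    nlinarith

/-- integral criterion implies the sum criterion -/
theorem sum_crit (D : Data) {c0 : ℝ} {n0 : ℕ} (hK : KHyp D.K D.α c0 n0) (hα1 : D.α < 1) {κ : ℝ}
    (hκ : (1 + D.α)⁻¹ ≤ κ) (hI : 0 ≤ ∫ y in Set.Ioi (0 : ℝ), Jf D.α κ y) {η : ℝ} (hη : 0 < η) :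
    ∃ T0 : ℕ, 4 ≤ T0 ∧ ∃ δ : ℝ, 0 < δ ∧ δ ≤ 1 ∧ ∀ᶠ lam in 𝓝[>] (0 : ℝ), ∀ hlam : 0 < lam,
      1 - η * (Lb lam : ℝ) ^ (-D.α) ≤ ∑ n ∈ Finset.Ioc 0 (T0 * Lb lam),
        Real.exp (-(2 * δ * lam ^ 2)) ^ n *
          (D.K n * aN (Dat D lam hlam) (κ * lam) (1 + D.α) n) := by
  have hα := D.hα
  have hβ : 1 < 1 + D.α := by linarith
  have hκ0 : 0 ≤ κ := (by positivity : (0 : ℝ) ≤ (1 + D.α)⁻¹).trans hκ
  have hcK := D.hcK
  obtain ⟨CK, hCK0, hCK, hCT, _⟩ := K_facts D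
  -- choice of `T0`
  set A1 : ℝ := CK + D.cK * (2 ^ (1 + D.α) * D.α⁻¹) with hA1
  have hA10 : 0 < A1 := by
    have : (0 : ℝ) < 2 ^ (1 + D.α) := Real.rpow_pos_of_pos two_pos _
    positivity
  obtain ⟨T0, hT04, hT0⟩ : ∃ T0 : ℕ, 4 ≤ T0 ∧ A1 * (T0 : ℝ) ^ (-D.α) ≤ η / 4 := by
    have h1 : Tendsto (fun n : ℕ => A1 * (n : ℝ) ^ (-D.α)) atTop (𝓝 (A1 * 0)) :=
      ((tendsto_rpow_neg_atTop hα).comp tendsto_natCast_atTop_atTop).const_mul A1
    rw [mul_zero] at h1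
    have h2 := h1.eventually (gt_mem_nhds (show (0 : ℝ) < η / 4 by positivity))
    obtain ⟨n, h3, h4⟩ := (h2.and (eventually_ge_atTop 4)).exists
    exact ⟨n, h4, h3.le⟩
  have hT0r : (0 : ℝ) < T0 := by exact_mod_cast (show 0 < T0 by omega)
  -- choice of `δ`
  set A2 : ℝ := D.cK * (2 ^ (1 + D.α) * 2 * ((T0 : ℝ) ^ (1 - D.α) / (1 - D.α))) with hA2
  have h1α : 0 < 1 - D.α := by linarith
  have hA20 : 0 < A2 := by
    have : (0 : ℝ) < 2 ^ (1 + D.α) := Real.rpow_pos_of_pos two_pos _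
    have : (0 : ℝ) < (T0 : ℝ) ^ (1 - D.α) := Real.rpow_pos_of_pos hT0r _
    positivity
  set δ : ℝ := min 1 (η / 4 / A2) with hδ
  have hδ0 : 0 < δ := by rw [hδ]; positivity
  have hδ1 : δ ≤ 1 := min_le_left _ _
  have hδ2 : A2 * δ ≤ η / 4 := by
    have : δ ≤ η / 4 / A2 := min_le_right _ _
    rw [le_div_iff₀ hA20] at this
    linarith
  refine ⟨T0, hT04, δ, hδ0, hδ1, ?_⟩
  -- dominated convergence
  obtain ⟨C, hC0, hC⟩ := fS_bound D hκ0 hK hδ0.le hδ1 T0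
  have hbint : IntegrableOn (fun y : ℝ => C * y ^ (-D.α)) (Set.Ioc 0 (T0 : ℝ)) := by
    have := (intervalIntegral.intervalIntegrable_rpow' (a := 0) (b := (T0 : ℝ))
      (show -1 < -D.α by linarith)).const_mul C
    rwa [intervalIntegrable_iff_integrableOn_Ioc_of_le hT0r.le] at this
  have hlim : Tendsto (fun lam => ∫ y in Set.Ioc (0 : ℝ) T0, fS D κ δ lam y) (𝓝[>] 0)
      (𝓝 (∫ y in Set.Ioc (0 : ℝ) T0, D.cK * Jd D.α κ δ y)) := by
    refine tendsto_integral_filter_of_dominated_convergence (fun y : ℝ => C * y ^ (-D.α)) ?_ ?_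
      hbint ?_
    · exact Filter.Eventually.of_forall fun lam => (fS_meas D κ δ lam).aestronglyMeasurable
    · filter_upwards [hC] with lam h
      rw [ae_restrict_iff' measurableSet_Ioc]
      refine Filter.Eventually.of_forall fun y hy => ?_
      rw [Real.norm_eq_abs]
      exact h y hy.1 hy.2
    · rw [ae_restrict_iff' measurableSet_Ioc]
      exact Filter.Eventually.of_forall fun y hy => fS_lim D hκ0 δ hy.1
  -- value of the limit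
  have hJfi := Jf_int hα hα1 hκ
  have hJf1 : IntegrableOn (Jf D.α κ) (Set.Ioc 0 (T0 : ℝ)) :=
    hJfi.mono_set fun y hy => hy.1
  have hJf2 : IntegrableOn (Jf D.α κ) (Set.Ioi (T0 : ℝ)) :=
    hJfi.mono_set fun y hy => lt_trans hT0r hy
  have hpow : IntegrableOn (fun y : ℝ => 2 ^ (1 + D.α) * (2 * δ) * y ^ (-D.α))
      (Set.Ioc 0 (T0 : ℝ)) := by
    have := (intervalIntegral.intervalIntegrable_rpow' (a := 0) (b := (T0 : ℝ))
      (show -1 < -D.α by linarith)).const_mul (2 ^ (1 + D.α) * (2 * δ))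
    rwa [intervalIntegrable_iff_integrableOn_Ioc_of_le hT0r.le] at this
  have hlow : IntegrableOn (fun y : ℝ => Jf D.α κ y - 2 ^ (1 + D.α) * (2 * δ) * y ^ (-D.α))
      (Set.Ioc 0 (T0 : ℝ)) := hJf1.sub hpow
  have hJdi : IntegrableOn (Jd D.α κ δ) (Set.Ioc 0 (T0 : ℝ)) := by
    refine integrable_of_le_of_le (Jd_meas D.α κ δ).aestronglyMeasurable ?_ ?_ hlow hJf1
    · rw [Filter.EventuallyLE, ae_restrict_iff' measurableSet_Ioc]
      exact Filter.Eventually.of_forall fun y hy => (Jd_ge hα hκ hδ0.le hy.1).1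
    · rw [Filter.EventuallyLE, ae_restrict_iff' measurableSet_Ioc]
      exact Filter.Eventually.of_forall fun y hy => (Jd_ge hα hκ hδ0.le hy.1).2
  have hval1 : (∫ y in Set.Ioc (0 : ℝ) T0, Jf D.α κ y) -
      2 ^ (1 + D.α) * (2 * δ) * ((T0 : ℝ) ^ (1 - D.α) / (1 - D.α)) ≤
      ∫ y in Set.Ioc (0 : ℝ) T0, Jd D.α κ δ y := by
    have h1 : ∫ y in Set.Ioc (0 : ℝ) T0, (Jf D.α κ y - 2 ^ (1 + D.α) * (2 * δ) * y ^ (-D.α)) ≤
        ∫ y in Set.Ioc (0 : ℝ) T0, Jd D.α κ δ y :=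
      setIntegral_mono_on hlow hJdi measurableSet_Ioc
        fun y hy => (Jd_ge hα hκ hδ0.le hy.1).1
    rw [integral_sub hJf1 hpow, integral_const_mul] at h1
    have h2 : ∫ y in Set.Ioc (0 : ℝ) T0, y ^ (-D.α) = (T0 : ℝ) ^ (1 - D.α) / (1 - D.α) := by
      rw [← intervalIntegral.integral_of_le hT0r.le, integral_rpow (Or.inl (by linarith))]
      rw [show -D.α + 1 = 1 - D.α by ring, Real.zero_rpow h1α.ne', sub_zero]
    rw [h2] at h1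
    exact h1
  have hval2 : -(2 ^ (1 + D.α) * ((T0 : ℝ) ^ (-D.α) * D.α⁻¹)) ≤
      ∫ y in Set.Ioc (0 : ℝ) T0, Jf D.α κ y := by
    have hsplit : ∫ y in Set.Ioi (0 : ℝ), Jf D.α κ y =
        (∫ y in Set.Ioc (0 : ℝ) T0, Jf D.α κ y) + ∫ y in Set.Ioi (T0 : ℝ), Jf D.α κ y := by
      rw [← setIntegral_union (Set.Ioc_disjoint_Ioi le_rfl) measurableSet_Ioi hJf1 hJf2,
        Set.Ioc_union_Ioi_eq_Ioi hT0r.le]
    have hbI : IntegrableOn (fun y : ℝ => 2 ^ (1 + D.α) * y ^ (-(1 + D.α))) (Set.Ioi (T0 : ℝ)) :=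
      (integrableOn_Ioi_rpow_of_lt (by linarith) hT0r).const_mul _
    have h1 : ∫ y in Set.Ioi (T0 : ℝ), Jf D.α κ y ≤
        ∫ y in Set.Ioi (T0 : ℝ), 2 ^ (1 + D.α) * y ^ (-(1 + D.α)) := by
      refine setIntegral_mono_on hJf2 hbI measurableSet_Ioi fun y hy => ?_
      have hy0 : (0 : ℝ) < y := lt_trans hT0r hy
      unfold Jf
      rw [mul_comm]
      apply mul_le_mul_of_nonneg_right _ (Real.rpow_nonneg hy0.le _)
      linarith [aP_le hβ hκ hy0.le]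
    rw [integral_const_mul, integral_Ioi_rpow_of_lt (by linarith) hT0r] at h1
    have h2 : -(T0 : ℝ) ^ (-(1 + D.α) + 1) / (-(1 + D.α) + 1) = (T0 : ℝ) ^ (-D.α) * D.α⁻¹ := by
      rw [show -(1 + D.α) + 1 = -D.α by ring, neg_div_neg_eq, div_eq_mul_inv]
    rw [h2] at h1
    linarith
  rw [integral_const_mul] at hlim
  set J : ℝ := ∫ y in Set.Ioc (0 : ℝ) T0, Jd D.α κ δ y with hJ
  have hJge : CK * (T0 : ℝ) ^ (-D.α) - D.cK * J ≤ η / 2 := by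
    have h1 : -(D.cK * (2 ^ (1 + D.α) * D.α⁻¹) * (T0 : ℝ) ^ (-D.α)) - A2 * δ ≤ D.cK * J := by
      have h2 : -(2 ^ (1 + D.α) * ((T0 : ℝ) ^ (-D.α) * D.α⁻¹)) -
          2 ^ (1 + D.α) * (2 * δ) * ((T0 : ℝ) ^ (1 - D.α) / (1 - D.α)) ≤ J := by linarith
      have h3 := mul_le_mul_of_nonneg_left h2 hcK.le
      refine le_trans (le_of_eq ?_) h3
      rw [hA2]
      ring
    have h4 : A1 * (T0 : ℝ) ^ (-D.α) = CK * (T0 : ℝ) ^ (-D.α) +
        D.cK * (2 ^ (1 + D.α) * D.α⁻¹) * (T0 : ℝ) ^ (-D.α) := by rw [hA1]; ring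
    linarith
  have hev := hlim.eventually (lt_mem_nhds (show D.cK * J - η / 2 < D.cK * J by linarith))
  filter_upwards [hev, Lb_large 1] with lam h1 hL1 hlam
  obtain ⟨L, hLd⟩ : ∃ L : ℕ, L = Lb lam := ⟨_, rfl⟩
  rw [← hLd] at hL1 ⊢
  have hLr : (0 : ℝ) < L := by exact_mod_cast hL1
  have hstep := step_int (fun n => (L : ℝ) ^ (1 + D.α) * (D.K n *
    (Real.exp (-(2 * δ * lam ^ 2)) ^ n * AL D κ (1 + D.α) lam n - 1))) hL1 T0
  have hfe : ∫ y in Set.Ioc (0 : ℝ) T0, fS D κ δ lam y =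
      (∑ n ∈ Finset.Ioc 0 (T0 * L), (L : ℝ) ^ (1 + D.α) * (D.K n *
    (Real.exp (-(2 * δ * lam ^ 2)) ^ n * AL D κ (1 + D.α) lam n - 1))) / L := by
    rw [← hstep, hLd]
    rfl
  rw [hfe, ← Finset.mul_sum] at h1
  set Sg : ℝ := ∑ n ∈ Finset.Ioc 0 (T0 * L), D.K n *
    (Real.exp (-(2 * δ * lam ^ 2)) ^ n * AL D κ (1 + D.α) lam n - 1) with hSg
  have hLα : (0 : ℝ) < (L : ℝ) ^ D.α := Real.rpow_pos_of_pos hLr _
  have e1 : (L : ℝ) ^ (1 + D.α) * Sg / L = (L : ℝ) ^ D.α * Sg := by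
    rw [Real.rpow_add hLr, Real.rpow_one]
    field_simp
  rw [e1] at h1
  have e2 : (L : ℝ) ^ (-D.α) * (L : ℝ) ^ D.α = 1 := by
    rw [← Real.rpow_add hLr]; simp
  have hLn : (0 : ℝ) < (L : ℝ) ^ (-D.α) := Real.rpow_pos_of_pos hLr _
  have h2 : (L : ℝ) ^ (-D.α) * (D.cK * J - η / 2) ≤ Sg := by
    have := mul_le_mul_of_nonneg_left h1.le hLn.le
    rwa [← mul_assoc, e2, one_mul] at this
  have h3 : ∑ n ∈ Finset.Ioc 0 (T0 * L), Real.exp (-(2 * δ * lam ^ 2)) ^ n *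
      (D.K n * aN (Dat D lam hlam) (κ * lam) (1 + D.α) n) =
      ∑ n ∈ Finset.Ioc 0 (T0 * L), D.K n + Sg := by
    rw [hSg, ← Finset.sum_add_distrib]
    refine Finset.sum_congr rfl fun n _ => ?_
    rw [aN_eq_AL D κ (1 + D.α) lam hlam n]
    ring
  rw [h3]
  have h4 := hCT (T0 * L) (Nat.mul_pos (by omega) (by omega))
  have h5 : ((T0 * L : ℕ) : ℝ) ^ (-D.α) = (T0 : ℝ) ^ (-D.α) * (L : ℝ) ^ (-D.α) := by
    push_cast
    rw [Real.mul_rpow hT0r.le hLr.le]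
  rw [h5] at h4
  have h6 : (CK * (T0 : ℝ) ^ (-D.α) - D.cK * J + η / 2) * (L : ℝ) ^ (-D.α) ≤
      η * (L : ℝ) ^ (-D.α) := mul_le_mul_of_nonneg_right (by linarith) hLn.le
  have h7 : (CK * (T0 : ℝ) ^ (-D.α) - D.cK * J + η / 2) * (L : ℝ) ^ (-D.α) =
      CK * ((T0 : ℝ) ^ (-D.α) * (L : ℝ) ^ (-D.α)) - (L : ℝ) ^ (-D.α) * (D.cK * J - η / 2) := by
    ring
  linarith

end Pool.Agent.TH983
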