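import Pool.Agent.TH983.Strict

/-!
# Verification of the tilt condition in the weak coupling window
-/

set_option autoImplicit false
set_option maxHeartbeats 4000000
open MeasureTheory ProbabilityTheory Filter Topology
open scoped ENNReal NNReal

namespace Pool.Agent.TH983
open Cop764

theorem law_shift (ν : Measure ℝ) [IsProbabilityMeasure ν] (κ lam : ℝ) {i j : ℕ} (hij : i ≤ j) :
    (disorder ν).map (fun ω => S (wt lam (κ * lam) ω) i j) =
      (muS ν κ lam (j - i) : Measure ℝ) := by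
  have hs := M_stat.J_stat ν i
  have h1 : (fun ω : ℕ → ℝ => S (wt lam (κ * lam) ω) i j) =
      (fun ω => S (wt lam (κ * lam) ω) 0 (j - i)) ∘ (fun (ω : ℕ → ℝ) (n : ℕ) => ω (n + i)) := by
    funext ω
    have h2 := (M_loc.J_loc).2.2.1 (wt lam (κ * lam) ω) i 0 (j - i)
    rw [Nat.zero_add, Nat.sub_add_cancel hij] at h2
    exact h2.symm
  rw [h1, ← Measure.map_map (meas_Swt _ _ _ _) hs.measurable, hs.map_eq]
  rfl

theorem S_loc (lam h : ℝ) (i j : ℕ) : Loc (Finset.Ioc i j) (fun ω => S (wt lam h ω) i j) := by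
  intro ω ω' hh
  show S (wt lam h ω) i j = S (wt lam h ω') i j
  unfold S wt
  exact Finset.sum_congr rfl fun n hn => by rw [hh n hn]

theorem joint_law (ν : Measure ℝ) [IsProbabilityMeasure ν] (κ lam : ℝ) {i1 j1 i2 j2 : ℕ}
    (h1 : i1 ≤ j1) (h2 : j1 ≤ i2) (h3 : i2 ≤ j2) :
    (disorder ν).map (fun ω => (S (wt lam (κ * lam) ω) i1 j1, S (wt lam (κ * lam) ω) i2 j2)) =
      (muS ν κ lam (j1 - i1) : Measure ℝ).prod (muS ν κ lam (j2 - i2) : Measure ℝ) := by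
  have hind : IndepFun (fun ω => S (wt lam (κ * lam) ω) i1 j1)
      (fun ω => S (wt lam (κ * lam) ω) i2 j2) (disorder ν) := by
    apply M_indep.J_indep ν (Finset.Ioc i1 j1) (Finset.Ioc i2 j2)
      (Finset.Ioc_disjoint_Ioc_of_le h2) _ _ (meas_Swt _ _ _ _) (meas_Swt _ _ _ _)
    · exact S_loc lam (κ * lam) i1 j1
    · exact S_loc lam (κ * lam) i2 j2
  rw [(indepFun_iff_map_prod_eq_prod_map_map (meas_Swt _ _ _ _).aemeasurable
    (meas_Swt _ _ _ _).aemeasurable).1 hind, law_shift ν κ lam h1, law_shift ν κ lam h3]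

/-- second exponential moment of the law of a stretch -/
theorem muS_exp (D : Data) {κ : ℝ} (hκ : 0 ≤ κ) : ∃ C : ℝ, 0 ≤ C ∧
    ∀ (lam : ℝ), 0 < lam → lam ≤ 1 / 8 → ∀ N : ℕ,
      Integrable (fun s => Real.exp (2 * s)) (muS D.ν κ lam N : Measure ℝ) ∧
      ∫ s, Real.exp (2 * s) ∂(muS D.ν κ lam N : Measure ℝ) ≤ Real.exp (C * (lam ^ 2 * N)) := by
  obtain ⟨C, hC0, hC⟩ := mgf_bound D hκ
  refine ⟨C * 2, by positivity, fun lam hlam hl N => ?_⟩
  have e1 := (mgf_SW (Dat D lam hlam) (κ * lam) 2 (Finset.Ioc 0 N)).1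
  have e2 := hC lam hlam hl 2 (by norm_num) (Finset.Ioc 0 N)
  rw [Nat.card_Ioc, Nat.sub_zero, abs_two] at e2
  have hm : Measurable (fun s : ℝ => Real.exp (2 * s)) := by fun_prop
  have e1' : Integrable (fun ω => Real.exp (2 * S (wt lam (κ * lam) ω) 0 N)) (disorder D.ν) := e1
  have e2' : ∫ ω, Real.exp (2 * S (wt lam (κ * lam) ω) 0 N) ∂(disorder D.ν) ≤
      Real.exp (C * 2 * (lam ^ 2 * N)) := e2
  unfold muS
  constructor
  · show Integrable (fun s => Real.exp (2 * s)) ((disorder D.ν).map _)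
    rw [integrable_map_measure hm.aestronglyMeasurable (meas_Swt _ _ _ _).aemeasurable]
    exact e1'
  · show ∫ s, Real.exp (2 * s) ∂((disorder D.ν).map _) ≤ _
    rw [integral_map (meas_Swt _ _ _ _).aemeasurable hm.aestronglyMeasurable]
    exact e2'

theorem gamY_exp (κ y : ℝ) : Integrable (fun s => Real.exp (2 * s)) (gamY κ y : Measure ℝ) :=
  integrable_exp_mul_gaussianReal 2

/-- the limiting law of the pair -/
noncomputable def gam2 (κ : ℝ) : Measure (ℝ × ℝ) :=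
  (gamY κ 1 : Measure ℝ).prod (gamY κ 2 : Measure ℝ)

instance (κ : ℝ) : IsProbabilityMeasure (gam2 κ) := by unfold gam2; infer_instance

/-- law of the pair at positive coupling -/
noncomputable def mu2 (D : Data) (κ lam : ℝ) : Measure (ℝ × ℝ) :=
  (muS D.ν κ lam (Lb lam) : Measure ℝ).prod (muS D.ν κ lam (2 * Lb lam) : Measure ℝ)

instance (D : Data) (κ lam : ℝ) : IsProbabilityMeasure (mu2 D κ lam) := by
  unfold mu2; infer_instance

theorem gam2_abs (κ : ℝ) : (volume : Measure (ℝ × ℝ)) ≪ gam2 κ := by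
  unfold gam2
  have h : ∀ y : ℝ, 0 < y → (volume : Measure ℝ) ≪ (gamY κ y : Measure ℝ) := by
    intro y hy
    refine gaussianReal_absolutelyContinuous' _ ?_
    simp only [ne_eq, Real.toNNReal_eq_zero, not_le]
    positivity
  rw [Measure.volume_eq_prod]
  exact (h 1 one_pos).prod (h 2 two_pos)

theorem gam2_sq (κ : ℝ) {F : ℝ × ℝ → ℝ} (hF : Continuous F)
    (hle : ∀ x, F x ^ 2 ≤ (2 + Real.exp (2 * x.1)) * (2 + Real.exp (2 * x.2))) :
    Integrable (fun x => F x ^ 2) (gam2 κ) :=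
  (prod_sq _ _ (gamY_exp κ 1) (gamY_exp κ 2) (le_max_left _ _) (le_max_right _ _) hF hle).1

theorem lims (D : Data) {κ : ℝ} (hκ : 0 ≤ κ) {F : ℝ × ℝ → ℝ} (hF : Continuous F)
    (hF0 : ∀ x, 0 ≤ F x)
    (hle : ∀ x, F x ^ 2 ≤ (2 + Real.exp (2 * x.1)) * (2 + Real.exp (2 * x.2))) :
    Tendsto (fun lam => ∫ x, F x ∂(mu2 D κ lam)) (𝓝[>] 0) (𝓝 (∫ x, F x ∂(gam2 κ))) := by
  have h1 : Tendsto (fun lam => muS D.ν κ lam (Lb lam)) (𝓝[>] 0) (𝓝 (gamY κ 1)) :=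
    clt_gen D.ν D.mean D.var κ one_pos Lb_lim
  have h2 : Tendsto (fun lam => muS D.ν κ lam (2 * Lb lam)) (𝓝[>] 0) (𝓝 (gamY κ 2)) := by
    apply clt_gen D.ν D.mean D.var κ two_pos
    have := Lb_lim.const_mul 2
    rw [mul_one] at this
    refine this.congr fun lam => ?_
    push_cast
    ring
  have h3 := (ProbabilityMeasure.continuous_prod.tendsto (gamY κ 1, gamY κ 2)).comp
    (h1.prodMk_nhds h2)
  obtain ⟨C, hC0, hC⟩ := muS_exp D hκ
  refine conv_int (C := (2 + Real.exp (C * 2)) ^ 2) h3 hF hF0 ?_ (gam2_sq κ hF hle)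
  have hev : ∀ᶠ lam in 𝓝[>] (0 : ℝ), lam ≤ 1 / 8 :=
    (eventually_le_nhds (show (0 : ℝ) < 1 / 8 by norm_num)).filter_mono nhdsWithin_le_nhds
  filter_upwards [self_mem_nhdsWithin, hev] with lam hlam hl
  have hlam0 : 0 < lam := hlam
  have g1 := hC lam hlam0 hl (Lb lam)
  have g2 := hC lam hlam0 hl (2 * Lb lam)
  have b := Lb_le hlam0
  refine prod_sq _ _ g1.1 g2.1 (g1.2.trans (Real.exp_le_exp.2 ?_))
    (g2.2.trans (Real.exp_le_exp.2 ?_)) hF hle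
  · exact mul_le_mul_of_nonneg_left (by linarith) hC0
  · refine mul_le_mul_of_nonneg_left ?_ hC0
    push_cast
    linarith

theorem ev_ratio {a b : ℝ → ℝ} {a0 b0 : ℝ} {l : Filter ℝ} (ha : Tendsto a l (𝓝 a0))
    (hb : Tendsto b l (𝓝 b0)) (hb0 : 0 < b0) {η : ℝ} (hη : 0 < η) :
    ∀ᶠ t in l, (a0 / b0 - η) * b t ≤ a t ∧ (1 - a0 / b0 - η) * b t ≤ b t - a t := by
  have h1 : Tendsto (fun t => a t - (a0 / b0) * b t) l (𝓝 (a0 - (a0 / b0) * b0)) :=
    ha.sub (hb.const_mul _)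
  rw [div_mul_cancel₀ _ hb0.ne', sub_self] at h1
  have h2 : ∀ᶠ t in l, |a t - (a0 / b0) * b t| < η * (b0 / 2) := by
    have := (Metric.tendsto_nhds.1 h1) (η * (b0 / 2)) (by positivity)
    filter_upwards [this] with t ht
    rwa [Real.dist_eq, sub_zero] at ht
  have h3 : ∀ᶠ t in l, b0 / 2 < b t := hb.eventually (lt_mem_nhds (by linarith))
  filter_upwards [h2, h3] with t h4 h5
  have h6 := abs_lt.1 h4
  have h7 : η * (b0 / 2) ≤ η * b t := mul_le_mul_of_nonneg_left h5.le hη.le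
  constructor
  · linarith [h6.1]
  · linarith [h6.2]

/-- perturbation of a tilted mean -/
theorem pert {Ω : Type*} [MeasurableSpace Ω] {P : Measure Ω} {Φ Φ' R ξ : Ω → ℝ}
    (hΦ : Integrable Φ P) (hΦ' : Integrable Φ' P) (hR : Integrable (fun ω => Φ ω * R ω) P)
    (hξm : Measurable ξ) (hξ0 : ∀ ω, 0 ≤ ξ ω) (hξ1 : ∀ ω, ξ ω ≤ 1)
    (h0 : ∀ ω, 0 ≤ Φ ω) (h0' : ∀ ω, 0 ≤ Φ' ω) (hd : ∀ ω, |Φ' ω - Φ ω| ≤ Φ ω * R ω)
    {p η : ℝ} (hη : 0 ≤ η) (hp1 : p ≤ 1) (hRη : ∫ ω, Φ ω * R ω ∂P ≤ η * ∫ ω, Φ ω ∂P)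
    (hp : (p - η) * ∫ ω, Φ ω ∂P ≤ ∫ ω, Φ ω * ξ ω ∂P) :
    max (p - 3 * η) 0 * ∫ ω, Φ' ω ∂P ≤ ∫ ω, Φ' ω * ξ ω ∂P := by
  have hb : ∀ f : Ω → ℝ, Integrable f P → Integrable (fun ω => f ω * ξ ω) P := by
    intro f hf
    refine hf.mul_bdd (c := 1) hξm.aestronglyMeasurable (Filter.Eventually.of_forall fun x => ?_)
    rw [Real.norm_eq_abs, abs_of_nonneg (hξ0 x)]
    exact hξ1 x
  have hX' : 0 ≤ ∫ ω, Φ' ω ∂P := integral_nonneg h0'
  have hX : 0 ≤ ∫ ω, Φ ω ∂P := integral_nonneg h0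
  rcases le_total (p - 3 * η) 0 with hc | hc
  · rw [max_eq_right hc, zero_mul]
    exact integral_nonneg fun ω => mul_nonneg (h0' ω) (hξ0 ω)
  · rw [max_eq_left hc]
    have h1 : ∫ ω, Φ ω * ξ ω ∂P - ∫ ω, Φ ω * R ω ∂P ≤ ∫ ω, Φ' ω * ξ ω ∂P := by
      rw [← integral_sub (hb _ hΦ) hR]
      refine integral_mono ((hb _ hΦ).sub hR) (hb _ hΦ') fun ω => ?_
      show Φ ω * ξ ω - Φ ω * R ω ≤ Φ' ω * ξ ω
      have e1 := (abs_le.1 (hd ω)).1
      have e2 : 0 ≤ Φ ω * R ω := (abs_nonneg _).trans (hd ω)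
      have e3 := hξ0 ω
      have e4 := hξ1 ω
      nlinarith
    have h2 : ∫ ω, Φ' ω ∂P ≤ (1 + η) * ∫ ω, Φ ω ∂P := by
      have : ∫ ω, Φ' ω ∂P ≤ ∫ ω, (Φ ω + Φ ω * R ω) ∂P := by
        refine integral_mono hΦ' (hΦ.add hR) fun ω => ?_
        show Φ' ω ≤ Φ ω + Φ ω * R ω
        have := (abs_le.1 (hd ω)).2
        linarith
      rw [integral_add hΦ hR] at this
      linarith
    have h3 : (p - 3 * η) * (1 + η) ≤ p - 2 * η := by nlinarith [sq_nonneg η]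
    calc (p - 3 * η) * ∫ ω, Φ' ω ∂P ≤ (p - 3 * η) * ((1 + η) * ∫ ω, Φ ω ∂P) :=
          mul_le_mul_of_nonneg_left h2 hc
      _ = ((p - 3 * η) * (1 + η)) * ∫ ω, Φ ω ∂P := by ring
      _ ≤ (p - 2 * η) * ∫ ω, Φ ω ∂P := mul_le_mul_of_nonneg_right h3 hX
      _ ≤ _ := by linarith

theorem ph_pert {θ : ℝ} (hθ0 : 0 ≤ θ) (hθ1 : θ ≤ 1) (s e : ℝ) :
    ph (s + e) ^ θ ≤ ph s ^ θ * Real.exp |e| ∧ ph s ^ θ ≤ ph (s + e) ^ θ * Real.exp |e| := by
  have key : ∀ s e : ℝ, ph (s + e) ^ θ ≤ ph s ^ θ * Real.exp |e| := by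
    intro s e
    have h1 : ph (s + e) ≤ ph s * Real.exp |e| := by
      unfold ph
      rw [Real.exp_add]
      have h2 : Real.exp e ≤ Real.exp |e| := Real.exp_le_exp.2 (le_abs_self e)
      have h3 : 1 ≤ Real.exp |e| := Real.one_le_exp (abs_nonneg e)
      have h4 := Real.exp_pos s
      nlinarith
    have h2 : 1 ≤ Real.exp |e| := Real.one_le_exp (abs_nonneg e)
    calc ph (s + e) ^ θ ≤ (ph s * Real.exp |e|) ^ θ := Real.rpow_le_rpow (ph_pos _).le h1 hθ0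
      _ = ph s ^ θ * Real.exp |e| ^ θ := Real.mul_rpow (ph_pos _).le (Real.exp_pos _).le
      _ ≤ ph s ^ θ * Real.exp |e| := by
          apply mul_le_mul_of_nonneg_left _ (Real.rpow_nonneg (ph_pos _).le _)
          have := Real.rpow_le_rpow_of_exponent_le h2 hθ1
          rwa [Real.rpow_one] at this
  refine ⟨key s e, ?_⟩
  have := key (s + e) (-e)
  rwa [add_neg_cancel_right, abs_neg] at this

theorem abs_pert {x y E : ℝ} (hx : 0 ≤ x) (hE : 1 ≤ E) (h1 : y ≤ x * E) (h2 : x ≤ y * E) :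
    |y - x| ≤ x * (E - 1) := by
  rw [abs_le]
  constructor
  · have h3 : x / E ≤ y := by rwa [div_le_iff₀ (by linarith)]
    have h4 : x - x / E ≤ x * (E - 1) := by
      have h5 : x - x / E = x * (E - 1) / E := by field_simp
      rw [h5, div_le_iff₀ (by linarith)]
      have h6 : 0 ≤ x * (E - 1) := mul_nonneg hx (by linarith)
      nlinarith
    linarith
  · linarith

end Pool.Agent.TH983
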