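import Pool.Agent.TH983.TiltEv

/-!
# The tilt condition holds in the weak coupling window
-/

set_option autoImplicit false
set_option maxHeartbeats 4000000
open MeasureTheory ProbabilityTheory Filter Topology
open scoped ENNReal NNReal

namespace Pool.Agent.TH983
open Cop764

theorem exp_abs_win (D : Data) {κ : ℝ} (hκ : 0 ≤ κ) {η : ℝ} (hη : 0 < η) :
    ∃ r : ℝ, 0 < r ∧ ∀ (lam : ℝ) (hlam : 0 < lam), lam ≤ 1 / 8 → ∀ W : Finset ℕ,
      lam ^ 2 * W.card ≤ r →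
      Integrable (fun ω => Real.exp |SW ((Dat D lam hlam).w (κ * lam) ω) W|) D.P ∧
      ∫ ω, Real.exp |SW ((Dat D lam hlam).w (κ * lam) ω) W| ∂D.P ≤ 1 + η := by
  obtain ⟨r, hr, hw⟩ := window_small D hκ hη
  refine ⟨r, hr, fun lam hlam hl W hW => ?_⟩
  have h1 := abs_exp_int (Dat D lam hlam) (κ * lam) W
  have h1' : Integrable (fun ω => |SW ((Dat D lam hlam).w (κ * lam) ω) W| *
      Real.exp |SW ((Dat D lam hlam).w (κ * lam) ω) W|) D.P := h1
  have h2 : Integrable (fun ω => 1 + |SW ((Dat D lam hlam).w (κ * lam) ω) W| *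
      Real.exp |SW ((Dat D lam hlam).w (κ * lam) ω) W|) D.P := (integrable_const 1).add h1'
  have hpt : ∀ x : ℝ, Real.exp |x| ≤ 1 + |x| * Real.exp |x| := by
    intro x
    have e1 := Real.one_sub_le_exp_neg |x|
    have e2 := Real.exp_pos |x|
    have e3 : Real.exp (-|x|) * Real.exp |x| = 1 := by rw [← Real.exp_add]; simp
    nlinarith
  have hm := meas_SW (Dat D lam hlam) (κ * lam) W
  have h3 : Integrable (fun ω => Real.exp |SW ((Dat D lam hlam).w (κ * lam) ω) W|) D.P := by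
    refine h2.mono' hm.abs.exp.aestronglyMeasurable (Filter.Eventually.of_forall fun ω => ?_)
    rw [Real.norm_eq_abs, abs_of_pos (Real.exp_pos _)]
    exact hpt _
  refine ⟨h3, ?_⟩
  have h4 := integral_mono h3 h2 fun ω => hpt _
  rw [integral_add (integrable_const 1) h1'] at h4
  simp only [integral_const, probReal_univ, smul_eq_mul, one_mul] at h4
  have h5 := hw lam hlam hl W hW
  linarith

theorem SW_loc (D : Data) (h : ℝ) (W : Finset ℕ) : Loc W (fun ω => SW (D.w h ω) W) := by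
  intro ω ω' hh
  show SW (D.w h ω) W = SW (D.w h ω') W
  unfold SW Data.w
  exact Finset.sum_congr rfl fun n hn => by rw [hh n hn]

/-- product of the exponentials over two windows -/
noncomputable def EE (D : Data) (h : ℝ) (W1 W2 : Finset ℕ) (ω : ℕ → ℝ) : ℝ :=
  Real.exp |SW (D.w h ω) W1| * Real.exp |SW (D.w h ω) W2|

theorem EE_ge (D : Data) (h : ℝ) (W1 W2 : Finset ℕ) (ω : ℕ → ℝ) : 1 ≤ EE D h W1 W2 ω := by
  unfold EE
  have h1 : 1 ≤ Real.exp |SW (D.w h ω) W1| := Real.one_le_exp (abs_nonneg _)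
  have h2 : 1 ≤ Real.exp |SW (D.w h ω) W2| := Real.one_le_exp (abs_nonneg _)
  nlinarith

theorem EE_meas (D : Data) (h : ℝ) (W1 W2 : Finset ℕ) : Measurable (EE D h W1 W2) := by
  unfold EE
  exact (meas_SW D h W1).abs.exp.mul (meas_SW D h W2).abs.exp

theorem EE_loc (D : Data) (h : ℝ) (W1 W2 : Finset ℕ) : Loc (W1 ∪ W2) (EE D h W1 W2) := by
  intro ω ω' hh
  have h1 := SW_loc D h W1 ω ω' fun n hn => hh n (Finset.mem_union_left _ hn)
  have h2 := SW_loc D h W2 ω ω' fun n hn => hh n (Finset.mem_union_right _ hn)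
  simp only at h1 h2
  unfold EE
  rw [h1, h2]

theorem EE_int (D : Data) (h : ℝ) {W1 W2 : Finset ℕ} (hd : Disjoint W1 W2) {η : ℝ}
    (i1 : Integrable (fun ω => Real.exp |SW (D.w h ω) W1|) D.P)
    (i2 : Integrable (fun ω => Real.exp |SW (D.w h ω) W2|) D.P)
    (b1 : ∫ ω, Real.exp |SW (D.w h ω) W1| ∂D.P ≤ 1 + η)
    (b2 : ∫ ω, Real.exp |SW (D.w h ω) W2| ∂D.P ≤ 1 + η) :
    Integrable (EE D h W1 W2) D.P ∧ ∫ ω, EE D h W1 W2 ω ∂D.P ≤ (1 + η) ^ 2 := by
  have hind : IndepFun (fun ω => Real.exp |SW (D.w h ω) W1|)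
      (fun ω => Real.exp |SW (D.w h ω) W2|) (disorder D.ν) := by
    apply M_indep.J_indep D.ν W1 W2 hd _ _ (meas_SW D h W1).abs.exp (meas_SW D h W2).abs.exp
    · intro ω ω' hh
      have := SW_loc D h W1 ω ω' hh
      simp only at this
      rw [this]
    · intro ω ω' hh
      have := SW_loc D h W2 ω ω' hh
      simp only at this
      rw [this]
  refine ⟨hind.integrable_mul i1 i2, ?_⟩
  have h1 := hind.integral_fun_mul_eq_mul_integral i1.aestronglyMeasurable i2.aestronglyMeasurable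
  have h2 : ∫ ω, EE D h W1 W2 ω ∂D.P =
      (∫ ω, Real.exp |SW (D.w h ω) W1| ∂D.P) * ∫ ω, Real.exp |SW (D.w h ω) W2| ∂D.P := h1
  rw [h2, sq]
  have h3 : 0 ≤ ∫ ω, Real.exp |SW (D.w h ω) W1| ∂D.P := integral_nonneg fun ω => (Real.exp_pos _).le
  have h4 : 0 ≤ ∫ ω, Real.exp |SW (D.w h ω) W2| ∂D.P := integral_nonneg fun ω => (Real.exp_pos _).le
  exact mul_le_mul b1 b2 h4 (h3.trans b1)

/-- the perturbation bound in the disordered environment -/
theorem tilt_core (D : Data) (h : ℝ) {T W1 W2 : Finset ℕ} (hT : Disjoint T (W1 ∪ W2))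
    {Φ Φ' ξ : (ℕ → ℝ) → ℝ} (hΦm : Measurable Φ) (hΦl : Loc T Φ) (hΦ : Integrable Φ D.P)
    (hΦ'm : Measurable Φ') (hξm : Measurable ξ) (hξ0 : ∀ ω, 0 ≤ ξ ω) (hξ1 : ∀ ω, ξ ω ≤ 1)
    (h0 : ∀ ω, 0 ≤ Φ ω) (h0' : ∀ ω, 0 ≤ Φ' ω) (hu : ∀ ω, Φ' ω ≤ Φ ω * EE D h W1 W2 ω)
    (hl : ∀ ω, Φ ω ≤ Φ' ω * EE D h W1 W2 ω)
    (hEi : Integrable (EE D h W1 W2) D.P) {η : ℝ} (hη : 0 ≤ η)
    (hE : ∫ ω, EE D h W1 W2 ω ∂D.P ≤ 1 + η) {p : ℝ} (hp1 : p ≤ 1)
    (hp : (p - η) * ∫ ω, Φ ω ∂D.P ≤ ∫ ω, Φ ω * ξ ω ∂D.P) :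
    max (p - 3 * η) 0 * ∫ ω, Φ' ω ∂D.P ≤ ∫ ω, Φ' ω * ξ ω ∂D.P := by
  have hind : IndepFun Φ (EE D h W1 W2) (disorder D.ν) :=
    M_indep.J_indep D.ν T (W1 ∪ W2) hT _ _ hΦm (EE_meas D h W1 W2) hΦl (EE_loc D h W1 W2)
  have hi : Integrable (fun ω => Φ ω * EE D h W1 W2 ω) D.P := hind.integrable_mul hΦ hEi
  have he : ∫ ω, Φ ω * EE D h W1 W2 ω ∂D.P = (∫ ω, Φ ω ∂D.P) * ∫ ω, EE D h W1 W2 ω ∂D.P :=
    hind.integral_fun_mul_eq_mul_integral hΦ.aestronglyMeasurable hEi.aestronglyMeasurable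
  have hΦ' : Integrable Φ' D.P := by
    refine hi.mono' hΦ'm.aestronglyMeasurable (Filter.Eventually.of_forall fun ω => ?_)
    rw [Real.norm_eq_abs, abs_of_nonneg (h0' ω)]
    exact hu ω
  have hR : Integrable (fun ω => Φ ω * (EE D h W1 W2 ω - 1)) D.P := by
    have : (fun ω => Φ ω * (EE D h W1 W2 ω - 1)) = fun ω => Φ ω * EE D h W1 W2 ω - Φ ω := by
      funext ω; ring
    rw [this]
    exact hi.sub hΦ
  have hRη : ∫ ω, Φ ω * (EE D h W1 W2 ω - 1) ∂D.P ≤ η * ∫ ω, Φ ω ∂D.P := by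
    have : (fun ω => Φ ω * (EE D h W1 W2 ω - 1)) = fun ω => Φ ω * EE D h W1 W2 ω - Φ ω := by
      funext ω; ring
    rw [this, integral_sub hi hΦ, he]
    have hX : 0 ≤ ∫ ω, Φ ω ∂D.P := integral_nonneg h0
    nlinarith
  exact pert hΦ hΦ' hR hξm hξ0 hξ1 h0 h0'
    (fun ω => abs_pert (h0 ω) (EE_ge D h W1 W2 ω) (hu ω) (hl ω)) hη hp1 hRη hp

theorem SW_union {w : ℕ → ℝ} {a b c d : ℕ} (h : b ≤ c) :
    SW w (Finset.Ioc a b ∪ Finset.Ioc c d) = S w a b + S w c d := by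
  unfold SW S
  exact Finset.sum_union (Finset.Ioc_disjoint_Ioc_of_le h)

theorem card_union_le' {a b c d e : ℕ} (h1 : b - a ≤ e) (h2 : d - c ≤ e) :
    (Finset.Ioc a b ∪ Finset.Ioc c d).card ≤ 2 * e := by
  refine (Finset.card_union_le _ _).trans ?_
  rw [Nat.card_Ioc, Nat.card_Ioc]
  omega

/-- integrability of the square root type weights from a second moment -/
theorem int_of_sq {Ω : Type*} [MeasurableSpace Ω] {P : Measure Ω} [IsFiniteMeasure P] {f : Ω → ℝ}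
    (hm : Measurable f) (h : Integrable (fun ω => f ω ^ 2) P) : Integrable f P := by
  have h1 : Integrable (fun ω => 1 + f ω ^ 2) P := (integrable_const 1).add h
  refine h1.mono' hm.aestronglyMeasurable (Filter.Eventually.of_forall fun x => ?_)
  rw [Real.norm_eq_abs, abs_le]
  constructor <;> nlinarith [sq_nonneg (f x - 1), sq_nonneg (f x + 1)]

/-- the tilt condition for small coupling -/
theorem tilt_ev (D : Data) {κ : ℝ} (hκ : 0 ≤ κ) {β : ℝ} (hβ : 1 < β) :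
    ∃ p0 q0 : ℝ, 0 ≤ p0 ∧ p0 ≤ 1 ∧ 0 ≤ q0 ∧ q0 ≤ 1 ∧ p0 ≠ q0 ∧ ∀ η : ℝ, 0 < η →
      ∃ M0 : ℕ, ∀ M : ℕ, M0 ≤ M → ∀ᶠ lam in 𝓝[>] (0 : ℝ), ∀ hlam : 0 < lam,
        Tilt (Dat D lam hlam) (κ * lam) β (Lb lam / M) (Lb lam) (max (p0 - η) 0)
          (max (1 - p0 - η) 0) (max (q0 - η) 0) (max (1 - q0 - η) 0) := by
  have hβ0 : 0 < β := by linarith
  set θ : ℝ := β⁻¹ with hθ
  have hθ0 : 0 < θ := by positivity
  have hθ1 : θ ≤ 1 := inv_le_one_of_one_le₀ hβ.le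
  have hVsq := V2_sq hθ0.le hθ1
  have hWsq := W2_sq hθ0.le hθ1
  have hVi : Integrable (V2 θ) (gam2 κ) :=
    int_of_sq (V2_cont θ).measurable (gam2_sq κ (V2_cont θ) hVsq)
  have hWi : Integrable (W2 θ) (gam2 κ) :=
    int_of_sq (W2_cont θ).measurable (gam2_sq κ (W2_cont θ) hWsq)
  have hpos : ∀ f : ℝ × ℝ → ℝ, (∀ x, 0 < f x) → Integrable f (gam2 κ) →
      0 < ∫ x, f x ∂(gam2 κ) := by
    intro f hf hi
    rw [integral_pos_iff_support_of_nonneg (fun x => (hf x).le) hi]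
    have : Function.support f = Set.univ := by
      ext x; simp [(hf x).ne']
    rw [this, measure_univ]
    exact one_pos
  have hX0 := hpos _ (V2_pos θ) hVi
  have hY0 := hpos _ (W2_pos θ) hWi
  have hb : ∀ f : ℝ × ℝ → ℝ, (∀ x, 0 < f x) → Integrable f (gam2 κ) →
      0 ≤ (∫ x, f x * ch2 x ∂(gam2 κ)) / (∫ x, f x ∂(gam2 κ)) ∧
      (∫ x, f x * ch2 x ∂(gam2 κ)) / (∫ x, f x ∂(gam2 κ)) ≤ 1 := by
    intro f hf hi
    have h1 := hpos f hf hi
    have h2 : 0 ≤ ∫ x, f x * ch2 x ∂(gam2 κ) :=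
      integral_nonneg fun x => mul_nonneg (hf x).le (ch2_pos x).le
    refine ⟨div_nonneg h2 h1.le, ?_⟩
    rw [div_le_one h1]
    have hic : Integrable (fun x => f x * ch2 x) (gam2 κ) := by
      refine hi.mul_bdd (c := 1) ch2_cont.measurable.aestronglyMeasurable
        (Filter.Eventually.of_forall fun x => ?_)
      rw [Real.norm_eq_abs, abs_of_pos (ch2_pos x)]
      exact ch2_le x
    exact integral_mono hic hi fun x => mul_le_of_le_one_right (hf x).le (ch2_le x)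
  have hne := gauss_strict hθ0 (gam2 κ) (gam2_abs κ) hVi hWi
  have hbV := hb _ (V2_pos θ) hVi
  have hbW := hb _ (W2_pos θ) hWi
  set p0 : ℝ := (∫ x, V2 θ x * ch2 x ∂(gam2 κ)) / (∫ x, V2 θ x ∂(gam2 κ)) with hp0
  set q0 : ℝ := (∫ x, W2 θ x * ch2 x ∂(gam2 κ)) / (∫ x, W2 θ x ∂(gam2 κ)) with hq0
  refine ⟨p0, q0, hbV.1, hbV.2, hbW.1, hbW.2, hne, fun η hη => ?_⟩
  -- the constants
  set η1 : ℝ := η / 3 with hη1
  have hη1p : 0 < η1 := by positivity
  obtain ⟨η2, hη2, hη2b⟩ : ∃ η2 : ℝ, 0 < η2 ∧ (1 + η2) ^ 2 ≤ 1 + η1 := by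
    refine ⟨min 1 (η1 / 3), by positivity, ?_⟩
    have h1 : min 1 (η1 / 3) ≤ 1 := min_le_left _ _
    have h2 : min 1 (η1 / 3) ≤ η1 / 3 := min_le_right _ _
    have h3 : 0 < min 1 (η1 / 3) := by positivity
    nlinarith
  obtain ⟨r, hr, hwin⟩ := exp_abs_win D hκ hη2
  refine ⟨⌈2 / r⌉₊ + 1, fun M hM => ?_⟩
  have hMr : 2 / (M : ℝ) ≤ r := by
    have h1 : 2 / r ≤ M := by
      have := Nat.le_ceil (2 / r)
      have h2 : ((⌈2 / r⌉₊ : ℕ) : ℝ) ≤ M := Nat.cast_le.2 (by omega)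
      linarith
    have hM0 : (0 : ℝ) < M := by exact_mod_cast (show 0 < M by omega)
    rw [div_le_iff₀ hM0]
    rw [div_le_iff₀ hr] at h1
    linarith
  -- the limits
  have l1 := lims D hκ (V2_cont θ) (fun x => (V2_pos θ x).le) hVsq
  have l2 := lims D hκ (F := fun x => V2 θ x * ch2 x) ((V2_cont θ).mul ch2_cont)
    (fun x => mul_nonneg (V2_pos θ x).le (ch2_pos x).le) (fun x => by
      refine le_trans ?_ (hVsq x)
      rw [mul_pow]
      have h1 := ch2_pos x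
      have h2 := ch2_le x
      have h3 : ch2 x ^ 2 ≤ 1 := by nlinarith
      exact mul_le_of_le_one_right (sq_nonneg _) h3)
  have l3 := lims D hκ (W2_cont θ) (fun x => (W2_pos θ x).le) hWsq
  have l4 := lims D hκ (F := fun x => W2 θ x * ch2 x) ((W2_cont θ).mul ch2_cont)
    (fun x => mul_nonneg (W2_pos θ x).le (ch2_pos x).le) (fun x => by
      refine le_trans ?_ (hWsq x)
      rw [mul_pow]
      have h1 := ch2_pos x
      have h2 := ch2_le x
      have h3 : ch2 x ^ 2 ≤ 1 := by nlinarith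
      exact mul_le_of_le_one_right (sq_nonneg _) h3)
  have eV := ev_ratio l2 l1 hX0 hη1p
  have eW := ev_ratio l4 l3 hY0 hη1p
  have hev : ∀ᶠ lam in 𝓝[>] (0 : ℝ), lam ≤ 1 / 8 :=
    (eventually_le_nhds (show (0 : ℝ) < 1 / 8 by norm_num)).filter_mono nhdsWithin_le_nhds
  obtain ⟨Cm, hCm0, hCm⟩ := muS_exp D hκ
  filter_upwards [eV, eW, hev, Lb_large M] with lam hV hW hl hLM hlam
  set L := Lb lam with hL
  set e0 := L / M with he0
  have hM0 : 0 < M := by omega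
  have hcard : ∀ W : Finset ℕ, W.card ≤ 2 * e0 → lam ^ 2 * (W.card : ℝ) ≤ r := by
    intro W hW'
    refine le_trans ?_ hMr
    have h1 : (W.card : ℝ) ≤ 2 * ((L : ℝ) / M) := by
      have h2 : ((L / M : ℕ) : ℝ) ≤ (L : ℝ) / M := Nat.cast_div_le
      have h3 : (W.card : ℝ) ≤ ((2 * e0 : ℕ) : ℝ) := Nat.cast_le.2 hW'
      push_cast at h3
      linarith
    have hMr0 : (0 : ℝ) < M := by exact_mod_cast hM0
    calc lam ^ 2 * (W.card : ℝ) ≤ lam ^ 2 * (2 * ((L : ℝ) / M)) :=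
          mul_le_mul_of_nonneg_left h1 (sq_nonneg _)
      _ = (lam ^ 2 * L) * (2 / M) := by ring
      _ ≤ 1 * (2 / M) := mul_le_mul_of_nonneg_right (Lb_le hlam) (by positivity)
      _ = 2 / M := one_mul _
  -- the law of the pair
  set D' := Dat D lam hlam with hD'
  set h := κ * lam with hh
  set w : (ℕ → ℝ) → ℕ → ℝ := fun ω => D'.w h ω with hw
  set s1 : (ℕ → ℝ) → ℝ := fun ω => S (w ω) e0 (e0 + L) with hs1
  set s3 : (ℕ → ℝ) → ℝ := fun ω => S (w ω) (2 * e0 + L) (2 * e0 + 3 * L) with hs3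
  have hm1 : Measurable s1 := meas_S D' h _ _
  have hm3 : Measurable s3 := meas_S D' h _ _
  have hjoint : D'.P.map (fun ω => (s1 ω, s3 ω)) = mu2 D κ lam := by
    have h1 := joint_law D.ν κ lam (i1 := e0) (j1 := e0 + L) (i2 := 2 * e0 + L)
      (j2 := 2 * e0 + 3 * L) (by omega) (by omega) (by omega)
    rw [show e0 + L - e0 = L by omega, show 2 * e0 + 3 * L - (2 * e0 + L) = 2 * L by omega] at h1
    exact h1
  have hmp : Measurable (fun ω => (s1 ω, s3 ω)) := hm1.prodMk hm3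
  have htr : ∀ F : ℝ × ℝ → ℝ, Continuous F →
      ∫ ω, F (s1 ω, s3 ω) ∂D'.P = ∫ x, F x ∂(mu2 D κ lam) := by
    intro F hF
    rw [← hjoint, integral_map hmp.aemeasurable hF.measurable.aestronglyMeasurable]
  have htri : ∀ F : ℝ × ℝ → ℝ, Continuous F →
      (∀ x, F x ^ 2 ≤ (2 + Real.exp (2 * x.1)) * (2 + Real.exp (2 * x.2))) →
      Integrable (fun ω => F (s1 ω, s3 ω)) D'.P := by
    intro F hF hle
    have h1 := prod_sq _ _ (hCm lam hlam hl L).1 (hCm lam hlam hl (2 * L)).1 (le_max_left _ _)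
      (le_max_right _ _) hF hle
    have h2 : Integrable F (mu2 D κ lam) := int_of_sq hF.measurable h1.1
    rw [← hjoint] at h2
    exact (integrable_map_measure hF.measurable.aestronglyMeasurable hmp.aemeasurable).1 h2
  set T : Finset ℕ := Finset.Ioc e0 (e0 + L) ∪ Finset.Ioc (2 * e0 + L) (2 * e0 + 3 * L) with hT
  have hloc : ∀ F : ℝ × ℝ → ℝ, Loc T (fun ω => F (s1 ω, s3 ω)) := by
    intro F ω ω' hh'
    have e1 : s1 ω = s1 ω' := S_congr D' h (fun n hn => hh' n (Finset.mem_union_left _ hn))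
      le_rfl le_rfl
    have e2 : s3 ω = s3 ω' := S_congr D' h (fun n hn => hh' n (Finset.mem_union_right _ hn))
      le_rfl le_rfl
    simp only [e1, e2]
  have hξm : Measurable (fun ω => ch2 (s1 ω, s3 ω)) := ch2_cont.measurable.comp hmp
  have hEE : ∀ W1 W2 : Finset ℕ, Disjoint W1 W2 → W1.card ≤ 2 * e0 → W2.card ≤ 2 * e0 →
      Integrable (EE D' h W1 W2) D'.P ∧ ∫ ω, EE D' h W1 W2 ω ∂D'.P ≤ 1 + η1 := by
    intro W1 W2 hd c1 c2
    have g1 := hwin lam hlam hl W1 (hcard W1 c1)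
    have g2 := hwin lam hlam hl W2 (hcard W2 c2)
    have := EE_int D' h hd g1.1 g2.1 g1.2 g2.2
    exact ⟨this.1, this.2.trans hη2b⟩
  have h3η : 3 * η1 = η := by rw [hη1]; ring
  -- single excursion
  have single : ∀ a ≤ e0, ∀ m ∈ Finset.Icc (2 * e0 + 3 * L) (3 * e0 + 3 * L),
      ∀ ξ : ℝ × ℝ → ℝ, Continuous ξ → (∀ x, 0 ≤ ξ x) → (∀ x, ξ x ≤ 1) → ∀ p : ℝ, p ≤ 1 →
      (p - η1) * ∫ x, V2 θ x ∂(mu2 D κ lam) ≤ ∫ x, V2 θ x * ξ x ∂(mu2 D κ lam) →
      max (p - η) 0 * ∫ ω, phi (w ω) a m ^ θ ∂D'.P ≤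
        ∫ ω, phi (w ω) a m ^ θ * ξ (s1 ω, s3 ω) ∂D'.P := by
    intro a ha m hm ξ hξc hξ0 hξ1 p hp1 hp
    rw [Finset.mem_Icc] at hm
    set W1 := Finset.Ioc a e0 with hW1
    set W2 := Finset.Ioc (e0 + L) (2 * e0 + L) ∪ Finset.Ioc (2 * e0 + 3 * L) m with hW2
    have hd : Disjoint W1 W2 := by
      rw [hW2, Finset.disjoint_union_right]
      exact ⟨Finset.Ioc_disjoint_Ioc_of_le (by omega), Finset.Ioc_disjoint_Ioc_of_le (by omega)⟩
    have c1 : W1.card ≤ 2 * e0 := by rw [hW1, Nat.card_Ioc]; omega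
    have c2 : W2.card ≤ 2 * e0 := card_union_le' (by omega) (by omega)
    obtain ⟨hEi, hEb⟩ := hEE W1 W2 hd c1 c2
    have hTd : Disjoint T (W1 ∪ W2) := by
      rw [Finset.disjoint_left]
      intro x hx
      simp only [hT, hW1, hW2, Finset.mem_union, Finset.mem_Ioc] at hx ⊢
      omega
    have hS : ∀ ω, S (w ω) a m = (s1 ω + s3 ω) + (SW (w ω) W1 + SW (w ω) W2) := by
      intro ω
      rw [hW2, SW_union (by omega), hW1, ← S_eq_SW,
        S_add (w ω) (show a ≤ e0 by omega) (show e0 ≤ m by omega),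
        S_add (w ω) (show e0 ≤ e0 + L by omega) (show e0 + L ≤ m by omega),
        S_add (w ω) (show e0 + L ≤ 2 * e0 + L by omega) (show 2 * e0 + L ≤ m by omega),
        S_add (w ω) (show 2 * e0 + L ≤ 2 * e0 + 3 * L by omega) (show 2 * e0 + 3 * L ≤ m by omega)]
      ring
    have hEle : ∀ ω, Real.exp |SW (w ω) W1 + SW (w ω) W2| ≤ EE D' h W1 W2 ω := by
      intro ω
      unfold EE
      rw [← Real.exp_add]
      exact Real.exp_le_exp.2 (abs_add_le _ _)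
    have hphi : ∀ ω, phi (w ω) a m = ph ((s1 ω + s3 ω) + (SW (w ω) W1 + SW (w ω) W2)) := by
      intro ω
      rw [← hS ω]; rfl
    have hpp : ∀ ω, ph (s1 ω + s3 ω) ^ θ = V2 θ (s1 ω, s3 ω) := fun ω => rfl
    have hres := tilt_core D' h (T := T) (W1 := W1) (W2 := W2) hTd
      (Φ := fun ω => V2 θ (s1 ω, s3 ω)) (Φ' := fun ω => phi (w ω) a m ^ θ)
      (ξ := fun ω => ξ (s1 ω, s3 ω))
      ((V2_cont θ).measurable.comp hmp) (hloc _) (htri _ (V2_cont θ) hVsq)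
      ((meas_phi D' h a m).pow_const _) (hξc.measurable.comp hmp) (fun ω => hξ0 _)
      (fun ω => hξ1 _) (fun ω => (V2_pos θ _).le)
      (fun ω => Real.rpow_nonneg (phi_pos _ _ _).le _)
      (fun ω => by
        show phi (w ω) a m ^ θ ≤ V2 θ (s1 ω, s3 ω) * EE D' h W1 W2 ω
        rw [hphi, ← hpp]
        refine ((ph_pert hθ0.le hθ1 _ _).1).trans ?_
        exact mul_le_mul_of_nonneg_left (hEle ω) (Real.rpow_nonneg (ph_pos _).le _))
      (fun ω => by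
        show V2 θ (s1 ω, s3 ω) ≤ phi (w ω) a m ^ θ * EE D' h W1 W2 ω
        rw [hphi, ← hpp]
        refine ((ph_pert hθ0.le hθ1 _ (SW (w ω) W1 + SW (w ω) W2)).2).trans ?_
        exact mul_le_mul_of_nonneg_left (hEle ω) (Real.rpow_nonneg (ph_pos _).le _))
      hEi hη1p.le hEb hp1
      (by
        rw [htr _ (V2_cont θ), htr (fun x => V2 θ x * ξ x) ((V2_cont θ).mul hξc)]
        exact hp)
    rw [h3η] at hres
    exact hres
  -- double excursion
  have double : ∀ a ≤ e0, ∀ k b : ℕ, e0 + L ≤ k → k ≤ b → b ≤ 2 * e0 + L →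
      ∀ m ∈ Finset.Icc (2 * e0 + 3 * L) (3 * e0 + 3 * L),
      ∀ ξ : ℝ × ℝ → ℝ, Continuous ξ → (∀ x, 0 ≤ ξ x) → (∀ x, ξ x ≤ 1) → ∀ p : ℝ, p ≤ 1 →
      (p - η1) * ∫ x, W2 θ x ∂(mu2 D κ lam) ≤ ∫ x, W2 θ x * ξ x ∂(mu2 D κ lam) →
      max (p - η) 0 * ((∫ ω, phi (w ω) a k ^ θ ∂D'.P) * ∫ ω, phi (w ω) b m ^ θ ∂D'.P) ≤
        ∫ ω, phi (w ω) a k ^ θ * phi (w ω) b m ^ θ * ξ (s1 ω, s3 ω) ∂D'.P := by
    intro a ha k b hk hkb hb' m hm ξ hξc hξ0 hξ1 p hp1 hp
    rw [Finset.mem_Icc] at hm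
    set W1 := Finset.Ioc a e0 ∪ Finset.Ioc (e0 + L) k with hW1
    set W2' := Finset.Ioc b (2 * e0 + L) ∪ Finset.Ioc (2 * e0 + 3 * L) m with hW2
    have hd : Disjoint W1 W2' := by
      rw [Finset.disjoint_left]
      intro x hx
      simp only [hW1, hW2, Finset.mem_union, Finset.mem_Ioc] at hx ⊢
      omega
    have c1 : W1.card ≤ 2 * e0 := card_union_le' (by omega) (by omega)
    have c2 : W2'.card ≤ 2 * e0 := card_union_le' (by omega) (by omega)
    obtain ⟨hEi, hEb⟩ := hEE W1 W2' hd c1 c2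
    have hTd : Disjoint T (W1 ∪ W2') := by
      rw [Finset.disjoint_left]
      intro x hx
      simp only [hT, hW1, hW2, Finset.mem_union, Finset.mem_Ioc] at hx ⊢
      omega
    have hS1 : ∀ ω, S (w ω) a k = s1 ω + SW (w ω) W1 := by
      intro ω
      rw [hW1, SW_union (by omega),
        S_add (w ω) (show a ≤ e0 by omega) (show e0 ≤ k by omega),
        S_add (w ω) (show e0 ≤ e0 + L by omega) (show e0 + L ≤ k by omega)]
      ring
    have hS3 : ∀ ω, S (w ω) b m = s3 ω + SW (w ω) W2' := by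
      intro ω
      rw [hW2, SW_union (by omega),
        S_add (w ω) (show b ≤ 2 * e0 + L by omega) (show 2 * e0 + L ≤ m by omega),
        S_add (w ω) (show 2 * e0 + L ≤ 2 * e0 + 3 * L by omega) (show 2 * e0 + 3 * L ≤ m by omega)]
      ring
    have hphi1 : ∀ ω, phi (w ω) a k = ph (s1 ω + SW (w ω) W1) := by
      intro ω
      rw [← hS1 ω]; rfl
    have hphi3 : ∀ ω, phi (w ω) b m = ph (s3 ω + SW (w ω) W2') := by
      intro ω
      rw [← hS3 ω]; rfl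
    have hpp : ∀ ω, ph (s1 ω) ^ θ * ph (s3 ω) ^ θ = W2 θ (s1 ω, s3 ω) := fun ω => rfl
    have hind : IndepFun (fun ω => phi (w ω) a k ^ θ) (fun ω => phi (w ω) b m ^ θ)
        (disorder D'.ν) := by
      apply M_indep.J_indep D'.ν (Finset.Ioc a k) (Finset.Ioc b m)
        (Finset.Ioc_disjoint_Ioc_of_le hkb) _ _ ((meas_phi D' h a k).pow_const _)
        ((meas_phi D' h b m).pow_const _)
      · intro ω ω' hh'
        have := phi_loc D' h a k ω ω' hh'
        simp only at this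
        show phi (D'.w h ω) a k ^ θ = phi (D'.w h ω') a k ^ θ
        rw [this]
      · intro ω ω' hh'
        have := phi_loc D' h b m ω ω' hh'
        simp only at this
        show phi (D'.w h ω) b m ^ θ = phi (D'.w h ω') b m ^ θ
        rw [this]
    have hprod : ∫ ω, phi (w ω) a k ^ θ * phi (w ω) b m ^ θ ∂D'.P =
        (∫ ω, phi (w ω) a k ^ θ ∂D'.P) * ∫ ω, phi (w ω) b m ^ θ ∂D'.P :=
      hind.integral_fun_mul_eq_mul_integral
        ((meas_phi D' h a k).pow_const _).aestronglyMeasurable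
        ((meas_phi D' h b m).pow_const _).aestronglyMeasurable
    have hres := tilt_core D' h (T := T) (W1 := W1) (W2 := W2') hTd
      (Φ := fun ω => W2 θ (s1 ω, s3 ω)) (Φ' := fun ω => phi (w ω) a k ^ θ * phi (w ω) b m ^ θ)
      (ξ := fun ω => ξ (s1 ω, s3 ω))
      ((W2_cont θ).measurable.comp hmp) (hloc _) (htri _ (W2_cont θ) hWsq)
      (((meas_phi D' h a k).pow_const _).mul ((meas_phi D' h b m).pow_const _))
      (hξc.measurable.comp hmp) (fun ω => hξ0 _)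
      (fun ω => hξ1 _) (fun ω => (W2_pos θ _).le)
      (fun ω => mul_nonneg (Real.rpow_nonneg (phi_pos _ _ _).le _)
        (Real.rpow_nonneg (phi_pos _ _ _).le _))
      (fun ω => by
        show phi (w ω) a k ^ θ * phi (w ω) b m ^ θ ≤ W2 θ (s1 ω, s3 ω) * EE D' h W1 W2' ω
        rw [hphi1, hphi3, ← hpp]
        have g1 := (ph_pert hθ0.le hθ1 (s1 ω) (SW (w ω) W1)).1
        have g3 := (ph_pert hθ0.le hθ1 (s3 ω) (SW (w ω) W2')).1
        have g5 : 0 ≤ ph (s3 ω + SW (w ω) W2') ^ θ := Real.rpow_nonneg (ph_pos _).le _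
        have g6 : 0 ≤ ph (s1 ω) ^ θ * Real.exp |SW (w ω) W1| :=
          mul_nonneg (Real.rpow_nonneg (ph_pos _).le _) (Real.exp_pos _).le
        refine (mul_le_mul g1 g3 g5 g6).trans (le_of_eq ?_)
        unfold EE
        ring)
      (fun ω => by
        show W2 θ (s1 ω, s3 ω) ≤ phi (w ω) a k ^ θ * phi (w ω) b m ^ θ * EE D' h W1 W2' ω
        rw [hphi1, hphi3, ← hpp]
        have g1 := (ph_pert hθ0.le hθ1 (s1 ω) (SW (w ω) W1)).2
        have g3 := (ph_pert hθ0.le hθ1 (s3 ω) (SW (w ω) W2')).2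
        have g5 : 0 ≤ ph (s3 ω) ^ θ := Real.rpow_nonneg (ph_pos _).le _
        have g6 : 0 ≤ ph (s1 ω + SW (w ω) W1) ^ θ * Real.exp |SW (w ω) W1| :=
          mul_nonneg (Real.rpow_nonneg (ph_pos _).le _) (Real.exp_pos _).le
        refine (mul_le_mul g1 g3 g5 g6).trans (le_of_eq ?_)
        unfold EE
        ring)
      hEi hη1p.le hEb hp1
      (by
        rw [htr _ (W2_cont θ), htr (fun x => W2 θ x * ξ x) ((W2_cont θ).mul hξc)]
        exact hp)
    rw [h3η, hprod] at hres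
    exact hres
  have hsub : ∀ f : ℝ × ℝ → ℝ, Integrable f (mu2 D κ lam) →
      ∫ x, f x * (1 - ch2 x) ∂(mu2 D κ lam) =
        ∫ x, f x ∂(mu2 D κ lam) - ∫ x, f x * ch2 x ∂(mu2 D κ lam) := by
    intro f hf
    have hic : Integrable (fun x => f x * ch2 x) (mu2 D κ lam) := by
      refine hf.mul_bdd (c := 1) ch2_cont.measurable.aestronglyMeasurable
        (Filter.Eventually.of_forall fun x => ?_)
      rw [Real.norm_eq_abs, abs_of_pos (ch2_pos x)]
      exact ch2_le x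
    rw [← integral_sub hf hic]
    congr 1
    funext x
    ring
  have hint2 : ∀ F : ℝ × ℝ → ℝ, Continuous F →
      (∀ x, F x ^ 2 ≤ (2 + Real.exp (2 * x.1)) * (2 + Real.exp (2 * x.2))) →
      Integrable F (mu2 D κ lam) := by
    intro F hF hle
    have h1 := prod_sq _ _ (hCm lam hlam hl L).1 (hCm lam hlam hl (2 * L)).1 (le_max_left _ _)
      (le_max_right _ _) hF hle
    exact int_of_sq hF.measurable h1.1
  have hiV := hint2 _ (V2_cont θ) hVsq
  have hiW := hint2 _ (W2_cont θ) hWsq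
  have hc1 : Continuous (fun x : ℝ × ℝ => 1 - ch2 x) := continuous_const.sub ch2_cont
  have hc10 : ∀ x : ℝ × ℝ, 0 ≤ 1 - ch2 x := fun x => by have := ch2_le x; linarith
  have hc11 : ∀ x : ℝ × ℝ, 1 - ch2 x ≤ 1 := fun x => by have := ch2_pos x; linarith
  refine ⟨?_, ?_, ?_, ?_⟩
  · intro a ha m hm
    exact single a ha m hm ch2 ch2_cont (fun x => (ch2_pos x).le) ch2_le p0 hbV.2 hV.1
  · intro a ha m hm
    exact single a ha m hm (fun x => 1 - ch2 x) hc1 hc10 hc11 (1 - p0)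
      (by linarith [hbV.1]) (by rw [hsub _ hiV]; exact hV.2)
  · intro a ha k b hk hkb hb' m hm
    exact double a ha k b hk hkb hb' m hm ch2 ch2_cont (fun x => (ch2_pos x).le) ch2_le q0
      hbW.2 hW.1
  · intro a ha k b hk hkb hb' m hm
    exact double a ha k b hk hkb hb' m hm (fun x => 1 - ch2 x) hc1 hc10 hc11 (1 - q0)
      (by linarith [hbW.1]) (by rw [hsub _ hiW]; exact hW.2)

end Pool.Agent.TH983
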