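import Pool.Agent.TH983.Gauss2
import Pool.Agent.Helper764.Cop_stat

/-!
# Block sums of the disorder: independence and common law
-/

set_option autoImplicit false
set_option maxHeartbeats 4000000
open MeasureTheory ProbabilityTheory Filter Topology
open scoped ENNReal NNReal

namespace Pool.Agent.TH983
open Cop764

/-- sets depending on disjoint finite sets of coordinates are independent -/
theorem meas_inter (ν : Measure ℝ) [IsProbabilityMeasure ν] {s t : Finset ℕ} (hst : Disjoint s t)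
    {A B : Set (ℕ → ℝ)} (hA : MeasurableSet A) (hB : MeasurableSet B)
    (hAs : ∀ ω ω' : ℕ → ℝ, (∀ n ∈ s, ω n = ω' n) → (ω ∈ A ↔ ω' ∈ A))
    (hBt : ∀ ω ω' : ℕ → ℝ, (∀ n ∈ t, ω n = ω' n) → (ω ∈ B ↔ ω' ∈ B)) :
    (disorder ν) (A ∩ B) = (disorder ν) A * (disorder ν) B := by
  have h := real_inter ν hst hA hB hAs hBt
  simp only [measureReal_def, ← ENNReal.toReal_mul] at h
  exact (ENNReal.toReal_eq_toReal_iff' (measure_ne_top _ _)
    (ENNReal.mul_ne_top (measure_ne_top _ _) (measure_ne_top _ _))).1 h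

/-- the weights `w_n = -2λ(ω_n + h)` -/
noncomputable def wt (lam h : ℝ) (ω : ℕ → ℝ) : ℕ → ℝ := fun n => -2 * lam * (ω n + h)

/-- block sums -/
noncomputable def Yb (w : ℕ → ℝ) (L : ℕ) (k : ℕ) : ℝ := S w (k * L) ((k + 1) * L)

theorem S_Yb (w : ℕ → ℝ) (L : ℕ) (n d : ℕ) :
    S (Yb w L) n (n + d) = S w ((n + 1) * L) ((n + d + 1) * L) := by
  induction d with
  | zero => simp [S]
  | succ d ih =>
    rw [S_succ, ih]
    unfold Yb
    rw [show n + (d + 1) + 1 = n + d + 1 + 1 by ring]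
    exact (S_add w (Nat.mul_le_mul_right _ (by omega)) (Nat.mul_le_mul_right _ (by omega))).symm

theorem Yb_meas (lam h : ℝ) (L k : ℕ) : Measurable (fun ω => Yb (wt lam h ω) L k) := by
  unfold Yb S wt
  refine Finset.measurable_fun_sum _ fun n _ => ?_
  have h1 : Measurable (fun ω : ℕ → ℝ => ω n) := measurable_pi_apply n
  exact (h1.add_const h).const_mul _

theorem Yb_dep (lam h : ℝ) (L k : ℕ) {ω ω' : ℕ → ℝ}
    (hh : ∀ n ∈ Finset.Ioc (k * L) ((k + 1) * L), ω n = ω' n) :
    Yb (wt lam h ω) L k = Yb (wt lam h ω') L k := by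
  unfold Yb
  apply S_dep subset_rfl
  intro n hn
  unfold wt
  rw [hh n hn]

theorem Yb_shift (lam h : ℝ) (L k : ℕ) (ω : ℕ → ℝ) :
    Yb (wt lam h ω) L k = Yb (wt lam h (fun n => ω (n + k * L))) L 0 := by
  have h1 := (M_loc.J_loc).2.2.1 (wt lam h ω) (k * L) 0 L
  unfold Yb
  rw [Nat.zero_mul, Nat.zero_add, Nat.one_mul]
  have e : (fun n => wt lam h ω (n + k * L)) = wt lam h (fun n => ω (n + k * L)) := rfl
  rw [e, Nat.zero_add] at h1
  rw [h1]
  congr 1
  ring

theorem Yb_map (ν : Measure ℝ) [IsProbabilityMeasure ν] (lam h : ℝ) (L k : ℕ) :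
    (disorder ν).map (fun ω => Yb (wt lam h ω) L k) =
      (disorder ν).map (fun ω => Yb (wt lam h ω) L 0) := by
  have hs := M_stat.J_stat ν (k * L)
  have e : (fun ω => Yb (wt lam h ω) L k) =
      (fun ω => Yb (wt lam h ω) L 0) ∘ (fun (ω : ℕ → ℝ) (n : ℕ) => ω (n + k * L)) := by
    funext ω
    exact Yb_shift lam h L k ω
  rw [e, ← Measure.map_map (Yb_meas _ _ _ _) hs.measurable, hs.map_eq]

theorem block_disjoint (L : ℕ) {i j : ℕ} (hij : i ≠ j) :
    Disjoint (Finset.Ioc (i * L) ((i + 1) * L)) (Finset.Ioc (j * L) ((j + 1) * L)) := by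
  rcases Nat.lt_or_gt_of_ne hij with h | h
  · exact Finset.Ioc_disjoint_Ioc_of_le (Nat.mul_le_mul_right L h)
  · exact (Finset.Ioc_disjoint_Ioc_of_le (Nat.mul_le_mul_right L h)).symm

theorem blocks_inter (ν : Measure ℝ) [IsProbabilityMeasure ν] (lam h : ℝ) (L : ℕ) {N : ℕ}
    (T : Finset (Fin N)) (B : Fin N → Set ℝ) (hB : ∀ k, MeasurableSet (B k)) :
    (disorder ν) (⋂ k ∈ T, (fun ω => Yb (wt lam h ω) L k) ⁻¹' B k) =
      ∏ k ∈ T, (disorder ν) ((fun ω => Yb (wt lam h ω) L k) ⁻¹' B k) := by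
  classical
  induction T using Finset.induction_on with
  | empty => simp
  | insert k T hk ih =>
    rw [Finset.prod_insert hk, ← ih, Finset.set_biInter_insert]
    refine meas_inter ν (s := Finset.Ioc ((k : ℕ) * L) (((k : ℕ) + 1) * L))
      (t := T.biUnion fun i => Finset.Ioc ((i : ℕ) * L) (((i : ℕ) + 1) * L)) ?_ ?_ ?_ ?_ ?_
    · rw [Finset.disjoint_biUnion_right]
      intro i hi
      apply block_disjoint
      intro heq
      exact hk (by rw [Fin.ext heq]; exact hi)
    · exact (Yb_meas _ _ _ _) (hB k)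
    · exact T.measurableSet_biInter fun i _ => (Yb_meas _ _ _ _) (hB i)
    · intro ω ω' hh
      simp only [Set.mem_preimage]
      rw [Yb_dep lam h L k hh]
    · intro ω ω' hh
      simp only [Set.mem_iInter, Set.mem_preimage]
      have : ∀ i ∈ T, Yb (wt lam h ω) L (i : ℕ) = Yb (wt lam h ω') L (i : ℕ) := by
        intro i hi
        apply Yb_dep
        intro n hn
        exact hh n (Finset.mem_biUnion.2 ⟨i, hi, hn⟩)
      constructor
      · intro h1 i hi
        rw [← this i hi]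
        exact h1 i hi
      · intro h1 i hi
        rw [this i hi]
        exact h1 i hi

theorem blocks_pi (ν : Measure ℝ) [IsProbabilityMeasure ν] (lam h : ℝ) (L N : ℕ) :
    (disorder ν).map (fun ω (k : Fin N) => Yb (wt lam h ω) L (k : ℕ)) =
      Measure.pi (fun _ : Fin N => (disorder ν).map (fun ω => Yb (wt lam h ω) L 0)) := by
  have hI : iIndepFun (fun (k : Fin N) (ω : ℕ → ℝ) => Yb (wt lam h ω) L (k : ℕ)) (disorder ν) := by
    rw [iIndepFun_iff_measure_inter_preimage_eq_mul]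
    intro T B hB
    classical
    have h1 := blocks_inter ν lam h L T (fun k => if k ∈ T then B k else ∅) (fun k => by
      by_cases hk : k ∈ T
      · simp only [hk, if_true]; exact hB k hk
      · simp only [hk, if_false]; exact MeasurableSet.empty)
    have e1 : (⋂ k ∈ T, (fun ω => Yb (wt lam h ω) L (k : ℕ)) ⁻¹' (if k ∈ T then B k else ∅)) =
        ⋂ k ∈ T, (fun ω => Yb (wt lam h ω) L (k : ℕ)) ⁻¹' B k := by
      refine Set.iInter₂_congr fun k hk => ?_
      rw [if_pos hk]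
    have e2 : ∏ k ∈ T, (disorder ν) ((fun ω => Yb (wt lam h ω) L (k : ℕ)) ⁻¹'
        (if k ∈ T then B k else ∅)) =
        ∏ k ∈ T, (disorder ν) ((fun ω => Yb (wt lam h ω) L (k : ℕ)) ⁻¹' B k) := by
      refine Finset.prod_congr rfl fun k hk => ?_
      rw [if_pos hk]
    rw [e1, e2] at h1
    exact h1
  have h2 := hI.map_fun_eq_pi_map (fun k : Fin N => (Yb_meas lam h L (k : ℕ)).aemeasurable)
  rw [h2]
  congr 1
  funext k
  exact Yb_map ν lam h L k

end Pool.Agent.TH983
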